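import Pool.Agent.Lib.MP_1df8f0_an.K.Sm
import Pool.Agent.Lib.MP_1df8f0_an.K.Once

open MeasureTheory Finset

noncomputable section

namespace Pool.Agent.Lib.MP_1df8f0_an.K

theorem BF_inj {n : ℕ} (D : ℕ → Op n) (h : ∀ i, Function.Injective (D i)) (M : ℕ) :
    Function.Injective (prd D M) := by
  induction M with
  | zero => exact fun _ _ h => h
  | succ M ih => exact (h M).comp ih

theorem BF_core (h1 : StVol) (h2 : StN) (h3 : StTrv) {n : ℕ} (d : ℕ) (D : ℕ → Op n) (M : ℕ)
    (hd : d ≤ n) (hD : ∀ i, Function.Injective (D i)) :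
    ∃ I : Fin d → Fin n, Function.Injective I ∧ ∃ r : ℕ → ℝ, (∀ i, 0 < r i) ∧
      (∀ i, 1 ≤ Nk d (D i) * r i) ∧ (∀ i, 0 < Nk d (D i)) ∧
      (∀ i, alp D (ev I) i = Lo d (D i) * r i) ∧ (∀ i, sgm D (ev I) i = Nk d (D i) * r i) ∧
      0 < Nk d (prd D M) ∧
      ∑ i ∈ range M, Real.log (r i) ≤ n * Real.log (n + 1) - Real.log (Nk d (prd D M)) := by
  obtain ⟨hP, I, hI, hle⟩ := h2.frame d (prd D M) hd (BF_inj D hD M)
  have v0 : vol (ev I) = 1 := h1.on _ (h1.evon I hI)
  have vp : ∀ i, 0 < vol (frm D (ev I) i) := h3.frm_pos D _ hD (by rw [v0]; exact one_pos)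
  refine ⟨I, hI, fun i => vol (frm D (ev I) i) / vol (frm D (ev I) (i + 1)),
    fun i => div_pos (vp i) (vp _), fun i => ?_, fun i => (h2.frame d (D i) hd (hD i)).1,
    fun i => mul_div_assoc _ _ _, fun i => mul_div_assoc _ _ _, hP, ?_⟩
  · rw [← mul_div_assoc, le_div_iff₀ (vp _), one_mul]
    exact h2.le (D i) _
  · have tel : ∀ m, ∑ i ∈ range m, Real.log (vol (frm D (ev I) i) / vol (frm D (ev I) (i + 1))) =
        - Real.log (vol (frm D (ev I) m)) := by
      intro m
      induction m with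
      | zero => simp [frm, v0]
      | succ m ih => rw [sum_range_succ, ih, Real.log_div (vp _).ne' (vp _).ne']; ring
    rw [tel]
    rw [← h3.frm_prd] at hle
    have a1 : (n : ℝ) ^ d ≤ ((n : ℝ) + 1) ^ n :=
      (pow_le_pow_left₀ (by positivity) (by linarith) d).trans
        (pow_le_pow_right₀ (by linarith [Nat.cast_nonneg (α := ℝ) n]) hd)
    have a2 := Real.log_le_log hP (hle.trans (mul_le_mul_of_nonneg_right a1 (vp M).le))
    rw [Real.log_mul (by positivity) (vp M).ne', Real.log_pow] at a2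
    linarith

open Classical in
theorem BF_pliss (s : ℕ → ℝ) (hs : ∀ i, 0 ≤ s i) (c : ℝ) (hc : 0 < c) (M : ℕ) :
    (((range (M + 1)).filter fun N => ∃ i ≤ N, c * ((N - i : ℕ) : ℝ) < ∑ j ∈ Ico i N, s j).card : ℝ)
      * c ≤ ∑ j ∈ range M, s j := by
  induction M using Nat.strong_induction_on with
  | _ M ih =>
    by_cases h : ∃ i ≤ M, c * ((M - i : ℕ) : ℝ) < ∑ j ∈ Ico i M, s j
    · obtain ⟨i, hi, hlt⟩ := h
      have hiM : i < M := by
        rcases Nat.eq_or_lt_of_le hi with h | h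
        · subst h; simp at hlt
        · exact h
      have h1 := ih i hiM
      have h2 : ((range (M + 1)).filter fun N =>
          ∃ i ≤ N, c * ((N - i : ℕ) : ℝ) < ∑ j ∈ Ico i N, s j).card ≤
          ((range (i + 1)).filter fun N =>
            ∃ i ≤ N, c * ((N - i : ℕ) : ℝ) < ∑ j ∈ Ico i N, s j).card + (M - i) := by
        have : (Ico (i + 1) (M + 1)).card = M - i := by simp
        rw [← this]
        refine le_trans (card_le_card ?_) (card_union_le _ _)
        intro N hN
        simp only [mem_filter, mem_range, mem_union, mem_Ico] at hN ⊢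
        by_cases hNi : N < i + 1
        · exact Or.inl ⟨hNi, hN.2⟩
        · exact Or.inr ⟨by omega, hN.1⟩
      have h3 := mul_le_mul_of_nonneg_right ((Nat.cast_le (α := ℝ)).mpr h2) hc.le
      rw [Nat.cast_add] at h3
      rw [← sum_range_add_sum_Ico s hi]
      nlinarith
    · rw [range_add_one, filter_insert, if_neg h]
      rcases M with _ | M
      · simp
      · rw [sum_range_succ]
        exact (ih M (by omega)).trans (by linarith [hs M])

theorem BF_prod_le (a s : ℕ → ℝ) (t : ℝ) (h0 : ∀ j, 0 ≤ a j) (h : ∀ j, a j ≤ Real.exp (s j + t))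
    (i N : ℕ) : ∏ j ∈ Ico i N, a j ≤ Real.exp (∑ j ∈ Ico i N, s j + t * ((N - i : ℕ) : ℝ)) := by
  refine (prod_le_prod (fun j _ => h0 j) (fun j _ => h j)).trans (le_of_eq ?_)
  rw [← Real.exp_sum, sum_add_distrib]
  simp [mul_comm]

theorem BF_exp {A B r : ℝ} (hA : 0 < A) (hB : 0 < B) (hr : 0 < r) :
    Real.exp (Real.log A + Real.log B + 2 * Real.log r) = A * B * r ^ 2 := by
  rw [Real.exp_add, Real.exp_add, Real.exp_log hA, Real.exp_log hB, two_mul, Real.exp_add,
    Real.exp_log hr]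
  ring

theorem BF_bwd (h1 : StVol) (h2 : StN) (h3 : StTrv) : StBwd := by
  intro n d D M x y hd hD hx hF hy
  classical
  obtain ⟨I, hI, r, r0, r1, n0, ea, es, hP, hsum⟩ := BF_core h1 h2 h3 d D M hd hD
  refine ⟨I, hI, ?_⟩
  set s : ℕ → ℝ := fun i => fU d x (D i) + 2 * Real.log (r i) with hs
  have ex : ∀ i, Real.exp (s i) =
      max (Lo d (D i) * Real.exp x) (Nk d (D i)) * Nk d (D i) * r i ^ 2 :=
    fun i => BF_exp (lt_max_of_lt_right (n0 i)) (n0 i) (r0 i)
  have sg : ∀ i, sgm D (ev I) i ^ 2 ≤ Real.exp (s i + 0) := by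
    intro i
    rw [add_zero, ex, es, mul_pow, pow_two (Nk d (D i))]
    exact mul_le_mul_of_nonneg_right
      (mul_le_mul_of_nonneg_right (le_max_right _ _) (n0 i).le) (by positivity)
  have s0 : ∀ i, 0 ≤ s i := by
    intro i
    have := sg i
    rw [add_zero, es] at this
    exact Real.one_le_exp_iff.mp ((one_le_pow₀ (r1 i)).trans this)
  have al : ∀ i, alp D (ev I) i ≤ Real.exp (s i + -x) := by
    intro i
    rw [Real.exp_add, Real.exp_neg, ← div_eq_mul_inv, le_div_iff₀ (Real.exp_pos x), ex, ea]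
    have a1 := le_max_left (Lo d (D i) * Real.exp x) (Nk d (D i))
    have a2 : 0 < max (Lo d (D i) * Real.exp x) (Nk d (D i)) := lt_max_of_lt_right (n0 i)
    generalize max (Lo d (D i) * Real.exp x) (Nk d (D i)) = m at *
    have a3 := mul_le_mul_of_nonneg_right a1 (r0 i).le
    have a4 := mul_le_mul_of_nonneg_left (r1 i) (mul_pos a2 (r0 i)).le
    nlinarith
  have tot : ∑ i ∈ range M, s i ≤ y + 2 * n * Real.log (n + 1) := by
    have : fU d (x * M) (prd D M) = 2 * Real.log (Nk d (prd D M)) := by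
      unfold fU
      rw [max_eq_right hF]
      ring
    rw [hs, sum_add_distrib, ← mul_sum]
    linarith
  rw [le_div_iff₀ (by linarith)]
  refine le_trans (mul_le_mul_of_nonneg_right (Nat.cast_le.mpr (card_le_card ?_)) (by linarith))
    ((BF_pliss s s0 (x / 2) (by linarith) M).trans tot)
  intro N hN
  simp only [mem_filter] at hN ⊢
  refine ⟨hN.1, ?_⟩
  by_contra hc
  push Not at hc
  apply hN.2
  intro i hi
  have b := hc i hi
  rw [← Real.exp_nat_mul]
  constructor
  · refine (BF_prod_le _ s (-x) (h3.alp_nonneg D _) al i N).trans ?_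
    rw [one_mul]
    exact Real.exp_le_exp.mpr (by linarith)
  · refine (mul_le_mul_of_nonneg_left (BF_prod_le _ s 0 (fun _ => sq_nonneg _) sg i N)
      (Real.exp_pos _).le).trans ?_
    rw [← Real.exp_add]
    exact Real.exp_le_one_iff.mpr (by linarith)

theorem BF_fwd (h1 : StVol) (h2 : StN) (h3 : StTrv) : StFwd := by
  intro n d D M x y hd hD hx hF hy
  classical
  obtain ⟨I, hI, r, r0, r1, n0, ea, es, hP, hsum⟩ := BF_core h1 h2 h3 d D M hd hD
  refine ⟨I, hI, ?_⟩
  set s : ℕ → ℝ := fun i => fW d x (D i) + 2 * Real.log (r i) - x with hs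
  have m0 : ∀ i, 0 < max (Nk d (D i) * Real.exp x) (Lo d (D i)) :=
    fun i => lt_max_of_lt_left (mul_pos (n0 i) (Real.exp_pos x))
  have ex : ∀ i, Real.exp (s i + x) =
      max (Nk d (D i) * Real.exp x) (Lo d (D i)) * Nk d (D i) * r i ^ 2 := by
    intro i
    rw [← BF_exp (m0 i) (n0 i) (r0 i)]
    simp only [hs, fW, sub_add_cancel]
  have sg : ∀ i, sgm D (ev I) i ^ 2 ≤ Real.exp (s i + 0) := by
    intro i
    refine le_of_mul_le_mul_right ?_ (Real.exp_pos x)
    rw [add_zero, ← Real.exp_add, ex, es]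
    have := mul_le_mul_of_nonneg_right (mul_le_mul_of_nonneg_right
      (le_max_left (Nk d (D i) * Real.exp x) (Lo d (D i))) (n0 i).le) (sq_nonneg (r i))
    refine le_trans (le_of_eq ?_) this
    ring
  have s0 : ∀ i, 0 ≤ s i := by
    intro i
    have := sg i
    rw [add_zero, es] at this
    exact Real.one_le_exp_iff.mp ((one_le_pow₀ (r1 i)).trans this)
  have al : ∀ i, alp D (ev I) i ≤ Real.exp (s i + x) := by
    intro i
    rw [ex, ea]
    have a1 := le_max_right (Nk d (D i) * Real.exp x) (Lo d (D i))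
    have a2 := m0 i
    generalize max (Nk d (D i) * Real.exp x) (Lo d (D i)) = m at *
    have a3 := mul_le_mul_of_nonneg_right a1 (r0 i).le
    have a4 := mul_le_mul_of_nonneg_left (r1 i) (mul_pos a2 (r0 i)).le
    nlinarith
  have tot : ∑ i ∈ range M, s i ≤ y + 2 * n * Real.log (n + 1) := by
    have : fW d (x * M) (prd D M) = 2 * Real.log (Nk d (prd D M)) + x * M := by
      unfold fW
      rw [max_eq_left hF, Real.log_mul hP.ne' (Real.exp_pos _).ne', Real.log_exp]
      ring
    rw [hs, sum_sub_distrib, sum_add_distrib, ← mul_sum, sum_const, card_range, nsmul_eq_mul]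
    linarith
  refine ⟨fun N hN i hi => ?_, fun z hz => ?_⟩
  · have b1 : ∑ j ∈ Ico i N, s j ≤ ∑ j ∈ range M, s j :=
      sum_le_sum_of_subset_of_nonneg (fun j hj => by
        simp only [mem_Ico, mem_range] at hj ⊢; omega) (fun j _ _ => s0 j)
    have b2 : x * ((N - i : ℕ) : ℝ) ≤ x * M :=
      mul_le_mul_of_nonneg_left (Nat.cast_le.mpr (by omega)) hx
    have b3 : 0 ≤ x * M := by positivity
    rw [one_pow, mul_one, one_mul]
    exact ⟨(BF_prod_le _ s x (h3.alp_nonneg D _) al i N).trans (Real.exp_le_exp.mpr (by linarith)),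
      (BF_prod_le _ s 0 (fun _ => sq_nonneg _) sg i N).trans (Real.exp_le_exp.mpr (by linarith))⟩
  · rw [le_div_iff₀ hz]
    refine le_trans ?_ tot
    rw [← nsmul_eq_mul, ← sum_const]
    refine le_trans (sum_le_sum (fun i hi => ?_))
      (sum_le_sum_of_subset_of_nonneg (filter_subset _ _) (fun j _ _ => s0 j))
    have := Real.exp_lt_exp.mp ((mem_filter.mp hi).2.trans_le (al i))
    linarith

theorem BF_thm (h1 : StVol) (h2 : StN) (h3 : StTrv) : StBwd ∧ StFwd :=
  ⟨BF_bwd h1 h2 h3, BF_fwd h1 h2 h3⟩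

end Pool.Agent.Lib.MP_1df8f0_an.K
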