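import Pool.Agent.Lib.MP_1df8f0_an.K.Sy

/-!
Every level of the designed tower is a band.
-/

open MeasureTheory Finset Filter Topology
open scoped ENNReal

noncomputable section

namespace Pool.Agent.Lib.MP_1df8f0_an.K

theorem Band_shift {α : Type} {s h : ℕ} {θ γ : ℝ} (hs : 0 < s) (w : ℕ → List α)
    (H : XInv (fun I : Fin s => w I) h θ γ) (ρ : ℕ) :
    XInv (fun a : Fin s => w ((a + ρ) % s)) h θ γ := by
  have : NeZero s := ⟨hs.ne'⟩
  have key : ∀ a : Fin s,
      (((Equiv.addRight (⟨ρ % s, Nat.mod_lt _ hs⟩ : Fin s)) a : Fin s) : ℕ) = (a + ρ) % s := by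
    intro a
    simp [Fin.val_add]
  refine ⟨fun a => ?_, fun y => ?_⟩
  · have := H.1 ((Equiv.addRight (⟨ρ % s, Nat.mod_lt _ hs⟩ : Fin s)) a)
    simp only [key] at this
    exact this
  · refine le_trans (le_of_eq ?_) (H.2 y)
    rw [← Equiv.sum_comp (Equiv.addRight (⟨ρ % s, Nat.mod_lt _ hs⟩ : Fin s))
      fun a : Fin s => Real.exp (-(θ * ed (w a) y))]
    simp only [key]

open Classical in
theorem Band_markov {Ω α : Type} [Fintype Ω] (W : Ω → List α) {H : ℕ} {θ γ : ℝ} (hθ : 0 < θ)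
    (hγ : 1 / 2 ≤ γ) (hW : XInv W H θ γ) (y : List α) (Ev : ℝ) :
    ∑ ω, (if (ed (W ω) y : ℝ) ≤ Ev then (1 : ℝ) else 0) ≤
      Fintype.card Ω * Real.exp (θ * (Ev - H / 2)) := by
  have h1 : ∀ ω, (if (ed (W ω) y : ℝ) ≤ Ev then (1 : ℝ) else 0) ≤
      Real.exp (θ * Ev) * Real.exp (-(θ * ed (W ω) y)) := by
    intro ω
    split_ifs with hω
    · rw [← Real.exp_add]
      refine Real.one_le_exp ?_
      have := mul_le_mul_of_nonneg_left hω hθ.le
      linarith
    · positivity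
  have h2 : Real.exp (θ * Ev) * Real.exp (-(θ * γ * (H + y.length))) ≤
      Real.exp (θ * (Ev - H / 2)) := by
    rw [← Real.exp_add]
    refine Real.exp_le_exp.2 ?_
    have hH : (0 : ℝ) ≤ H := Nat.cast_nonneg _
    have hy : (0 : ℝ) ≤ y.length := Nat.cast_nonneg _
    have h3 : (H : ℝ) / 2 ≤ γ * (H + y.length) := by nlinarith
    have h4 := mul_le_mul_of_nonneg_left h3 hθ.le
    nlinarith
  calc ∑ ω, (if (ed (W ω) y : ℝ) ≤ Ev then (1 : ℝ) else 0)
      ≤ ∑ ω, Real.exp (θ * Ev) * Real.exp (-(θ * ed (W ω) y)) := sum_le_sum fun ω _ => h1 ω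
    _ = Real.exp (θ * Ev) * ∑ ω, Real.exp (-(θ * ed (W ω) y)) := (mul_sum _ _ _).symm
    _ ≤ Real.exp (θ * Ev) * (Fintype.card Ω * Real.exp (-(θ * γ * (H + y.length)))) :=
        mul_le_mul_of_nonneg_left (hW.2 y) (Real.exp_pos _).le
    _ = Fintype.card Ω * (Real.exp (θ * Ev) * Real.exp (-(θ * γ * (H + y.length)))) := by ring
    _ ≤ _ := mul_le_mul_of_nonneg_left h2 (Nat.cast_nonneg _)

theorem Band_var_lt {J Kp k u j : ℕ} (hk : k + u < Kp) (hj : j < J) :
    J * (k + u) + j < J * Kp := by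
  calc J * (k + u) + j < J * (k + u) + J := by omega
    _ = J * (k + u + 1) := by ring
    _ ≤ J * Kp := Nat.mul_le_mul_left _ hk

theorem Band_var_inj {J k u j u' j' : ℕ} (hj : j < J) (hj' : j' < J)
    (h : J * (k + u) + j = J * (k + u') + j') : u = u' ∧ j = j' := by
  have h1 : (J * (k + u) + j) % J = (J * (k + u') + j') % J := by rw [h]
  rw [Nat.mul_add_mod, Nat.mul_add_mod, Nat.mod_eq_of_lt hj, Nat.mod_eq_of_lt hj'] at h1
  subst h1
  have h2 : J * (k + u) = J * (k + u') := Nat.add_right_cancel h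
  have h3 := Nat.eq_of_mul_eq_mul_left (by omega) h2
  exact ⟨by omega, rfl⟩

/-- The string of the original slots in terms of digits. -/
def Band_W {α : Type} (w : ℕ → List α) (s J k ρ : ℕ) (L : List (ℕ × ℕ)) (I : ℕ) : List α :=
  (L.map fun q => w ((I / s ^ (J * (k + q.1) + q.2) % s + ρ) % s)).flatten

open Classical in
theorem Band_count (h1 : StM2) (h2 : StDes) {α : Type} {s h J Kp : ℕ} {θ γ : ℝ} (hs : 0 < s)
    (hJK : 0 < J * Kp) (w : ℕ → List α) (H : XInv (fun I : Fin s => w I) h θ γ) (hθ : 0 < θ)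
    (hγ : γ ≤ 1) (hγ' : 11 / 20 ≤ γ) (hth : 1 ≤ (θ / 20) ^ 2 * h) (k ρ : ℕ) (L : List (ℕ × ℕ))
    (hL : L.Nodup) (hq : ∀ q ∈ L, k + q.1 < Kp ∧ q.2 < J) (y : List α) (Ev : ℝ) :
    ∑ I ∈ range (s ^ (J * Kp)), (if (ed (Band_W w s J k ρ L I) y : ℝ) ≤ Ev then (1 : ℝ) else 0) ≤
      (s ^ (J * Kp) : ℕ) * Real.exp (θ * (Ev - L.length * h / 2)) := by
  have : Nonempty (Fin s) := ⟨⟨0, hs⟩⟩
  let v : ℕ × ℕ → Fin (J * Kp) := fun q =>
    ⟨(J * (k + q.1) + q.2) % (J * Kp), Nat.mod_lt _ hJK⟩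
  have hv : ∀ q ∈ L, (v q : ℕ) = J * (k + q.1) + q.2 := fun q hq' =>
    Nat.mod_eq_of_lt (Band_var_lt (hq q hq').1 (hq q hq').2)
  let x : Fin s → List α := fun a => w ((a + ρ) % s)
  have hnd : (L.map v).Nodup := by
    refine hL.map_on fun q hq1 q' hq2 he => ?_
    have h3 : (v q : ℕ) = v q' := by rw [he]
    rw [hv q hq1, hv q' hq2] at h3
    have h4 := Band_var_inj (hq q hq1).2 (hq q' hq2).2 h3
    exact Prod.ext h4.1 h4.2
  have hM := h1 (L.map fun q => (v q, x)) h 1 θ γ (1 / 20) le_rfl hθ (by norm_num) hγ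
    (by
      have : θ * (1 / 20) / ((1 : ℕ) : ℝ) = θ / 20 := by
        rw [Nat.cast_one]
        ring
      rw [this]
      exact hth)
    (by
      intro a
      rw [List.map_map]
      exact List.nodup_iff_count_le_one.1 hnd a)
    (by
      intro l hl
      obtain ⟨q, _, rfl⟩ := List.mem_map.1 hl
      exact Band_shift hs w H ρ)
  rw [Nat.cast_one, div_one, List.length_map] at hM
  have hK := Band_markov _ hθ (by linarith) hM y Ev
  rw [Fintype.card_fun, Fintype.card_fin, Fintype.card_fin, Nat.cast_mul] at hK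
  refine le_trans (le_of_eq ?_) hK
  refine h2.digits s (J * Kp) _ _ fun I ω _ hω => ?_
  have h5 : Band_W w s J k ρ L I =
      ((L.map fun q => (v q, x)).map fun l => l.2 (ω l.1)).flatten := by
    unfold Band_W
    rw [List.map_map]
    congr 1
    refine List.map_congr_left fun q hq' => ?_
    show _ = w ((ω (v q) + ρ) % s)
    rw [hω, hv q hq']
  rw [h5]

open Classical in
theorem Band_meas {X : Type} [MeasurableSpace X] {μ : Measure X} [IsProbabilityMeasure μ]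
    {T : X → X} {c : ℕ → X → ℕ × ℕ} {P : Params} (H : IsTower P μ T c) (k : ℕ)
    (hs : 0 < P.s k) (hh : 0 < P.h k) (f : ℕ × ℕ → Prop) (S : Set X) (B : ℝ)
    (hS : ∀ᵐ x ∂μ, x ∈ S → f (c k x))
    (hB : ∀ p, p < P.h k →
      ∑ I ∈ range (P.s k), (if f (I, p) then (1 : ℝ) else 0) ≤ P.s k * B) :
    μ.real S ≤ B := by
  set F : Finset (ℕ × ℕ) := (range (P.s k) ×ˢ range (P.h k)).filter f with hF
  have h1 : S ≤ᵐ[μ] ⋃ z ∈ F, c k ⁻¹' {z} := by
    filter_upwards [hS, H.mem k] with x hx hm hxS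
    refine Set.mem_iUnion₂.2 ⟨c k x, ?_, rfl⟩
    exact mem_filter.2 ⟨mem_product.2 ⟨mem_range.2 hm.1, mem_range.2 hm.2⟩, hx hxS⟩
  have hpos : (0 : ℝ) < (P.s k : ℝ) * P.h k := by positivity
  have h2 : ∀ z ∈ F, μ.real (c k ⁻¹' {z}) = ((P.s k : ℝ) * P.h k)⁻¹ := by
    intro z hz
    have h3 := mem_product.1 (mem_filter.1 hz).1
    have h4 := H.unif k z.1 z.2 (mem_range.1 h3.1) (mem_range.1 h3.2)
    rw [Measure.real, show z = (z.1, z.2) from rfl, h4, ENNReal.toReal_inv,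
      ENNReal.toReal_natCast, Nat.cast_mul]
  have h5 : (F.card : ℝ) ≤ P.h k * (P.s k * B) := by
    calc (F.card : ℝ) = ∑ z ∈ range (P.s k) ×ˢ range (P.h k), if f z then (1 : ℝ) else 0 := by
          rw [hF, natCast_card_filter]
      _ = ∑ p ∈ range (P.h k), ∑ I ∈ range (P.s k), if f (I, p) then (1 : ℝ) else 0 :=
          sum_product_right _ _ _
      _ ≤ ∑ p ∈ range (P.h k), P.s k * B := sum_le_sum fun p hp => hB p (mem_range.1 hp)
      _ = _ := by rw [sum_const, card_range, nsmul_eq_mul]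
  calc μ.real S ≤ μ.real (⋃ z ∈ F, c k ⁻¹' {z}) :=
        ENNReal.toReal_mono (measure_ne_top _ _) (measure_mono_ae h1)
    _ ≤ ∑ z ∈ F, μ.real (c k ⁻¹' {z}) := measureReal_biUnion_finset_le _ _
    _ = F.card * ((P.s k : ℝ) * P.h k)⁻¹ := by
        rw [sum_congr rfl h2, sum_const, nsmul_eq_mul]
    _ ≤ P.h k * (P.s k * B) * ((P.s k : ℝ) * P.h k)⁻¹ :=
        mul_le_mul_of_nonneg_right h5 (inv_nonneg.2 hpos.le)
    _ = B := by field_simp

theorem Band_thm (h1 : StM2) (h2 : StDes) (h3 : StInv) (h4 : StBandA) : StBand := by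
  intro X α _ μ _ T c P Θ J Kp e hD H he b
  classical
  have N := h2.num P Θ J Kp hD
  obtain ⟨hO, hsm, hcp⟩ := h4 μ T c P Θ J Kp e hD H b
  have hpos : ∀ k, 0 < P.h k := by
    intro k
    refine Nat.pos_of_ne_zero fun h0 => ?_
    have := N.th k
    rw [h0, Nat.cast_zero, mul_zero] at this
    exact absurd this (by norm_num)
  refine ⟨(measurable_of_countable (oF (P.h b) (J b))).comp (H.meas _),
    (measurable_of_countable (clsF (P.h b) (J b))).comp (H.meas _),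
    H.meas _ (MeasurableSet.of_discrete), fun x => Nat.sub_le _ _, hsm, hcp, ?_⟩
  intro L hL hq y Ev
  have hΘ : (1 : ℝ) ≤ Θ b := by exact_mod_cast N.t1 b
  have h2b : (1 : ℝ) ≤ 2 ^ b := one_le_pow₀ (by norm_num)
  have hθ : (0 : ℝ) < 64 / Θ b := by positivity
  have hγ0 : (0 : ℝ) ≤ 1 / (4 * 2 ^ b) := by positivity
  have hγ1 : (1 : ℝ) / (4 * 2 ^ b) ≤ 1 / 4 :=
    one_div_le_one_div_of_le (by norm_num) (by linarith)
  have hth : 1 ≤ ((64 : ℝ) / Θ b / 20) ^ 2 * P.h b := by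
    refine (N.th b).trans (mul_le_mul_of_nonneg_right ?_ (Nat.cast_nonneg _))
    refine pow_le_pow_left₀ (by positivity) ?_ 2
    rw [div_div, div_le_div_iff₀ (by positivity) (by positivity)]
    nlinarith
  have hs : ∀ k, 0 < P.s k := fun k => lt_of_lt_of_le (by norm_num) (N.s2 k)
  have hJ : 1 ≤ J b := le_trans (by norm_num) (N.j2 b)
  have hKp : 0 < Kp b := lt_of_lt_of_le (by positivity) (N.k1 b)
  refine Band_meas H (b + 1) (hs _) (hpos _)
    (fun z => z ∈ RGF (P.h b) (J b) (Kp b) ∧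
      (ed (Band_W (P.word e b) (P.s b) (J b) (z.2 / (2 * J b * P.h b) % Kp b + 1)
        (z.2 / (P.m b * P.h b)) L z.1) y : ℝ) ≤ Ev) _ _ ?_ ?_
  · filter_upwards [hO] with x hx hxS
    refine ⟨hxS.1, le_trans (le_of_eq ?_) hxS.2⟩
    congr 2
    unfold Band_W orig
    congr 1
    exact List.map_congr_left fun q hq' => (hx hxS.1 q.1 q.2 (hq q hq').1 (hq q hq').2).symm
  · intro p _
    by_cases hp : p / (2 * J b * P.h b) % Kp b + 1 + J b ^ (2 * J b + 3) ≤ Kp b
    · have h5 := Band_count h1 h2 (Kp := Kp b) (hs b) (Nat.mul_pos hJ hKp) (P.word e b)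
        (h3 P Θ J Kp e hD he b) hθ (by linarith) (by linarith) hth
        (p / (2 * J b * P.h b) % Kp b + 1) (p / (P.m b * P.h b)) L hL
        (fun q hq' => ⟨lt_of_lt_of_le (Nat.add_lt_add_left (lt_of_lt_of_le (hq q hq').1
          (Nat.pow_le_pow_right hJ (Nat.le_succ _))) _) hp, (hq q hq').2⟩) y Ev
      rw [← hD.sS b] at h5
      refine le_trans (sum_le_sum fun I _ => ?_) h5
      split_ifs with g1 g2
      · exact le_rfl
      · exact absurd g1.2 g2
      · exact zero_le_one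
      · exact le_rfl
    · refine le_trans (le_of_eq (sum_eq_zero fun I _ => if_neg fun g => hp g.1)) ?_
      positivity

end Pool.Agent.Lib.MP_1df8f0_an.K
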