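import Pool.Agent.Lib.MP_1df8f0_an.K.Sm

/-!
Change of variables and the volume of a ball.
-/

open MeasureTheory Finset
open scoped ENNReal

noncomputable section

namespace Pool.Agent.Lib.MP_1df8f0_an.K

lemma CV_equiv {n : ℕ} {ι : Type} [Fintype ι] [DecidableEq ι] (h : Fintype.card ι = n) :
    ∃ L : (ι → ℝ) ≃L[ℝ] E n, MeasurePreserving L volume volume ∧
      Orthonormal ℝ fun i => L (Pi.single i 1) := by
  let σ : ι ≃ Fin n := Fintype.equivFinOfCardEq h
  refine ⟨(ContinuousLinearEquiv.piCongrLeft ℝ (fun _ => ℝ) σ).trans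
    (PiLp.continuousLinearEquiv 2 ℝ fun _ : Fin n => ℝ).symm,
    (PiLp.volume_preserving_toLp (Fin n)).comp
      (volume_measurePreserving_piCongrLeft (fun _ => ℝ) σ), ?_⟩
  have h1 := (EuclideanSpace.orthonormal_single (𝕜 := ℝ) (ι := Fin n)).comp σ σ.injective
  convert h1 using 1
  funext i
  ext j
  obtain ⟨j, rfl⟩ := σ.surjective j
  change Equiv.piCongrLeft (fun _ => ℝ) σ (Pi.single i 1) (σ j) = _
  rw [Equiv.piCongrLeft_apply_apply]
  simp [Pi.single_apply]

theorem CV_thm (h1 : StVol) : StCV where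
  cv := by
    intro n ι _ _ hn Ψ Ψ' D hD hΨ
    obtain ⟨L, hL, hon⟩ := CV_equiv hn
    have hemb : MeasurableEmbedding L := L.toHomeomorph.measurableEmbedding
    have hs : MeasurableSet (L '' D) := hemb.measurableSet_image.2 hD
    have hf : ∀ y ∈ L '' D, HasFDerivWithinAt (Ψ ∘ L.symm)
        (Ψ' (L.symm y) ∘L (L.symm : E n →L[ℝ] ι → ℝ)) (L '' D) y := by
      rintro _ ⟨p, hp, rfl⟩
      refine HasFDerivWithinAt.comp (L p) (t := D) ?_ L.symm.hasFDerivWithinAt ?_
      · simpa only [L.symm_apply_apply] using hΨ p hp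
      · rintro _ ⟨q, hq, rfl⟩
        simpa only [L.symm_apply_apply] using hq
    have him : (Ψ ∘ L.symm) '' (L '' D) = Ψ '' D := by
      rw [← Set.image_comp]
      refine Set.image_congr fun p _ => ?_
      simp
    have hint : ∫⁻ y in L '' D,
        ENNReal.ofReal |(Ψ' (L.symm y) ∘L (L.symm : E n →L[ℝ] ι → ℝ)).det| =
        ∫⁻ p in D, ENNReal.ofReal (vol fun i => Ψ' p (Pi.single i 1)) := by
      rw [← hL.setLIntegral_comp_emb hemb]
      refine lintegral_congr fun p => ?_
      have h2 := h1.top (Ψ' p ∘L (L.symm : E n →L[ℝ] ι → ℝ)) (fun i => L (Pi.single i 1)) hn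
      rw [h1.on _ hon, mul_one] at h2
      rw [L.symm_apply_apply, ← h2]
      congr 2
      funext i
      simp
    refine ⟨?_, fun hinj => ?_⟩
    · rw [← him, ← hint]
      exact addHaar_image_le_lintegral_abs_det_fderiv volume hs hf
    · rw [← him, ← hint]
      refine (lintegral_abs_det_fderiv_eq_addHaar_image volume hs hf ?_).le
      rintro _ ⟨p, hp, rfl⟩ _ ⟨q, hq, rfl⟩ h
      simp only [Function.comp_apply, L.symm_apply_apply] at h
      rw [hinj hp hq h]
  ball := by
    intro k ρ hρ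
    have hc : 0 ≤ ρ / (k + 1) := by positivity
    rw [← (PiLp.volume_preserving_toLp (Fin k)).measure_preimage
      Metric.isClosed_closedBall.measurableSet.nullMeasurableSet]
    have h2 := Real.volume_pi_closedBall (0 : Fin k → ℝ) hc
    rw [Fintype.card_fin, ← mul_div_assoc] at h2
    rw [← h2]
    refine measure_mono fun u hu => ?_
    rw [mem_closedBall_zero_iff] at hu
    rw [Set.mem_preimage, mem_closedBall_zero_iff, EuclideanSpace.norm_eq, Real.sqrt_le_left hρ]
    have h3 : ∀ i ∈ (Finset.univ : Finset (Fin k)), ‖u i‖ ^ 2 ≤ (ρ / (k + 1)) ^ 2 := fun i _ =>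
      pow_le_pow_left₀ (norm_nonneg _) ((norm_le_pi_norm u i).trans hu) 2
    refine (Finset.sum_le_card_nsmul _ _ _ h3).trans ?_
    rw [Finset.card_univ, Fintype.card_fin, nsmul_eq_mul, div_pow, ← mul_div_assoc,
      div_le_iff₀ (by positivity), mul_comm]
    have h4 : (0 : ℝ) ≤ k := Nat.cast_nonneg k
    gcongr
    nlinarith

end Pool.Agent.Lib.MP_1df8f0_an.K
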