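import Pool.Agent.Lib.MP_1df8f0_an.K.Sy

/-!
Existence and numerical properties of the design.
-/

open Finset Filter Topology

noncomputable section

namespace Pool.Agent.Lib.MP_1df8f0_an.K

def Des_fJ (b θ : ℕ) : ℕ := (2 ^ (b + 1) * θ) ^ 2 ^ b

def Des_fK (b s θ : ℕ) : ℕ :=
  2 ^ b * Des_fJ b θ ^ (2 * Des_fJ b θ + 3) *
    Des_fJ (b + 1) (2 * s * θ) ^ (3 * Des_fJ (b + 1) (2 * s * θ))

def Des_st (s0 : ℕ) : ℕ → ℕ × ℕ
  | 0 => (s0, 1)
  | b + 1 => ((Des_st s0 b).1 ^ (Des_fJ b (Des_st s0 b).2 *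
      Des_fK b (Des_st s0 b).1 (Des_st s0 b).2), 2 * (Des_st s0 b).1 * (Des_st s0 b).2)

theorem Des_ex0 (s0 : ℕ) : ∃ s Θ J Kp : ℕ → ℕ, s 0 = s0 ∧ Θ 0 = 1 ∧
    (∀ b, Θ (b + 1) = 2 * s b * Θ b) ∧ (∀ b, J b = (2 ^ (b + 1) * Θ b) ^ 2 ^ b) ∧
    (∀ b, Kp b = 2 ^ b * J b ^ (2 * J b + 3) * J (b + 1) ^ (3 * J (b + 1))) ∧
    ∀ b, s (b + 1) = s b ^ (J b * Kp b) :=
  ⟨fun b => (Des_st s0 b).1, fun b => (Des_st s0 b).2, fun b => Des_fJ b (Des_st s0 b).2,
    fun b => Des_fK b (Des_st s0 b).1 (Des_st s0 b).2, rfl, rfl, fun _ => rfl, fun _ => rfl,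
    fun _ => rfl, fun _ => rfl⟩

theorem Des_ex : ∃ P Θ J Kp, Des P Θ J Kp := by
  obtain ⟨s, Θ, J, Kp, h1, h2, h3, h4, h5, h6⟩ := Des_ex0 (8 * 3 ^ 128)
  exact ⟨⟨s, fun b => 2 * J b * Kp b, fun b I i => I / s b ^ var (J b) (Kp b) i % s b⟩, Θ, J, Kp,
    h1, h2, h3, h4, h5, fun _ => rfl, h6, fun _ _ _ => rfl⟩

theorem Des_num (P : Params) (Θ J Kp : ℕ → ℕ) (D : Des P Θ J Kp) : DesN P Θ J Kp := by
  have jt : ∀ b, 2 ^ (b + 1) * Θ b ≤ J b := fun b => by
    rw [D.hJ]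
    exact Nat.le_self_pow (Nat.two_pow_pos b).ne' _
  have j2' : ∀ b, 1 ≤ Θ b → 2 ≤ J b := fun b h => by
    refine le_trans ?_ (jt b)
    calc 2 = 2 ^ 1 * 1 := rfl
      _ ≤ _ := Nat.mul_le_mul (Nat.pow_le_pow_right (by norm_num) (by omega)) h
  have kpos : ∀ b, 1 ≤ J b → 1 ≤ J (b + 1) → 1 ≤ Kp b := fun b h1 h2 => by
    rw [D.hK]
    exact Nat.mul_pos (Nat.mul_pos (Nat.two_pow_pos b) (Nat.pow_pos h1)) (Nat.pow_pos h2)
  have st : ∀ b, 2 ≤ P.s b ∧ 1 ≤ Θ b := by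
    intro b
    induction b with
    | zero =>
      rw [D.s0, D.t0]
      exact ⟨le_trans (by norm_num) (Nat.le_mul_of_pos_right 8 (Nat.pow_pos (by norm_num))), le_rfl⟩
    | succ b ih =>
      have h1 : 1 ≤ Θ (b + 1) := by
        rw [D.tS]
        exact Nat.mul_pos (Nat.mul_pos (by norm_num) (by omega)) ih.2
      refine ⟨?_, h1⟩
      have h2 := j2' b ih.2
      have h3 := j2' (b + 1) h1
      rw [D.sS]
      exact ih.1.trans (Nat.le_self_pow
        (Nat.mul_pos (by omega) (kpos b (by omega) (by omega))).ne' _)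
  have j2 : ∀ b, 2 ≤ J b := fun b => j2' b (st b).2
  have j1 : ∀ b, 1 ≤ J b := fun b => le_trans (by norm_num) (j2 b)
  have k0 : ∀ b, 1 ≤ Kp b := fun b => kpos b (j1 b) (j1 (b + 1))
  have mk : ∀ b, Kp b ≤ P.m b := fun b => by
    rw [D.hm]
    exact Nat.le_mul_of_pos_left _ (Nat.mul_pos (by norm_num) (j1 b))
  have m1 : ∀ b, 1 ≤ P.m b := fun b => (k0 b).trans (mk b)
  have kJ : ∀ b, J (b + 1) ^ (3 * J (b + 1)) ≤ Kp b := fun b => by
    rw [D.hK]
    exact Nat.le_mul_of_pos_left _ (Nat.mul_pos (Nat.two_pow_pos b) (Nat.pow_pos (j1 b)))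
  have jj : ∀ b, J b ^ 2 ≤ J b ^ (3 * J b) := fun b =>
    Nat.pow_le_pow_right (j1 b) (by have := j1 b; omega)
  have hS : ∀ b, P.h (b + 1) = P.s b * (P.m b * P.h b) := fun _ => rfl
  have h1 : ∀ b, 1 ≤ P.h b := by
    intro b
    induction b with
    | zero => exact le_rfl
    | succ b ih =>
      rw [hS]
      exact Nat.mul_pos (by have := (st b).1; omega) (Nat.mul_pos (m1 b) ih)
  have hb : ∀ b, 1 ≤ b → J b ^ (3 * J b) ≤ P.h b := by
    intro b hb
    obtain ⟨k, rfl⟩ : ∃ k, b = k + 1 := ⟨b - 1, by omega⟩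
    rw [hS]
    exact ((kJ k).trans (mk k)).trans ((Nat.le_mul_of_pos_right _ (h1 k)).trans
      (Nat.le_mul_of_pos_left _ (by have := (st k).1; omega)))
  refine ⟨fun b => (st b).1, m1, fun b => (st b).2, j2, jt, fun b => ?_, fun b => ?_, hb,
    fun b => ?_, ?_⟩
  · rw [D.hK]
    exact Nat.le_mul_of_pos_right _ (Nat.pow_pos (j1 (b + 1)))
  · rw [← D.tS]
    exact (Nat.pow_le_pow_left (jt (b + 1)) 2).trans ((jj (b + 1)).trans (kJ b))
  · have h2 : (2 ^ b * Θ b) ^ 2 ≤ P.h b := by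
      rcases Nat.eq_zero_or_pos b with rfl | h0
      · rw [D.t0]
        exact le_rfl
      · refine le_trans (Nat.pow_le_pow_left ?_ 2) ((jj b).trans (hb b h0))
        exact (Nat.mul_le_mul_right _ (Nat.pow_le_pow_right (by norm_num) (by omega))).trans (jt b)
    have h3 : ((2 : ℝ) ^ b * Θ b) ^ 2 ≤ P.h b := by exact_mod_cast h2
    have h4 : (0 : ℝ) < Θ b := by exact_mod_cast (st b).2
    have h5 : (0 : ℝ) < (2 ^ b * Θ b) ^ 2 := by positivity
    rw [div_pow, div_mul_eq_mul_div, le_div_iff₀ h5]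
    linarith
  · have hmono : StrictMono P.h := strictMono_nat_of_lt_succ fun b => by
      rw [hS]
      have a1 := h1 b
      calc P.h b < 2 * (1 * P.h b) := by omega
        _ ≤ _ := Nat.mul_le_mul (st b).1 (Nat.mul_le_mul_right _ (m1 b))
    have hT : Tendsto (fun k => (P.h k : ℝ)) atTop atTop :=
      tendsto_natCast_atTop_atTop.comp hmono.tendsto_atTop
    have l1 : Tendsto (fun k => ((P.h k : ℝ))⁻¹) atTop (𝓝 0) := tendsto_inv_atTop_zero.comp hT
    have l2 : Tendsto (fun k => Real.log (P.h (k + 1) : ℝ) / P.h (k + 1)) atTop (𝓝 0) := by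
      have := Real.isLittleO_log_id_atTop.tendsto_div_nhds_zero.comp
        (hT.comp (tendsto_add_atTop_nat 1))
      exact this
    rw [← tendsto_add_atTop_iff_nat 1]
    have l3 := l1.add l2
    rw [add_zero] at l3
    refine squeeze_zero (fun k => ?_) (fun k => ?_) l3
    · refine div_nonneg (Real.log_nonneg ?_) (Nat.cast_nonneg _)
      have a1 : 1 ≤ P.s (k + 1) * P.h (k + 1) :=
        Nat.mul_pos (by have := (st (k + 1)).1; omega) (h1 _)
      exact_mod_cast a1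
    · have a0 : (0 : ℝ) < P.s (k + 1) := by
        have := (st (k + 1)).1
        exact_mod_cast (by omega : 0 < P.s (k + 1))
      have a1 : (0 : ℝ) < P.h (k + 1) := by exact_mod_cast h1 (k + 1)
      have a2 : (0 : ℝ) < P.h k := by exact_mod_cast h1 k
      have a3 : (0 : ℝ) < P.s k := by
        have := (st k).1
        exact_mod_cast (by omega : 0 < P.s k)
      rw [Real.log_mul a0.ne' a1.ne', add_div]
      refine add_le_add ?_ le_rfl
      have a4 : Real.log (P.s (k + 1) : ℝ) = (J k : ℝ) * Kp k * Real.log (P.s k) := by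
        rw [D.sS, Nat.cast_pow, Real.log_pow, Nat.cast_mul]
      have a5 : (P.h (k + 1) : ℝ) = P.s k * (2 * J k * Kp k * P.h k) := by
        rw [hS, D.hm]
        push_cast
        ring
      have a6 : Real.log (P.s k : ℝ) ≤ P.s k := (Real.log_le_sub_one_of_pos a3).trans (by linarith)
      have a7 : (0 : ℝ) ≤ (J k : ℝ) * Kp k := by positivity
      rw [div_le_iff₀ a1, a4, a5]
      calc (J k : ℝ) * Kp k * Real.log (P.s k) ≤ (J k : ℝ) * Kp k * P.s k :=
            mul_le_mul_of_nonneg_left a6 a7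
        _ ≤ 2 * ((J k : ℝ) * Kp k * P.s k) := by
            have := mul_nonneg a7 a3.le
            linarith
        _ = _ := by field_simp

theorem Des_half {J : ℕ} (hJ : 1 ≤ J) (i : ℕ) : i % (2 * J) / 2 < J := by
  have := Nat.mod_lt i (show 0 < 2 * J by omega)
  omega

theorem Des_lt {J Kp q j : ℕ} (hq : q < Kp) (hj : j < J) : J * q + j < J * Kp :=
  calc J * q + j < J * q + J := by omega
    _ = J * (q + 1) := by ring
    _ ≤ _ := Nat.mul_le_mul_left _ hq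

theorem Des_uniq {J q j q' j' : ℕ} (hj : j < J) (hj' : j' < J) (h : J * q + j = J * q' + j') :
    q = q' ∧ j = j' := by
  have h1 := congrArg (· % J) h
  simp only [Nat.mul_add_mod, Nat.mod_eq_of_lt hj, Nat.mod_eq_of_lt hj'] at h1
  subst h1
  exact ⟨Nat.eq_of_mul_eq_mul_left (by omega) (Nat.add_right_cancel h), rfl⟩

theorem Des_var_lt (J Kp i : ℕ) (hJ : 1 ≤ J) (hi : i < 2 * J * Kp) : var J Kp i < J * Kp := by
  have hq : i / (2 * J) < Kp := Nat.div_lt_of_lt_mul hi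
  unfold var
  split_ifs
  · exact Des_lt hq (Des_half hJ i)
  · exact Des_lt (Nat.mod_lt _ ((Nat.zero_le _).trans_lt hq)) (Des_half hJ i)

theorem Des_var_inj (J Kp i i' : ℕ) (hJ : 1 ≤ J) (hK : J ^ (2 * J + 3) ≤ Kp) (hi : i < 2 * J * Kp)
    (hi' : i' < 2 * J * Kp) (hv : var J Kp i = var J Kp i') (hp : i % 2 = i' % 2) : i = i' := by
  have hq : i / (2 * J) < Kp := Nat.div_lt_of_lt_mul hi
  have hq' : i' / (2 * J) < Kp := Nat.div_lt_of_lt_mul hi'
  have key : i / (2 * J) = i' / (2 * J) ∧ i % (2 * J) / 2 = i' % (2 * J) / 2 := by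
    unfold var at hv
    rw [← hp] at hv
    split_ifs at hv
    · exact Des_uniq (Des_half hJ i) (Des_half hJ i') hv
    · obtain ⟨h1, h2⟩ := Des_uniq (Des_half hJ i) (Des_half hJ i') hv
      refine ⟨?_, h2⟩
      rw [← h2] at h1
      have h3 : J ^ (2 * (i % (2 * J) / 2) + 3) ≤ Kp :=
        (Nat.pow_le_pow_right hJ (by have := Des_half hJ i; omega)).trans hK
      rw [Nat.add_sub_assoc h3, Nat.add_sub_assoc h3] at h1
      exact Nat.ModEq.eq_of_lt_of_lt (Nat.ModEq.add_right_cancel' _ h1) hq hq'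
  have e1 := Nat.div_add_mod i (2 * J)
  have e2 := Nat.div_add_mod i' (2 * J)
  have p1 : i % (2 * J) % 2 = i % 2 := Nat.mod_mul_right_mod i 2 J
  have p2 : i' % (2 * J) % 2 = i' % 2 := Nat.mod_mul_right_mod i' 2 J
  rw [key.1] at e1
  have := key.2
  omega

theorem Des_var_two (J Kp v : ℕ) (hJ : 1 ≤ J) (hK : J ^ (2 * J + 3) ≤ Kp) :
    ((List.range (2 * J * Kp)).map (var J Kp)).count v ≤ 2 := by
  rw [List.count_eq_countP, List.countP_map, List.countP_eq_length_filter]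
  set l := (List.range (2 * J * Kp)).filter ((fun x => x == v) ∘ var J Kp) with hl
  have hmem : ∀ i ∈ l, i < 2 * J * Kp ∧ var J Kp i = v := by
    intro i hi
    simpa [hl] using hi
  have h1 : (l.map (· % 2)).Nodup := by
    refine List.Nodup.map_on ?_ (List.nodup_range.filter _)
    intro i hi i' hi' h
    exact Des_var_inj J Kp i i' hJ hK (hmem i hi).1 (hmem i' hi').1
      ((hmem i hi).2.trans (hmem i' hi').2.symm) h
  have h2 : l.map (· % 2) ⊆ List.range 2 := by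
    intro x hx
    obtain ⟨i, -, rfl⟩ := List.mem_map.1 hx
    exact List.mem_range.2 (Nat.mod_lt _ (by norm_num))
  have h3 := (List.subperm_of_subset h1 h2).length_le
  rwa [List.length_map, List.length_range] at h3

theorem Des_divmod {n κ r : ℕ} (hr : r < n) : (κ * n + r) / n = κ ∧ (κ * n + r) % n = r := by
  constructor
  · rw [mul_comm, Nat.mul_add_div (by omega), Nat.div_eq_of_lt hr, add_zero]
  · rw [mul_comm, Nat.mul_add_mod, Nat.mod_eq_of_lt hr]

theorem Des_var_ev (J Kp κ j : ℕ) (hj : j < J) : var J Kp (κ * (2 * J) + 2 * j) = J * κ + j := by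
  obtain ⟨h1, h2⟩ := Des_divmod (n := 2 * J) (κ := κ) (r := 2 * j) (by omega)
  have h3 : (κ * (2 * J) + 2 * j) % 2 = 0 := by
    rw [← Nat.mod_mul_right_mod _ 2 J, h2]
    omega
  rw [var, if_pos h3, h1, h2, Nat.mul_div_cancel_left _ (by norm_num)]

theorem Des_var_od (J Kp κ j : ℕ) (hj : j < J) (hκ : κ + J ^ (2 * j + 3) < Kp) :
    var J Kp ((κ + J ^ (2 * j + 3)) * (2 * J) + (2 * j + 1)) = J * κ + j := by
  obtain ⟨h1, h2⟩ := Des_divmod (n := 2 * J) (κ := κ + J ^ (2 * j + 3)) (r := 2 * j + 1)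
    (by omega)
  have h3 : ¬ ((κ + J ^ (2 * j + 3)) * (2 * J) + (2 * j + 1)) % 2 = 0 := by
    rw [← Nat.mod_mul_right_mod _ 2 J, h2]
    omega
  have h4 : (2 * j + 1) / 2 = j := by omega
  have h5 : κ + J ^ (2 * j + 3) + Kp - J ^ (2 * j + 3) = κ + Kp := by omega
  rw [var, if_neg h3, h1, h2, h4, h5, Nat.add_mod_right, Nat.mod_eq_of_lt (by omega)]

theorem Des_digits (s V : ℕ) (g : (Fin V → Fin s) → ℝ) (g' : ℕ → ℝ)
    (h : ∀ (I : ℕ) (ω : Fin V → Fin s), I < s ^ V → (∀ v, (ω v : ℕ) = I / s ^ (v : ℕ) % s) →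
      g' I = g ω) : ∑ I ∈ range (s ^ V), g' I = ∑ ω, g ω := by
  rw [← Fin.sum_univ_eq_sum_range, ← Equiv.sum_comp (finFunctionFinEquiv (m := s) (n := V)).symm]
  exact Finset.sum_congr rfl fun I _ => h I _ I.2 fun v => finFunctionFinEquiv_symm_apply_val I v

theorem Des_thm : StDes :=
  ⟨Des_ex, Des_num, Des_var_lt, Des_var_two, Des_var_ev, Des_var_od, Des_digits⟩

end Pool.Agent.Lib.MP_1df8f0_an.K
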