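import Pool.Agent.Lib.MP_1df8f0_an.K.Sm

/-!
A differentiable injective lift of a volume preserving bijection of the torus is unimodular.
-/

open MeasureTheory
open scoped ENNReal

noncomputable section

namespace Pool.Agent.Lib.MP_1df8f0_an.K

/-- The integral of the Jacobian over a small ball is the volume of the ball. -/
theorem Det_ball (h1 : StProj) {n : ℕ} (S S' : Torus n → Torus n) (F G : E n → E n)
    (hS : MeasurePreserving S volume volume) (hl : Function.LeftInverse S' S)
    (hF : ∀ x, S (pr x) = pr (F x)) (hd : ContDiff ℝ 1 F) (hG : ∀ x, G (F x) = x)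
    (x : E n) (ρ : ℝ) (hρ : ρ ≤ 1 / 4)
    (hin : F '' Metric.closedBall x ρ ⊆ Metric.closedBall (F x) (1 / 4)) :
    ∫⁻ y in Metric.closedBall x ρ, ENNReal.ofReal |(fderiv ℝ F y).det| =
      volume (Metric.closedBall x ρ) := by
  have hU : MeasurableSet (Metric.closedBall x ρ) := Metric.isClosed_closedBall.measurableSet
  have hdiff : Differentiable ℝ F := hd.differentiable one_ne_zero
  have hinj : Function.Injective F := Function.LeftInverse.injective hG
  have h0 := lintegral_abs_det_fderiv_eq_addHaar_image (volume : Measure (E n)) hU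
    (f := F) (f' := fun y => fderiv ℝ F y)
    (fun y _ => (hdiff y).hasFDerivAt.hasFDerivWithinAt) hinj.injOn
  have hFU : MeasurableSet (F '' Metric.closedBall x ρ) :=
    ((isCompact_closedBall x ρ).image hd.continuous).isClosed.measurableSet
  obtain ⟨hm, hv⟩ := h1.img (F x) _ hFU hin
  obtain ⟨_, hv'⟩ := h1.img x _ hU (Metric.closedBall_subset_closedBall hρ)
  have hpre : S ⁻¹' (pr '' (F '' Metric.closedBall x ρ)) = pr '' Metric.closedBall x ρ := by
    ext y
    constructor
    · rintro ⟨_, ⟨z, hz, rfl⟩, hzy⟩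
      refine ⟨z, hz, hl.injective ?_⟩
      rw [hF, hzy]
    · rintro ⟨z, hz, rfl⟩
      exact ⟨F z, ⟨z, hz, rfl⟩, (hF z).symm⟩
  have h2 := hS.measure_preimage hm.nullMeasurableSet
  rw [hpre] at h2
  rw [h0, ← hv, ← h2, hv']

theorem Det_thm (h1 : StProj) : StDet := by
  intro n S S' F G hS _ hl _ hF hd hG x
  have hc : Continuous fun y => |(fderiv ℝ F y).det| :=
    (ContinuousLinearMap.continuous_det.comp (hd.continuous_fderiv one_ne_zero)).abs
  -- a small ball on which a given eventual property holds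
  have key : ∀ P : E n → Prop, (∀ᶠ y in nhds x, P y) → ∃ ρ : ℝ, 0 < ρ ∧
      (∀ y ∈ Metric.closedBall x ρ, P y) ∧
      ∫⁻ y in Metric.closedBall x ρ, ENNReal.ofReal |(fderiv ℝ F y).det| =
        volume (Metric.closedBall x ρ) := by
    intro P hP
    have hFx : ∀ᶠ y in nhds x, F y ∈ Metric.closedBall (F x) (1 / 4) :=
      hd.continuous.continuousAt.preimage_mem_nhds
        (Metric.closedBall_mem_nhds (F x) (by norm_num))
    obtain ⟨ε, hε, hball⟩ := Metric.nhds_basis_closedBall.eventually_iff.mp (hP.and hFx)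
    have hsub : Metric.closedBall x (min ε (1 / 4)) ⊆ Metric.closedBall x ε :=
      Metric.closedBall_subset_closedBall (min_le_left _ _)
    refine ⟨min ε (1 / 4), lt_min hε (by norm_num), fun y hy => (hball (hsub hy)).1, ?_⟩
    refine Det_ball h1 S S' F G hS hl hF hd hG x _ (min_le_right _ _) ?_
    rintro _ ⟨y, hy, rfl⟩
    exact (hball (hsub hy)).2
  have hpos : ∀ ρ : ℝ, 0 < ρ → volume (Metric.closedBall x ρ) ≠ 0 := fun ρ hρ =>
    (Metric.measure_closedBall_pos volume x hρ).ne'
  have htop : ∀ ρ : ℝ, volume (Metric.closedBall x ρ) ≠ ⊤ := fun ρ =>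
    (isCompact_closedBall x ρ).measure_lt_top.ne
  rcases lt_trichotomy |(fderiv ℝ F x).det| 1 with hlt | heq | hgt
  · exfalso
    obtain ⟨c, hc1, hc2⟩ := exists_between hlt
    obtain ⟨ρ, hρ, hP, hint⟩ := key (fun y => |(fderiv ℝ F y).det| < c)
      (hc.continuousAt.eventually_lt continuousAt_const hc1)
    have hle : ∫⁻ y in Metric.closedBall x ρ, ENNReal.ofReal |(fderiv ℝ F y).det| ≤
        ∫⁻ _ in Metric.closedBall x ρ, ENNReal.ofReal c :=
      setLIntegral_mono' Metric.isClosed_closedBall.measurableSet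
        fun y hy => ENNReal.ofReal_le_ofReal (hP y hy).le
    rw [hint, setLIntegral_const] at hle
    have hlt' : ENNReal.ofReal c * volume (Metric.closedBall x ρ) <
        1 * volume (Metric.closedBall x ρ) :=
      ENNReal.mul_lt_mul_left (hpos ρ hρ) (htop ρ) (ENNReal.ofReal_lt_one.mpr hc2)
    rw [one_mul] at hlt'
    exact absurd hle (not_le.mpr hlt')
  · exact heq
  · exfalso
    obtain ⟨c, hc1, hc2⟩ := exists_between hgt
    obtain ⟨ρ, hρ, hP, hint⟩ := key (fun y => c < |(fderiv ℝ F y).det|)
      (continuousAt_const.eventually_lt hc.continuousAt hc2)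
    have hle : ∫⁻ _ in Metric.closedBall x ρ, ENNReal.ofReal c ≤
        ∫⁻ y in Metric.closedBall x ρ, ENNReal.ofReal |(fderiv ℝ F y).det| :=
      setLIntegral_mono' Metric.isClosed_closedBall.measurableSet
        fun y hy => ENNReal.ofReal_le_ofReal (hP y hy).le
    rw [hint, setLIntegral_const] at hle
    have hlt' : 1 * volume (Metric.closedBall x ρ) <
        ENNReal.ofReal c * volume (Metric.closedBall x ρ) :=
      ENNReal.mul_lt_mul_left (hpos ρ hρ) (htop ρ) (ENNReal.one_lt_ofReal.mpr hc1)
    rw [one_mul] at hlt'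
    exact absurd hle (not_le.mpr hlt')

end Pool.Agent.Lib.MP_1df8f0_an.K
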