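import Pool.Agent.Lib.MP_1df8f0_an.K.Sy

/-!
Basic consequences of a factor map between induced systems.
-/

open MeasureTheory Finset Filter Topology ProbabilityTheory
open scoped ENNReal

noncomputable section

namespace Pool.Agent.Lib.MP_1df8f0_an.K

theorem Fac_iter {X Z : Type} [MeasurableSpace X] [MeasurableSpace Z] {T : X → X}
    (hT : Measurable T) {n : Z → ℕ} (hn : Measurable n) {f : Z → X} (hf : Measurable f) :
    Measurable fun z => T^[n z] (f z) :=
  (measurable_from_prod_countable_left (f := fun p : X × ℕ => T^[p.2] p.1)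
    fun i => hT.iterate i).comp (hf.prodMk hn)

theorem Fac_pi {Y α : Type} (w : Y → List α) (S : Y → Y) (M : ℕ) (y : Y) :
    pi w S M y = ∑ i ∈ range M, (w (S^[i] y)).length := by
  unfold pi
  induction M with
  | zero => simp [emit]
  | succ M ih => rw [emit_succ, List.length_append, ih, sum_range_succ]

theorem Fac_gap {X : Type} [MeasurableSpace X] {T : X → X} (hT : Measurable T) {A : Set X}
    (hA : MeasurableSet A) (K : ℕ) : MeasurableSet (gap T A K) :=
  (Measurable.forall fun i => measurable_const.imp (measurable_const.imp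
    (hA.mem.comp (hT.iterate i)).not)).setOf

theorem Fac_small {X : Type} [MeasurableSpace X] {μ : Measure X} [IsProbabilityMeasure μ]
    {T : X → X} (hT : Ergodic T μ) {A : Set X} (hA : MeasurableSet A) (h0 : 0 < μ A) {ε : ℝ≥0∞}
    (hε : 0 < ε) : ∃ K, μ (gap T A K) ≤ ε := by
  have hm := Fac_gap hT.measurable hA
  have h1 : μ (⋂ K, gap T A K) = 0 := by
    have hD := MeasurableSet.iInter hm
    have h2 : T ⁻¹' (⋂ K, gap T A K)ᶜ ⊆ (⋂ K, gap T A K)ᶜ := fun x hx h =>
      hx (Set.mem_iInter.2 fun K i h1 h2 =>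
        Set.mem_iInter.1 h (K + 1) (i + 1) (by omega) (by omega))
    rcases hT.ae_empty_or_univ_of_preimage_ae_le hD.compl.nullMeasurableSet
      h2.eventuallyLE with h | h
    · have h3 : T ⁻¹' A ⊆ (⋂ K, gap T A K)ᶜ := fun x hx h =>
        Set.mem_iInter.1 h 1 1 le_rfl le_rfl hx
      have h4 := measure_mono_null h3 (ae_eq_empty.1 h)
      rw [hT.measure_preimage hA.nullMeasurableSet] at h4
      exact absurd h4 h0.ne'
    · simpa using ae_eq_univ.1 h
  have h2 := tendsto_measure_iInter_atTop (μ := μ) (s := gap T A)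
    (fun K => (hm K).nullMeasurableSet)
    (fun K L hKL x hx i h1 h2 => hx i h1 (h2.trans hKL)) ⟨0, measure_ne_top _ _⟩
  rw [h1] at h2
  exact (h2.eventually (ge_mem_nhds hε)).exists

theorem Fac_thm : StFac := by
  intro X Y α _ _ _ μ _ T ν _ S A B φ a e ⟨hT, hS, hA, hB, hA0, hB0, hφ, hint⟩ ha
  classical
  have hres := restrict_eq_smul_cond ν hB0
  have hae : ∀ {p : Y → Prop}, (∀ᵐ y ∂(cond ν B), p y) → ∀ᵐ y ∂ν, y ∈ B → p y := by
    intro p hp
    rw [← ae_restrict_iff' hB, hres]
    exact Measure.ae_smul_measure hp _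
  have haeX : ∀ {p : X → Prop}, (∀ᵐ x ∂μ, x ∈ A → p x) → ∀ᵐ y ∂ν, y ∈ B → p (φ y) := by
    intro p hp
    refine hae (hφ.quasiMeasurePreserving.ae (p := p) ?_)
    rw [← ae_restrict_iff' hA] at hp
    exact Measure.ae_smul_measure hp _
  have hret : Measurable (retTime T A) := measurable_retTime hT.measurable hA
  have hw : Measurable (wd (fun z => e (a z)) T A B φ) := by
    refine Measurable.ite hB ?_ measurable_const
    exact (measurable_name hT.measurable ha e).comp
      (hφ.measurable.prodMk (hret.comp hφ.measurable))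
  have hlen : Measurable fun y => ((wd (fun z => e (a z)) T A B φ y).length : ℝ≥0∞) :=
    (measurable_of_countable fun l : List α => (l.length : ℝ≥0∞)).comp hw
  have hwint : ∫⁻ y, ((wd (fun z => e (a z)) T A B φ y).length : ℝ≥0∞) ∂ν ≤ (μ A)⁻¹ := by
    have h1 : (fun y => ((wd (fun z => e (a z)) T A B φ y).length : ℝ≥0∞)) =
        B.indicator fun y => (retTime T A (φ y) : ℝ≥0∞) := by
      funext y
      by_cases hy : y ∈ B <;> simp [wd, hy, name]
    have h2 : Measurable fun x => (retTime T A x : ℝ≥0∞) :=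
      (measurable_of_countable fun n : ℕ => (n : ℝ≥0∞)).comp hret
    rw [h1, lintegral_indicator hB, hres, lintegral_smul_measure, hφ.lintegral_comp h2,
      ProbabilityTheory.cond, lintegral_smul_measure, smul_eq_mul, smul_eq_mul]
    calc _ ≤ 1 * ((μ A)⁻¹ * 1) := by
          gcongr
          · exact prob_le_one
          · exact kac_le hT hA
      _ = _ := by rw [one_mul, mul_one]
  have hgood : ∀ᵐ y ∂ν, ∀ i, S^[i] y ∈ B →
      φ (induced S B (S^[i] y)) = induced T A (φ (S^[i] y)) ∧ 1 ≤ retTime T A (φ (S^[i] y)) := by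
    refine ae_all_iff.2 fun i => (hS.iterate i).quasiMeasurePreserving.ae
      (p := fun z => z ∈ B → φ (induced S B z) = induced T A (φ z) ∧ 1 ≤ retTime T A (φ z)) ?_
    have h1 : ∀ᵐ x ∂μ, x ∈ A → 1 ≤ retTime T A x := by
      filter_upwards [hT.conservative.ae_mem_imp_frequently_image_mem hA.nullMeasurableSet]
        with x hx hxA
      obtain ⟨n, hn1, hn2⟩ := ((hx hxA).and_eventually (eventually_ge_atTop 1)).exists
      exact (Nat.sInf_mem (s := {n | 1 ≤ n ∧ T^[n] x ∈ A}) ⟨n, hn2, hn1⟩).1
    filter_upwards [hae hint, haeX h1] with z h2 h3 hz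
    exact ⟨h2 hz, h3 hz⟩
  have hpi : ∀ t, Measurable (pi (wd (fun z => e (a z)) T A B φ) S t) := fun t =>
    (measurable_of_countable fun l : List α => l.length).comp (measurable_emit hw hS.measurable t)
  refine ⟨hw, hwint, ?_, fun U hU => ?_, fun p hp => haeX (hp.mono fun x hx _ => hx), ?_, hpi,
    fun M L => ?_, fun M L => ?_, Fac_gap hT.measurable hA,
    fun hE ε hε => Fac_small hE hA hA0 hε, fun o h J L ho => ?_, fun 𝒲 i h𝒲 => ?_⟩
  · filter_upwards [hgood,
      hS.conservative.ae_mem_imp_frequently_image_mem hB.nullMeasurableSet] with y h1 h2 hy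
    refine ⟨hy, fun i => ⟨h1 i, ?_⟩⟩
    obtain ⟨n, hn1, hn2⟩ := ((h2 hy).and_eventually (eventually_gt_atTop i)).exists
    exact ⟨n, hn2, hn1⟩
  · calc ν (B ∩ φ ⁻¹' U) = ν.restrict B (φ ⁻¹' U) := by
          rw [Measure.restrict_apply (hφ.measurable hU), Set.inter_comm]
      _ = ν B * ((μ A)⁻¹ * μ (A ∩ U)) := by
          rw [hres, Measure.smul_apply, hφ.measure_preimage hU.nullMeasurableSet,
            cond_apply hA, smul_eq_mul]
      _ ≤ 1 * ((μ A)⁻¹ * μ U) := by
          gcongr
          · exact prob_le_one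
          · exact Set.inter_subset_right
      _ = _ := one_mul _
  · exact hφ.measurable.comp (Measurable.ite hB measurable_id
      (Fac_iter hS.measurable (measurable_retTime hS.measurable hB) measurable_id))
  · refine le_trans (mul_le_mul_right (measure_mono_ae ?_) _) (visits_le hS hB M L)
    filter_upwards [hgood] with y h1 hy
    obtain ⟨R, h2, h3⟩ := emit_eq_name (fun z => e (a z)) T A S B φ hy.1 h1 M
    refine ⟨hy.1, h3.trans_lt (lt_of_eq_of_lt ?_ hy.2)⟩
    exact (show (name (fun z => e (a z)) T (φ y) R).length = R by simp [name]).symm.trans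
      (congrArg List.length h2.symm)
  · have h1 : Measurable fun y => (pi (wd (fun z => e (a z)) T A B φ) S M y : ℝ≥0∞) :=
      (measurable_of_countable fun n : ℕ => (n : ℝ≥0∞)).comp (hpi M)
    have h2 := mul_meas_ge_le_lintegral₀ (μ := ν) h1.aemeasurable L
    simp only [Nat.cast_le] at h2
    refine h2.trans ?_
    simp only [Fac_pi, Nat.cast_sum]
    rw [lintegral_finsetSum
      (f := fun i y => ((wd (fun z => e (a z)) T A B φ (S^[i] y)).length : ℝ≥0∞)) _
      fun i _ => hlen.comp (hS.measurable.iterate i)]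
    calc _ ≤ ∑ _i ∈ range M, (μ A)⁻¹ :=
          sum_le_sum fun i _ => ((hS.iterate i).lintegral_comp hlen).trans_le hwint
      _ = _ := by simp
  · unfold orig
    induction L with
    | nil => exact measurable_const
    | cons q L ih =>
      simp only [List.map_cons, List.flatten_cons]
      exact meas_append ((measurable_name hT.measurable ha e).comp ((Fac_iter hT.measurable
        ((ho.add_const _).add_const _) measurable_id).prodMk measurable_const)) ih
  · unfold rd
    induction i with
    | nil => exact measurable_const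
    | cons q i ih =>
      simp only [List.map_cons, List.flatten_cons]
      exact meas_append ((measurable_emit h𝒲 hS.measurable _).comp (hS.measurable.iterate _)) ih

end Pool.Agent.Lib.MP_1df8f0_an.K
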