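import Pool.Agent.Lib.MP_1df8f0_an.K.Sm

/-!
The finite time Hopf argument.
-/

open MeasureTheory Finset
open scoped ENNReal

noncomputable section

namespace Pool.Agent.Lib.MP_1df8f0_an.K

lemma GL_prob (n : ℕ) : IsProbabilityMeasure (volume : Measure (Torus n)) := by
  have : IsProbabilityMeasure (volume : Measure UnitAddCircle) := ⟨UnitAddCircle.measure_univ⟩
  exact Measure.pi.instIsProbabilityMeasure _

/-- Markov inequality, Fubini and a translation. -/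
lemma GL_abs {n : ℕ} {P : Type} [MeasurableSpace P] (μ : Measure P) [SFinite μ]
    (γ : Torus n × P → ℝ≥0∞) (hγ : Measurable γ) (σ : P → Torus n) (hσ : Measurable σ)
    (A : Set (Torus n)) (ε : ℝ≥0∞) (hA : ∀ y ∈ A, ε ≤ ∫⁻ p, γ (y, p) ∂μ) (ψ : Torus n → ℝ≥0∞)
    (hψ : ∀ w, ∫⁻ p, γ (w - σ p, p) ∂μ ≤ ψ w) : ε * volume A ≤ ∫⁻ w, ψ w := by
  have := GL_prob n
  have hγ' : Measurable fun q : Torus n × P => γ (q.1 - σ q.2, q.2) :=
    hγ.comp ((measurable_fst.sub (hσ.comp measurable_snd)).prodMk measurable_snd)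
  calc ε * volume A ≤ ε * volume {y : Torus n | ε ≤ ∫⁻ p, γ (y, p) ∂μ} :=
        mul_le_mul_right (measure_mono hA) ε
    _ ≤ ∫⁻ y, ∫⁻ p, γ (y, p) ∂μ := mul_meas_ge_le_lintegral hγ.lintegral_prod_right' ε
    _ = ∫⁻ p, (∫⁻ y, γ (y, p)) ∂μ :=
        lintegral_lintegral_swap (f := fun y p => γ (y, p)) hγ.aemeasurable
    _ = ∫⁻ p, (∫⁻ w, γ (w - σ p, p)) ∂μ :=
        lintegral_congr fun p => (lintegral_sub_right_eq_self (fun y => γ (y, p)) (σ p)).symm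
    _ = ∫⁻ w, ∫⁻ p, γ (w - σ p, p) ∂μ :=
        (lintegral_lintegral_swap (f := fun w p => γ (w - σ p, p)) hγ'.aemeasurable).symm
    _ ≤ ∫⁻ w, ψ w := lintegral_mono hψ

/-- Points of a tube shadow the orbit at all intermediate times. -/
lemma GL_shadow {n : ℕ} (F : E n → E n) (K : ℝ) (τ N : ℕ) (ρ ϑ : ℝ) (x p : E n) (hK : 1 ≤ K)
    (hτ : 1 ≤ τ) (hϑ0 : 0 ≤ ϑ) (hϑ : ϑ ≤ 1) (hρ : 0 ≤ ρ)
    (hl : ∀ t x x', ‖F^[t] x - F^[t] x'‖ ≤ K ^ t * ‖x - x'‖) (hp : p ∈ Tube F^[τ] x N ρ ϑ)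
    (t : ℕ) (ht : t ≤ N * τ) : ‖F^[t] p - F^[t] x‖ ≤ K ^ (3 * τ) * ρ := by
  have h1 : t / τ ≤ N := Nat.div_le_of_le_mul (by rwa [mul_comm])
  have h2 : t % τ < τ := Nat.mod_lt t hτ
  have h3 : ∀ z, F^[t] z = F^[t % τ] ((F^[τ])^[t / τ] z) := by
    intro z
    rw [← Function.iterate_mul, ← Function.iterate_add_apply, Nat.mod_add_div]
  have h4 := hp (t / τ) h1
  have h5 : ϑ ^ (N - t / τ) ≤ 1 := pow_le_one₀ hϑ0 hϑ
  rw [h3 p, h3 x]
  refine (hl _ _ _).trans (mul_le_mul (pow_le_pow_right₀ hK (by omega)) (h4.trans ?_)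
    (norm_nonneg _) (by positivity))
  exact mul_le_of_le_one_right hρ h5

/-- Everything attached to an orbit depends only on the projection of the initial point. -/
lemma GL_per {n : ℕ} (T : Torus n → Torus n) (F : E n → E n) (τ : ℕ)
    (hl : ∀ t x, T^[t] (pr x) = pr (F^[t] x))
    (hp : ∀ t x x' δ, pr x = pr x' → F^[t] (x + δ) - F^[t] x = F^[t] (x' + δ) - F^[t] x')
    (hd : ∀ x x', pr x = pr x' → fderiv ℝ F^[τ] x = fderiv ℝ F^[τ] x') (a a' : E n)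
    (h : pr a = pr a') : (∀ i, pr ((F^[τ])^[i] a) = pr ((F^[τ])^[i] a')) ∧
      orbD F^[τ] a = orbD F^[τ] a' ∧
      ∀ δ N ρ ϑ, a + δ ∈ Tube F^[τ] a N ρ ϑ → a' + δ ∈ Tube F^[τ] a' N ρ ϑ := by
  have h1 : ∀ i, pr ((F^[τ])^[i] a) = pr ((F^[τ])^[i] a') := by
    intro i
    rw [← Function.iterate_mul, ← hl, ← hl, h]
  refine ⟨h1, funext fun i => hd _ _ (h1 i), fun δ N ρ ϑ hm i hi => ?_⟩
  have h2 := hm i hi
  rw [← Function.iterate_mul] at h2 ⊢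
  rwa [← hp _ a a' δ h]

lemma GL_cmb {n : ℕ} {ι κ : Type} [Fintype ι] (v : ι → E n) (j : ι → κ) :
    Continuous fun p : κ → ℝ => cmb v (p ∘ j) := by
  unfold cmb
  exact continuous_finsetSum _ fun i _ => (continuous_apply (j i)).smul continuous_const

theorem GL_thm (h1 : StVol) (h2 : StTrv) (h3 : StProj) (h4 : StIter) (h5 : StGeoM) (h6 : StGeoA)
    (h7 : StGeoB) : StGL := by
  intro n k d S S' F G K hsys hkd τ N₁ N₂ ϑ Λ r I' I 𝓔 hτ hN₂ hϑ0 hϑ1 hΛ hr0 hr1 hI' hI h𝓔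
  have hprob := GL_prob n
  have hit := (h4 S S' F G K hsys).2
  have hK : 1 ≤ K := by linarith [hsys.two]
  have hlF : ∀ t x, S^[t] (pr x) = pr (F^[t] x) := fun t => (hit t).1.lift
  have hlG : ∀ t x, S'^[t] (pr x) = pr (G^[t] x) := fun t => (hit t).2.1.lift
  have hGF : ∀ t x, G^[t] (F^[t] x) = x := fun t => (hit t).1.inv
  have hFG : ∀ t x, F^[t] (G^[t] x) = x := fun t => (hit t).2.1.inv
  have hP : Pair F^[τ] G^[τ] (K ^ (3 * τ)) := (hit τ).2.2.1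
  have perF := GL_per S F τ hlF (fun t => (hit t).1.per)
    fun x x' h => ((hit τ).2.2.2.1 x x' h).1
  have perG := GL_per S' G τ hlG (fun t => (hit t).2.1.per)
    fun x x' h => ((hit τ).2.2.2.1 x x' h).2
  have hf := h1.evon I' hI'
  have he := h1.evon I hI
  obtain ⟨Q, hQ⟩ : ∃ Q : ℝ, Q = K ^ (3 * τ) := ⟨_, rfl⟩
  have hQ1 : 1 ≤ Q := hQ ▸ one_le_pow₀ hK
  obtain ⟨ρ, hρ⟩ : ∃ ρ : ℝ, ρ = r / (2 ^ (N₁ + N₂) * 256 * Q ^ 4 * Λ) := ⟨_, rfl⟩
  have hρ0 : 0 < ρ := by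
    rw [hρ]
    positivity
  have hρ1 : 2 ^ (N₁ + N₂) * 256 * Q ^ 4 * ρ * Λ = r := by
    rw [hρ]
    field_simp
  have hρ2 : 256 * (Q * ρ) ≤ r := by
    have a1 : (1 : ℝ) ≤ 2 ^ (N₁ + N₂) := one_le_pow₀ one_le_two
    have a2 : (1 : ℝ) ≤ Q ^ 3 := one_le_pow₀ hQ1
    have a3 : (1 : ℝ) ≤ 2 ^ (N₁ + N₂) * Q ^ 3 * Λ :=
      one_le_mul_of_one_le_of_one_le (one_le_mul_of_one_le_of_one_le a1 a2) hΛ
    have a4 : 0 ≤ 256 * (Q * ρ) := by positivity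
    calc 256 * (Q * ρ) ≤ 256 * (Q * ρ) * (2 ^ (N₁ + N₂) * Q ^ 3 * Λ) :=
          le_mul_of_one_le_right a4 a3
      _ = r := by
          rw [← hρ1]
          ring
  have hQρ : ρ ≤ Q * ρ := le_mul_of_one_le_left hρ0.le hQ1
  rw [← hQ] at hP
  have hρ3 : 2 ^ (N₁ + N₂) * 256 * Q ^ 4 * ρ * Λ ≤ 1 := by linarith
  obtain ⟨hAm, hJc⟩ := h5 F^[τ] G^[τ] Q (ev I') (ev I) N₁ N₂ ϑ Λ ρ hP hf he
  -- the set of pairs and the weight
  obtain ⟨A, hA⟩ : ∃ A : Set (E n × (Fin k ⊕ Fin d → ℝ)), ∀ a p, (a, p) ∈ A ↔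
      Adm F^[τ] G^[τ] (ev I') (ev I) N₁ N₂ ϑ Λ ρ a p ∧
        (pr (a + cmb (ev I') (p ∘ Sum.inl)), S'^[(N₁ + N₂) * τ]
          (pr ((F^[τ])^[N₁ + N₂] a + cmb (ev I) (p ∘ Sum.inr)))) ∈ 𝓔 :=
    ⟨{q | Adm F^[τ] G^[τ] (ev I') (ev I) N₁ N₂ ϑ Λ ρ q.1 q.2 ∧
        (pr (q.1 + cmb (ev I') (q.2 ∘ Sum.inl)), S'^[(N₁ + N₂) * τ]
          (pr ((F^[τ])^[N₁ + N₂] q.1 + cmb (ev I) (q.2 ∘ Sum.inr)))) ∈ 𝓔}, fun _ _ => Iff.rfl⟩
  have hAmeas : MeasurableSet A := by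
    have c1 : Continuous fun q : E n × (Fin k ⊕ Fin d → ℝ) =>
        pr (q.1 + cmb (ev I') (q.2 ∘ Sum.inl)) :=
      h3.cont.comp (continuous_fst.add ((GL_cmb _ _).comp continuous_snd))
    have c2 : Continuous fun q : E n × (Fin k ⊕ Fin d → ℝ) =>
        pr ((F^[τ])^[N₁ + N₂] q.1 + cmb (ev I) (q.2 ∘ Sum.inr)) :=
      h3.cont.comp (((hP.nf.diff.continuous.iterate _).comp continuous_fst).add
        ((GL_cmb _ _).comp continuous_snd))
    have m1 := (c1.measurable.prodMk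
      ((hit ((N₁ + N₂) * τ)).2.1.mp.measurable.comp c2.measurable)) h𝓔
    have e1 : A = _ ∩ _ := Set.ext fun q => hA q.1 q.2
    rw [e1]
    exact hAm.inter m1
  obtain ⟨g, hg⟩ : ∃ g : E n × (Fin k ⊕ Fin d → ℝ) → ℝ≥0∞, g = A.indicator fun q =>
      ENNReal.ofReal (Jac F^[τ] G^[τ] (ev I') (ev I) N₁ N₂ q.1) := ⟨_, rfl⟩
  have hgm : Measurable g := by
    rw [hg]
    exact ((hJc.comp continuous_fst).measurable.ennreal_ofReal).indicator hAmeas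
  have hAper : ∀ a a' p, pr a = pr a' → (a, p) ∈ A → (a', p) ∈ A := by
    intro a a' p h hm
    obtain ⟨a1, a2, a3⟩ := perF a a' h
    obtain ⟨_, b2, b3⟩ := perG _ _ (a1 (N₁ + N₂))
    obtain ⟨⟨c1, c2, c3⟩, c4⟩ := (hA a p).1 hm
    refine (hA a' p).2 ⟨⟨?_, a3 _ _ _ _ c2, b3 _ _ _ _ c3⟩, ?_⟩
    · rw [← a2, ← b2]
      exact c1
    · rw [h3.add, h3.add, ← h, ← a1, ← h3.add, ← h3.add]
      exact c4
  have hgper : ∀ a a' p, pr a = pr a' → g (a, p) = g (a', p) := by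
    intro a a' p h
    obtain ⟨a1, a2, _⟩ := perF a a' h
    obtain ⟨_, b2, _⟩ := perG _ _ (a1 (N₁ + N₂))
    rw [hg]
    by_cases hm : (a, p) ∈ A
    · rw [Set.indicator_of_mem hm, Set.indicator_of_mem (hAper a a' p h hm)]
      simp only [Jac, a2, b2]
    · rw [Set.indicator_of_notMem hm,
        Set.indicator_of_notMem fun h' => hm (hAper a' a p h.symm h')]
  have key := GL_abs (volume : Measure (Fin k ⊕ Fin d → ℝ)) (fun q => g (sec q.1, q.2))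
    (hgm.comp ((h3.msec.comp measurable_fst).prodMk measurable_snd))
    (fun p => pr (cmb (ev I') (p ∘ Sum.inl))) (h3.cont.comp (GL_cmb _ _)).measurable
    {a | Good S (Afw F) (Bkw S G) τ N₁ N₂ ϑ Λ I' I a ∧
      Shad S r (N₁ * τ + 1) (N₁ * τ) ((N₁ + N₂) * τ + 1) 𝓔 a}
    (ENNReal.ofReal ((ρ / (16 * Q ^ 2 * (n + 1) * 4 ^ (N₁ + N₂) * Λ)) ^ n)) ?_
    (fun w => volume (Prod.mk w ⁻¹' 𝓔)) ?_
  · rw [← Measure.prod_apply h𝓔] at key
    have hc : 0 < ρ / (16 * Q ^ 2 * (n + 1) * 4 ^ (N₁ + N₂) * Λ) := by positivity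
    have k2 := ENNReal.toReal_mono (measure_ne_top _ _) key
    rw [ENNReal.toReal_mul, ENNReal.toReal_ofReal (pow_pos hc n).le] at k2
    have e1 : 4096 * (n + 1) * 8 ^ (N₁ + N₂) * K ^ (18 * τ) * Λ ^ 2 / r =
        (ρ / (16 * Q ^ 2 * (n + 1) * 4 ^ (N₁ + N₂) * Λ))⁻¹ := by
      have a1 : K ^ (18 * τ) = Q ^ 6 := by
        rw [hQ, ← pow_mul]
        congr 1
        ring
      have a2 : (8 : ℝ) ^ (N₁ + N₂) = 2 ^ (N₁ + N₂) * 4 ^ (N₁ + N₂) := by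
        rw [← mul_pow]
        norm_num
      rw [a1, a2, hρ]
      field_simp
      norm_num
    rw [e1, inv_pow, le_inv_mul_iff₀ (pow_pos hc n)]
    exact k2
  · rintro y ⟨hgood, hshad⟩
    have hy : pr (sec y) = y := h3.prsec y
    have horb : ∀ i, S^[i * τ] y = pr ((F^[τ])^[i] (sec y)) := by
      intro i
      rw [← Function.iterate_mul, ← hlF, hy, mul_comm]
    have hDF : DF S (Afw F) τ y = orbD F^[τ] (sec y) := by
      funext i
      exact ((hit τ).2.2.2.1 _ _ ((h3.prsec _).trans (horb i))).1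
    have hDB : ∀ i < N₂, DB S (Bkw S G) τ (N₁ + N₂) y i =
        orbD G^[τ] ((F^[τ])^[N₁ + N₂] (sec y)) i := by
      intro i hi
      refine ((hit τ).2.2.2.1 _ _ ((h3.prsec _).trans ?_)).2
      have e1 : N₁ + N₂ = i + (N₁ + N₂ - i) := by omega
      have e2 : τ + (N₁ + N₂ - i - 1) * τ = (N₁ + N₂ - i) * τ := by
        obtain ⟨m, hm⟩ : ∃ m, N₁ + N₂ - i = m + 1 := ⟨N₁ + N₂ - i - 1, by omega⟩
        rw [hm, Nat.add_sub_cancel]
        ring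
      have e3 : (G^[τ])^[i] ((F^[τ])^[N₁ + N₂] (sec y)) = (F^[τ])^[N₁ + N₂ - i] (sec y) := by
        conv_lhs => rw [e1, Function.iterate_add_apply]
        exact Function.LeftInverse.iterate hP.gf i _
      rw [← Function.iterate_add_apply, e2, horb, e3]
    obtain ⟨_, b2, b3⟩ := h2.congr _ _ (ev I) N₂ hDB
    have hGD : GoodD (orbD F^[τ] (sec y)) (orbD G^[τ] ((F^[τ])^[N₁ + N₂] (sec y))) (ev I') (ev I)
        N₁ N₂ ϑ Λ := by
      obtain ⟨c1, c2, c3⟩ := hgood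
      rw [hDF] at c1 c3
      rw [b2 _ (by omega)] at c3
      exact ⟨c1, b3 _ _ c2, c3⟩
    refine (h6 F^[τ] G^[τ] Q (ev I') (ev I) N₁ N₂ ϑ Λ ρ hP hkd hf he hN₂ hϑ0 hϑ1 hρ0 hρ3 (sec y)
      hGD).trans ?_
    have hsm : MeasurableSet {p | Adm F^[τ] G^[τ] (ev I') (ev I) N₁ N₂ ϑ Λ ρ (sec y) p} :=
      measurable_prodMk_left hAm
    rw [← lintegral_indicator hsm]
    refine lintegral_mono fun p => ?_
    by_cases hp : Adm F^[τ] G^[τ] (ev I') (ev I) N₁ N₂ ϑ Λ ρ (sec y) p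
    · have hm : (sec y, p) ∈ A := by
        refine (hA _ _).2 ⟨hp, hshad _ _ (fun t ht => ?_) fun t ht ht' => ?_⟩
        · have a1 := GL_shadow F K τ N₁ ρ 1 _ _ hK hτ zero_le_one le_rfl hρ0.le
            (fun t x x' => ((hit t).2.2.2.2 x x').1) hp.2.1 t (by omega)
          have a2 : S^[t] y = pr (F^[t] (sec y)) := by rw [← hlF, hy]
          rw [hlF, a2]
          refine (h3.dist_le _ _).trans (a1.trans ?_)
          rw [← hQ]
          linarith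
        · obtain ⟨m, hm⟩ : ∃ m, (N₁ + N₂) * τ = t + m := ⟨(N₁ + N₂) * τ - t, by omega⟩
          have hm' : m ≤ N₂ * τ := by
            rw [add_mul] at hm
            omega
          have a1 := GL_shadow G K τ N₂ ρ ϑ _ _ hK hτ hϑ0.le hϑ1 hρ0.le
            (fun t x x' => ((hit t).2.2.2.2 x x').2) hp.2.2 m hm'
          have a2 : S^[t] y = pr (G^[m] ((F^[τ])^[N₁ + N₂] (sec y))) := by
            rw [← Function.iterate_mul, mul_comm τ, hm, add_comm t, Function.iterate_add_apply,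
              hGF, ← hlF, hy]
          rw [hlG, hlF, hm, Function.iterate_add_apply, hFG, a2]
          refine (h3.dist_le _ _).trans (a1.trans ?_)
          rw [← hQ]
          linarith
      rw [Set.indicator_of_mem (by exact hp), hg, Set.indicator_of_mem hm]
    · rw [Set.indicator_of_notMem (by exact hp)]
      exact zero_le
  · intro w
    have hmp := (hit (N₁ * τ)).2.1.mp
    have hsl : MeasurableSet (Prod.mk w ⁻¹' 𝓔) := measurable_prodMk_left h𝓔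
    have hZ0 : MeasurableSet (S'^[N₁ * τ] ⁻¹' (Prod.mk w ⁻¹' 𝓔)) := hmp.measurable hsl
    have hB := h7 F^[τ] G^[τ] Q (ev I') (ev I) N₁ N₂ ϑ Λ ρ hP hkd hf he hN₂ hϑ0 hϑ1 hρ0 hρ3 (sec w)
      (pr ⁻¹' (S'^[N₁ * τ] ⁻¹' (Prod.mk w ⁻¹' 𝓔))) (h3.cont.measurable hZ0)
    have hC := h3.pre ((F^[τ])^[N₁] (sec w)) _ hZ0
    rw [hmp.measure_preimage hsl.nullMeasurableSet] at hC
    refine le_trans ?_ (hB.trans ((measure_mono (Set.inter_subset_inter_left _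
      (Metric.closedBall_subset_closedBall (by linarith)))).trans hC))
    refine le_trans (lintegral_mono fun p => ?_) (lintegral_indicator_le _ _)
    have e1 : pr (sec (w - pr (cmb (ev I') (p ∘ Sum.inl)))) =
        pr (sec w - cmb (ev I') (p ∘ Sum.inl)) := by
      rw [h3.prsec, h3.sub, h3.prsec]
    show g (sec (w - pr (cmb (ev I') (p ∘ Sum.inl))), p) ≤ _
    rw [hgper _ _ p e1, hg]
    by_cases hm : (sec w - cmb (ev I') (p ∘ Sum.inl), p) ∈ A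
    · obtain ⟨c1, c2⟩ := (hA _ _).1 hm
      rw [sub_add_cancel, h3.prsec, add_mul, Function.iterate_add_apply, hlG, mul_comm N₂ τ,
        Function.iterate_mul G τ N₂] at c2
      rw [Set.indicator_of_mem hm, Set.indicator_of_mem (by exact ⟨c1, c2⟩)]
    · rw [Set.indicator_of_notMem hm]
      exact zero_le

end Pool.Agent.Lib.MP_1df8f0_an.K
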