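import Pool.Agent.Lib.MP_1df8f0_an.K.Sm

/-!
Lower bound for the weighted volume of the admissible parameters.
-/

open MeasureTheory Finset
open scoped ENNReal

noncomputable section

namespace Pool.Agent.Lib.MP_1df8f0_an.K

lemma GeoA_inj {n : ℕ} {D : Op n} {Q : ℝ} (h : Bd D Q) : Function.Injective D := by
  rw [injective_iff_map_eq_zero]
  intro v hv
  have h1 := h.2 v
  rw [hv, norm_zero, mul_zero] at h1
  exact norm_le_zero_iff.1 h1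

lemma GeoA_vol {k d : ℕ} (U : Set (Fin k → ℝ)) (V : Set (Fin d → ℝ)) :
    volume {p : Fin k ⊕ Fin d → ℝ | p ∘ Sum.inl ∈ U ∧ p ∘ Sum.inr ∈ V} = volume U * volume V := by
  rw [← Measure.prod_prod, ← Measure.volume_eq_prod,
    ← (volume_measurePreserving_sumPiEquivProdPi
      (fun _ : Fin k ⊕ Fin d => ℝ)).measure_preimage_equiv (U ×ˢ V)]
  rfl

theorem GeoA_thm (h1 : StVol) (h2 : StTrv) (h3 : StTube) (h4 : StGeoT) : StGeoA := by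
  intro n k d H H' Q f e N₁ N₂ ϑ Λ ρ hP hkd hf he hN₂ hϑ0 hϑ1 hρ hs a hG
  have hQ : 1 ≤ Q := hP.nf.one
  have hΛ : 1 ≤ Λ := by simpa using (hG.1 N₁ le_rfl).1
  have hsm : ∀ N ≤ N₁ + N₂, 2 ^ N * 128 * Q ^ 4 * ρ * Λ ≤ 1 := by
    intro N hN
    refine le_trans ?_ hs
    have a1 : (2 : ℝ) ^ N ≤ 2 ^ (N₁ + N₂) := pow_le_pow_right₀ one_le_two hN
    gcongr
    norm_num
  have hU := (h3 H Q 1 Λ ρ a f N₁ hP.nf hf one_pos le_rfl hρ hG.1 (hsm _ (by omega))).2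
  have hV := (h3 H' Q ϑ Λ ρ (H^[N₁ + N₂] a) e N₂ hP.ng he hϑ0 hϑ1 hρ hG.2.1
    (hsm _ (by omega))).2
  have hJ := ((h4 H H' Q f e N₁ N₂ ϑ Λ hP hf he hN₂).2.2 a hG).1
  have hvf : 0 < vol (frm (orbD H a) f N₁) :=
    h2.frm_pos _ f (fun i => GeoA_inj (hP.nf.bd _)) (by rw [h1.on f hf]; exact one_pos) N₁
  have hve : 0 < vol (frm (orbD H' (H^[N₁ + N₂] a)) e N₂) :=
    h2.frm_pos _ e (fun i => GeoA_inj (hP.ng.bd _)) (by rw [h1.on e he]; exact one_pos) N₂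
  have hset : {p | Adm H H' f e N₁ N₂ ϑ Λ ρ a p} = {p : Fin k ⊕ Fin d → ℝ |
      p ∘ Sum.inl ∈ {u : Fin k → ℝ | a + cmb f u ∈ Tube H a N₁ ρ 1} ∧
      p ∘ Sum.inr ∈ {v : Fin d → ℝ |
        H^[N₁ + N₂] a + cmb e v ∈ Tube H' (H^[N₁ + N₂] a) N₂ ρ ϑ}} :=
    Set.ext fun p => ⟨fun h => h.2, fun h => ⟨hG, h⟩⟩
  rw [setLIntegral_const, hset, GeoA_vol]
  refine le_trans ?_ (mul_le_mul' (ENNReal.ofReal_le_ofReal hJ) (mul_le_mul' hU hV))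
  generalize vol (frm (orbD H a) f N₁) = vf at hvf
  generalize vol (frm (orbD H' (H^[N₁ + N₂] a)) e N₂) = ve at hve
  rw [← ENNReal.ofReal_mul (by positivity), ← ENNReal.ofReal_mul (by positivity)]
  refine ENNReal.ofReal_le_ofReal ?_
  have hk : (k : ℝ) + 1 ≤ n + 1 := by
    rw [← hkd]
    push_cast
    linarith [(Nat.cast_nonneg d : (0 : ℝ) ≤ d)]
  have hd : (d : ℝ) + 1 ≤ n + 1 := by
    rw [← hkd]
    push_cast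
    linarith [(Nat.cast_nonneg k : (0 : ℝ) ≤ k)]
  have b1 : (4 : ℝ) ^ N₁ ≤ 4 ^ (N₁ + N₂) := pow_le_pow_right₀ (by norm_num) (by omega)
  have b2 : (4 : ℝ) ^ N₂ ≤ 4 ^ (N₁ + N₂) := pow_le_pow_right₀ (by norm_num) (by omega)
  have b3 : (8 : ℝ) ≤ 16 * Q ^ 2 := by nlinarith
  have c1 : ρ / (16 * Q ^ 2 * (n + 1) * 4 ^ (N₁ + N₂) * Λ) ≤
      1 / (2 * Q ^ 2) * (ρ / (8 * (k + 1) * 4 ^ N₁ * Λ)) := by
    have e1 : 1 / (2 * Q ^ 2) * (ρ / (8 * (k + 1) * 4 ^ N₁ * Λ)) =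
        ρ / (16 * Q ^ 2 * (k + 1) * 4 ^ N₁ * Λ) := by
      field_simp
      norm_num
    rw [e1]
    gcongr
  have c2 : ρ / (16 * Q ^ 2 * (n + 1) * 4 ^ (N₁ + N₂) * Λ) ≤ ρ / (8 * (d + 1) * 4 ^ N₂ * Λ) := by
    gcongr
  have e2 : (1 / (2 * Q ^ 2)) ^ k * vf * ve * ((ρ / (8 * (k + 1) * 4 ^ N₁ * Λ)) ^ k / vf *
      ((ρ / (8 * (d + 1) * 4 ^ N₂ * Λ)) ^ d / ve)) =
      (1 / (2 * Q ^ 2) * (ρ / (8 * (k + 1) * 4 ^ N₁ * Λ))) ^ k *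
        (ρ / (8 * (d + 1) * 4 ^ N₂ * Λ)) ^ d := by
    rw [mul_pow (1 / (2 * Q ^ 2))]
    generalize (1 / (2 * Q ^ 2)) ^ k = x
    generalize (ρ / (8 * (k + 1) * 4 ^ N₁ * Λ)) ^ k = y
    generalize (ρ / (8 * (d + 1) * 4 ^ N₂ * Λ)) ^ d = z
    field_simp
  have hc : 0 ≤ ρ / (16 * Q ^ 2 * (n + 1) * 4 ^ (N₁ + N₂) * Λ) := by positivity
  rw [e2]
  generalize ρ / (16 * Q ^ 2 * (n + 1) * 4 ^ (N₁ + N₂) * Λ) = c at c1 c2 hc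
  rw [← hkd, pow_add]
  exact mul_le_mul (pow_le_pow_left₀ hc c1 k) (pow_le_pow_left₀ hc c2 d) (pow_nonneg hc d)
    (pow_nonneg (hc.trans c1) k)

end Pool.Agent.Lib.MP_1df8f0_an.K
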