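import Pool.Agent.Lib.MP_1df8f0_an.K.Sm

open MeasureTheory Finset
open scoped ENNReal

noncomputable section

namespace Pool.Agent.Lib.MP_1df8f0_an.K

/-- A block of coordinates combined with a frame, as a continuous linear map. -/
def GeoB_L {n : ℕ} {ι κ : Type} [Fintype ι] [Fintype κ] (g : κ → ι) (v : κ → E n) :
    (ι → ℝ) →L[ℝ] E n :=
  ∑ i, (ContinuousLinearMap.proj (R := ℝ) (φ := fun _ : ι => ℝ) (g i)).smulRight (v i)

theorem GeoB_L_apply {n : ℕ} {ι κ : Type} [Fintype ι] [Fintype κ] (g : κ → ι) (v : κ → E n)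
    (p : ι → ℝ) : GeoB_L g v p = cmb v (p ∘ g) := by
  simp [GeoB_L, cmb]

theorem GeoB_mem {n : ℕ} {ι : Type} [Fintype ι] (v : ι → E n) (c : ι → ℝ) : cmb v c ∈ sp v :=
  Submodule.sum_mem _ fun i _ => Submodule.smul_mem _ _ (Submodule.subset_span ⟨i, rfl⟩)

theorem GeoB_cmb_inj {n : ℕ} {ι : Type} [Fintype ι] {v : ι → E n} (hv : Orthonormal ℝ v)
    {c c' : ι → ℝ} (h : cmb v c = cmb v c') : c = c' := by
  have h0 := Fintype.linearIndependent_iff.1 hv.linearIndependent (c - c') (by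
    simp only [Pi.sub_apply, sub_smul, Finset.sum_sub_distrib]
    exact sub_eq_zero.2 h)
  funext i
  exact sub_eq_zero.1 (h0 i)

theorem GeoB_single {n : ℕ} {ι : Type} [Fintype ι] [DecidableEq ι] (v : ι → E n) (i : ι)
    (t : ℝ) : cmb v (Pi.single i t) = t • v i := by
  unfold cmb
  rw [Finset.sum_eq_single i]
  · simp
  · intro b _ hb
    simp [hb]
  · simp

theorem GeoB_zero {n : ℕ} {ι : Type} [Fintype ι] (v : ι → E n) : cmb v 0 = 0 := by
  simp [cmb]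

theorem GeoB_sign (h1 : StVol) {n k d : ℕ} (u : Fin k → E n) (e : Fin d → E n) :
    vol (Sum.elim (fun i => -u i) e) = vol (Sum.elim u e) := by
  have h := h1.change (Sum.elim u e)
    (Matrix.diagonal (Sum.elim (fun _ : Fin k => (-1 : ℝ)) fun _ : Fin d => 1))
  have e1 : (fun i => cmb (Sum.elim u e)
      (Matrix.diagonal (Sum.elim (fun _ : Fin k => (-1 : ℝ)) fun _ : Fin d => 1) i)) =
      Sum.elim (fun i => -u i) e := by
    funext i
    have : Matrix.diagonal (Sum.elim (fun _ : Fin k => (-1 : ℝ)) fun _ : Fin d => 1) i =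
        Pi.single i (Sum.elim (fun _ : Fin k => (-1 : ℝ)) (fun _ : Fin d => 1) i) := by
      funext j
      rw [Matrix.diagonal_apply, Pi.single_apply]
      simp only [eq_comm]
    rw [this, GeoB_single]
    cases i <;> simp
  rw [e1, Matrix.det_diagonal, Finset.abs_prod] at h
  rw [h, Finset.prod_eq_one, one_mul]
  rintro (i | i) _ <;> simp

theorem GeoB_deriv (h2 : StTrv) {n k d : ℕ} {H H' : E n → E n} {Q : ℝ} (hP : Pair H H' Q)
    (f : Fin k → E n) (e : Fin d → E n) (N₁ N₂ : ℕ) (w : E n) (p : Fin k ⊕ Fin d → ℝ) :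
    HasFDerivAt (Psi H H' f e N₁ N₂ w)
      (prd (orbD H' (H^[N₁ + N₂] (w - cmb f (p ∘ Sum.inl)) + cmb e (p ∘ Sum.inr))) N₂ ∘L
        (prd (orbD H (w - cmb f (p ∘ Sum.inl))) (N₁ + N₂) ∘L (-GeoB_L Sum.inl f) +
          GeoB_L Sum.inr e)) p := by
  have a1 : HasFDerivAt (fun q : Fin k ⊕ Fin d → ℝ => w - cmb f (q ∘ Sum.inl))
      (-GeoB_L Sum.inl f) p := by
    have := (GeoB_L (ι := Fin k ⊕ Fin d) Sum.inl f).hasFDerivAt (x := p) |>.const_sub w
    simpa only [GeoB_L_apply] using this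
  have a2 : HasFDerivAt (fun q : Fin k ⊕ Fin d → ℝ => cmb e (q ∘ Sum.inr))
      (GeoB_L Sum.inr e) p := by
    have := (GeoB_L (ι := Fin k ⊕ Fin d) Sum.inr e).hasFDerivAt (x := p)
    have e1 : (GeoB_L (ι := Fin k ⊕ Fin d) Sum.inr e : _ → E n) = fun q => cmb e (q ∘ Sum.inr) :=
      funext fun q => GeoB_L_apply _ _ _
    rwa [e1] at this
  have a3 := ((h2.orb H Q (w - cmb f (p ∘ Sum.inl)) (N₁ + N₂) hP.nf).comp p a1).add a2
  exact (h2.orb H' Q _ N₂ hP.ng).comp p a3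

theorem GeoB_tube {n : ℕ} {H : E n → E n} {x y z : E n} {N : ℕ} {ρ ϑ : ℝ}
    (hx : z ∈ Tube H x N ρ ϑ) (hy : z ∈ Tube H y N ρ ϑ) : y ∈ Tube H x N (2 * ρ) ϑ := by
  intro i hi
  have e : H^[i] y - H^[i] x = (H^[i] z - H^[i] x) - (H^[i] z - H^[i] y) := by abel
  rw [e]
  have := norm_sub_le (H^[i] z - H^[i] x) (H^[i] z - H^[i] y)
  have a := hx i hi
  have b := hy i hi
  linarith

theorem GeoB_small {N N' : ℕ} {Q ρ Λ : ℝ} (hN : N ≤ N') (hρ : 0 < ρ) (hΛ : 0 ≤ Λ)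
    (h : 2 ^ N' * 256 * Q ^ 4 * ρ * Λ ≤ 1) : 2 ^ N * 128 * Q ^ 4 * (2 * ρ) * Λ ≤ 1 := by
  have h1 : (2 : ℝ) ^ N ≤ 2 ^ N' := pow_le_pow_right₀ one_le_two hN
  have h2 : 0 ≤ 256 * Q ^ 4 * ρ * Λ := by positivity
  calc 2 ^ N * 128 * Q ^ 4 * (2 * ρ) * Λ = 2 ^ N * (256 * Q ^ 4 * ρ * Λ) := by ring
    _ ≤ 2 ^ N' * (256 * Q ^ 4 * ρ * Λ) := mul_le_mul_of_nonneg_right h1 h2
    _ = 2 ^ N' * 256 * Q ^ 4 * ρ * Λ := by ring
    _ ≤ 1 := h

theorem GeoB_thm (h1 : StVol) (h2 : StTrv) (h3 : StCV) (h4 : StTube) (h5 : StGeoM)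
    (h6 : StGeoT) : StGeoB := by
  intro n k d H H' Q f e N₁ N₂ ϑ Λ ρ hP hkd hf he hN hϑ hϑ1 hρ hsm w Z hZ
  obtain ⟨hM, -⟩ := h5 H H' Q f e N₁ N₂ ϑ Λ ρ hP hf he
  obtain ⟨hdet, hcomp, htr⟩ := h6 H H' Q f e N₁ N₂ ϑ Λ hP hf he hN
  have hcard : Fintype.card (Fin k ⊕ Fin d) = n := by simp [hkd]
  have hder := GeoB_deriv h2 hP f e N₁ N₂ w
  have hcont : Continuous (Psi H H' f e N₁ N₂ w) :=
    continuous_iff_continuousAt.2 fun p => (hder p).continuousAt
  have hca : Continuous fun p : Fin k ⊕ Fin d → ℝ => (w - cmb f (p ∘ Sum.inl), p) := by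
    have := (GeoB_L (ι := Fin k ⊕ Fin d) Sum.inl f).continuous
    have e1 : (GeoB_L (ι := Fin k ⊕ Fin d) Sum.inl f : _ → E n) = fun q => cmb f (q ∘ Sum.inl) :=
      funext fun q => GeoB_L_apply _ _ _
    rw [e1] at this
    exact (continuous_const.sub this).prodMk continuous_id
  set D : Set (Fin k ⊕ Fin d → ℝ) := {p | Adm H H' f e N₁ N₂ ϑ Λ ρ (w - cmb f (p ∘ Sum.inl)) p ∧
    Psi H H' f e N₁ N₂ w p ∈ Z} with hD
  have hDm : MeasurableSet D := (hca.measurable hM).inter (hcont.measurable hZ)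
  have iH : Function.Injective H := Function.LeftInverse.injective hP.gf
  have iH' : Function.Injective H' := Function.LeftInverse.injective hP.fg
  have hinj : Set.InjOn (Psi H H' f e N₁ N₂ w) D := by
    rintro p ⟨⟨hg, t1, t2⟩, -⟩ p' ⟨⟨-, t1', t2'⟩, -⟩ hpp
    have hX := iH'.iterate N₂ hpp
    rw [sub_add_cancel] at t1 t1'
    rw [← hX] at t2'
    have hΛ : 0 ≤ Λ := by
      have := (hg.1 N₁ le_rfl).1
      simp only [Ico_self, prod_empty, Nat.sub_self, pow_zero, mul_one] at this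
      linarith
    have c1 := (h4 H Q 1 Λ (2 * ρ) _ f N₁ hP.nf hf one_pos le_rfl (by linarith) hg.1
      (GeoB_small (Nat.le_add_right _ _) hρ hΛ hsm)).1 _ (GeoB_tube t1 t1') (by
        have : w - cmb f (p' ∘ Sum.inl) - (w - cmb f (p ∘ Sum.inl)) =
          cmb f (p ∘ Sum.inl) - cmb f (p' ∘ Sum.inl) := by abel
        rw [this]
        exact Submodule.sub_mem _ (GeoB_mem _ _) (GeoB_mem _ _))
    have c2 := (h4 H' Q ϑ Λ (2 * ρ) _ e N₂ hP.ng he hϑ hϑ1 (by linarith) hg.2.1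
      (GeoB_small (Nat.le_add_left _ _) hρ hΛ hsm)).1 _ (GeoB_tube t2 t2') (by
        have : H^[N₁ + N₂] (w - cmb f (p' ∘ Sum.inl)) - H^[N₁ + N₂] (w - cmb f (p ∘ Sum.inl)) =
            cmb e (p ∘ Sum.inr) - cmb e (p' ∘ Sum.inr) := by
          rw [sub_eq_sub_iff_add_eq_add, ← hX, add_comm]
        rw [this]
        exact Submodule.sub_mem _ (GeoB_mem _ _) (GeoB_mem _ _))
    rw [(hcomp _).2, (hcomp _).2] at c2
    have h0 := iH.iterate N₁ (sub_eq_zero.1 ((htr _ hg).2 _ c1 c2))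
    rw [h0] at hX
    have e1 := GeoB_cmb_inj hf (sub_right_injective h0)
    have e2 := GeoB_cmb_inj he (add_left_cancel hX)
    funext i
    cases i with
    | inl i => exact (congrFun e1 i).symm
    | inr i => exact congrFun e2 i
  have hcv := (h3.cv hcard _ _ D hDm fun p _ => (hder p).hasFDerivWithinAt).2 hinj
  have hsub : Psi H H' f e N₁ N₂ w '' D ⊆ Metric.closedBall (H^[N₁] w) (2 * ρ) ∩ Z := by
    rintro _ ⟨p, ⟨⟨-, t1, t2⟩, hz⟩, rfl⟩
    refine ⟨?_, hz⟩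
    rw [sub_add_cancel] at t1
    have a := t1 N₁ le_rfl
    have b := t2 N₂ le_rfl
    rw [(hcomp _).2] at b
    rw [Nat.sub_self, pow_zero, mul_one] at a b
    rw [Metric.mem_closedBall, dist_eq_norm]
    have := norm_sub_le (Psi H H' f e N₁ N₂ w p - H^[N₁] (w - cmb f (p ∘ Sum.inl)))
      (H^[N₁] w - H^[N₁] (w - cmb f (p ∘ Sum.inl)))
    rw [sub_sub_sub_cancel_right] at this
    unfold Psi at this ⊢
    linarith
  refine le_trans (le_of_eq ?_) (hcv.trans (measure_mono hsub))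
  refine lintegral_congr fun p => ?_
  congr 1
  generalize w - cmb f (p ∘ Sum.inl) = a
  generalize hB : prd (orbD H' (H^[N₁ + N₂] a + cmb e (p ∘ Sum.inr))) N₂ = B
  have hBd : |B.det| = 1 := hB ▸ hdet _ _
  have e1 : (fun i => (B ∘L (prd (orbD H a) (N₁ + N₂) ∘L (-GeoB_L Sum.inl f) +
      GeoB_L Sum.inr e)) (Pi.single i 1)) =
      B ∘ Sum.elim (fun i => -prd (orbD H a) (N₁ + N₂) (f i)) e := by
    funext i
    simp only [ContinuousLinearMap.comp_apply, _root_.add_apply,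
      _root_.neg_apply, GeoB_L_apply, Function.comp_apply]
    congr 1
    cases i with
    | inl i =>
      have s1 : (Pi.single (Sum.inl i) (1 : ℝ) : Fin k ⊕ Fin d → ℝ) ∘ Sum.inl = Pi.single i 1 := by
        funext j
        simp [Pi.single_apply]
      have s2 : (Pi.single (Sum.inl i) (1 : ℝ) : Fin k ⊕ Fin d → ℝ) ∘ Sum.inr = 0 := by
        funext j
        simp
      rw [s1, s2, GeoB_single, GeoB_zero]
      simp
    | inr i =>
      have s1 : (Pi.single (Sum.inr i) (1 : ℝ) : Fin k ⊕ Fin d → ℝ) ∘ Sum.inr = Pi.single i 1 := by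
        funext j
        simp [Pi.single_apply]
      have s2 : (Pi.single (Sum.inr i) (1 : ℝ) : Fin k ⊕ Fin d → ℝ) ∘ Sum.inl = 0 := by
        funext j
        simp
      rw [s1, s2, GeoB_single, GeoB_zero]
      simp
  have e2 : Sum.elim (frm (orbD H a) f N₁) (frm (orbD H' (H^[N₁ + N₂] a)) e N₂) =
      prd (orbD H' (H^[N₁ + N₂] a)) N₂ ∘ Sum.elim (fun i => prd (orbD H a) (N₁ + N₂) (f i)) e := by
    rw [h2.frm_prd, h2.frm_prd, ← (hcomp a).1]
    funext i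
    cases i <;> rfl
  rw [e1, Jac, e2, h1.top _ _ hcard, h1.top _ _ hcard, hBd, hdet, GeoB_sign h1]

end Pool.Agent.Lib.MP_1df8f0_an.K
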