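import Pool.Agent.Lib.MP_1df8f0_an.K.Sm
import Pool.Agent.Lib.MP_1df8f0_an.K.Once

open MeasureTheory Finset
open scoped ENNReal

noncomputable section

namespace Pool.Agent.Lib.MP_1df8f0_an.K

section Param

variable {X : Type} [TopologicalSpace X] {n k : ℕ}

theorem GeoM_frm {D : X → ℕ → Op n} (hD : ∀ i, Continuous fun a => D a i) (e : Fin k → E n)
    (i : ℕ) : Continuous fun a => frm (D a) e i := by
  induction i with
  | zero => exact continuous_const
  | succ i ih => exact continuous_pi fun j => (hD i).clm_apply ((continuous_apply j).comp ih)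

theorem GeoM_orb {H : E n → E n} {Q : ℝ} (hH : Nice H Q) {x : X → E n} (hx : Continuous x)
    (i : ℕ) : Continuous fun a => orbD H (x a) i := by
  have h : Continuous (fderiv ℝ H) :=
    (LipschitzWith.of_dist_le' (K := Q) fun x y => by
      simpa only [dist_eq_norm] using hH.lip x y).continuous
  exact h.comp ((hH.diff.continuous.iterate i).comp hx)

theorem GeoM_cmb {ι κ : Type} [Fintype κ] (v : κ → E n) (g : κ → ι) :
    Continuous fun p : ι → ℝ => cmb v (p ∘ g) :=
  continuous_finsetSum _ fun i _ => (continuous_apply (g i)).smul continuous_const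

variable [MeasurableSpace X] [OpensMeasurableSpace X]

theorem GeoM_alp (h1 : StVol) (h2 : StN) {D : X → ℕ → Op n}
    (hD : ∀ i, Continuous fun a => D a i) (e : Fin k → E n) (i : ℕ) :
    Measurable fun a => alp (D a) e i :=
  ((((h2.locont k).comp (hD i)).mul (h1.cont.comp (GeoM_frm hD e i))).measurable).div
    (h1.cont.comp (GeoM_frm hD e (i + 1))).measurable

theorem GeoM_sgm (h1 : StVol) (h2 : StN) {D : X → ℕ → Op n}
    (hD : ∀ i, Continuous fun a => D a i) (e : Fin k → E n) (i : ℕ) :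
    Measurable fun a => sgm (D a) e i :=
  ((((h2.cont k).comp (hD i)).mul (h1.cont.comp (GeoM_frm hD e i))).measurable).div
    (h1.cont.comp (GeoM_frm hD e (i + 1))).measurable

theorem GeoM_TC (h1 : StVol) (h2 : StN) {D : X → ℕ → Op n}
    (hD : ∀ i, Continuous fun a => D a i) (e : Fin k → E n) (N : ℕ) (ϑ Λ : ℝ) :
    MeasurableSet {a | TC (D a) e N ϑ Λ} := by
  have : {a | TC (D a) e N ϑ Λ} = ⋂ i, ⋂ _ : i ≤ N,
      ({a | ∏ j ∈ Ico i N, alp (D a) e j ≤ Λ * ϑ ^ (N - i)} ∩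
        {a | ϑ ^ (N - i) * ∏ j ∈ Ico i N, sgm (D a) e j ^ 2 ≤ Λ}) := by
    ext a
    simp only [TC, Set.mem_iInter, Set.mem_inter_iff, Set.mem_ofPred_eq]
  rw [this]
  refine MeasurableSet.iInter fun i => MeasurableSet.iInter fun _ => MeasurableSet.inter ?_ ?_
  · exact measurableSet_le (Finset.measurable_fun_prod _ fun j _ => GeoM_alp h1 h2 hD e j)
      measurable_const
  · exact measurableSet_le (measurable_const.mul
      (Finset.measurable_fun_prod _ fun j _ => (GeoM_sgm h1 h2 hD e j).pow_const 2))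
      measurable_const

theorem GeoM_tube {H : E n → E n} (hH : Continuous H) {g x : X → E n} (hg : Continuous g)
    (hx : Continuous x) (N : ℕ) (ρ ϑ : ℝ) : MeasurableSet {a | g a ∈ Tube H (x a) N ρ ϑ} := by
  have : {a | g a ∈ Tube H (x a) N ρ ϑ} = ⋂ i, ⋂ _ : i ≤ N,
      {a | ‖H^[i] (g a) - H^[i] (x a)‖ ≤ ρ * ϑ ^ (N - i)} := by
    ext a
    simp only [Tube, Set.mem_iInter, Set.mem_ofPred_eq]
  rw [this]
  exact MeasurableSet.iInter fun i => MeasurableSet.iInter fun _ => measurableSet_le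
    (((hH.iterate i).comp hg).sub ((hH.iterate i).comp hx)).norm.measurable measurable_const

end Param

theorem GeoM_M (h1 : StVol) (h2 : StN) : StGeoM := by
  intro n k d H H' Q f e N₁ N₂ ϑ Λ ρ hP _ _
  have cH := hP.nf.diff.continuous
  have cH' := hP.ng.diff.continuous
  constructor
  · have c1 : Continuous fun q : E n × (Fin k ⊕ Fin d → ℝ) => q.1 := continuous_fst
    have c2 : Continuous fun q : E n × (Fin k ⊕ Fin d → ℝ) => H^[N₁ + N₂] q.1 :=
      (cH.iterate _).comp c1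
    have o1 := GeoM_orb hP.nf c1
    have o2 := GeoM_orb hP.ng c2
    exact ((GeoM_TC h1 h2 o1 f N₁ 1 Λ).inter ((GeoM_TC h1 h2 o2 e N₂ ϑ Λ).inter
      (measurableSet_le ((GeoM_alp h1 h2 o2 e (N₂ - 1)).mul (GeoM_alp h1 h2 o1 f N₁))
        measurable_const))).inter
      ((GeoM_tube cH (c1.add ((GeoM_cmb f Sum.inl).comp continuous_snd)) c1 N₁ ρ 1).inter
        (GeoM_tube cH' (c2.add ((GeoM_cmb e Sum.inr).comp continuous_snd)) c2 N₂ ρ ϑ))
  · have f1 := GeoM_frm (GeoM_orb hP.nf (continuous_id (X := E n))) f N₁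
    have f2 := GeoM_frm (GeoM_orb hP.ng (cH.iterate (N₁ + N₂))) e N₂
    refine h1.cont.comp (continuous_pi ?_)
    rintro (i | i)
    · exact (continuous_apply i).comp f1
    · exact (continuous_apply i).comp f2

theorem GeoM_inj {n : ℕ} {D : Op n} {Q : ℝ} (h : Bd D Q) : Function.Injective D := by
  rw [injective_iff_map_eq_zero]
  intro v hv
  have := h.2 v
  rw [hv, norm_zero, mul_zero] at this
  exact norm_le_zero_iff.1 this

theorem GeoM_iter {n : ℕ} {H H' : E n → E n} (h : ∀ x, H' (H x) = x) (N₁ N₂ : ℕ) (a : E n) :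
    H'^[N₂] (H^[N₁ + N₂] a) = H^[N₁] a := by
  rw [add_comm, Function.iterate_add_apply]
  exact Function.LeftInverse.iterate h N₂ _

theorem GeoM_T (h1 : StVol) (h3 : StTrv) : StGeoT := by
  intro n k d H H' Q f e N₁ N₂ ϑ Λ hP hf he hN
  refine ⟨fun x i => ?_, fun a => ⟨?_, GeoM_iter hP.gf N₁ N₂ a⟩, fun a hg => ?_⟩
  · induction i with
    | zero => simp [prd, ContinuousLinearMap.det]
    | succ i ih =>
      have : (prd (orbD H' x) (i + 1)).det = (orbD H' x i).det * (prd (orbD H' x) i).det :=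
        LinearMap.det_comp (orbD H' x i : E n →ₗ[ℝ] E n) (prd (orbD H' x) i : E n →ₗ[ℝ] E n)
      rw [this, abs_mul, ih, mul_one]
      exact hP.dg _
  · have a1 := (h3.orb H' Q _ N₂ hP.ng).comp a (h3.orb H Q a (N₁ + N₂) hP.nf)
    have e1 : H'^[N₂] ∘ H^[N₁ + N₂] = H^[N₁] := funext fun x => GeoM_iter hP.gf N₁ N₂ x
    rw [e1] at a1
    exact a1.unique (h3.orb H Q a N₁ hP.nf)
  · obtain ⟨m, rfl⟩ : ∃ m, N₂ = m + 1 := ⟨N₂ - 1, by omega⟩
    have hz : H' (H'^[m] (H^[N₁ + (m + 1)] a)) = H^[N₁] a := by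
      rw [← Function.iterate_succ_apply' H' m]
      exact GeoM_iter hP.gf N₁ (m + 1) a
    have hid : orbD H a N₁ ∘L orbD H' (H^[N₁ + (m + 1)] a) m = ContinuousLinearMap.id ℝ (E n) := by
      have a1 := (hP.nf.diff _).hasFDerivAt.comp (H'^[m] (H^[N₁ + (m + 1)] a))
        (hP.ng.diff _).hasFDerivAt
      have e1 : H ∘ H' = id := funext hP.fg
      rw [e1, hz] at a1
      exact a1.unique (hasFDerivAt_id _)
    have pf : 0 < vol f := by
      rw [h1.on f hf]
      exact one_pos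
    have pe : 0 < vol e := by
      rw [h1.on e he]
      exact one_pos
    exact h3.trv (orbD H a N₁) (orbD H' (H^[N₁ + (m + 1)] a) m) Q (frm (orbD H a) f N₁)
      (frm (orbD H' (H^[N₁ + (m + 1)] a)) e m) hP.nf.one (hP.nf.bd _) hid
      (h3.frm_pos _ f (fun i => GeoM_inj (hP.nf.bd _)) pf N₁)
      (h3.frm_pos _ e (fun i => GeoM_inj (hP.ng.bd _)) pe m) hg.2.2

theorem GeoM_thm (h1 : StVol) (h2 : StN) (h3 : StTrv) : StGeoM ∧ StGeoT :=
  ⟨GeoM_M h1 h2, GeoM_T h1 h3⟩

end Pool.Agent.Lib.MP_1df8f0_an.K
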