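import Pool.Agent.Lib.MP_1df8f0_an.K.Sy

/-!
The words of all levels of a designed tower are exponentially separated.
-/

open Finset

noncomputable section

namespace Pool.Agent.Lib.MP_1df8f0_an.K

lemma Inv_equiv {A B α : Type} [Fintype A] [Fintype B] {x : A → List α} {h : ℕ} {θ γ : ℝ}
    (H : XInv x h θ γ) (f : B → A) (hf : Function.Bijective f) :
    XInv (fun b => x (f b)) h θ γ := by
  refine ⟨fun b => H.1 _, fun y => ?_⟩
  rw [Fintype.card_of_bijective hf, hf.sum_comp (fun a => Real.exp (-(θ * ed (x a) y)))]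
  exact H.2 y

lemma Inv_shift {α : Type} {s h : ℕ} {wd : ℕ → List α} {θ γ : ℝ} (hs : 0 < s)
    (H : XInv (fun I : Fin s => wd I) h θ γ) (ρ : ℕ) :
    XInv (fun I : Fin s => wd ((I + ρ) % s)) h θ γ := by
  refine Inv_equiv H (fun I : Fin s => (⟨(I + ρ) % s, Nat.mod_lt _ hs⟩ : Fin s)) ?_
  refine Finite.injective_iff_bijective.1 fun i j hij => ?_
  have h1 : (i : ℕ) ≡ j [MOD s] := Nat.ModEq.add_right_cancel' ρ (congrArg Fin.val hij)
  exact Fin.ext (Nat.ModEq.eq_of_lt_of_lt h1 i.2 j.2)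

lemma Inv_ed_single {α : Type} (c : α) (y : List α) (hc : c ∉ y) : y.length + 1 ≤ ed [c] y := by
  obtain ⟨z, h1, h2, h3⟩ := cl_ed [c] y
  rcases List.sublist_singleton.1 h1 with rfl | rfl
  · simp only [List.length_singleton, List.length_nil] at h3
    omega
  · exact absurd (h2.subset (List.mem_singleton.2 rfl)) hc

lemma Inv_num (n : ℕ) :
    (n : ℝ) * Real.exp (-(64 * ((n : ℝ) - 1))) ≤
      4 * 3 ^ 128 * Real.exp (-(64 * (4 / 5) * (1 + n))) := by
  have a1 : (n : ℝ) ≤ Real.exp (64 / 5 * n) := by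
    have := Real.add_one_le_exp (64 / 5 * (n : ℝ))
    have h0 : (0 : ℝ) ≤ n := Nat.cast_nonneg n
    linarith
  have a2 : Real.exp (128 : ℕ) ≤ 3 ^ 128 := by
    rw [← mul_one ((128 : ℕ) : ℝ), Real.exp_nat_mul]
    exact pow_le_pow_left₀ (Real.exp_pos _).le (Real.exp_one_lt_d9.le.trans (by norm_num)) _
  have a3 : (0 : ℝ) ≤ 3 ^ 128 := by positivity
  calc _ ≤ Real.exp (64 / 5 * n) * Real.exp (-(64 * ((n : ℝ) - 1))) :=
        mul_le_mul_of_nonneg_right a1 (Real.exp_pos _).le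
    _ ≤ Real.exp (128 : ℕ) * Real.exp (-(64 * (4 / 5) * (1 + n))) := by
        rw [← Real.exp_add, ← Real.exp_add]
        refine Real.exp_le_exp.2 ?_
        push_cast
        linarith
    _ ≤ _ := mul_le_mul_of_nonneg_right (by linarith) (Real.exp_pos _).le

lemma Inv_base {α : Type} (s : ℕ) (e : ℕ → α) (hs : (8 : ℝ) * 3 ^ 128 ≤ s)
    (he : Set.InjOn e (Set.Iio s)) : XInv (fun I : Fin s => [e I]) 1 64 (4 / 5) := by
  classical
  refine ⟨fun _ => rfl, fun y => ?_⟩
  have hcard : (univ.filter fun I : Fin s => e I ∈ y).card ≤ y.length := by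
    refine le_trans (card_le_card_of_injOn (fun I : Fin s => e I) (t := y.toFinset) ?_ ?_)
      (List.toFinset_card_le y)
    · intro i hi
      simpa using hi
    · intro i _ j _ hij
      exact Fin.ext (he i.2 j.2 hij)
  have hpt : ∀ I : Fin s, Real.exp (-(64 * (ed [e I] y : ℝ))) ≤
      (if e I ∈ y then Real.exp (-(64 * ((y.length : ℝ) - 1))) else 0) +
        1 / 2 * Real.exp (-(64 * (4 / 5) * (1 + y.length))) := by
    intro I
    split_ifs with hI
    · have b1 : y.length ≤ 1 + ed [e I] y := len_le_ed [e I] y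
      have b2 : (y.length : ℝ) ≤ 1 + ed [e I] y := by exact_mod_cast b1
      have b3 : Real.exp (-(64 * (ed [e I] y : ℝ))) ≤ Real.exp (-(64 * ((y.length : ℝ) - 1))) :=
        Real.exp_le_exp.2 (by linarith)
      have b4 := Real.exp_pos (-(64 * (4 / 5) * (1 + (y.length : ℝ))))
      linarith
    · have b2 : (y.length : ℝ) + 1 ≤ ed [e I] y := by exact_mod_cast Inv_ed_single _ _ hI
      have h0 : (0 : ℝ) ≤ y.length := Nat.cast_nonneg _
      have b3 : Real.exp (-(64 * (ed [e I] y : ℝ))) * Real.exp 1 ≤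
          Real.exp (-(64 * (4 / 5) * (1 + y.length))) := by
        rw [← Real.exp_add]
        exact Real.exp_le_exp.2 (by linarith)
      have b4 : (2 : ℝ) ≤ Real.exp 1 := by
        have := Real.add_one_le_exp (1 : ℝ)
        linarith
      have b5 := mul_le_mul_of_nonneg_left b4 (Real.exp_pos (-(64 * (ed [e I] y : ℝ)))).le
      linarith
  refine (sum_le_sum fun I _ => hpt I).trans ?_
  rw [sum_add_distrib, ← sum_filter, sum_const, sum_const, card_univ, Fintype.card_fin,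
    nsmul_eq_mul, nsmul_eq_mul, Nat.cast_one]
  have c1 : ((univ.filter fun I : Fin s => e I ∈ y).card : ℝ) ≤ y.length := by
    exact_mod_cast hcard
  have c2 := mul_le_mul_of_nonneg_right c1 (Real.exp_pos (-(64 * ((y.length : ℝ) - 1)))).le
  have c3 := Inv_num y.length
  have c4 := mul_le_mul_of_nonneg_right hs
    (Real.exp_pos (-(64 * (4 / 5) * (1 + (y.length : ℝ))))).le
  generalize (3 : ℝ) ^ 128 = q at c3 c4
  linarith

lemma Inv_round (h1 : StM2) (h2 : StDes) {α : Type} {s J Kp m h : ℕ} {wd : ℕ → List α}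
    {θ γ t : ℝ} (hs : 0 < s) (hJ : 1 ≤ J) (hK : J ^ (2 * J + 3) ≤ Kp) (hm : m = 2 * J * Kp)
    (hv : ∀ r : Fin m, var J Kp r < J * Kp) (hθ : 0 < θ) (ht : 0 < t) (hγ : γ ≤ 1)
    (hh : 1 ≤ (θ * t / 2) ^ 2 * h) (H : XInv (fun I : Fin s => wd I) h θ γ) (ρ : ℕ) :
    XInv (fun ω : Fin (J * Kp) → Fin s =>
      roundWord s wd (fun r : Fin m => (ω ⟨var J Kp r, hv r⟩ : ℕ)) ρ) (m * h) (θ / 2) (γ - t) := by
  have : Nonempty (Fin s) := ⟨⟨0, hs⟩⟩
  have key := h1 ((List.finRange m).map fun r : Fin m =>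
    ((⟨var J Kp r, hv r⟩ : Fin (J * Kp)), fun I : Fin s => wd ((I + ρ) % s))) h 2 θ γ t
    (by norm_num) hθ ht hγ (by exact_mod_cast hh) ?_ ?_
  · simp only [List.length_map, List.length_finRange, List.map_map, Nat.cast_ofNat] at key
    simp only [roundWord, List.ofFn_eq_map]
    exact key
  · intro v
    have e1 := h2.var_two J Kp v hJ hK
    rw [← hm, ← List.map_coe_finRange_eq_range, List.map_map] at e1
    rw [← List.count_map_of_injective _ Fin.val Fin.val_injective, List.map_map, List.map_map]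
    exact e1
  · intro l hl
    obtain ⟨r, _, rfl⟩ := List.mem_map.1 hl
    exact Inv_shift hs H ρ

lemma Inv_next (h1 : StM2) {α A : Type} [Fintype A] [Nonempty A] {s h : ℕ}
    {x : ℕ → A → List α} {θ γ t : ℝ} (hs : 0 < s) (hθ : 0 < θ) (ht : 0 < t) (hγ : γ ≤ 1)
    (hh : 1 ≤ (θ * t / s) ^ 2 * h) (H : ∀ ρ, XInv (x ρ) h θ γ) :
    XInv (fun ω : A => ((List.range s).map fun ρ => x ρ ω).flatten) (s * h) (θ / s) (γ - t) := by
  have key := h1 ((List.range s).map fun ρ => ((), x ρ)) h s θ γ t hs hθ ht hγ hh ?_ ?_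
  · have := Inv_equiv key (fun (ω : A) (_ : Unit) => ω) (Equiv.funUnique Unit A).symm.bijective
    simp only [List.length_map, List.length_range, List.map_map] at this
    exact this
  · intro v
    refine List.count_le_length.trans ?_
    simp
  · intro l hl
    obtain ⟨r, _, rfl⟩ := List.mem_map.1 hl
    exact H r

lemma Inv_digits (h2 : StDes) {α : Type} {s V s' h : ℕ} {x : (Fin V → Fin s) → List α}
    {w : ℕ → List α} {θ γ : ℝ} (hs' : s' = s ^ V) (hl : ∀ I, (w I).length = h)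
    (hw : ∀ (I : ℕ) (ω : Fin V → Fin s), (∀ v, (ω v : ℕ) = I / s ^ (v : ℕ) % s) → w I = x ω)
    (H : XInv x h θ γ) : XInv (fun I : Fin s' => w I) h θ γ := by
  subst hs'
  refine ⟨fun I => hl I, fun y => ?_⟩
  have e1 := h2.digits s V (fun ω => Real.exp (-(θ * ed (x ω) y)))
    (fun I => Real.exp (-(θ * ed (w I) y))) fun I ω _ hω => by rw [hw I ω hω]
  rw [sum_range] at e1
  have e2 := H.2 y
  rw [Fintype.card_fun, Fintype.card_fin, Fintype.card_fin] at e2
  rw [Fintype.card_fin, e1]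
  exact e2

lemma Inv_step (h1 : StM2) (h2 : StDes) {α : Type} {s J Kp m h Θ s' : ℕ} {wd : ℕ → List α}
    {σ : ℕ → ℕ → ℕ} {q : ℝ} (hq : 1 ≤ q) (hs : 2 ≤ s) (hΘ : 1 ≤ Θ) (hJ : 1 ≤ J)
    (hK : J ^ (2 * J + 3) ≤ Kp) (hm : m = 2 * J * Kp) (hh : 1 ≤ h) (hs' : s' = s ^ (J * Kp))
    (hσ : ∀ I i, σ I i = I / s ^ var J Kp i % s) (hl : ∀ I, (wd I).length = h)
    (th : 1 ≤ (2 / (q * Θ)) ^ 2 * h) (k2 : (q * s * Θ) ^ 2 ≤ Kp)
    (H : XInv (fun I : Fin s => wd I) h (64 / Θ) (11 / 20 + 1 / (4 * q))) :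
    XInv (fun I : Fin s' => nextWord s wd fun r : Fin m => σ I r) (s * (m * h))
      (64 / ((2 * s * Θ : ℕ) : ℝ)) (11 / 20 + 1 / (4 * (q * 2))) := by
  have hs0 : 0 < s := by omega
  have : Nonempty (Fin s) := ⟨⟨0, hs0⟩⟩
  have hq0 : 0 < q := by linarith
  have hΘr : (0 : ℝ) < Θ := by exact_mod_cast hΘ
  have hsr : (0 : ℝ) < s := by exact_mod_cast hs0
  have hv : ∀ r : Fin m, var J Kp r < J * Kp := fun r => h2.var_lt J Kp r hJ (hm ▸ r.2)
  have ht : 0 < 1 / (16 * q) := by positivity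
  have hγ : 11 / 20 + 1 / (4 * q) ≤ 1 := by
    have : 1 / (4 * q) ≤ 1 / 4 := one_div_le_one_div_of_le (by norm_num) (by linarith)
    linarith
  have R := fun ρ => Inv_round h1 h2 hs0 hJ hK hm hv (by positivity) ht hγ (by
    refine th.trans (le_of_eq ?_)
    congr 2
    field_simp
    norm_num) H ρ
  have N := Inv_next h1 hs0 (by positivity) ht (by linarith) (by
    have b1 : Kp ≤ m * h := by
      rw [hm]
      calc Kp = 1 * Kp * 1 := by ring
        _ ≤ 2 * J * Kp * h := Nat.mul_le_mul (Nat.mul_le_mul_right _ (by omega)) hh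
    have b2 : (Kp : ℝ) ≤ (m * h : ℕ) := by exact_mod_cast b1
    have b3 : (64 : ℝ) / Θ / 2 * (1 / (16 * q)) / s = 2 / (q * s * Θ) := by
      field_simp
      norm_num
    have b4 : 0 < (q * s * Θ) ^ 2 := by positivity
    rw [b3, div_pow, div_mul_eq_mul_div, le_div_iff₀ b4]
    nlinarith) R
  have e1 : (64 : ℝ) / ((2 * s * Θ : ℕ) : ℝ) = 64 / Θ / 2 / s := by
    push_cast
    field_simp
  have e2 : 11 / 20 + 1 / (4 * (q * 2)) = 11 / 20 + 1 / (4 * q) - 1 / (16 * q) - 1 / (16 * q) := by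
    field_simp
    ring
  rw [e1, e2]
  refine Inv_digits h2 (w := fun I => nextWord s wd fun r : Fin m => σ I r) hs'
    (fun I => length_nextWord hl _) (fun I ω hω => ?_) N
  have e3 : (fun r : Fin m => σ I r) = fun r : Fin m => (ω ⟨var J Kp r, hv r⟩ : ℕ) := by
    funext r
    rw [hσ, hω]
  rw [e3]
  rfl

theorem Inv_thm (h1 : StM2) (h2 : StDes) : StInv := by
  intro α P Θ J Kp e hD he b
  have hN := h2.num P Θ J Kp hD
  have hh : ∀ b, 0 < P.h b := fun b => by
    induction b with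
    | zero => exact Nat.one_pos
    | succ b ih => exact Nat.mul_pos (by have := hN.s2 b; omega) (Nat.mul_pos (hN.m1 b) ih)
  induction b with
  | zero =>
    have e1 : (11 : ℝ) / 20 + 1 / (4 * 2 ^ 0) = 4 / 5 := by norm_num
    rw [hD.t0, e1, Nat.cast_one, div_one]
    refine Inv_base (P.s 0) e (le_of_eq ?_) he
    rw [hD.s0, Nat.cast_mul, Nat.cast_pow, Nat.cast_ofNat, Nat.cast_ofNat]
  | succ b ih =>
    have e1 : (fun I : Fin (P.s (b + 1)) => P.word e (b + 1) I) = fun I : Fin (P.s (b + 1)) =>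
        nextWord (P.s b) (P.word e b) fun r : Fin (P.m b) => P.σ b I r :=
      funext fun I => word_succ P e b I (hh b)
    rw [e1, hD.tS, pow_succ]
    refine Inv_step h1 h2 (J := J b) (Kp := Kp b) (one_le_pow₀ (by norm_num)) (hN.s2 b) (hN.t1 b)
      (by have := hN.j2 b; omega) (le_trans (Nat.le_mul_of_pos_left _ (by positivity)) (hN.k1 b))
      (hD.hm b) (hh b) (hD.sS b) (hD.hσ b) (fun I => by simp [Params.word]) (hN.th b) ?_ ih
    have b1 : (2 ^ b * P.s b * Θ b) ^ 2 ≤ Kp b := by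
      refine le_trans (Nat.pow_le_pow_left ?_ 2) (hN.k2 b)
      calc 2 ^ b * P.s b * Θ b = 1 * (2 ^ b * P.s b * Θ b) := by ring
        _ ≤ 8 * (2 ^ b * P.s b * Θ b) := Nat.mul_le_mul_right _ (by norm_num)
        _ = _ := by ring
    exact_mod_cast b1

end Pool.Agent.Lib.MP_1df8f0_an.K
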