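import Pool.Agent.Lib.MP_1df8f0_an.K.Sm

/-!
Iterates of a smooth system.
-/

open MeasureTheory Finset

namespace Pool.Agent.Lib.MP_1df8f0_an.K

variable {n : ℕ} {S S' : Torus n → Torus n} {F G : E n → E n} {K : ℝ}

theorem Iter_zero (F : E n → E n) (x : E n) :
    fderiv ℝ F^[0] x = ContinuousLinearMap.id ℝ (E n) := by
  rw [Function.iterate_zero, fderiv_id]

theorem Iter_add (hF : Differentiable ℝ F) (s t : ℕ) (x : E n) :
    fderiv ℝ F^[s + t] x = fderiv ℝ F^[s] (F^[t] x) ∘L fderiv ℝ F^[t] x := by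
  rw [Function.iterate_add]
  exact fderiv_comp x (hF.iterate s _) (hF.iterate t _)

theorem Iter_succ (hF : Differentiable ℝ F) (t : ℕ) (x : E n) :
    fderiv ℝ F^[t + 1] x = fderiv ℝ F (F^[t] x) ∘L fderiv ℝ F^[t] x := by
  rw [add_comm, Iter_add hF, Function.iterate_one]

theorem Iter_bd (h : Half S F G K) (t : ℕ) (x : E n) : ‖fderiv ℝ F^[t] x‖ ≤ K ^ t := by
  induction t with
  | zero =>
    rw [Iter_zero, pow_zero]
    exact ContinuousLinearMap.norm_id_le
  | succ t ih =>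
    rw [Iter_succ h.diff, pow_succ']
    exact (ContinuousLinearMap.opNorm_comp_le _ _).trans
      (mul_le_mul (h.bd _) ih (norm_nonneg _) ((norm_nonneg _).trans (h.bd x)))

theorem Iter_lipF (h : Half S F G K) (t : ℕ) (x y : E n) :
    ‖F^[t] x - F^[t] y‖ ≤ K ^ t * ‖x - y‖ :=
  Convex.norm_image_sub_le_of_norm_fderiv_le (𝕜 := ℝ) (s := Set.univ)
    (fun z _ => h.diff.iterate t z) (fun z _ => Iter_bd h t z) convex_univ (Set.mem_univ y)
    (Set.mem_univ x)

theorem Iter_lip (h : Half S F G K) (hK : 2 ≤ K) (t : ℕ) (x y : E n) :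
    ‖fderiv ℝ F^[t] x - fderiv ℝ F^[t] y‖ ≤ K ^ (3 * t) * ‖x - y‖ := by
  have hK0 : 0 ≤ K := by linarith
  induction t with
  | zero =>
    rw [Iter_zero, Iter_zero, sub_self, norm_zero]
    positivity
  | succ t ih =>
    rw [Iter_succ h.diff, Iter_succ h.diff]
    have e1 : fderiv ℝ F (F^[t] x) ∘L fderiv ℝ F^[t] x - fderiv ℝ F (F^[t] y) ∘L fderiv ℝ F^[t] y =
        (fderiv ℝ F (F^[t] x) - fderiv ℝ F (F^[t] y)) ∘L fderiv ℝ F^[t] x +
          fderiv ℝ F (F^[t] y) ∘L (fderiv ℝ F^[t] x - fderiv ℝ F^[t] y) := by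
      rw [ContinuousLinearMap.sub_comp, ContinuousLinearMap.comp_sub]
      abel
    have e2 : ‖(fderiv ℝ F (F^[t] x) - fderiv ℝ F (F^[t] y)) ∘L fderiv ℝ F^[t] x‖ ≤
        K * (K ^ t * ‖x - y‖) * K ^ t := by
      refine (ContinuousLinearMap.opNorm_comp_le _ _).trans
        (mul_le_mul ((h.lip _ _).trans ?_) (Iter_bd h t x) (norm_nonneg _) (by positivity))
      exact mul_le_mul_of_nonneg_left (Iter_lipF h t x y) hK0
    have e3 : ‖fderiv ℝ F (F^[t] y) ∘L (fderiv ℝ F^[t] x - fderiv ℝ F^[t] y)‖ ≤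
        K * (K ^ (3 * t) * ‖x - y‖) :=
      (ContinuousLinearMap.opNorm_comp_le _ _).trans
        (mul_le_mul (h.bd _) ih (norm_nonneg _) hK0)
    have e4 : K ^ t * K ^ t ≤ K ^ (3 * t) := by
      rw [← pow_add]
      exact pow_le_pow_right₀ (by linarith) (by omega)
    have e5 : (2 : ℝ) ≤ K ^ 2 := by nlinarith
    rw [e1]
    calc _ ≤ K * (K ^ t * ‖x - y‖) * K ^ t + K * (K ^ (3 * t) * ‖x - y‖) :=
          (norm_add_le _ _).trans (add_le_add e2 e3)
      _ = K * ‖x - y‖ * (K ^ t * K ^ t) + K * ‖x - y‖ * K ^ (3 * t) := by ring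
      _ ≤ K * ‖x - y‖ * K ^ (3 * t) + K * ‖x - y‖ * K ^ (3 * t) := by gcongr
      _ = 2 * (K * ‖x - y‖ * K ^ (3 * t)) := by ring
      _ ≤ K ^ 2 * (K * ‖x - y‖ * K ^ (3 * t)) := by gcongr
      _ = _ := by ring

theorem Iter_lift (h : Half S F G K) (t : ℕ) (x : E n) : S^[t] (pr x) = pr (F^[t] x) := by
  induction t with
  | zero => rfl
  | succ t ih => rw [Function.iterate_succ_apply', Function.iterate_succ_apply', ih, h.lift]

theorem Iter_det (h : Half S F G K) (t : ℕ) (x : E n) : |(fderiv ℝ F^[t] x).det| = 1 := by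
  induction t with
  | zero =>
    rw [Iter_zero]
    simp [ContinuousLinearMap.det]
  | succ t ih =>
    have e1 := h.det (F^[t] x)
    rw [Iter_succ h.diff]
    unfold ContinuousLinearMap.det at *
    rw [ContinuousLinearMap.toLinearMap_comp, LinearMap.det_comp, abs_mul, e1, ih, mul_one]

theorem Iter_per (h : Half S F G K) (t : ℕ) (x x' δ : E n) (hx : pr x = pr x') :
    F^[t] (x + δ) - F^[t] x = F^[t] (x' + δ) - F^[t] x' := by
  induction t with
  | zero => simp
  | succ t ih =>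
    have e1 : pr (F^[t] x) = pr (F^[t] x') := by rw [← Iter_lift h, ← Iter_lift h, hx]
    have e2 := h.per _ _ (F^[t] (x + δ) - F^[t] x) e1
    rw [add_sub_cancel, ih, add_sub_cancel] at e2
    simp only [Function.iterate_succ_apply']
    exact e2

theorem Iter_half (h : Half S F G K) (hK : 2 ≤ K) (t : ℕ) :
    Half S^[t] F^[t] G^[t] (K ^ (3 * t)) where
  mp := h.mp.iterate t
  lift := Iter_lift h t
  inv := Function.LeftInverse.iterate h.inv t
  diff := h.diff.iterate t
  bd x := (Iter_bd h t x).trans (pow_le_pow_right₀ (by linarith) (by omega))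
  lip := Iter_lip h hK t
  det := Iter_det h t
  per := Iter_per h t

theorem Iter_dper (h : Half S F G K) (x x' : E n) (hx : pr x = pr x') :
    fderiv ℝ F x = fderiv ℝ F x' := by
  have e1 : F = fun y => F (y + (x' - x)) + (F x - F x') := by
    funext y
    have e2 := h.per x x' (y - x) hx
    rw [add_sub_cancel, show x' + (y - x) = y + (x' - x) by abel] at e2
    rw [eq_add_of_sub_eq e2]
    abel
  have e3 : fderiv ℝ F x = fderiv ℝ (fun y => F (y + (x' - x)) + (F x - F x')) x := by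
    rw [← e1]
  rw [e3, fderiv_add_const, fderiv_comp_add_right, add_sub_cancel]

theorem Iter_id (hF : Differentiable ℝ F) (hG : Differentiable ℝ G) (h : ∀ x, G (F x) = x)
    (x : E n) : fderiv ℝ G (F x) ∘L fderiv ℝ F x = ContinuousLinearMap.id ℝ (E n) := by
  have e1 : G ∘ F = id := funext h
  rw [← fderiv_comp x (hG _) (hF _), e1, fderiv_id]

theorem Iter_nice (h : Half S F G K) (h' : Half S' G F K) (hK : 1 ≤ K) : Nice F K where
  one := hK
  diff := h.diff
  bd x := ⟨h.bd x, fun v => by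
    have e1 : fderiv ℝ G (F x) (fderiv ℝ F x v) = v :=
      congrArg (fun A : Op n => A v) (Iter_id h.diff h'.diff h.inv x)
    calc ‖v‖ = ‖fderiv ℝ G (F x) (fderiv ℝ F x v)‖ := by rw [e1]
      _ ≤ _ := (fderiv ℝ G (F x)).le_of_opNorm_le (h'.bd _) _⟩
  lip := h.lip

theorem Iter_cont (h : Half S F G K) : Continuous (fderiv ℝ F) :=
  (LipschitzWith.of_dist_le' (K := K) fun x y => by
    rw [dist_eq_norm, dist_eq_norm]
    exact h.lip x y).continuous

theorem Iter_thm (h1 : StProj) : StIter := by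
  intro n S S' F G K hS
  have hK : 1 ≤ K := by linarith [hS.two]
  have hf := Iter_half hS.f hS.two
  have hg := Iter_half hS.g hS.two
  have hfw : ∀ t y, pr (F^[t] (sec y)) = pr (sec (S^[t] y)) := fun t y => by
    rw [← Iter_lift hS.f, h1.prsec, h1.prsec]
  have hbw : ∀ t y, pr (G^[t] (sec (S^[t] y))) = pr (sec y) := fun t y => by
    rw [← Iter_lift hS.g, ← hfw, Iter_lift hS.g, (hf t).inv]
  refine ⟨⟨hK, hS.f.mp, fun t => (Iter_cont (hf t)).measurable.comp h1.msec,
    fun t => (Iter_cont (hg t)).measurable.comp (h1.msec.comp (hf t).mp.measurable),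
    fun s t y => ?_, fun s t y => ?_, fun y => Iter_zero F _, fun y => Iter_zero G _,
    fun t y => ?_, fun t y => ?_, fun t y => Iter_bd hS.f t _, fun t y => Iter_bd hS.g t _,
    fun t y => Iter_det hS.f t _⟩, fun t => ⟨hf t, hg t, ?_,
      fun x x' hx => ⟨Iter_dper (hf t) x x' hx, Iter_dper (hg t) x x' hx⟩,
      fun x x' => ⟨Iter_lipF hS.f t x x', Iter_lipF hS.g t x x'⟩⟩⟩
  · unfold Afw
    rw [add_comm, Iter_add hS.f.diff, Iter_dper (hf t) _ _ (hfw s y)]
  · unfold Bkw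
    rw [Iter_add hS.g.diff, add_comm, Function.iterate_add_apply,
      Iter_dper (hg s) _ _ (hbw t (S^[s] y))]
  · unfold Afw Bkw
    rw [← Iter_dper (hf t) _ _ (hbw t y)]
    exact Iter_id (hg t).diff (hf t).diff (hg t).inv _
  · unfold Afw Bkw
    rw [← Iter_dper (hg t) _ _ (hfw t y)]
    exact Iter_id (hf t).diff (hg t).diff (hf t).inv _
  · have hQ : 1 ≤ K ^ (3 * t) := one_le_pow₀ hK
    exact ⟨Iter_nice (hf t) (hg t) hQ, Iter_nice (hg t) (hf t) hQ, (hf t).inv, (hg t).inv,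
      (hf t).det, (hg t).det⟩

end Pool.Agent.Lib.MP_1df8f0_an.K
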