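import Pool.Agent.Lib.MP_1df8f0_an.K.Sy

/-!
Concatenations of random words stay exponentially separated.
-/

open Finset

noncomputable section

namespace Pool.Agent.Lib.MP_1df8f0_an.K

/-- `Φ` behaves like a sum of `c` functions whose exponentials have mean at most one. -/
def M2_Inv {A : Type} [Fintype A] (Φ : A → ℝ) (c : ℕ) : Prop :=
  ∀ m : A → ℝ, ∑ a, Real.exp (m a) * (c * (1 - m a) + Φ a) ≤ c * Fintype.card A

lemma M2_inv_zero {A : Type} [Fintype A] : M2_Inv (fun _ : A => (0 : ℝ)) 0 := fun m => by simp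

lemma M2_inv_add {A : Type} [Fintype A] {Φ g : A → ℝ} {c : ℕ} (h : M2_Inv Φ c)
    (hg : ∑ a, Real.exp (g a) ≤ Fintype.card A) : M2_Inv (fun a => Φ a + g a) (c + 1) := by
  intro m
  have h1 : ∀ a, Real.exp (m a) * (((c + 1 : ℕ) : ℝ) * (1 - m a) + (Φ a + g a)) ≤
      Real.exp (m a) * (c * (1 - m a) + Φ a) + Real.exp (g a) := fun a => by
    have h2 := Real.add_one_le_exp (g a - m a)
    have h3 : Real.exp (g a) = Real.exp (m a) * Real.exp (g a - m a) := by
      rw [← Real.exp_add]; congr 1; ring
    have h4 := mul_le_mul_of_nonneg_left h2 (Real.exp_pos (m a)).le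
    rw [h3]
    push_cast
    linarith
  refine (sum_le_sum fun a _ => h1 a).trans ?_
  rw [sum_add_distrib]
  have := h m
  push_cast
  linarith

lemma M2_inv_mono {A : Type} [Fintype A] {Φ : A → ℝ} {c D : ℕ} (h : M2_Inv Φ c) (hc : c ≤ D) :
    M2_Inv Φ D := by
  induction hc with
  | refl => exact h
  | step _ ih => simpa using M2_inv_add (g := fun _ => 0) ih (by simp)

lemma M2_inv_end {A : Type} [Fintype A] {Φ : A → ℝ} {c D : ℕ} (h : M2_Inv Φ c) (hc : c ≤ D)
    (hD : 1 ≤ D) : ∑ a, Real.exp (Φ a / D) ≤ Fintype.card A := by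
  have hD' : (0 : ℝ) < D := by exact_mod_cast hD
  have h1 := M2_inv_mono h hc fun a => Φ a / D
  have h2 : ∀ a, Real.exp (Φ a / D) * (D * (1 - Φ a / D) + Φ a) = D * Real.exp (Φ a / D) :=
    fun a => by field_simp; ring
  simp only [h2, ← mul_sum] at h1
  exact le_of_mul_le_mul_left h1 hD'

lemma M2_prod {V A : Type} [Fintype V] [DecidableEq V] [Fintype A] {Φ : V → A → ℝ} {D : ℕ}
    (h : ∀ v, ∑ a, Real.exp (Φ v a / D) ≤ Fintype.card A) :
    ∑ ω : V → A, Real.exp ((∑ v, Φ v (ω v)) / D) ≤ Fintype.card (V → A) := by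
  have h1 : ∀ ω : V → A, Real.exp ((∑ v, Φ v (ω v)) / D) = ∏ v, Real.exp (Φ v (ω v) / D) :=
    fun ω => by rw [sum_div, Real.exp_sum]
  simp only [h1]
  rw [← Fintype.piFinset_univ, ← prod_univ_sum (fun _ : V => (univ : Finset A))
    fun v a => Real.exp (Φ v a / D), Fintype.card_pi]
  push_cast
  exact prod_le_prod (fun v _ => sum_nonneg fun a _ => (Real.exp_pos _).le) fun v _ => h v

lemma M2_geom {z : ℝ} {h : ℕ} (hz : 0 < z) (hh : 1 ≤ z ^ 2 * h) (m : ℕ) :
    ∑ i ∈ range m, Real.exp (-(z * (h + i))) ≤ 1 := by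
  have h1 : ∀ m : ℕ, ∑ i ∈ range m, Real.exp (-(z * i)) ≤
      (1 + 1 / z) * (1 - Real.exp (-(z * m))) := by
    intro m
    induction m with
    | zero => simp
    | succ m ih =>
      rw [sum_range_succ]
      have e1 : Real.exp (-(z * m)) = Real.exp (-(z * ((m + 1 : ℕ) : ℝ))) * Real.exp z := by
        rw [← Real.exp_add]; congr 1; push_cast; ring
      have e2 := Real.add_one_le_exp z
      have e3 := Real.exp_pos (-(z * ((m + 1 : ℕ) : ℝ)))
      generalize Real.exp (-(z * ((m + 1 : ℕ) : ℝ))) = q at *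
      generalize Real.exp (-(z * (m : ℝ))) = p at *
      have e4 : q * (z + 1) ≤ p := by rw [e1]; exact mul_le_mul_of_nonneg_left e2 e3.le
      have e5 : (1 + 1 / z) * q ≤ 1 / z * p := by
        have : (1 + 1 / z) * q = 1 / z * (q * (z + 1)) := by field_simp
        rw [this]
        exact mul_le_mul_of_nonneg_left e4 (by positivity)
      linarith
  have h2 : 1 + 1 / z ≤ Real.exp (z * h) := by
    have e1 : 1 / z ≤ z * h := by
      rw [div_le_iff₀ hz]; linarith
    have := Real.add_one_le_exp (z * h)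
    linarith
  have h3 : ∀ i : ℕ, Real.exp (-(z * (h + i))) = Real.exp (-(z * h)) * Real.exp (-(z * i)) :=
    fun i => by rw [← Real.exp_add]; congr 1; ring
  simp only [h3, ← mul_sum]
  have h4 : ∑ i ∈ range m, Real.exp (-(z * i)) ≤ Real.exp (z * h) := by
    refine (h1 m).trans (le_trans ?_ h2)
    have := Real.exp_pos (-(z * m))
    have : 0 < 1 + 1 / z := by positivity
    nlinarith
  calc _ ≤ Real.exp (-(z * h)) * Real.exp (z * h) :=
        mul_le_mul_of_nonneg_left h4 (Real.exp_pos _).le
    _ = 1 := by rw [← Real.exp_add]; simp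

lemma M2_cut {α : Type} {th : ℝ} (hth : 0 ≤ th) (u v y : List α) :
    Real.exp (-(th * ed (u ++ v) y)) ≤ ∑ i ∈ range (y.length + 1),
      Real.exp (-(th * ed u (y.take i))) * Real.exp (-(th * ed v (y.drop i))) := by
  obtain ⟨W1, W2, rfl, h⟩ := ed_split u v y
  refine le_trans ?_ (single_le_sum (f := fun i => Real.exp (-(th * ed u ((W1 ++ W2).take i))) *
    Real.exp (-(th * ed v ((W1 ++ W2).drop i)))) (fun i _ => by positivity)
    (mem_range.2 (show W1.length < _ by rw [List.length_append]; omega)))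
  simp only [List.take_left', List.drop_left']
  rw [← Real.exp_add, Real.exp_le_exp]
  have h' : (ed u W1 : ℝ) + ed v W2 ≤ ed (u ++ v) (W1 ++ W2) := by exact_mod_cast h
  nlinarith

lemma M2_main {α V A : Type} [Fintype V] [DecidableEq V] [Fintype A] {h D : ℕ} {θ γ t : ℝ}
    (hD : 1 ≤ D) (hθ : 0 < θ) (ht : 0 < t) (hγ : γ ≤ 1) (hh : 1 ≤ (θ * t / D) ^ 2 * h)
    (L : List (V × (A → List α))) (hL : ∀ l ∈ L, XInv l.2 h θ γ) (Φ : V → A → ℝ) (c : V → ℕ)
    (hΦ : ∀ v, M2_Inv (Φ v) (c v)) (hc : ∀ v, c v + (L.map Prod.fst).count v ≤ D) (y : List α) :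
    ∑ ω : V → A, Real.exp ((∑ v, Φ v (ω v)) / D) *
        Real.exp (-(θ / D * ed (L.map fun l => l.2 (ω l.1)).flatten y)) ≤
      Fintype.card (V → A) *
        Real.exp (-(θ / D * (γ - t) * ((L.length * h : ℕ) + y.length))) := by
  have hD' : (0 : ℝ) < D := by exact_mod_cast hD
  have hth : 0 < θ / D := by positivity
  induction L generalizing Φ c y with
  | nil =>
    simp only [List.map_nil, List.flatten_nil, List.length_nil, zero_mul, Nat.cast_zero, zero_add,
      ← sum_mul]
    refine mul_le_mul (M2_prod fun v => M2_inv_end (hΦ v) (by simpa using hc v) hD) ?_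
      (Real.exp_pos _).le (Nat.cast_nonneg _)
    have h1 : (y.length : ℝ) ≤ ed ([] : List α) y := by
      exact_mod_cast (by simpa using len_le_ed ([] : List α) y)
    have h2 : (0 : ℝ) ≤ y.length := Nat.cast_nonneg _
    rw [Real.exp_le_exp, neg_le_neg_iff, mul_assoc]
    exact mul_le_mul_of_nonneg_left (by nlinarith) hth.le
  | cons l L ih =>
    obtain ⟨v, F⟩ := l
    have hF : XInv F h θ γ := hL (v, F) (by simp)
    set B : ℝ := Fintype.card (V → A) *
      Real.exp (-(θ / D * (γ - t) * ((((v, F) :: L).length * h : ℕ) + y.length))) with hB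
    have key : ∀ i ∈ range (y.length + 1), ∑ ω : V → A, Real.exp ((∑ w, Φ w (ω w)) / D) *
        (Real.exp (-(θ / D * ed (F (ω v)) (y.take i))) *
          Real.exp (-(θ / D * ed (L.map fun l => l.2 (ω l.1)).flatten (y.drop i)))) ≤
        B * Real.exp (-(θ * t / D * (h + i))) := by
      intro i hi
      have hi' : i ≤ y.length := Nat.lt_succ_iff.1 (mem_range.1 hi)
      let g : A → ℝ := fun a => -(θ * ed (F a) (y.take i)) + θ * γ * (h + i)
      have hg : ∑ a, Real.exp (g a) ≤ Fintype.card A := by
        have h1 := hF.2 (y.take i)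
        rw [List.length_take_of_le hi'] at h1
        simp only [g, Real.exp_add, ← sum_mul]
        refine (mul_le_mul_of_nonneg_right h1 (Real.exp_pos _).le).trans ?_
        rw [mul_assoc, ← Real.exp_add]
        simp
      have h2 := ih (fun l hl => hL l (by simp [hl]))
        (fun w a => Φ w a + if w = v then g a else 0) (fun w => c w + if w = v then 1 else 0)
        (fun w => by
          by_cases hw : w = v
          · simpa [hw] using M2_inv_add (hΦ v) hg
          · simpa [hw] using hΦ w)
        (fun w => by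
          have := hc w
          simp only [List.map_cons, List.count_cons, beq_iff_eq] at this
          by_cases hw : w = v
          · simp only [hw, if_true] at this ⊢; omega
          · simp only [hw, Ne.symm hw, if_false] at this ⊢; omega) (y.drop i)
      have h3 : ∀ ω : V → A, Real.exp ((∑ w, Φ w (ω w)) / D) *
          (Real.exp (-(θ / D * ed (F (ω v)) (y.take i))) *
            Real.exp (-(θ / D * ed (L.map fun l => l.2 (ω l.1)).flatten (y.drop i)))) =
          Real.exp (-(θ / D * γ * (h + i))) *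
            (Real.exp ((∑ w, (Φ w (ω w) + if w = v then g (ω w) else 0)) / D) *
              Real.exp (-(θ / D * ed (L.map fun l => l.2 (ω l.1)).flatten (y.drop i)))) := by
        intro ω
        rw [sum_add_distrib, sum_ite_eq', if_pos (mem_univ _)]
        simp only [← Real.exp_add, g]
        congr 1
        ring
      simp only [h3, ← mul_sum]
      refine (mul_le_mul_of_nonneg_left h2 (Real.exp_pos _).le).trans (le_of_eq ?_)
      rw [hB, mul_left_comm, ← Real.exp_add, mul_assoc (Fintype.card (V → A) : ℝ),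
        ← Real.exp_add, List.length_drop,
        Nat.cast_sub hi', List.length_cons]
      congr 2
      push_cast
      ring
    have hB0 : 0 ≤ B := by positivity
    calc _ ≤ ∑ ω : V → A, ∑ i ∈ range (y.length + 1), Real.exp ((∑ w, Φ w (ω w)) / D) *
          (Real.exp (-(θ / D * ed (F (ω v)) (y.take i))) *
            Real.exp (-(θ / D * ed (L.map fun l => l.2 (ω l.1)).flatten (y.drop i)))) := by
          refine sum_le_sum fun ω _ => ?_
          rw [← mul_sum]
          exact mul_le_mul_of_nonneg_left (M2_cut hth.le _ _ _) (Real.exp_pos _).le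
      _ ≤ ∑ i ∈ range (y.length + 1), B * Real.exp (-(θ * t / D * (h + i))) := by
          rw [sum_comm]
          exact sum_le_sum key
      _ ≤ B := by
          rw [← mul_sum]
          exact mul_le_of_le_one_right hB0 (M2_geom (by positivity) hh _)

theorem M2_thm : StM2 := by
  intro α V A _ _ _ _ L h D θ γ t hD hθ ht hγ hh hc hL
  refine ⟨fun ω => ?_, fun y => ?_⟩
  · have h1 : ∀ l ∈ L, (l.2 (ω l.1)).length = h := fun l hl => (hL l hl).1 _
    clear hc hL
    induction L with
    | nil => simp
    | cons l L ih =>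
      simp only [List.map_cons, List.flatten_cons, List.length_append, List.length_cons]
      rw [h1 l (by simp), ih fun l hl => h1 l (by simp [hl])]
      ring
  · simpa using M2_main hD hθ ht hγ hh L hL (fun _ _ => 0) (fun _ => 0) (fun _ => M2_inv_zero)
      (by simpa using hc) y

end Pool.Agent.Lib.MP_1df8f0_an.K
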