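import Pool.Agent.Lib.MP_1df8f0_an.K.Sm

/-!
Basic facts on the maximal growth of volumes.
-/

open MeasureTheory Finset

noncomputable section

namespace Pool.Agent.Lib.MP_1df8f0_an.K

variable {n : ℕ}

theorem N_compact (n k : ℕ) : IsCompact {v : Fin k → E n | ∀ i, ‖v i‖ ≤ 1} := by
  have h : {v : Fin k → E n | ∀ i, ‖v i‖ ≤ 1} =
      Set.pi Set.univ fun _ => Metric.closedBall (0 : E n) 1 := by
    ext v
    simp
  rw [h]
  exact isCompact_univ_pi fun _ => isCompact_closedBall _ _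

theorem N_jcont (h1 : StVol) (n k : ℕ) :
    Continuous fun p : Op n × (Fin k → E n) => vol (p.1 ∘ p.2) :=
  h1.cont.comp (continuous_pi fun i =>
    continuous_fst.clm_apply ((continuous_apply i).comp continuous_snd))

theorem N_vcont (h1 : StVol) (k : ℕ) (B : Op n) :
    Continuous fun v : Fin k → E n => vol (B ∘ v) :=
  (N_jcont h1 n k).comp (Continuous.prodMk_right B)

theorem N_ge (h1 : StVol) {k : ℕ} (B : Op n) {v : Fin k → E n} (hv : ∀ i, ‖v i‖ ≤ 1) :
    vol (B ∘ v) ≤ Nk k B :=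
  le_csSup ((N_compact n k).image (N_vcont h1 k B)).bddAbove ⟨v, hv, rfl⟩

theorem N_max (h1 : StVol) (k : ℕ) (B : Op n) :
    ∃ u : Fin k → E n, (∀ i, ‖u i‖ ≤ 1) ∧ Nk k B = vol (B ∘ u) := by
  obtain ⟨u, hu, e⟩ := (N_compact n k).exists_sSup_image_eq ⟨0, fun i => by simp⟩
    (N_vcont h1 k B).continuousOn
  exact ⟨u, hu, e⟩

theorem N_nonneg (h1 : StVol) (k : ℕ) (B : Op n) : 0 ≤ Nk k B := by
  obtain ⟨u, -, e⟩ := N_max h1 k B
  rw [e]
  exact h1.nonneg _

theorem N_lonn (h1 : StVol) (k : ℕ) (B : Op n) : 0 ≤ Lo k B := by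
  cases k with
  | zero => exact le_rfl
  | succ k => exact N_nonneg h1 k B

theorem N_mem {ι : Type} (v : ι → E n) (i : ι) : v i ∈ sp v := Submodule.subset_span ⟨i, rfl⟩

theorem N_le (h1 : StVol) {k : ℕ} (B : Op n) (v : Fin k → E n) :
    vol (B ∘ v) ≤ Nk k B * vol v := by
  by_cases hv : 0 < vol v
  · obtain ⟨y, hy, e⟩ := h1.onb v hv
    have h2 := h1.ratio B v y fun i => e ▸ N_mem y i
    rw [h1.on y hy, mul_one] at h2
    rw [← h2]
    exact mul_le_mul_of_nonneg_right (N_ge h1 B fun i => (hy.1 i).le) hv.le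
  · have h2 : ¬ 0 < vol (B ∘ v) := fun h =>
      hv ((h1.pos v).2 (LinearIndependent.of_comp (B : E n →ₗ[ℝ] E n) ((h1.pos _).1 h)))
    exact (not_lt.1 h2).trans (mul_nonneg (N_nonneg h1 k B) (h1.nonneg v))

theorem N_mul (h1 : StVol) (k : ℕ) (A B : Op n) : Nk k (A ∘L B) ≤ Nk k A * Nk k B := by
  obtain ⟨u, hu, e⟩ := N_max h1 k (A ∘L B)
  rw [e]
  exact (N_le h1 A (B ∘ u)).trans (mul_le_mul_of_nonneg_left (N_ge h1 B hu) (N_nonneg h1 k A))

theorem N_dsp_le {ι : Type} (x : E n) (v : ι → E n) : dsp x v ≤ ‖x‖ := by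
  have := Metric.infDist_le_dist_of_mem (x := x) (show (0 : E n) ∈ (sp v : Set (E n)) from
    (sp v).zero_mem)
  rwa [dist_zero_right] at this

theorem N_dsp_nonneg {ι : Type} (x : E n) (v : ι → E n) : 0 ≤ dsp x v := Metric.infDist_nonneg

theorem N_smin (h1 : StVol) {k : ℕ} (B : Op n) (e : Fin k → E n) (x : E n) (hx : x ∈ sp e) :
    vol (B ∘ e) * ‖x‖ ≤ Lo k B * vol e * ‖B x‖ := by
  by_cases h0 : x = 0
  · simp [h0]
  cases k with
  | zero =>
    exfalso
    apply h0
    simpa [sp] using hx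
  | succ k =>
    by_cases hv : 0 < vol e
    swap
    · have a : vol e = 0 := le_antisymm (not_lt.1 hv) (h1.nonneg e)
      have b := N_le h1 B e
      rw [a, mul_zero] at b
      rw [a, mul_zero, zero_mul]
      exact mul_nonpos_of_nonpos_of_nonneg b (norm_nonneg x)
    have hx0 : 0 < ‖x‖ := norm_pos_iff.2 h0
    have hrk : Module.finrank ℝ (sp e) = Fintype.card (Fin (k + 1)) :=
      finrank_span_eq_card ((h1.pos e).1 hv)
    let x0 : sp e := ⟨‖x‖⁻¹ • x, (sp e).smul_mem _ hx⟩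
    have hx1 : ‖x0‖ = 1 := by
      change ‖‖x‖⁻¹ • x‖ = 1
      rw [norm_smul, norm_inv, norm_norm, inv_mul_cancel₀ hx0.ne']
    obtain ⟨b, hb⟩ := Orthonormal.exists_orthonormalBasis_extension_of_card_eq (𝕜 := ℝ) hrk
      (v := fun _ => x0) (s := {0}) (orthonormal_subsingleton_iff.2 fun _ => hx1)
    let y : Fin (k + 1) → E n := fun i => (b i : E n)
    have hy : Orthonormal ℝ y := b.orthonormal.comp_linearIsometry (sp e).subtypeₗᵢ
    have hy0 : y 0 = ‖x‖⁻¹ • x := by
      change (b 0 : E n) = _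
      rw [hb 0 rfl]
    have h2 := h1.ratio B e y fun i => (b i).2
    rw [h1.on y hy, mul_one] at h2
    have h3 : vol (B ∘ y) = dsp (B (y 0)) (B ∘ Fin.tail y) * vol (B ∘ Fin.tail y) := by
      rw [← h1.cons, ← Fin.comp_cons, Fin.cons_self_tail]
    have h4 : vol (B ∘ y) ≤ ‖x‖⁻¹ * ‖B x‖ * Nk k B := by
      rw [h3]
      refine mul_le_mul ((N_dsp_le _ _).trans_eq ?_) (N_ge h1 B fun i => (hy.1 _).le)
        (h1.nonneg _) (by positivity)
      rw [hy0, map_smul, norm_smul, norm_inv, norm_norm]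
    rw [← h2]
    calc vol (B ∘ y) * vol e * ‖x‖ ≤ ‖x‖⁻¹ * ‖B x‖ * Nk k B * vol e * ‖x‖ := by gcongr
      _ = Nk k B * vol e * ‖B x‖ := by field_simp

theorem N_quot (h1 : StVol) {k : ℕ} (B : Op n) (e : Fin k → E n) (x : E n) :
    dsp (B x) (B ∘ e) * vol (B ∘ e) ≤ Nk (k + 1) B * vol e * dsp x e := by
  have h := N_le h1 B (Fin.cons x e : Fin (k + 1) → E n)
  rw [Fin.comp_cons, h1.cons, h1.cons] at h
  exact h.trans_eq (by ring)

theorem N_pow (h1 : StVol) (k : ℕ) (B : Op n) : Nk k B ≤ ‖B‖ ^ k := by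
  obtain ⟨u, hu, e⟩ := N_max h1 k B
  rw [e]
  refine (h1.hada _).trans ?_
  calc ∏ i, ‖(B ∘ u) i‖ ≤ ∏ _i : Fin k, ‖B‖ :=
        Finset.prod_le_prod (fun i _ => norm_nonneg _) fun i _ => B.unit_le_opNorm _ (hu i)
    _ = ‖B‖ ^ k := by simp

theorem N_zero (h1 : StVol) (B : Op n) : Nk 0 B = 1 := by
  obtain ⟨u, -, e⟩ := N_max h1 0 B
  rw [e]
  simp [vol]

theorem N_big (h1 : StVol) (k : ℕ) (B : Op n) (hk : n < k) : Nk k B = 0 := by
  obtain ⟨u, -, e⟩ := N_max h1 k B
  rw [e]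
  refine le_antisymm (not_lt.1 fun h => ?_) (h1.nonneg _)
  have := ((h1.pos _).1 h).fintype_card_le_finrank
  simp only [Fintype.card_fin, finrank_euclideanSpace] at this
  omega

theorem N_inv (h1 : StVol) (k : ℕ) (A B : Op n) (hk : k ≤ n)
    (h : A ∘L B = ContinuousLinearMap.id ℝ (E n)) : 1 ≤ Nk k A * Nk k B := by
  refine le_trans ?_ (N_mul h1 k A B)
  have ho := h1.evon (Fin.castLE hk) (Fin.castLE_injective hk)
  rw [h, ← h1.on _ ho]
  exact N_ge h1 (ContinuousLinearMap.id ℝ (E n)) fun i => (ho.1 i).le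

theorem N_cont (h1 : StVol) (k : ℕ) : Continuous (Nk k : Op n → ℝ) :=
  (N_compact n k).continuous_sSup (f := fun (B : Op n) (v : Fin k → E n) => vol (B ∘ v))
    (N_jcont h1 n k)

/-- expansion of the volume along one vector -/
theorem N_slot (h1 : StVol) {k : ℕ} (v : Fin (k + 1) → E n) (i : Fin (k + 1)) :
    vol v = dsp (v i) (v ∘ i.succAbove) * vol (v ∘ i.succAbove) := by
  rw [← h1.cons, ← h1.reindex i.cycleRange.symm v]
  congr 1
  funext j
  refine Fin.cases ?_ (fun j => ?_) j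
  · simp
  · simp

theorem N_dsp_sum (h1 : StVol) {ι : Type} (w : ι → E n) (c : Fin n → ℝ) (z : Fin n → E n) :
    dsp (∑ a, c a • z a) w ≤ ∑ a, |c a| * dsp (z a) w := by
  choose g hg hd _ using fun a => h1.split (z a) w
  have hm : ∑ a, c a • g a ∈ (sp w : Set (E n)) :=
    (sp w).sum_mem fun a _ => (sp w).smul_mem _ (hg a)
  refine (Metric.infDist_le_dist_of_mem hm).trans ?_
  rw [dist_eq_norm, ← Finset.sum_sub_distrib]
  refine (norm_sum_le _ _).trans_eq (Finset.sum_congr rfl fun a _ => ?_)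
  rw [← smul_sub, norm_smul, hd, Real.norm_eq_abs]

/-- one vector is replaced by a coordinate vector -/
theorem N_step (h1 : StVol) {k : ℕ} (hk : k ≤ n) (B : Op n) (u : Fin k → E n) (i : Fin k)
    (hu : ‖u i‖ ≤ 1) : ∃ a : Fin n,
      vol (B ∘ u) ≤ n * vol (B ∘ Function.update u i (EuclideanSpace.single a 1)) := by
  cases k with
  | zero => exact i.elim0
  | succ k =>
    have : Nonempty (Fin n) := ⟨⟨0, by omega⟩⟩
    obtain ⟨a, ha⟩ := Finite.exists_max fun a : Fin n =>
      dsp (B (EuclideanSpace.single a 1)) ((B ∘ u) ∘ i.succAbove)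
    refine ⟨a, ?_⟩
    have e1 : (B ∘ Function.update u i (EuclideanSpace.single a 1)) ∘ i.succAbove =
        (B ∘ u) ∘ i.succAbove := by
      funext j
      simp
    have e2 : (B ∘ u) i = ∑ b, u i b • B (EuclideanSpace.single b 1) := by
      have := (EuclideanSpace.basisFun (Fin n) ℝ).sum_repr (u i)
      simp only [EuclideanSpace.basisFun_repr, EuclideanSpace.basisFun_apply] at this
      rw [Function.comp_apply]
      conv_lhs => rw [← this]
      simp only [map_sum, map_smul]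
    rw [N_slot h1 (B ∘ u) i, N_slot h1 (B ∘ Function.update u i _) i, e1, ← mul_assoc]
    refine mul_le_mul_of_nonneg_right ?_ (h1.nonneg _)
    rw [e2, Function.comp_apply, Function.update_self]
    refine (N_dsp_sum h1 _ _ _).trans ?_
    calc _ ≤ ∑ _b : Fin n, 1 * dsp (B (EuclideanSpace.single a 1)) ((B ∘ u) ∘ i.succAbove) :=
          Finset.sum_le_sum fun b _ => mul_le_mul
            (((Real.norm_eq_abs _).symm.trans_le (PiLp.norm_apply_le (u i) b)).trans hu) (ha b)
            (N_dsp_nonneg _ _) zero_le_one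
      _ = _ := by simp

theorem N_all (h1 : StVol) {k : ℕ} (hk : k ≤ n) (B : Op n) (u : Fin k → E n)
    (hu : ∀ i, ‖u i‖ ≤ 1) (s : Finset (Fin k)) : ∃ u' : Fin k → E n,
      (∀ i ∈ s, ∃ a, u' i = EuclideanSpace.single a 1) ∧ (∀ i, i ∉ s → u' i = u i) ∧
        vol (B ∘ u) ≤ (n : ℝ) ^ s.card * vol (B ∘ u') := by
  induction s using Finset.induction_on with
  | empty => exact ⟨u, by simp, fun _ _ => rfl, by simp⟩
  | insert i s hi ih =>
    obtain ⟨u', a1, a2, a3⟩ := ih
    obtain ⟨a, ha⟩ := N_step h1 hk B u' i (by rw [a2 i hi]; exact hu i)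
    refine ⟨Function.update u' i (EuclideanSpace.single a 1), fun j hj => ?_, fun j hj => ?_, ?_⟩
    · by_cases e : j = i
      · exact ⟨a, by rw [e, Function.update_self]⟩
      · rw [Function.update_of_ne e]
        exact a1 j ((Finset.mem_insert.1 hj).resolve_left e)
    · rw [Finset.mem_insert, not_or] at hj
      rw [Function.update_of_ne hj.1]
      exact a2 j hj.2
    · rw [Finset.card_insert_of_notMem hi, pow_succ, mul_assoc]
      exact a3.trans (mul_le_mul_of_nonneg_left ha (by positivity))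

theorem N_frame (h1 : StVol) (k : ℕ) (B : Op n) (hk : k ≤ n) (hB : Function.Injective B) :
    0 < Nk k B ∧ ∃ I : Fin k → Fin n, Function.Injective I ∧
      Nk k B ≤ (n : ℝ) ^ k * vol (B ∘ ev I) := by
  have ho := h1.evon (Fin.castLE hk) (Fin.castLE_injective hk)
  have hp : 0 < Nk k B := by
    refine lt_of_lt_of_le ((h1.pos _).2 ?_) (N_ge h1 B fun i => (ho.1 i).le)
    exact ho.linearIndependent.map' (B : E n →ₗ[ℝ] E n) (LinearMap.ker_eq_bot.2 hB)
  refine ⟨hp, ?_⟩
  obtain ⟨u, hu, e⟩ := N_max h1 k B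
  obtain ⟨u', a1, -, a3⟩ := N_all h1 hk B u hu Finset.univ
  choose I hI using fun i => a1 i (Finset.mem_univ i)
  have e2 : u' = ev I := funext hI
  rw [e2, Finset.card_univ, Fintype.card_fin, ← e] at a3
  refine ⟨I, ?_, a3⟩
  have h2 : 0 < vol (B ∘ ev I) := by
    by_contra h
    have h3 : vol (B ∘ ev I) = 0 := le_antisymm (not_lt.1 h) (h1.nonneg _)
    rw [h3, mul_zero] at a3
    exact absurd hp (not_lt.2 a3)
  intro i j hij
  refine ((h1.pos _).1 h2).injective ?_
  simp only [Function.comp_apply, ev, hij]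

theorem N_thm (h1 : StVol) : StN where
  nonneg := N_nonneg h1
  lonn := N_lonn h1
  le := N_le h1
  mul := N_mul h1
  lomul := fun k A B => by
    cases k with
    | zero => simp [Lo]
    | succ k => exact N_mul h1 k A B
  smin := N_smin h1
  quot := N_quot h1
  pow := N_pow h1
  zero := N_zero h1
  big := N_big h1
  inv := N_inv h1
  cont := N_cont h1
  locont := fun k => by
    cases k with
    | zero => exact continuous_const
    | succ k => exact N_cont h1 k
  frame := N_frame h1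

end Pool.Agent.Lib.MP_1df8f0_an.K
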