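import Pool.Agent.Lib.MP_1df8f0_an.K.Sm
import Pool.Agent.Lib.MP_1df8f0_an.K.Once

/-! Cone lemma and volume distortion. -/

open Finset

namespace Pool.Agent.Lib.MP_1df8f0_an.K

theorem Pert_cmb {n k : ℕ} (B : Op n) (v : Fin k → E n) (c : Fin k → ℝ) :
    cmb (B ∘ v) c = B (cmb v c) := by simp [cmb]

theorem Pert_proj {n k : ℕ} (f : Fin k → E n) (x : E n) :
    ‖x - (sp f).starProjection x‖ = dsp x f := by
  rw [Submodule.starProjection_minimal, dsp, Metric.infDist_eq_iInf]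
  simp only [dist_eq_norm]
  rfl

theorem Pert_step {n : ℕ} {D : Op n} {Q r : ℝ} (hQ : 1 ≤ Q) (hD : Bd D Q)
    (hr : 128 * Q ^ 2 * r ≤ 1) {x y g : E n} (a1 : ‖y - D x‖ ≤ Q * r * ‖x‖)
    (a2 : ‖x - g‖ ≤ ‖x‖ / (32 * Q ^ 2)) :
    31 * ‖x‖ ≤ 32 * ‖g‖ ∧ 119 * ‖D g‖ ≤ 124 * ‖y‖ ∧ ‖y‖ ≤ 2 * ‖D g‖ := by
  have q0 : 0 < Q := by linarith
  rw [le_div_iff₀ (by positivity)] at a2
  have b1 := mul_le_mul_of_nonneg_left (one_le_pow₀ hQ (n := 2)) (norm_nonneg (x - g))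
  have b2 := norm_sub_norm_le x g
  have b3 : ‖y - D g‖ ≤ Q * r * ‖x‖ + Q * ‖x - g‖ := by
    refine (norm_sub_le_norm_sub_add_norm_sub y (D x) (D g)).trans (add_le_add a1 ?_)
    rw [← map_sub]
    exact D.le_of_opNorm_le hD.1 _
  have b4 := mul_le_mul_of_nonneg_left b3 q0.le
  have b5 := mul_le_mul_of_nonneg_right hr (norm_nonneg x)
  have b6 : 124 * ‖y - D g‖ ≤ 5 * ‖D g‖ :=
    le_of_mul_le_mul_left (by nlinarith [hD.2 g]) q0
  have b7 := norm_sub_norm_le y (D g)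
  have b8 := norm_sub_norm_le (D g) y
  rw [norm_sub_rev] at b8
  exact ⟨by linarith, by linarith, by linarith [norm_nonneg (D g)]⟩

theorem Pert_one (h2 : StN) (h3 : StSV) {n k : ℕ} {D : Op n} {Q r : ℝ} (hQ : 1 ≤ Q)
    (hD : Bd D Q) (hr : 128 * Q ^ 2 * r ≤ 1) {f : Fin k → E n} (v0 : 0 < vol f)
    (v1 : 0 < vol (D ∘ f)) {x y : E n} (a1 : ‖y - D x‖ ≤ Q * r * ‖x‖)
    (a2 : dsp x f ≤ ‖x‖ / (32 * Q ^ 2)) :
    ‖x‖ ≤ 2 * (Lo k D * vol f / vol (D ∘ f)) * ‖y‖ ∧ ‖x‖ ≤ 2 * Q * ‖y‖ ∧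
      ∀ c P : ℝ, 0 ≤ c → 0 ≤ P → dsp x f * ((Nk k D * vol f / vol (D ∘ f)) ^ 2 * P) ≤ c * ‖x‖ →
        dsp y (D ∘ f) * P ≤ 2 * c * ‖y‖ + Q * r * P * ‖x‖ := by
  obtain ⟨b1, b2, -⟩ := Pert_step hQ hD hr a1 ((Pert_proj f x).trans_le a2)
  have b3 := h2.smin D f _ ((sp f).starProjection_apply_mem x)
  have b4 := hD.2 ((sp f).starProjection x)
  generalize (sp f).starProjection x = g at b1 b2 b3 b4
  have kk : ∀ a : ℝ, 0 ≤ a → ‖g‖ ≤ a * ‖D g‖ → ‖x‖ ≤ 2 * a * ‖y‖ := fun a ha h => by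
    nlinarith [mul_le_mul_of_nonneg_left b2 ha, mul_nonneg ha (norm_nonneg y)]
  have a0 : 0 ≤ Lo k D * vol f / vol (D ∘ f) := div_nonneg (mul_nonneg (h2.lonn _ _) v0.le) v1.le
  have c1 := kk _ a0 (by
    rw [div_mul_eq_mul_div, le_div_iff₀' v1]
    exact b3)
  refine ⟨c1, kk Q (by linarith) b4, fun c P hc hP h => ?_⟩
  have b0 : 0 ≤ Nk (k + 1) D * vol f / vol (D ∘ f) :=
    div_nonneg (mul_nonneg (h2.nonneg _ _) v0.le) v1.le
  have s1 : 1 ≤ Nk k D * vol f / vol (D ∘ f) := (one_le_div v1).2 (h2.le D f)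
  have c2 : dsp (D x) (D ∘ f) ≤ Nk (k + 1) D * vol f / vol (D ∘ f) * dsp x f := by
    rw [div_mul_eq_mul_div, le_div_iff₀ v1]
    exact h2.quot D f x
  have c3 : Nk (k + 1) D * vol f / vol (D ∘ f) * (Lo k D * vol f / vol (D ∘ f)) ≤
      (Nk k D * vol f / vol (D ∘ f)) ^ 2 := by
    have := mul_le_mul_of_nonneg_right (h3.logc k D) (sq_nonneg (vol f / vol (D ∘ f)))
    simp only [mul_div_assoc]
    linarith
  have c4 : dsp y (D ∘ f) ≤ dsp (D x) (D ∘ f) + ‖y - D x‖ := by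
    rw [← dist_eq_norm]
    exact Metric.infDist_le_infDist_add_dist
  generalize Nk (k + 1) D * vol f / vol (D ∘ f) = b at b0 c2 c3
  generalize Nk k D * vol f / vol (D ∘ f) = s at h s1 c3
  generalize Lo k D * vol f / vol (D ∘ f) = a at a0 c1 c3
  have c5 : b * dsp x f * P ≤ 2 * c * ‖y‖ := by
    refine le_of_mul_le_mul_left ?_ (pow_pos (one_pos.trans_le s1) 2)
    have d1 := mul_le_mul_of_nonneg_left (h.trans (mul_le_mul_of_nonneg_left c1 hc)) b0
    have d2 := mul_le_mul_of_nonneg_right c3 (mul_nonneg hc (norm_nonneg y))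
    linarith
  have c6 := mul_le_mul_of_nonneg_right (c4.trans (add_le_add c2 a1)) hP
  linarith

theorem Pert_thm (h1 : StVol) (h2 : StN) (h3 : StSV) : StPert := by
  intro n k D e N Q ϑ Λ ρ hQ hD he t0 t1 hρ hT hs
  have v0 : ∀ i, 0 < vol (frm D e i) := fun i => by
    induction i with
    | zero => exact he
    | succ i ih =>
      refine (h1.pos _).2 (((h1.pos _).1 ih).map' (D i : E n →ₗ[ℝ] E n)
        (LinearMap.ker_eq_bot'.2 fun v (hv : D i v = 0) => norm_le_zero_iff.1 ?_))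
      simpa [hv] using (hD i).2 v
  have s1 : ∀ i, 1 ≤ sgm D e i := fun i => (one_le_div (v0 (i + 1))).2 (h2.le _ _)
  have a0 : ∀ i, 0 ≤ alp D e i := fun i =>
    div_nonneg (mul_nonneg (h2.lonn _ _) (v0 _).le) (v0 _).le
  have p1 : ∀ i, 1 ≤ ∏ j ∈ Ico i N, sgm D e j ^ 2 := fun i =>
    Finset.one_le_prod fun j _ => one_le_pow₀ (s1 j)
  have l1 : 1 ≤ Λ := by simpa using (hT N le_rfl).1
  have q2 : 1 ≤ Q ^ 2 := one_le_pow₀ hQ
  have w0 : 0 ≤ 2 * Q ^ 2 * ρ * Λ := by positivity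
  have hr : ∀ i, 128 * Q ^ 2 * (ρ * ϑ ^ (N - i)) ≤ 1 := fun i => by
    refine le_trans ?_ hs
    have k1 : ϑ ^ (N - i) ≤ 2 ^ N * Q ^ 2 * Λ := (pow_le_one₀ t0.le t1).trans
      (one_le_mul_of_one_le_of_one_le (one_le_mul_of_one_le_of_one_le
        (one_le_pow₀ one_le_two) q2) l1)
    have k2 := mul_le_mul_of_nonneg_left k1 (show 0 ≤ 128 * Q ^ 2 * ρ by positivity)
    linarith
  have A : ∀ δ : ℕ → E n, δ 0 ∈ sp e →
      (∀ i < N, ‖δ (i + 1) - D i (δ i)‖ ≤ Q * (ρ * ϑ ^ (N - i)) * ‖δ i‖) →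
      ∀ i ≤ N, dsp (δ i) (frm D e i) ≤ ‖δ i‖ / (32 * Q ^ 2) := fun δ d0 hδ => by
    have k1 : ∀ i ≤ N, dsp (δ i) (frm D e i) * ∏ j ∈ Ico i N, sgm D e j ^ 2 ≤
        (2 ^ i - 1) * (2 * Q ^ 2 * ρ * Λ) * ‖δ i‖ →
        dsp (δ i) (frm D e i) ≤ ‖δ i‖ / (32 * Q ^ 2) := fun i hi h => by
      refine ((le_mul_of_one_le_right Metric.infDist_nonneg (p1 i)).trans h).trans ?_
      rw [le_div_iff₀ (by positivity), mul_right_comm]
      refine mul_le_of_le_one_left (norm_nonneg _) ?_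
      have k2 : (2 : ℝ) ^ i - 1 ≤ 2 ^ N := by
        linarith [pow_le_pow_right₀ (one_le_two (α := ℝ)) hi]
      have k3 := mul_le_mul_of_nonneg_right k2 (show 0 ≤ Q ^ 4 * ρ * Λ by positivity)
      have k4 : 0 ≤ 2 ^ N * (Q ^ 4 * ρ * Λ) := by positivity
      linarith
    have k2 : ∀ i ≤ N, dsp (δ i) (frm D e i) * ∏ j ∈ Ico i N, sgm D e j ^ 2 ≤
        (2 ^ i - 1) * (2 * Q ^ 2 * ρ * Λ) * ‖δ i‖ := fun i hi => by
      induction i with
      | zero =>
        have : dsp (δ 0) (frm D e 0) = 0 := Metric.infDist_zero_of_mem d0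
        simp [this]
      | succ i ih =>
        have j1 := ih (by omega)
        obtain ⟨-, j2, j3⟩ := Pert_one h2 h3 hQ (hD i) (hr i) (v0 i) (v0 (i + 1)) (hδ i hi)
          (k1 i (by omega) j1)
        have j4 := (hT i (by omega)).2
        rw [prod_eq_prod_Ico_succ_bot hi] at j1 j4
        have j5 := j3 _ _ (mul_nonneg (sub_nonneg.2 (one_le_pow₀ one_le_two)) w0)
          (zero_le_one.trans (p1 (i + 1))) j1
        refine j5.trans ?_
        have j6 : ϑ ^ (N - i) * ∏ j ∈ Ico (i + 1) N, sgm D e j ^ 2 ≤ Λ :=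
          (mul_le_mul_of_nonneg_left (le_mul_of_one_le_left (zero_le_one.trans (p1 _))
            (one_le_pow₀ (s1 i))) (by positivity)).trans j4
        have j7 := mul_le_mul_of_nonneg_left (mul_le_mul j6 j2 (norm_nonneg _) (by linarith))
          (show 0 ≤ Q * ρ by positivity)
        rw [pow_succ (2 : ℝ) i]
        linarith
    exact fun i hi => k1 i hi (k2 i hi)
  refine ⟨fun δ d0 hδ i hi => ⟨A δ d0 hδ i hi, ?_⟩, fun D' hD' => ?_⟩
  · have k1 : ∀ m, i + m ≤ N → ‖δ i‖ ≤ 2 ^ m * (∏ j ∈ Ico i (i + m), alp D e j) * ‖δ (i + m)‖ ∧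
        ‖δ i‖ ≤ (2 * Q) ^ m * ‖δ (i + m)‖ := fun m hm => by
      induction m with
      | zero => simp
      | succ m ih =>
        obtain ⟨j1, j2⟩ := ih (by omega)
        obtain ⟨j3, j4, -⟩ := Pert_one h2 h3 hQ (hD (i + m)) (hr _) (v0 _) (v0 (i + m + 1))
          (hδ _ hm) (A δ d0 hδ _ (by omega))
        refine ⟨j1.trans ((mul_le_mul_of_nonneg_left j3 (mul_nonneg (by positivity)
          (prod_nonneg fun j _ => a0 j))).trans_eq ?_),
          j2.trans ((mul_le_mul_of_nonneg_left j4 (by positivity)).trans_eq ?_)⟩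
        · rw [← add_assoc, prod_Ico_succ_top (Nat.le_add_right i m)]
          change _ * (2 * alp D e (i + m) * _) = _
          ring
        · rw [← add_assoc]
          ring
    obtain ⟨j1, j2⟩ := k1 (N - i) (by omega)
    rw [Nat.add_sub_cancel' hi] at j1 j2
    refine ⟨j1.trans (mul_le_mul_of_nonneg_right ?_ (norm_nonneg _)), j2⟩
    rw [mul_assoc]
    exact mul_le_mul_of_nonneg_left (hT i hi).1 (by positivity)
  · have k1 : ∀ i ≤ N, vol (frm D' e i) ≤ 2 ^ (k * i) * vol (frm D e i) := fun i hi => by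
      induction i with
      | zero => simp [frm]
      | succ i ih =>
        have hδ : ∀ c, ∀ i < N, ‖cmb (frm D' e (i + 1)) c - D i (cmb (frm D' e i) c)‖ ≤
            Q * (ρ * ϑ ^ (N - i)) * ‖cmb (frm D' e i) c‖ := fun c i hi => by
          rw [frm, Pert_cmb, ← sub_apply]
          exact (D' i - D i).le_of_opNorm_le (hD' i hi) _
        have j1 := h1.mono (frm D' e (i + 1))
          (D i ∘ (sp (frm D e i)).starProjection ∘ frm D' e i) 2 zero_le_two fun c => by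
          rw [Pert_cmb, Pert_cmb]
          refine (Pert_step hQ (hD i) (hr i) (hδ c i hi) ((Pert_proj _ _).trans_le
            (A (fun i => cmb (frm D' e i) c) ?_ (hδ c) i (by omega)))).2.2
          exact Submodule.sum_mem _ fun j _ => Submodule.smul_mem _ _
            (Submodule.subset_span ⟨j, rfl⟩)
        have j2 := h1.mono ((sp (frm D e i)).starProjection ∘ frm D' e i) (frm D' e i) 1
          zero_le_one fun c => by
          rw [Pert_cmb, one_mul]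
          exact Submodule.norm_starProjection_apply_le _ _
        have j3 := h1.ratio (D i) (frm D e i) ((sp (frm D e i)).starProjection ∘ frm D' e i)
          fun j => Submodule.starProjection_apply_mem _ _
        rw [one_pow, one_mul] at j2
        rw [Fintype.card_fin] at j1
        refine j1.trans ?_
        rw [mul_add, mul_one, pow_add, mul_comm _ ((2 : ℝ) ^ k), mul_assoc]
        refine mul_le_mul_of_nonneg_left (le_of_mul_le_mul_right ?_ (v0 i)) (by positivity)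
        rw [j3]
        refine (mul_le_mul_of_nonneg_left (j2.trans (ih (by omega))) (v0 (i + 1)).le).trans_eq ?_
        ring
    exact k1 N le_rfl

end Pool.Agent.Lib.MP_1df8f0_an.K
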