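import Pool.Agent.Lib.MP_1df8f0_an.K.Sy

/-!
Rare strings cannot be read from independent points.
-/

open MeasureTheory Finset Filter Topology
open scoped ENNReal

noncomputable section

namespace Pool.Agent.Lib.MP_1df8f0_an.K

theorem Rare_common {α : Type} (v : List α) : ∀ z₁ z₂ : List α, z₁.Sublist v → z₂.Sublist v →
    ∃ z : List α, z.Sublist z₁ ∧ z.Sublist z₂ ∧ z₁.length + z₂.length ≤ z.length + v.length := by
  induction v with
  | nil =>
    intro z₁ z₂ h1 h2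
    rw [List.sublist_nil] at h1 h2
    subst h1 h2
    exact ⟨[], List.Sublist.refl _, List.Sublist.refl _, by simp⟩
  | cons a v ih =>
    intro z₁ z₂ h1 h2
    rcases List.sublist_cons_iff.1 h1 with g1 | ⟨r₁, rfl, g1⟩
    · rcases List.sublist_cons_iff.1 h2 with g2 | ⟨r₂, rfl, g2⟩
      · obtain ⟨z, a1, a2, a3⟩ := ih _ _ g1 g2
        exact ⟨z, a1, a2, by simp only [List.length_cons]; omega⟩
      · obtain ⟨z, a1, a2, a3⟩ := ih _ _ g1 g2
        exact ⟨z, a1, a2.cons _, by simp only [List.length_cons]; omega⟩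
    · rcases List.sublist_cons_iff.1 h2 with g2 | ⟨r₂, rfl, g2⟩
      · obtain ⟨z, a1, a2, a3⟩ := ih _ _ g1 g2
        exact ⟨z, a1.cons _, a2, by simp only [List.length_cons]; omega⟩
      · obtain ⟨z, a1, a2, a3⟩ := ih _ _ g1 g2
        exact ⟨a :: z, a1.cons_cons _, a2.cons_cons _, by simp only [List.length_cons]; omega⟩

theorem Rare_tri {α : Type} (u v w : List α) : ed u w ≤ ed u v + ed v w := by
  obtain ⟨z₁, a1, a2, a3⟩ := cl_ed u v
  obtain ⟨z₂, b1, b2, b3⟩ := cl_ed v w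
  obtain ⟨z, c1, c2, c3⟩ := Rare_common v z₁ z₂ a2 b1
  exact ed_le ⟨z, c1.trans a1, c2.trans b2, by omega⟩

theorem Rare_tri' {α : Type} (u v w : List α) : (ed u w : ℝ) ≤ ed u v + ed v w := by
  exact_mod_cast Rare_tri u v w

section Prod

variable {Y : Type} [MeasurableSpace Y] (ν : Measure Y) [IsProbabilityMeasure ν]

theorem Rare_fubini {S : Set (Y × Y)} (hS : MeasurableSet S) {c : ℝ} (hc : 0 ≤ c)
    (h : ∀ w₂, ν.real {w | (w, w₂) ∈ S} ≤ c) : (ν.prod ν).real S ≤ c := by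
  refine ENNReal.toReal_le_of_le_ofReal hc ?_
  rw [Measure.prod_apply_symm hS]
  calc ∫⁻ y, ν ((fun x => (x, y)) ⁻¹' S) ∂ν ≤ ∫⁻ _, ENNReal.ofReal c ∂ν := by
        refine lintegral_mono fun y => ?_
        exact (ENNReal.le_ofReal_iff_toReal_le (measure_ne_top _ _) hc).2 (h y)
    _ = ENNReal.ofReal c := by simp

theorem Rare_markov {S : Set (Y × Y)} (hS : MeasurableSet S) {c : ℝ} (hc : 0 < c)
    (h : (ν.prod ν).real S ≤ c ^ 2) : ν.real {y | c < ν.real {w | (y, w) ∈ S}} ≤ c := by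
  have h1 := mul_meas_ge_le_lintegral₀ (μ := ν)
    (measurable_measure_prodMk_left (ν := ν) hS).aemeasurable (ENNReal.ofReal c)
  rw [← Measure.prod_apply hS] at h1
  have h2 : ν {y | c < ν.real {w | (y, w) ∈ S}} ≤
      ν {y | ENNReal.ofReal c ≤ ν (Prod.mk y ⁻¹' S)} := by
    refine measure_mono fun y hy => ?_
    exact ENNReal.ofReal_le_of_le_toReal (le_of_lt hy)
  have h3 : ENNReal.ofReal c * ν {y | c < ν.real {w | (y, w) ∈ S}} ≤ (ν.prod ν) S :=
    (mul_le_mul_right h2 _).trans h1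
  have h4 := ENNReal.toReal_mono (measure_ne_top _ _) h3
  rw [ENNReal.toReal_mul, ENNReal.toReal_ofReal hc.le] at h4
  have h5 : c * ν.real {y | c < ν.real {w | (y, w) ∈ S}} ≤ c * c := by
    rw [← pow_two]
    exact h4.trans h
  exact le_of_mul_le_mul_left h5 hc

omit [IsProbabilityMeasure ν] in
theorem Rare_meas {α : Type} [Countable α] {f g : Y → List α} (hf : Measurable f)
    (hg : Measurable g) (R : List α → List α → Prop) :
    MeasurableSet {z : Y × Y | R (f z.1) (g z.2)} :=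
  (hf.prodMap hg) (MeasurableSet.of_discrete (s := {z : List α × List α | R z.1 z.2}))

end Prod

theorem Rare_thm : StRare := by
  intro Y α ι₁ ι₂ _ _ _ _ ν _ p q O Gd Ev π hp hq hO hGd hπ h
  let F : ι₁ × ι₂ → Set (Y × Y) := fun i => {z | (ed (p i.1 z.1) (q i.2 z.2) : ℝ) ≤ 2 * Ev ∧
    ν.real {w | (ed (p i.1 w) (q i.2 z.2) : ℝ) ≤ 2 * Ev} ≤ π}
  have hF : ∀ i, MeasurableSet (F i) := fun i => Rare_meas (hp i.1) (hq i.2)
    fun s t => (ed s t : ℝ) ≤ 2 * Ev ∧ ν.real {w | (ed (p i.1 w) t : ℝ) ≤ 2 * Ev} ≤ π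
  have hFm : ∀ i, (ν.prod ν).real (F i) ≤ π := by
    intro i
    refine Rare_fubini ν (hF i) hπ.le fun w₂ => ?_
    by_cases h1 : ν.real {w | (ed (p i.1 w) (q i.2 w₂) : ℝ) ≤ 2 * Ev} ≤ π
    · exact (measureReal_mono (fun w hw => hw.1) (measure_ne_top _ _)).trans h1
    · have : {w | (w, w₂) ∈ F i} = ∅ := Set.eq_empty_of_forall_notMem fun w hw => h1 hw.2
      rw [this, measureReal_empty]
      exact hπ.le
  let S : ι₁ → Set (Y × Y) := fun i => {z | z.1 ∈ Gd ∧ (ed (O z.1) (p i z.2) : ℝ) ≤ 3 * Ev}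
  have hS : ∀ i, MeasurableSet (S i) := fun i =>
    (measurable_fst hGd).inter (Rare_meas hO (hp i) fun s t => (ed s t : ℝ) ≤ 3 * Ev)
  have hB : ∀ i, ν.real {y | π < ν.real {w | (y, w) ∈ S i}} ≤ π := fun i =>
    Rare_markov ν (hS i) hπ (Rare_fubini ν (hS i) (sq_nonneg _) fun w => h (p i w))
  refine ⟨⋃ i, F i, MeasurableSet.iUnion hF, ?_, ?_⟩
  · refine (measureReal_iUnion_fintype_le _).trans ?_
    refine (Finset.sum_le_sum fun i _ => hFm i).trans (le_of_eq ?_)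
    simp
  · refine (measureReal_mono (s₂ := ⋃ i, {y | π < ν.real {w | (y, w) ∈ S i}}) ?_
      (measure_ne_top _ _)).trans ?_
    · rintro y ⟨hy, i, i', w, w₂, h1, h2, h3⟩
      refine Set.mem_iUnion.2 ⟨i, ?_⟩
      have h4 : (ed (p i w) (q i' w₂) : ℝ) ≤ 2 * Ev := by
        have := Rare_tri' (p i w) (O y) (q i' w₂)
        rw [ed_comm (p i w) (O y)] at this
        linarith
      have h5 : π < ν.real {w | (ed (p i w) (q i' w₂) : ℝ) ≤ 2 * Ev} := by
        by_contra h6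
        exact h3 (Set.mem_iUnion.2 ⟨(i, i'), h4, not_lt.1 h6⟩)
      refine h5.trans_le (measureReal_mono (fun w' hw' => ⟨hy, ?_⟩) (measure_ne_top _ _))
      have h6 := Rare_tri' (O y) (q i' w₂) (p i w')
      have h7 : (ed (p i w') (q i' w₂) : ℝ) ≤ 2 * Ev := hw'
      rw [ed_comm (q i' w₂) (p i w')] at h6
      linarith
    · refine (measureReal_iUnion_fintype_le _).trans ?_
      refine (Finset.sum_le_sum fun i _ => hB i).trans (le_of_eq ?_)
      simp

end Pool.Agent.Lib.MP_1df8f0_an.K
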