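import Pool.Agent.Lib.MP_1df8f0_an.K.Sm

/-!
Singular values: `Nk k B` is the product of the `k` largest ones; log-concavity and duality.
-/

open Finset

noncomputable section

namespace Pool.Agent.Lib.MP_1df8f0_an.K

/-- Norms of the images of a frame, extended by zero. -/
def SV_s {n : ℕ} (B : Op n) (b : Fin n → E n) (i : ℕ) : ℝ :=
  if h : i < n then ‖B (b ⟨i, h⟩)‖ else 0

theorem SV_s_fin {n : ℕ} (B : Op n) (b : Fin n → E n) (i : Fin n) :
    SV_s B b i = ‖B (b i)‖ := by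
  simp [SV_s]

theorem SV_s_nonneg {n : ℕ} (B : Op n) (b : Fin n → E n) (i : ℕ) : 0 ≤ SV_s B b i := by
  unfold SV_s
  split_ifs
  · exact norm_nonneg _
  · exact le_rfl

theorem SV_s_anti {n : ℕ} (B : Op n) (b : Fin n → E n)
    (ha : ∀ i j : Fin n, i ≤ j → ‖B (b j)‖ ≤ ‖B (b i)‖) (i : ℕ) :
    SV_s B b (i + 1) ≤ SV_s B b i := by
  by_cases h : i + 1 < n
  · have h' : i < n := by omega
    have := ha ⟨i, h'⟩ ⟨i + 1, h⟩ (by simp [Fin.le_def])
    simpa [SV_s, h, h'] using this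
  · have : SV_s B b (i + 1) = 0 := by simp [SV_s, h]
    rw [this]
    exact SV_s_nonneg B b i

theorem SV_norm_sq {n m : ℕ} (w : Fin m → E n)
    (ho : ∀ i j, i ≠ j → inner ℝ (w i) (w j) = 0) (c : Fin m → ℝ) :
    ‖∑ i, c i • w i‖ ^ 2 = ∑ i, c i ^ 2 * ‖w i‖ ^ 2 := by
  rw [← real_inner_self_eq_norm_sq, sum_inner]
  refine Finset.sum_congr rfl fun i _ => ?_
  rw [inner_sum, Finset.sum_eq_single i]
  · rw [real_inner_smul_left, real_inner_smul_right, real_inner_self_eq_norm_sq]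
    ring
  · intro j _ hj
    rw [real_inner_smul_left, real_inner_smul_right, ho i j (Ne.symm hj)]
    ring
  · intro h
    exact absurd (Finset.mem_univ i) h

theorem SV_expand {n : ℕ} (b : Fin n → E n) (hb : Orthonormal ℝ b) (x : E n) :
    ∑ i, inner ℝ (b i) x • b i = x := by
  have hsp : ⊤ ≤ Submodule.span ℝ (Set.range b) :=
    (hb.linearIndependent.span_eq_top_of_card_eq_finrank' (by simp)).ge
  have := (OrthonormalBasis.mk hb hsp).sum_repr' x
  simpa using this

theorem SV_bound {n : ℕ} (B : Op n) (b : Fin n → E n) (hb : Orthonormal ℝ b)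
    (ho : ∀ i j, i ≠ j → inner ℝ (B (b i)) (B (b j)) = 0)
    (ha : ∀ i j : Fin n, i ≤ j → ‖B (b j)‖ ≤ ‖B (b i)‖) (k : Fin n) (x : E n)
    (hx : ∀ i : Fin n, i < k → inner ℝ (b i) x = 0) : ‖B x‖ ≤ ‖B (b k)‖ * ‖x‖ := by
  have e1 := SV_expand b hb x
  have e2 : B x = ∑ i, inner ℝ (b i) x • B (b i) := by
    conv_lhs => rw [← e1]
    simp only [map_sum, map_smul]
  have n1 : ‖x‖ ^ 2 = ∑ i, inner ℝ (b i) x ^ 2 * ‖b i‖ ^ 2 := by
    conv_lhs => rw [← e1]
    exact SV_norm_sq b (fun i j h => hb.2 h) _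
  have n2 : ‖B x‖ ^ 2 = ∑ i, inner ℝ (b i) x ^ 2 * ‖B (b i)‖ ^ 2 := by
    rw [e2]
    exact SV_norm_sq (fun i => B (b i)) ho _
  have n3 : ‖B x‖ ^ 2 ≤ (‖B (b k)‖ * ‖x‖) ^ 2 := by
    rw [mul_pow, n1, n2, Finset.mul_sum]
    refine Finset.sum_le_sum fun i _ => ?_
    rcases lt_or_ge i k with h | h
    · simp [hx i h]
    · rw [hb.1 i]
      have h1 : ‖B (b i)‖ ^ 2 ≤ ‖B (b k)‖ ^ 2 :=
        pow_le_pow_left₀ (norm_nonneg _) (ha k i h) 2
      have h2 : 0 ≤ inner ℝ (b i) x ^ 2 := sq_nonneg _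
      nlinarith [mul_le_mul_of_nonneg_left h1 h2]
  exact (pow_le_pow_iff_left₀ (norm_nonneg _) (by positivity) two_ne_zero).1 n3

theorem SV_meet {n k : ℕ} (hk : k ≤ n) (b : Fin n → E n) (u : Fin (k + 1) → E n)
    (hu : LinearIndependent ℝ u) :
    ∃ x ∈ sp u, x ≠ 0 ∧ ∀ i : Fin n, (i : ℕ) < k → inner ℝ (b i) x = 0 := by
  let F : (Fin (k + 1) → ℝ) →ₗ[ℝ] (Fin k → ℝ) :=
    { toFun := fun c i => inner ℝ (b (Fin.castLE hk i)) (∑ j, c j • u j)
      map_add' := by
        intro c d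
        funext i
        simp only [Pi.add_apply, add_smul, Finset.sum_add_distrib, inner_add_right]
      map_smul' := by
        intro a c
        funext i
        simp only [Pi.smul_apply, smul_eq_mul, RingHom.id_apply, mul_smul, ← Finset.smul_sum,
          real_inner_smul_right] }
  have hF : LinearMap.ker F ≠ ⊥ := F.ker_ne_bot_of_finrank_lt (by simp)
  obtain ⟨c, hc, hc0⟩ := (Submodule.ne_bot_iff _).1 hF
  refine ⟨∑ j, c j • u j, ?_, ?_, ?_⟩
  · exact Submodule.sum_mem _ fun j _ =>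
      Submodule.smul_mem _ _ (Submodule.subset_span ⟨j, rfl⟩)
  · intro h
    exact hc0 (funext (Fintype.linearIndependent_iff.1 hu c h))
  · intro i hi
    have := congrFun (LinearMap.mem_ker.1 hc) ⟨i, hi⟩
    exact this

theorem SV_key (h1 : StVol) (h2 : StN) {n : ℕ} (B : Op n) (b : Fin n → E n)
    (hb : Orthonormal ℝ b) (ho : ∀ i j, i ≠ j → inner ℝ (B (b i)) (B (b j)) = 0)
    (ha : ∀ i j : Fin n, i ≤ j → ‖B (b j)‖ ≤ ‖B (b i)‖) (k : ℕ) (hk : k ≤ n) :
    Nk k B = ∏ i ∈ range k, SV_s B b i := by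
  apply le_antisymm
  · induction k with
    | zero => simp [h2.zero]
    | succ k ih =>
      have hk' : k < n := hk
      have ih' := ih hk'.le
      have hs : SV_s B b k = ‖B (b ⟨k, hk'⟩)‖ := SV_s_fin B b ⟨k, hk'⟩
      have hN := h2.nonneg k B
      have hs0 := SV_s_nonneg B b k
      have step : Nk (k + 1) B ≤ Nk k B * SV_s B b k := by
        unfold Nk
        refine csSup_le ⟨_, ⟨0, by simp, rfl⟩⟩ ?_
        rintro _ ⟨u, hu, rfl⟩
        change vol (B ∘ u) ≤ Nk k B * SV_s B b k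
        have hv1 : vol u ≤ 1 :=
          (h1.hada u).trans (Finset.prod_le_one (fun i _ => norm_nonneg _) fun i _ => hu i)
        rcases (h1.nonneg u).eq_or_lt with h0 | h0
        · have := h2.le B u
          rw [← h0, mul_zero] at this
          exact this.trans (mul_nonneg hN hs0)
        · obtain ⟨x, hx, hx0, hxo⟩ := SV_meet hk'.le b u ((h1.pos u).1 h0)
          have hb1 := SV_bound B b hb ho ha ⟨k, hk'⟩ x fun i hi => hxo i hi
          rw [← hs] at hb1
          have hsm : vol (B ∘ u) * ‖x‖ ≤ Nk k B * vol u * ‖B x‖ := h2.smin B u x hx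
          have hxp : 0 < ‖x‖ := norm_pos_iff.2 hx0
          have e1 : Nk k B * vol u * ‖B x‖ ≤ Nk k B * 1 * (SV_s B b k * ‖x‖) :=
            mul_le_mul (mul_le_mul_of_nonneg_left hv1 hN) hb1 (norm_nonneg _) (by positivity)
          refine le_of_mul_le_mul_right (hsm.trans (e1.trans_eq ?_)) hxp
          ring
      rw [Finset.prod_range_succ]
      exact step.trans (mul_le_mul_of_nonneg_right ih' hs0)
  · have hv : Orthonormal ℝ (b ∘ Fin.castLE hk) := hb.comp _ (Fin.castLE_injective hk)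
    have e1 := h2.le B (b ∘ Fin.castLE hk)
    rw [h1.on _ hv, mul_one, h1.orth] at e1
    · rw [Finset.prod_range]
      refine le_of_eq_of_le (Finset.prod_congr rfl fun i _ => ?_) e1
      exact SV_s_fin B b (Fin.castLE hk i)
    · intro i j hij
      exact ho _ _ fun h => hij (Fin.castLE_injective hk h)

theorem SV_exists {n : ℕ} (B : Op n) :
    ∃ b : Fin n → E n, Orthonormal ℝ b ∧ (∀ i j, i ≠ j → inner ℝ (B (b i)) (B (b j)) = 0) ∧
      ∀ i j : Fin n, i ≤ j → ‖B (b j)‖ ≤ ‖B (b i)‖ := by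
  let T : E n →ₗ[ℝ] E n := (B : E n →ₗ[ℝ] E n)
  have hT := T.isSymmetric_adjoint_comp_self
  have hn : Module.finrank ℝ (E n) = n := by simp
  have hb := (hT.eigenvectorBasis hn).orthonormal
  have hi : ∀ i j, inner ℝ (B (hT.eigenvectorBasis hn i)) (B (hT.eigenvectorBasis hn j)) =
      hT.eigenvalues hn j * inner ℝ (hT.eigenvectorBasis hn i) (hT.eigenvectorBasis hn j) := by
    intro i j
    have e := hT.apply_eigenvectorBasis hn j
    have e2 : inner ℝ (B (hT.eigenvectorBasis hn i)) (B (hT.eigenvectorBasis hn j)) =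
        inner ℝ (hT.eigenvectorBasis hn i)
          ((LinearMap.adjoint T ∘ₗ T) (hT.eigenvectorBasis hn j)) := by
      rw [LinearMap.comp_apply, LinearMap.adjoint_inner_right]
      rfl
    rw [e2, e, real_inner_smul_right]
    simp
  have hq : ∀ i, ‖B (hT.eigenvectorBasis hn i)‖ ^ 2 = hT.eigenvalues hn i := by
    intro i
    rw [← real_inner_self_eq_norm_sq, hi, real_inner_self_eq_norm_sq, hb.1 i]
    ring
  refine ⟨hT.eigenvectorBasis hn, hb, ?_, ?_⟩
  · intro i j hij
    rw [hi, hb.2 hij, mul_zero]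
  · intro i j hij
    refine (pow_le_pow_iff_left₀ (norm_nonneg _) (norm_nonneg _) two_ne_zero).1 ?_
    rw [hq, hq]
    exact hT.eigenvalues_antitone hn hij

theorem SV_dual (h1 : StVol) (h2 : StN) {n : ℕ} (k d : ℕ) (A B : Op n) (hkd : k + d = n)
    (hAB : A ∘L B = ContinuousLinearMap.id ℝ (E n)) (hdet : |A.det| = 1) :
    Nk k A = Nk d B := by
  obtain ⟨b, hb, ho, ha⟩ := SV_exists A
  have hBA : ∀ x, B (A x) = x := by
    have e1 : (A : E n →ₗ[ℝ] E n) * (B : E n →ₗ[ℝ] E n) = 1 := by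
      ext1 x
      exact congrArg (fun f : Op n => f x) hAB
    have e2 : (B : E n →ₗ[ℝ] E n) * (A : E n →ₗ[ℝ] E n) = 1 := mul_eq_one_comm.1 e1
    intro x
    exact congrArg (fun f : E n →ₗ[ℝ] E n => f x) e2
  have hpos : ∀ i, 0 < ‖A (b i)‖ := by
    intro i
    refine norm_pos_iff.2 fun h => ?_
    have e := hBA (b i)
    rw [h, map_zero] at e
    have := hb.1 i
    rw [← e] at this
    simp at this
  have hprod : ∏ i ∈ range n, SV_s A b i = 1 := by
    have e1 := h1.top A b (by simp)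
    rw [hdet, h1.on b hb, mul_one, h1.orth (A ∘ b) ho] at e1
    rw [Finset.prod_range, ← e1]
    exact Finset.prod_congr rfl fun i _ => SV_s_fin A b i
  let c : Fin n → E n := fun i => ‖A (b i.rev)‖⁻¹ • A (b i.rev)
  have hBc : ∀ i, B (c i) = ‖A (b i.rev)‖⁻¹ • b i.rev := by
    intro i
    simp only [c, map_smul, hBA]
  have hnc : ∀ i, ‖B (c i)‖ = ‖A (b i.rev)‖⁻¹ := by
    intro i
    rw [hBc, norm_smul, hb.1, mul_one, norm_inv, norm_norm]
  have hc : Orthonormal ℝ c := by
    constructor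
    · intro i
      simp only [c]
      rw [norm_smul, norm_inv, norm_norm, inv_mul_cancel₀ (hpos _).ne']
    · intro i j hij
      simp only [c]
      rw [real_inner_smul_left, real_inner_smul_right,
        ho _ _ fun h => hij (Fin.rev_injective h)]
      ring
  have hoc : ∀ i j, i ≠ j → inner ℝ (B (c i)) (B (c j)) = 0 := by
    intro i j hij
    rw [hBc, hBc, real_inner_smul_left, real_inner_smul_right,
      hb.2 fun h => hij (Fin.rev_injective h)]
    ring
  have hac : ∀ i j : Fin n, i ≤ j → ‖B (c j)‖ ≤ ‖B (c i)‖ := by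
    intro i j hij
    rw [hnc, hnc]
    exact inv_anti₀ (hpos _) (ha _ _ (Fin.rev_le_rev.2 hij))
  rw [SV_key h1 h2 A b hb ho ha k (by omega), SV_key h1 h2 B c hc hoc hac d (by omega)]
  have e1 : ∏ i ∈ range d, SV_s B c i = (∏ i ∈ range d, SV_s A b (k + i))⁻¹ := by
    rw [← Finset.prod_inv_distrib, ← Finset.prod_range_reflect]
    refine Finset.prod_congr rfl fun i hi => ?_
    have hi' : i < d := Finset.mem_range.1 hi
    have p1 : d - 1 - i < n := by omega
    have p2 : k + i < n := by omega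
    have q1 : SV_s B c (d - 1 - i) = ‖B (c ⟨d - 1 - i, p1⟩)‖ := SV_s_fin B c ⟨_, p1⟩
    have q2 : SV_s A b (k + i) = ‖A (b ⟨k + i, p2⟩)‖ := SV_s_fin A b ⟨_, p2⟩
    have q3 : (⟨d - 1 - i, p1⟩ : Fin n).rev = ⟨k + i, p2⟩ := by
      apply Fin.ext
      simp only [Fin.val_rev]
      omega
    rw [q1, q2, hnc, q3]
  rw [e1]
  have hprod' : ∏ i ∈ range (k + d), SV_s A b i = 1 := by rw [hkd]; exact hprod
  rw [Finset.prod_range_add] at hprod'
  exact eq_inv_of_mul_eq_one_left hprod'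

theorem SV_thm (h1 : StVol) (h2 : StN) : StSV := by
  constructor
  · intro n k B
    cases k with
    | zero =>
      simp only [Lo, mul_zero]
      exact sq_nonneg _
    | succ k =>
      change Nk (k + 1 + 1) B * Nk k B ≤ Nk (k + 1) B ^ 2
      rcases lt_or_ge n (k + 1 + 1) with h | h
      · rw [h2.big _ B h, zero_mul]
        exact sq_nonneg _
      · obtain ⟨b, hb, ho, ha⟩ := SV_exists B
        rw [SV_key h1 h2 B b hb ho ha _ h, SV_key h1 h2 B b hb ho ha k (by omega),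
          SV_key h1 h2 B b hb ho ha (k + 1) (by omega), Finset.prod_range_succ,
          Finset.prod_range_succ]
        have hP : 0 ≤ ∏ i ∈ range k, SV_s B b i :=
          Finset.prod_nonneg fun i _ => SV_s_nonneg B b i
        have h3 := SV_s_anti B b ha k
        have h4 := SV_s_nonneg B b k
        have h5 := mul_le_mul_of_nonneg_left h3 (mul_nonneg (mul_nonneg hP hP) h4)
        nlinarith [h5]
  · intro n k d A B hkd hAB hdet
    refine ⟨SV_dual h1 h2 k d A B hkd hAB hdet, ?_⟩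
    cases k with
    | zero =>
      rw [h2.big (d + 1) B (by omega)]
      rfl
    | succ k =>
      change Nk k A = Nk (d + 1) B
      exact SV_dual h1 h2 k (d + 1) A B (by omega) hAB hdet

end Pool.Agent.Lib.MP_1df8f0_an.K
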