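import Pool.Agent.Lib.MP_1df8f0_an.K.Sy

/-!
Reading slots along a shadowing orbit.
-/

open MeasureTheory Finset
open scoped ENNReal

noncomputable section

namespace Pool.Agent.Lib.MP_1df8f0_an.K

variable {X Y α : Type}

lemma Slot_name_len (a : X → α) (T : X → X) (x : X) (R : ℕ) : (name a T x R).length = R := by
  simp [name]

lemma Slot_pi_zero (w : Y → List α) (S : Y → Y) (y : Y) : pi w S 0 y = 0 := by
  simp [pi, emit]

lemma Slot_pi_succ (w : Y → List α) (S : Y → Y) (t : ℕ) (y : Y) :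
    pi w S (t + 1) y = pi w S t y + (w (S^[t] y)).length := by
  simp only [pi, emit_succ, List.length_append]

lemma Slot_pi_mono (w : Y → List α) (S : Y → Y) (y : Y) {s t : ℕ} (h : s ≤ t) :
    pi w S s y ≤ pi w S t y := by
  induction h with
  | refl => exact le_rfl
  | step _ ih => rw [Slot_pi_succ]; omega

lemma Slot_wd_in (a : X → α) (T : X → X) (A : Set X) {B : Set Y} (φ : Y → X) {z : Y}
    (hz : z ∈ B) : wd a T A B φ z = name a T (φ z) (retTime T A (φ z)) := by
  unfold wd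
  rw [if_pos hz]

lemma Slot_wd_out (a : X → α) (T : X → X) (A : Set X) {B : Set Y} (φ : Y → X) {z : Y}
    (hz : z ∉ B) : wd a T A B φ z = [] := by
  unfold wd
  rw [if_neg hz]

lemma Slot_xpt_in (S : Y → Y) {B : Set Y} (φ : Y → X) {z : Y} (hz : z ∈ B) :
    xpt S B φ z = φ z := by
  unfold xpt
  rw [if_pos hz]

lemma Slot_xpt_out (S : Y → Y) {B : Set Y} (φ : Y → X) {z : Y} (hz : z ∉ B) :
    xpt S B φ z = φ (induced S B z) := by
  unfold xpt
  rw [if_neg hz]

/-- The next point of `B` strictly after `z`. -/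
lemma Slot_next (S : Y → Y) (B : Set Y) (φ : Y → X) (z : Y) (hz : ∃ n, 1 ≤ n ∧ S^[n] z ∈ B) :
    xpt S B φ (S z) = φ (induced S B z) := by
  have hmem : retTime S B z ∈ {n | 1 ≤ n ∧ S^[n] z ∈ B} := Nat.sInf_mem hz
  by_cases hB : S z ∈ B
  · rw [Slot_xpt_in S φ hB]
    have h1 : retTime S B z = 1 :=
      le_antisymm (Nat.sInf_le (s := {n | 1 ≤ n ∧ S^[n] z ∈ B}) ⟨le_rfl, hB⟩) hmem.1
    unfold induced
    rw [h1]
    rfl
  · rw [Slot_xpt_out S φ hB]
    obtain ⟨h1, h2⟩ := hmem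
    obtain ⟨m, hm⟩ : ∃ m, retTime S B z = m + 1 := ⟨retTime S B z - 1, by omega⟩
    rw [hm, Function.iterate_succ_apply] at h2
    have hm1 : 1 ≤ m := by
      rcases Nat.eq_zero_or_pos m with rfl | h
      · exact absurd h2 hB
      · exact h
    have h3 : retTime S B (S z) = m := by
      refine le_antisymm (Nat.sInf_le (s := {n | 1 ≤ n ∧ S^[n] (S z) ∈ B}) ⟨hm1, h2⟩) ?_
      have h4 : retTime S B (S z) ∈ {n | 1 ≤ n ∧ S^[n] (S z) ∈ B} := Nat.sInf_mem ⟨m, hm1, h2⟩
      have h5 : retTime S B z ≤ retTime S B (S z) + 1 :=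
        Nat.sInf_le (s := {n | 1 ≤ n ∧ S^[n] z ∈ B})
          ⟨by omega, by rw [Function.iterate_succ_apply]; exact h4.2⟩
      omega
    unfold induced
    rw [h3, hm, Function.iterate_succ_apply]

lemma Slot_xpt (a : X → α) {T : X → X} {A : Set X} {S : Y → Y} {B : Set Y} {φ : Y → X} {y : Y}
    (hg : GO T A S B φ y) (t : ℕ) :
    xpt S B φ (S^[t] y) = T^[pi (wd a T A B φ) S t y] (φ y) := by
  induction t with
  | zero => rw [Slot_pi_zero]; exact Slot_xpt_in S φ hg.1
  | succ t ih =>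
    obtain ⟨h1, i', h2, h3⟩ := hg.2 t
    have h4 : xpt S B φ (S^[t + 1] y) = φ (induced S B (S^[t] y)) := by
      rw [Function.iterate_succ_apply']
      refine Slot_next S B φ _ ⟨i' - t, by omega, ?_⟩
      rwa [← Function.iterate_add_apply, Nat.sub_add_cancel h2.le]
    rw [h4, Slot_pi_succ]
    by_cases hB : S^[t] y ∈ B
    · rw [Slot_xpt_in S φ hB] at ih
      rw [(h1 hB).1, Slot_wd_in a T A φ hB, Slot_name_len, add_comm, Function.iterate_add_apply,
        ← ih]
      rfl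
    · rw [Slot_xpt_out S φ hB] at ih
      rw [Slot_wd_out a T A φ hB, ih]
      rfl

lemma Slot_wd (a : X → α) {T : X → X} {A : Set X} {S : Y → Y} {B : Set Y} {φ : Y → X} {y : Y}
    (hg : GO T A S B φ y) (t : ℕ) :
    wd a T A B φ (S^[t] y) = name a T (T^[pi (wd a T A B φ) S t y] (φ y))
      (wd a T A B φ (S^[t] y)).length := by
  by_cases hB : S^[t] y ∈ B
  · rw [← Slot_xpt a hg t, Slot_xpt_in S φ hB, Slot_wd_in a T A φ hB, Slot_name_len]
  · rw [Slot_wd_out a T A φ hB]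
    rfl

lemma Slot_emit (a : X → α) {T : X → X} {A : Set X} {S : Y → Y} {B : Set Y} {φ : Y → X} {y : Y}
    (hg : GO T A S B φ y) (t k : ℕ) :
    emit (wd a T A B φ) S k (S^[t] y) = name a T (T^[pi (wd a T A B φ) S t y] (φ y))
      (pi (wd a T A B φ) S (t + k) y - pi (wd a T A B φ) S t y) := by
  induction k with
  | zero => simp [emit, name]
  | succ k ih =>
    have hm := Slot_pi_mono (wd a T A B φ) S y (Nat.le_add_right t k)
    rw [emit_succ, ih, ← Function.iterate_add_apply, add_comm k t, ← add_assoc, Slot_pi_succ,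
      show pi (wd a T A B φ) S (t + k) y + (wd a T A B φ (S^[t + k] y)).length -
        pi (wd a T A B φ) S t y = (pi (wd a T A B φ) S (t + k) y - pi (wd a T A B φ) S t y) +
        (wd a T A B φ (S^[t + k] y)).length by omega, name_add, ← Function.iterate_add_apply,
      Nat.sub_add_cancel hm, ← Slot_wd a hg (t + k)]

lemma Slot_novisit (a : X → α) {T : X → X} {A : Set X} {S : Y → Y} {B : Set Y} {φ : Y → X} {y : Y}
    (hg : GO T A S B φ y) (t n : ℕ) (h1 : pi (wd a T A B φ) S t y < n)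
    (h2 : n < pi (wd a T A B φ) S (t + 1) y) : T^[n] (φ y) ∉ A := by
  rw [Slot_pi_succ] at h2
  by_cases hB : S^[t] y ∈ B
  · have h3 := Slot_xpt a hg t
    rw [Slot_xpt_in S φ hB] at h3
    rw [Slot_wd_in a T A φ hB, Slot_name_len] at h2
    intro hA
    have h4 : retTime T A (φ (S^[t] y)) ≤ n - pi (wd a T A B φ) S t y := by
      refine Nat.sInf_le (s := {m | 1 ≤ m ∧ T^[m] (φ (S^[t] y)) ∈ A}) ⟨by omega, ?_⟩
      rwa [h3, ← Function.iterate_add_apply, Nat.sub_add_cancel h1.le]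
    omega
  · rw [Slot_wd_out a T A φ hB] at h2
    simp only [List.length_nil] at h2
    omega

/-- All but `K₁` positions of an interval without visits are gap points. -/
lemma Slot_gap (T : X → X) (A : Set X) (cls : X → ℕ) (x : X) (K₁ j u v : ℕ)
    (hA : ∀ n, u < n → n < v → T^[n] x ∉ A) (hc : ∀ p, u ≤ p → p < v → cls (T^[p] x) = j) :
    ((v - u : ℕ) : ℝ≥0∞) ≤
      K₁ + ∑ p ∈ Ico u v, (gap T A K₁ ∩ cls ⁻¹' {j}).indicator (1 : X → ℝ≥0∞) (T^[p] x) := by
  have h1 : ∑ p ∈ Ico u (v - K₁), (gap T A K₁ ∩ cls ⁻¹' {j}).indicator (1 : X → ℝ≥0∞) (T^[p] x) =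
      ((v - K₁ - u : ℕ) : ℝ≥0∞) := by
    rw [← Nat.card_Ico u (v - K₁), card_eq_sum_ones, Nat.cast_sum]
    refine sum_congr rfl fun p hp => ?_
    obtain ⟨h2, h3⟩ := mem_Ico.1 hp
    rw [Set.indicator_of_mem]
    · simp
    · refine ⟨fun i h4 h5 => ?_, hc p h2 (by omega)⟩
      rw [← Function.iterate_add_apply]
      exact hA _ (by omega) (by omega)
  calc ((v - u : ℕ) : ℝ≥0∞) ≤ ((K₁ + (v - K₁ - u) : ℕ) : ℝ≥0∞) := Nat.cast_le.2 (by omega)
    _ = K₁ + ((v - K₁ - u : ℕ) : ℝ≥0∞) := Nat.cast_add _ _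
    _ ≤ _ := by
      rw [← h1]
      exact add_le_add le_rfl (sum_le_sum_of_subset (Ico_subset_Ico le_rfl (Nat.sub_le _ _)))

lemma Slot_ed_emit (w w' : Y → List α) (S : Y → Y) (k : ℕ) (z z' : Y) :
    ed (emit w S k z) (emit w' S k z') ≤ ∑ i ∈ range k, ed (w (S^[i] z)) (w' (S^[i] z')) := by
  induction k with
  | zero => simp [emit, ed_self]
  | succ k ih =>
    rw [emit_succ, emit_succ, sum_range_succ]
    exact (ed_append_le _ _ _ _).trans (by omega)

lemma Slot_ed_three (u₁ u₂ u₃ V : List α) :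
    ed (u₁ ++ u₂ ++ u₃) V ≤ u₁.length + u₃.length + ed u₂ V := by
  have h1 := ed_append_le (u₁ ++ u₂) u₃ V []
  have h2 := ed_append_le u₁ u₂ [] V
  have h3 := ed_le_len u₁ ([] : List α)
  have h4 := ed_le_len u₃ ([] : List α)
  simp only [List.append_nil, List.nil_append, List.length_nil] at h1 h2 h3 h4
  omega

/-- One slot. -/
lemma Slot_one [PseudoMetricSpace Y] (a : X → α) (T : X → X) (A : Set X) (S : Y → Y)
    (B : Set Y) (φ : Y → X) (𝒲 : Y → List α) (err : Y → ℝ≥0∞) (r : ℝ) (cls : X → ℕ) (y : Y)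
    (h K₁ W M₀ M al a₀ j : ℕ) (hg : GO T A S B φ y)
    (he : ∀ z z', dist z z' ≤ r → ((ed (wd a T A B φ z) (𝒲 z') : ℕ) : ℝ≥0∞) ≤ err z)
    (h1 : a₀ ≤ al) (h2 : al + h ≤ a₀ + W) (h3 : al + h ≤ pi (wd a T A B φ) S M y)
    (h4 : ∀ t, al ≤ pi (wd a T A B φ) S t y → M₀ ≤ t)
    (h5 : ∀ p, p < h → cls (T^[al + p] (φ y)) = j) :
    ∃ c : ℕ × ℕ, (c.1 ≤ M ∧ c.2 ≤ M) ∧
      ∀ w', (∀ t, M₀ ≤ t → t < M → dist (S^[t] w') (S^[t] y) ≤ r) →
        ((ed (name a T (T^[al] (φ y)) h) (emit 𝒲 S (c.2 - c.1) (S^[c.1] w')) : ℕ) : ℝ≥0∞) ≤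
          ((2 * K₁ : ℕ) : ℝ≥0∞) +
            Zf T S φ (wd a T A B φ) (xpt S B φ) (gap T A K₁) cls err M W a₀ j y := by
  classical
  have hc : ∀ p, al ≤ p → p < al + h → cls (T^[p] (φ y)) = j := by
    intro p hp hp'
    have := h5 (p - al) (by omega)
    rwa [Nat.add_sub_cancel' hp] at this
  have hmono := fun {s t : ℕ} (hst : s ≤ t) => Slot_pi_mono (wd a T A B φ) S y hst
  have hz := Slot_pi_zero (wd a T A B φ) S y
  have hnov := Slot_novisit a hg
  have hemit := Slot_emit a hg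
  have hxpt := Slot_xpt a hg
  unfold Zf
  rcases Nat.eq_zero_or_pos h with rfl | hh
  · refine ⟨(0, 0), ⟨Nat.zero_le _, Nat.zero_le _⟩, fun w' _ => ?_⟩
    simp [name, emit, ed_self]
  have e1 : ∃ t, al ≤ pi (wd a T A B φ) S t y := ⟨M, by omega⟩
  have hM : 1 ≤ M := by
    rcases Nat.eq_zero_or_pos M with rfl | hM
    · omega
    · exact hM
  have e2' : al + h ≤ pi (wd a T A B φ) S (M - 1 + 1) y := by rwa [Nat.sub_add_cancel hM]
  have e2 : ∃ t, al + h ≤ pi (wd a T A B φ) S (t + 1) y := ⟨M - 1, e2'⟩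
  have a1 := Nat.find_spec e1
  have a2 := fun {t : ℕ} (ht : t < Nat.find e1) => Nat.find_min e1 ht
  have b1 := Nat.find_spec e2
  have b2 := fun {t : ℕ} (ht : t < Nat.find e2) => Nat.find_min e2 ht
  have b3 : Nat.find e2 ≤ M - 1 := Nat.find_min' e2 e2'
  generalize Nat.find e1 = t₁ at a1 a2
  generalize Nat.find e2 = t₂ at b1 b2 b3
  have b4 : pi (wd a T A B φ) S t₂ y < al + h := by
    rcases Nat.eq_zero_or_pos t₂ with rfl | ht
    · omega
    · have := b2 (t := t₂ - 1) (by omega)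
      rw [Nat.sub_add_cancel ht] at this
      omega
  by_cases h12 : t₁ ≤ t₂
  · refine ⟨(t₁, t₂), ⟨by simp only; omega, by simp only; omega⟩, fun w' hw' => ?_⟩
    have m12 := hmono h12
    have hem := hemit t₁ (t₂ - t₁)
    rw [Nat.add_sub_cancel' h12] at hem
    have g1 := Slot_gap T A cls (φ y) K₁ j al (pi (wd a T A B φ) S t₁ y) (fun n hn hn' => by
      rcases Nat.eq_zero_or_pos t₁ with rfl | ht
      · omega
      · have := a2 (t := t₁ - 1) (by omega)
        exact hnov (t₁ - 1) n (by omega) (by rwa [Nat.sub_add_cancel ht]))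
      fun p hp hp' => hc p hp (by omega)
    have g2 := Slot_gap T A cls (φ y) K₁ j (pi (wd a T A B φ) S t₂ y) (al + h)
      (fun n hn hn' => hnov t₂ n hn (by omega)) fun p hp hp' => hc p (by omega) hp'
    have g3 : ((ed (emit (wd a T A B φ) S (t₂ - t₁) (S^[t₁] y))
        (emit 𝒲 S (t₂ - t₁) (S^[t₁] w')) : ℕ) : ℝ≥0∞) ≤ ∑ t ∈ range M,
          if a₀ ≤ pi (wd a T A B φ) S t y ∧ pi (wd a T A B φ) S t y < a₀ + W ∧
            cls (xpt S B φ (S^[t] y)) = j then err (S^[t] y) else 0 := by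
      refine (Nat.cast_le.2 (Slot_ed_emit _ _ S _ _ _)).trans ?_
      rw [Nat.cast_sum]
      refine le_trans ?_ (sum_le_sum_of_subset (s := Ico t₁ t₂) fun t ht => ?_)
      · rw [sum_Ico_eq_sum_range]
        refine sum_le_sum fun i hi => ?_
        have hi' := mem_range.1 hi
        have n1 := hmono (Nat.le_add_right t₁ i)
        have n2 := hmono (show t₁ + i ≤ t₂ by omega)
        have n3 := h4 t₁ a1
        rw [if_pos ⟨by omega, by omega, by rw [hxpt]; exact hc _ (by omega) (by omega)⟩,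
          ← Function.iterate_add_apply, ← Function.iterate_add_apply, add_comm i t₁]
        refine he _ _ ?_
        rw [dist_comm]
        exact hw' _ (by omega) (by omega)
      · have := mem_Ico.1 ht
        exact mem_range.2 (by omega)
    have hsplit : name a T (T^[al] (φ y)) h =
        name a T (T^[al] (φ y)) (pi (wd a T A B φ) S t₁ y - al) ++
          emit (wd a T A B φ) S (t₂ - t₁) (S^[t₁] y) ++
          name a T (T^[pi (wd a T A B φ) S t₂ y] (φ y)) (al + h - pi (wd a T A B φ) S t₂ y) := by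
      rw [hem]
      generalize pi (wd a T A B φ) S t₁ y = p₁ at *
      generalize pi (wd a T A B φ) S t₂ y = p₂ at *
      conv_lhs => rw [show h = (p₁ - al) + (p₂ - p₁) + (al + h - p₂) by omega]
      rw [name_add, name_add, ← Function.iterate_add_apply, ← Function.iterate_add_apply,
        show p₁ - al + al = p₁ by omega, show p₁ - al + (p₂ - p₁) + al = p₂ by omega]
    have g4 : ∑ p ∈ Ico al (pi (wd a T A B φ) S t₁ y),
          (gap T A K₁ ∩ cls ⁻¹' {j}).indicator (1 : X → ℝ≥0∞) (T^[p] (φ y)) +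
        ∑ p ∈ Ico (pi (wd a T A B φ) S t₂ y) (al + h),
          (gap T A K₁ ∩ cls ⁻¹' {j}).indicator (1 : X → ℝ≥0∞) (T^[p] (φ y)) ≤
        ∑ p ∈ Ico a₀ (a₀ + W),
          (gap T A K₁ ∩ cls ⁻¹' {j}).indicator (1 : X → ℝ≥0∞) (T^[p] (φ y)) := by
      rw [← sum_union]
      · refine sum_le_sum_of_subset fun p hp => ?_
        simp only [mem_union, mem_Ico] at hp ⊢
        omega
      · refine disjoint_left.2 fun p hp hp' => ?_
        simp only [mem_Ico] at hp hp'
        omega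
    rw [hsplit]
    refine (Nat.cast_le.2 (Slot_ed_three _ _ _ _)).trans ?_
    rw [Slot_name_len, Slot_name_len, Nat.cast_add, Nat.cast_add, ← add_assoc]
    refine add_le_add ((add_le_add g1 g2).trans ?_) g3
    rw [add_add_add_comm, two_mul, Nat.cast_add]
    exact add_le_add le_rfl g4
  · refine ⟨(0, 0), ⟨Nat.zero_le _, Nat.zero_le _⟩, fun w' _ => ?_⟩
    have a3 := a2 (t := t₂) (by omega)
    have g1 := Slot_gap T A cls (φ y) K₁ j al (al + h)
      (fun n hn hn' => hnov t₂ n (by omega) (by omega)) hc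
    have g2 : ed (name a T (T^[al] (φ y)) h) (emit 𝒲 S (0 - 0) (S^[0] w')) ≤ al + h - al := by
      refine (ed_le_len _ _).trans ?_
      simp [emit, name]
    refine (Nat.cast_le.2 g2).trans (g1.trans ?_)
    refine add_le_add (Nat.cast_le.2 (by omega)) (le_add_right ?_)
    exact sum_le_sum_of_subset (Ico_subset_Ico h1 h2)

theorem Slot_thm : StSlot := by
  intro X Y α _ a T A S B φ 𝒲 err r cls y h K₁ W M₀ M L pos a₀ hg he hL
  induction L with
  | nil =>
    refine ⟨[], rfl, by simp, fun w' _ => ?_⟩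
    simp [rd, ed_self]
  | cons q L ih =>
    obtain ⟨i, hi1, hi2, hi3⟩ := ih fun q' hq' => hL q' (List.mem_cons_of_mem _ hq')
    obtain ⟨h1, h2, h3, h4, h5⟩ := hL q List.mem_cons_self
    obtain ⟨c, hc1, hc2⟩ := Slot_one a T A S B φ 𝒲 err r cls y h K₁ W M₀ M (pos q) (a₀ q) q.2
      hg he h1 h2 h3 h4 h5
    refine ⟨c :: i, by simp [hi1], fun c' hc' => ?_, fun w' hw' => ?_⟩
    · rcases List.mem_cons.1 hc' with rfl | hc'
      · exact hc1
      · exact hi2 c' hc'
    · have k1 := hc2 w' hw'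
      have k2 := hi3 w' hw'
      unfold rd at k2 ⊢
      simp only [List.map_cons, List.flatten_cons, List.sum_cons, List.length_cons]
      refine (Nat.cast_le.2 (ed_append_le _ _ _ _)).trans ?_
      rw [Nat.cast_add]
      refine (add_le_add k1 k2).trans (le_of_eq ?_)
      rw [add_one_mul, Nat.cast_add]
      ring

end Pool.Agent.Lib.MP_1df8f0_an.K
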