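import Pool.Agent.Lib.MP_1df8f0_an.K.Sm
import Pool.Agent.Lib.MP_1df8f0_an.K.Once

/-!
The induction step on the number of contracted directions.
-/

open MeasureTheory Finset

noncomputable section

namespace Pool.Agent.Lib.MP_1df8f0_an.K

set_option maxHeartbeats 400000

section Alg

variable {n : ℕ} {Y : Type} [MeasurableSpace Y] {ν : Measure Y} {S : Y → Y} {K : ℝ}
  {Af Bk : ℕ → Y → Op n}

theorem Step_prdF (hc : Coc ν S K Af Bk) (τ : ℕ) (a : Y) (i : ℕ) :
    prd (DF S Af τ a) i = Af (i * τ) a := by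
  induction i with
  | zero => simp [prd, hc.zA]
  | succ i ih =>
    rw [prd, ih, Nat.succ_mul, hc.cA]
    rfl

theorem Step_prdB (hc : Coc ν S K Af Bk) (τ M : ℕ) (a : Y) (i : ℕ) (hi : i ≤ M) :
    prd (DB S Bk τ M a) i = Bk (i * τ) (S^[(M - i) * τ] a) := by
  induction i with
  | zero => simp [prd, hc.zB]
  | succ i ih =>
    have e1 : (i + 1) * τ = τ + i * τ := by ring
    have e2 : (M - i) * τ = τ + (M - (i + 1)) * τ := by
      have : M - i = (M - (i + 1)) + 1 := by omega
      rw [this]; ring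
    have e3 : M - i - 1 = M - (i + 1) := by omega
    rw [prd, ih (by omega), e1, hc.cB, e2, Function.iterate_add_apply]
    simp only [DB, e3]

theorem Step_injA (hc : Coc ν S K Af Bk) (t : ℕ) (y : Y) : Function.Injective (Af t y) := by
  intro u v h
  have h1 := congrArg (fun L : Op n => L u) (hc.ba t y)
  have h2 := congrArg (fun L : Op n => L v) (hc.ba t y)
  simp only [ContinuousLinearMap.comp_apply, ContinuousLinearMap.id_apply] at h1 h2
  rw [← h1, ← h2, h]

theorem Step_injB (hc : Coc ν S K Af Bk) (t : ℕ) (y : Y) : Function.Injective (Bk t y) := by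
  intro u v h
  have h1 := congrArg (fun L : Op n => L u) (hc.ab t y)
  have h2 := congrArg (fun L : Op n => L v) (hc.ab t y)
  simp only [ContinuousLinearMap.comp_apply, ContinuousLinearMap.id_apply] at h1 h2
  rw [← h1, ← h2, h]

/-- The backward frame. -/
theorem Step_bwd (h5 : StBwd) (hc : Coc ν S K Af Bk) (d τ M : ℕ) (R η : ℝ) (hd : d ≤ n)
    (hR : 8 ≤ R * τ) (hl : 16 * n * Real.log (n + 1) ≤ η * R * (M * τ : ℕ)) (a : Y)
    (hf : Fast d (R * (M * τ : ℕ)) (Bk (M * τ) a))
    (hs : ∑ i ∈ range M, fU d (R * τ) (Bk τ (S^[i * τ] a)) -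
      fU d (R * (M * τ : ℕ)) (Bk (M * τ) a) ≤ η * R * (M * τ : ℕ) / 8) :
    ∃ I : Fin d → Fin n, Function.Injective I ∧ ∃ BB : Finset ℕ, (BB.card : ℝ) ≤ η * M / 2 ∧
      ∀ N ≤ M, N ∉ BB → TC (DB S Bk τ M a) (ev I) N (Real.exp (-(R * τ / 2))) 1 := by
  classical
  have hp : prd (DB S Bk τ M a) M = Bk (M * τ) a := by
    rw [Step_prdB hc τ M a M le_rfl]; simp
  have ex : R * τ * M = R * (M * τ : ℕ) := by push_cast; ring
  have hx : 0 < R * τ := by linarith
  have hsum : ∑ i ∈ range M, fU d (R * τ) (DB S Bk τ M a i) =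
      ∑ i ∈ range M, fU d (R * τ) (Bk τ (S^[i * τ] a)) := by
    rw [← Finset.sum_range_reflect (fun i => fU d (R * τ) (Bk τ (S^[i * τ] a))) M]
    refine Finset.sum_congr rfl fun i _ => ?_
    have : M - 1 - i = M - i - 1 := by omega
    simp only [DB, this]
  obtain ⟨I, hI, hcard⟩ := h5 d (DB S Bk τ M a) M (R * τ) (η * R * (M * τ : ℕ) / 8) hd
    (fun i => Step_injB hc _ _) hx (by rw [hp, ex]; exact hf) (by rw [hp, ex, hsum]; exact hs)
  refine ⟨I, hI, _, le_trans hcard ?_, fun N hN hb => ?_⟩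
  · rw [div_le_iff₀ (by linarith)]
    have e2 : η * M / 2 * (R * τ / 2) = η * R * (M * τ : ℕ) / 4 := by push_cast; ring
    rw [e2]
    linarith
  · by_contra hcon
    exact hb (Finset.mem_filter.2 ⟨Finset.mem_range.2 (by omega), hcon⟩)

/-- The forward frame. -/
theorem Step_fwd (h2 : StSV) (h3 : StTrv) (h6 : StFwd) (hc : Coc ν S K Af Bk) (k d τ q : ℕ)
    (R R' η : ℝ) (hkd : k + d = n) (hτ : 1 ≤ τ) (hη : η ≤ 1) (hR' : 0 < R')
    (hRR : 16 * R' ≤ η * R) (hR : 8 ≤ R * τ)
    (hl : 4 * n * Real.log (n + 1) ≤ R' * (2 * q * τ : ℕ)) (a : Y)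
    (hf : ¬ Fast (d + 1) (R' * (2 * q * τ : ℕ)) (Bk (2 * q * τ) a))
    (hs : ∑ i ∈ range (2 * q), fW k (R' * τ) (Af τ (S^[i * τ] a)) -
      fW k (R' * (2 * q * τ : ℕ)) (Af (2 * q * τ) a) ≤ R' * (2 * q * τ : ℕ) / 4) :
    ∃ I : Fin k → Fin n, Function.Injective I ∧
      (∀ N ≤ 2 * q, TC (DF S Af τ a) (ev I) N 1 (Real.exp (2 * R' * (2 * q * τ : ℕ)))) ∧
      ∃ FB : Finset ℕ, (FB.card : ℝ) ≤ η * q / 2 ∧
        ∀ i < 2 * q, i ∉ FB → alp (DF S Af τ a) (ev I) i ≤ Real.exp (R * τ / 4) := by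
  classical
  have hp : prd (DF S Af τ a) (2 * q) = Af (2 * q * τ) a := Step_prdF hc τ a (2 * q)
  have ex : R' * τ * (2 * q : ℕ) = R' * (2 * q * τ : ℕ) := by push_cast; ring
  have hτ' : (1 : ℝ) ≤ τ := by exact_mod_cast hτ
  have hx : 0 ≤ R' * τ := by positivity
  have hRpos : 0 < R := by
    by_contra h
    have : R * τ ≤ 0 := mul_nonpos_of_nonpos_of_nonneg (not_lt.1 h) (by linarith)
    linarith
  obtain ⟨hd1, hd2⟩ := h2.dual k d (Af (2 * q * τ) a) (Bk (2 * q * τ) a) hkd (hc.ab _ _)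
    (hc.det _ _)
  have hlo : Lo k (Af (2 * q * τ) a) ≤
      Nk k (Af (2 * q * τ) a) * Real.exp (R' * (2 * q * τ : ℕ)) := by
    rw [hd1, hd2]
    exact le_of_lt (not_le.1 hf)
  obtain ⟨I, hI, hTC, hcard⟩ := h6 k (DF S Af τ a) (2 * q) (R' * τ) (R' * (2 * q * τ : ℕ) / 4)
    (by omega) (fun i => Step_injA hc _ _) hx (by rw [hp, ex]; exact hlo)
    (by rw [hp, ex]; exact hs)
  have hm : 0 ≤ R' * (2 * q * τ : ℕ) := by positivity
  refine ⟨I, hI, fun N hN => ?_, _, le_trans (hcard (3 * (R * τ) / 16) (by linarith)) ?_,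
    fun i hi hb => ?_⟩
  · refine h3.mono _ _ _ _ _ _ zero_le_one ?_ (hTC N hN)
    rw [Real.exp_le_exp, ex]
    have : 2 * R' * (2 * q * τ : ℕ) = 2 * (R' * (2 * q * τ : ℕ)) := by ring
    rw [this]
    linarith
  · rw [div_le_iff₀ (by linarith)]
    have hq0 : (0 : ℝ) ≤ q * τ := by positivity
    have h1 : 16 * R' * (q * τ) ≤ η * R * (q * τ) := mul_le_mul_of_nonneg_right hRR hq0
    have e2 : R' * (2 * q * τ : ℕ) = 2 * (R' * (q * τ)) := by push_cast; ring
    rw [e2] at hl ⊢
    nlinarith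
  · have hb' : ¬ Real.exp (R' * τ + 3 * (R * τ) / 16) < alp (DF S Af τ a) (ev I) i :=
      fun hcon => hb (Finset.mem_filter.2 ⟨Finset.mem_range.2 hi, hcon⟩)
    refine le_trans (not_lt.1 hb') (Real.exp_le_exp.2 ?_)
    have h1 : 16 * R' ≤ R := by nlinarith
    have h2 : 16 * R' * τ ≤ R * τ := mul_le_mul_of_nonneg_right h1 (by linarith)
    linarith

omit [MeasurableSpace Y] in
/-- Two good frames give a good point. -/
theorem Step_good (h3 : StTrv) {k d : ℕ} (τ M₁ m i : ℕ) (x Λ : ℝ) (hx : 8 ≤ x) (hΛ : 1 ≤ Λ)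
    (a : Y) (I' : Fin k → Fin n) (I : Fin d → Fin n) (hi : i < M₁)
    (hF : TC (DF S Af τ (S^[m * τ] a)) (ev I') i 1 Λ)
    (hA : alp (DF S Af τ (S^[m * τ] a)) (ev I') i ≤ Real.exp (x / 4))
    (hB : TC (DB S Bk τ (M₁ + m) a) (ev I) (M₁ - i) (Real.exp (-(x / 2))) 1) :
    Good S Af Bk τ i (M₁ - i) (Real.exp (-(x / 2))) Λ I' I (S^[m * τ] a) := by
  have e1 : i + (M₁ - i) = M₁ := by omega
  have hcg : ∀ j < M₁ - i, DB S Bk τ (M₁ + m) a j = DB S Bk τ M₁ (S^[m * τ] a) j := by
    intro j hj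
    have e2 : (M₁ + m - j - 1) * τ = (M₁ - j - 1) * τ + m * τ := by
      have : M₁ + m - j - 1 = (M₁ - j - 1) + m := by omega
      rw [this]; ring
    simp only [DB, e2, Function.iterate_add_apply]
  have hB1 : TC (DB S Bk τ M₁ (S^[m * τ] a)) (ev I) (M₁ - i) (Real.exp (-(x / 2))) 1 :=
    (h3.congr _ _ (ev I) (M₁ - i) hcg).2.2 _ _ hB
  unfold Good GoodD
  rw [e1]
  refine ⟨hF, h3.mono _ _ _ _ _ _ (Real.exp_pos _).le hΛ hB1, ?_⟩
  have h1 := (hB1 (M₁ - i - 1) (by omega)).1
  have e3 : Ico (M₁ - i - 1) (M₁ - i) = {M₁ - i - 1} := by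
    ext j
    simp only [Finset.mem_Ico, Finset.mem_singleton]
    omega
  have e4 : M₁ - i - (M₁ - i - 1) = 1 := by omega
  rw [e3, Finset.prod_singleton, e4, one_mul, pow_one] at h1
  have h2 : Real.exp (-(x / 2)) * Real.exp (x / 4) ≤ 1 / 4 := by
    rw [← Real.exp_add]
    have h4 : Real.exp (-(x / 2) + x / 4) ≤ Real.exp (-2) := Real.exp_le_exp.2 (by linarith)
    have h5 : (2 : ℝ) ≤ Real.exp 1 := by linarith [Real.add_one_le_exp (1 : ℝ)]
    have h6 : Real.exp (-2) * (Real.exp 1 * Real.exp 1) = 1 := by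
      rw [← Real.exp_add, ← Real.exp_add]; norm_num
    have h7 : (4 : ℝ) ≤ Real.exp 1 * Real.exp 1 := by nlinarith
    have h8 : 0 < Real.exp (-2) := Real.exp_pos _
    nlinarith
  exact le_trans (mul_le_mul h1 hA (h3.alp_nonneg _ _ _) (Real.exp_pos _).le) h2

end Alg

open Classical in
/-- Counting the bad pairs. -/
theorem Step_count (N' q : ℕ) (P : ℕ → Prop) (G : ℕ → ℕ → Prop) (BB : Finset ℕ) (b f : ℝ)
    (hb : (BB.card : ℝ) ≤ b)
    (h : ∀ l < N', ∃ FB : Finset ℕ, (FB.card : ℝ) ≤ f ∧ (P l → ∀ i, q ≤ i → i < 2 * q → i ∉ FB →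
      (2 * N' - l) * (2 * q) - i ∉ BB → G l i)) :
    ∑ l ∈ range N', ∑ _i ∈ Ico q (2 * q), (if P l then (1 : ℝ) else 0) ≤
      ∑ l ∈ range N', ∑ i ∈ Ico q (2 * q), (if G l i then (1 : ℝ) else 0) + (b + N' * f) := by
  choose! FB hFB hG using h
  have h1 : ∀ l ∈ range N', ∀ i ∈ Ico q (2 * q), (if P l then (1 : ℝ) else 0) ≤
      (if G l i then (1 : ℝ) else 0) + ((if (2 * N' - l) * (2 * q) - i ∈ BB then (1 : ℝ) else 0) +
        (if i ∈ FB l then (1 : ℝ) else 0)) := by
    intro l hl i hi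
    have hG' := hG l (Finset.mem_range.1 hl)
    obtain ⟨hi1, hi2⟩ := Finset.mem_Ico.1 hi
    by_cases p1 : P l
    · by_cases p2 : i ∈ FB l
      · simp only [p1, p2, if_true]
        split_ifs <;> norm_num
      · by_cases p3 : (2 * N' - l) * (2 * q) - i ∈ BB
        · simp only [p1, p2, p3, if_true, if_false]
          split_ifs <;> norm_num
        · simp only [p1, p2, p3, hG' p1 i hi1 hi2 p2 p3, if_true, if_false]
          norm_num
    · simp only [p1, if_false]
      split_ifs <;> norm_num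
  have h2 : ∑ l ∈ range N', ∑ i ∈ Ico q (2 * q),
      (if (2 * N' - l) * (2 * q) - i ∈ BB then (1 : ℝ) else 0) ≤ b := by
    rw [← Finset.sum_product', Finset.sum_boole]
    refine le_trans (Nat.cast_le.2 ?_) hb
    refine Finset.card_le_card_of_injOn (fun p => (2 * N' - p.1) * (2 * q) - p.2) ?_ ?_
    · intro p hp
      exact (Finset.mem_filter.1 hp).2
    · intro p hp p' hp' he
      obtain ⟨l, i⟩ := p
      obtain ⟨l', i'⟩ := p'
      have hp1 := Finset.mem_product.1 (Finset.mem_filter.1 hp).1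
      have hp2 := Finset.mem_product.1 (Finset.mem_filter.1 hp').1
      simp only [Finset.mem_range, Finset.mem_Ico] at hp1 hp2 he
      obtain ⟨u, hu⟩ : ∃ u, 2 * N' - l = u + 1 := ⟨2 * N' - l - 1, by omega⟩
      obtain ⟨u', hu'⟩ : ∃ u, 2 * N' - l' = u + 1 := ⟨2 * N' - l' - 1, by omega⟩
      rw [hu, hu', Nat.add_one_mul u, Nat.add_one_mul u'] at he
      have huu : u = u' := by
        rcases lt_trichotomy u u' with h | h | h
        · have : (u + 1) * (2 * q) ≤ u' * (2 * q) := Nat.mul_le_mul_right _ h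
          rw [Nat.add_one_mul u] at this
          omega
        · exact h
        · have : (u' + 1) * (2 * q) ≤ u * (2 * q) := Nat.mul_le_mul_right _ h
          rw [Nat.add_one_mul u'] at this
          omega
      subst huu
      have e1 : l = l' := by omega
      have e2 : i = i' := by omega
      rw [e1, e2]
  have h3 : ∑ l ∈ range N', ∑ i ∈ Ico q (2 * q), (if i ∈ FB l then (1 : ℝ) else 0) ≤ N' * f := by
    have : ∀ l ∈ range N', ∑ i ∈ Ico q (2 * q), (if i ∈ FB l then (1 : ℝ) else 0) ≤ f := by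
      intro l hl
      rw [Finset.sum_boole]
      refine le_trans (Nat.cast_le.2 (Finset.card_le_card ?_)) (hFB l (Finset.mem_range.1 hl))
      intro i hi
      exact (Finset.mem_filter.1 hi).2
    refine le_trans (Finset.sum_le_sum this) ?_
    simp
  refine le_trans (Finset.sum_le_sum fun l hl => Finset.sum_le_sum fun i hi => h1 l hl i hi) ?_
  simp only [Finset.sum_add_distrib]
  linarith

open Classical in
/-- Averaging the pointwise inequality. -/
theorem Step_avg {Y : Type} [MeasurableSpace Y] (ν : Measure Y) [IsProbabilityMeasure ν]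
    (S : Y → Y) (hS : MeasurePreserving S ν ν) (A W : Set Y) (G : ℕ → ℕ → Set Y)
    (hA : MeasurableSet A) (hW : MeasurableSet W) (hG : ∀ l i, MeasurableSet (G l i))
    (N' q m : ℕ) (hN : 1 ≤ N') (hq : 1 ≤ q) (c δ : ℝ) (hc : 0 ≤ c)
    (hδ : ∀ l < N', ∀ i, q ≤ i → i < 2 * q → ν.real (G l i) ≤ δ)
    (h : ∀ a, a ∉ W →
      ∑ l ∈ range N', ∑ _i ∈ Ico q (2 * q), (if S^[l * m] a ∈ A then (1 : ℝ) else 0) ≤
      ∑ l ∈ range N', ∑ i ∈ Ico q (2 * q), (if S^[l * m] a ∈ G l i then (1 : ℝ) else 0) +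
        c * (N' * q)) :
    ν.real A ≤ ν.real W + δ + c := by
  have hind : ∀ (B : Set Y) (t : ℕ), (fun a => if S^[t] a ∈ B then (1 : ℝ) else 0) =
      (S^[t] ⁻¹' B).indicator 1 := by
    intro B t
    funext a
    by_cases ha : S^[t] a ∈ B
    · simp [Set.indicator, ha]
    · simp [Set.indicator, ha]
  have hint : ∀ (B : Set Y) (t : ℕ), MeasurableSet B →
      Integrable (fun a => if S^[t] a ∈ B then (1 : ℝ) else 0) ν := by
    intro B t hB
    rw [hind]
    exact (integrable_const (1 : ℝ)).indicator ((hS.iterate t).measurable hB)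
  have hval : ∀ (B : Set Y) (t : ℕ), MeasurableSet B →
      ∫ a, (if S^[t] a ∈ B then (1 : ℝ) else 0) ∂ν = ν.real B := by
    intro B t hB
    rw [hind, integral_indicator_one ((hS.iterate t).measurable hB),
      (hS.iterate t).measureReal_preimage hB.nullMeasurableSet]
  have hcard : ((Ico q (2 * q)).card : ℝ) = q := by
    rw [Nat.card_Ico]
    have : 2 * q - q = q := by omega
    rw [this]
  have hNq : (0 : ℝ) < N' * q := by
    have h1 : (0 : ℝ) < N' := by exact_mod_cast hN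
    have h2 : (0 : ℝ) < q := by exact_mod_cast hq
    positivity
  have hpt : ∀ a,
      ∑ l ∈ range N', ∑ _i ∈ Ico q (2 * q), (if S^[l * m] a ∈ A then (1 : ℝ) else 0) ≤
      ∑ l ∈ range N', ∑ i ∈ Ico q (2 * q), (if S^[l * m] a ∈ G l i then (1 : ℝ) else 0) +
        (N' * q * (if S^[0] a ∈ W then (1 : ℝ) else 0) + c * (N' * q)) := by
    intro a
    by_cases ha : a ∈ W
    · have h1 : ∑ l ∈ range N', ∑ _i ∈ Ico q (2 * q),
          (if S^[l * m] a ∈ A then (1 : ℝ) else 0) ≤
          ∑ _l ∈ range N', ∑ _i ∈ Ico q (2 * q), (1 : ℝ) := by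
        refine Finset.sum_le_sum fun l _ => Finset.sum_le_sum fun i _ => ?_
        split_ifs <;> norm_num
      have h2 : 0 ≤ ∑ l ∈ range N', ∑ i ∈ Ico q (2 * q),
          (if S^[l * m] a ∈ G l i then (1 : ℝ) else 0) := by
        refine Finset.sum_nonneg fun l _ => Finset.sum_nonneg fun i _ => ?_
        split_ifs <;> norm_num
      simp only [Finset.sum_const, nsmul_eq_mul, hcard, Finset.card_range, mul_one] at h1
      simp only [Function.iterate_zero, id, ha, if_true, mul_one, Finset.sum_const, nsmul_eq_mul,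
        hcard]
      have h3 : 0 ≤ c * (N' * q) := by positivity
      linarith
    · have := h a ha
      simp only [Function.iterate_zero, id, ha, if_false, mul_zero, zero_add]
      exact this
  have iL : ∀ l, Integrable (fun a => ∑ _i ∈ Ico q (2 * q),
      (if S^[l * m] a ∈ A then (1 : ℝ) else 0)) ν :=
    fun l => integrable_finsetSum _ fun i _ => hint A _ hA
  have iG : ∀ l, Integrable (fun a => ∑ i ∈ Ico q (2 * q),
      (if S^[l * m] a ∈ G l i then (1 : ℝ) else 0)) ν :=
    fun l => integrable_finsetSum _ fun i _ => hint _ _ (hG l i)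
  have iW : Integrable (fun a => (N' : ℝ) * q * (if S^[0] a ∈ W then (1 : ℝ) else 0)) ν :=
    (hint W 0 hW).const_mul _
  have hI := integral_mono (integrable_finsetSum (range N') fun l _ => iL l)
    ((integrable_finsetSum (range N') fun l _ => iG l).add
      (iW.add (integrable_const (c * (N' * q))))) hpt
  have eL : ∫ a, ∑ l ∈ range N', ∑ _i ∈ Ico q (2 * q),
      (if S^[l * m] a ∈ A then (1 : ℝ) else 0) ∂ν = N' * q * ν.real A := by
    rw [integral_finsetSum _ fun l _ => iL l]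
    have : ∀ l ∈ range N', ∫ a, ∑ _i ∈ Ico q (2 * q),
        (if S^[l * m] a ∈ A then (1 : ℝ) else 0) ∂ν = q * ν.real A := by
      intro l _
      rw [integral_finsetSum _ fun i _ => hint A _ hA]
      simp only [hval A _ hA, Finset.sum_const, nsmul_eq_mul, hcard]
    rw [Finset.sum_congr rfl this]
    simp only [Finset.sum_const, nsmul_eq_mul, Finset.card_range]
    ring
  have eG : ∫ a, ∑ l ∈ range N', ∑ i ∈ Ico q (2 * q),
      (if S^[l * m] a ∈ G l i then (1 : ℝ) else 0) ∂ν ≤ N' * q * δ := by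
    rw [integral_finsetSum _ fun l _ => iG l]
    have : ∀ l ∈ range N', ∫ a, ∑ i ∈ Ico q (2 * q),
        (if S^[l * m] a ∈ G l i then (1 : ℝ) else 0) ∂ν ≤ q * δ := by
      intro l hl
      rw [integral_finsetSum _ fun i _ => hint _ _ (hG l i)]
      have h2 : ∀ i ∈ Ico q (2 * q),
          ∫ a, (if S^[l * m] a ∈ G l i then (1 : ℝ) else 0) ∂ν ≤ δ := by
        intro i hi
        rw [hval _ _ (hG l i)]
        exact hδ l (Finset.mem_range.1 hl) i (Finset.mem_Ico.1 hi).1 (Finset.mem_Ico.1 hi).2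
      refine le_trans (Finset.sum_le_sum h2) ?_
      simp only [Finset.sum_const, nsmul_eq_mul, hcard, le_refl]
    refine le_trans (Finset.sum_le_sum this) ?_
    simp only [Finset.sum_const, nsmul_eq_mul, Finset.card_range]
    linarith [mul_assoc (N' : ℝ) q δ]
  have eR : ∫ a, (∑ l ∈ range N', ∑ i ∈ Ico q (2 * q),
      (if S^[l * m] a ∈ G l i then (1 : ℝ) else 0) +
        (N' * q * (if S^[0] a ∈ W then (1 : ℝ) else 0) + c * (N' * q))) ∂ν =
      ∫ a, ∑ l ∈ range N', ∑ i ∈ Ico q (2 * q),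
        (if S^[l * m] a ∈ G l i then (1 : ℝ) else 0) ∂ν + (N' * q * ν.real W + c * (N' * q)) := by
    have iW' : Integrable (fun a => (N' : ℝ) * q * (if S^[0] a ∈ W then (1 : ℝ) else 0) +
        c * (N' * q)) ν := iW.add (integrable_const (c * (N' * q)))
    rw [integral_add (integrable_finsetSum (range N') fun l _ => iG l) iW',
      integral_add iW (integrable_const _),
      integral_const_mul, hval W 0 hW]
    simp
  have hfin : N' * q * ν.real A ≤ N' * q * (ν.real W + δ + c) := by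
    have h9 : ∫ a, ∑ l ∈ range N', ∑ _i ∈ Ico q (2 * q),
        (if S^[l * m] a ∈ A then (1 : ℝ) else 0) ∂ν ≤
        ∫ a, (∑ l ∈ range N', ∑ i ∈ Ico q (2 * q),
          (if S^[l * m] a ∈ G l i then (1 : ℝ) else 0) +
          (N' * q * (if S^[0] a ∈ W then (1 : ℝ) else 0) + c * (N' * q))) ∂ν := hI
    rw [eL, eR] at h9
    linarith
  exact le_of_mul_le_mul_left hfin hNq

theorem Step_thm (h1 : StN) (h2 : StSV) (h3 : StTrv) (h4 : StSub) (h5 : StBwd) (h6 : StFwd) :
    StStep := by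
  classical
  intro n Y _ ν _ S K Af Bk hc M₀ hM₀ hinv k d τ q N' med big R R' η ηd δ hkd hτ hq hN hmed hbig
    hη hη1 hR' hRR hR hl1 hl2 hd hU hWW hG
  have hbig' : big = 2 * N' * (2 * q) * τ := by rw [hbig, hmed]; ring
  have hτ' : (1 : ℝ) ≤ τ := by exact_mod_cast hτ
  have hRpos : 0 < R := by
    by_contra h
    have : R * τ ≤ 0 := mul_nonpos_of_nonpos_of_nonneg (not_lt.1 h) (by linarith)
    linarith
  have hmed0 : (0 : ℝ) < med := by
    have : 0 < med := by rw [hmed]; positivity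
    exact_mod_cast this
  have hbig0 : (0 : ℝ) < big := by
    have : 0 < big := by rw [hbig']; positivity
    exact_mod_cast this
  have sU := h4.subU ν S K Af Bk hc d R (by omega) hRpos.le
  have sW := h4.subW ν S K Af Bk hc k R' (by omega) hR'.le
  have mF : ∀ (j t : ℕ) (x : ℝ), MeasurableSet {y | Fast j x (Bk t y)} := by
    intro j t x
    exact measurableSet_le (((h1.locont j).measurable.comp (hc.mB t)).mul_const _)
      ((h1.cont j).measurable.comp (hc.mB t))
  have mS : ∀ (C : ℝ) (f : ℕ → Y → ℝ), SubAdd S C f → ∀ (Q : ℕ) (l : ℝ),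
      MeasurableSet {y | l < ∑ i ∈ range Q, f τ (S^[i * τ] y) - f (Q * τ) y} := by
    intro C f hf Q l
    exact measurableSet_lt measurable_const ((Finset.measurable_sum _ fun i _ =>
      (hf.meas τ).comp (hc.mp.iterate _).measurable).sub (hf.meas _))
  obtain ⟨ZU, hZU⟩ : ∃ Z : Set Y, Z = {y | η * R * big / 8 <
    ∑ i ∈ range (2 * N' * (2 * q)), fU d (R * τ) (Bk τ (S^[i * τ] y)) -
      fU d (R * (2 * N' * (2 * q) * τ : ℕ)) (Bk (2 * N' * (2 * q) * τ) y)} := ⟨_, rfl⟩
  obtain ⟨ZV, hZV⟩ : ∃ Z : Set Y, Z = {y | R' * med / 4 <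
    ∑ i ∈ range (2 * q), fW k (R' * τ) (Af τ (S^[i * τ] y)) -
      fW k (R' * (2 * q * τ : ℕ)) (Af (2 * q * τ) y)} := ⟨_, rfl⟩
  have mU : MeasurableSet ZU := by
    rw [hZU]; exact mS _ _ sU (2 * N' * (2 * q)) _
  have mV : MeasurableSet ZV := by
    rw [hZV]; exact mS _ _ sW (2 * q) _
  have bU : ν.real ZU ≤ η := by
    have h := (h4.gen ν S _ _ hc.mp sU τ (2 * N' * (2 * q)) hτ
      (Nat.succ_le_of_lt (by positivity))).2.2 (η * R * big / 8) (by positivity)
    rw [hZU]
    refine le_trans h ?_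
    rw [← hbig', div_le_iff₀ (by positivity)]
    have e : ((2 * N' * (2 * q) : ℕ) : ℝ) * τ = big := by rw [hbig']; push_cast; ring
    rw [e]
    have := mul_le_mul_of_nonneg_left hU hbig0.le
    linarith
  have bV : ν.real ZV ≤ η := by
    have h := (h4.gen ν S _ _ hc.mp sW τ (2 * q) hτ
      (Nat.succ_le_of_lt (by positivity))).2.2 (R' * med / 4) (by positivity)
    rw [hZV]
    refine le_trans h ?_
    rw [← hmed, div_le_iff₀ (by positivity)]
    have e : ((2 * q : ℕ) : ℝ) * τ = med := by rw [hmed]; push_cast; ring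
    rw [e]
    have := mul_le_mul_of_nonneg_left hWW hmed0.le
    linarith
  obtain ⟨G₀, hG₀⟩ : ∃ G₀ : ℕ → ℕ → Set Y, ∀ l i, G₀ l i =
    {a | a ∈ M₀ ∧ ∃ (I' : Fin k → Fin n) (I : Fin d → Fin n), Function.Injective I' ∧
      Function.Injective I ∧ Good S Af Bk τ i ((2 * N' - l) * (2 * q) - i)
        (Real.exp (-(R * τ / 2))) (Real.exp (2 * R' * med)) I' I a} := ⟨_, fun _ _ => rfl⟩
  have hit : ∀ t a, S^[t] a ∈ M₀ → a ∈ M₀ := by
    intro t
    induction t with
    | zero => intro a ha; exact ha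
    | succ t ih =>
      intro a ha
      rw [Function.iterate_succ_apply] at ha
      have : a ∈ S ⁻¹' M₀ := ih _ ha
      rwa [hinv] at this
  have key := Step_avg ν S hc.mp ((M₀ \ {y | Fast (d + 1) (R' * med) (Bk med y)}) \ ZV)
    ((M₀ \ {y | Fast d (R * big) (Bk big y)}) ∪ ZU) (fun l i => toMeasurable ν (G₀ l i))
    ((hM₀.diff (mF _ _ _)).diff mV) ((hM₀.diff (mF _ _ _)).union mU)
    (fun l i => measurableSet_toMeasurable _ _) N' q med hN hq (5 / 2 * η) δ (by positivity)
    (fun l hl i hi1 hi2 => by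
      have := hG i l hi1 hi2 hl
      rw [← hG₀] at this
      rw [Measure.real, measure_toMeasurable]
      exact this)
    (fun a ha => by
      by_cases haM : a ∈ M₀
      · have hf : Fast d (R * big) (Bk big a) := by
          by_contra hcon
          exact ha (Or.inl ⟨haM, hcon⟩)
        have hs : a ∉ ZU := fun hcon => ha (Or.inr hcon)
        rw [hZU, Set.mem_setOf_eq] at hs
        obtain ⟨I, hI, BB, hBB, hTC⟩ := Step_bwd h5 hc d τ (2 * N' * (2 * q)) R η (by omega) hR
          (by rw [← hbig']; exact hl1) a (by rw [← hbig']; exact hf)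
          (by have := not_lt.1 hs; rw [hbig'] at this; exact this)
        have hcount := Step_count N' q
          (fun l => S^[l * med] a ∈ (M₀ \ {y | Fast (d + 1) (R' * med) (Bk med y)}) \ ZV)
          (fun l i => S^[l * med] a ∈ toMeasurable ν (G₀ l i)) BB _ (η * q / 2) hBB
          (fun l hl => by
            by_cases hP : S^[l * med] a ∈ (M₀ \ {y | Fast (d + 1) (R' * med) (Bk med y)}) \ ZV
            · obtain ⟨⟨hP1, hP2⟩, hP3⟩ := hP
              rw [hZV, Set.mem_setOf_eq] at hP3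
              obtain ⟨I', hI', hTF, FB, hFB, hal⟩ := Step_fwd h2 h3 h6 hc k d τ q R R' η hkd hτ hη1
                hR' hRR hR (by rw [← hmed]; exact hl2) (S^[l * med] a)
                (by rw [← hmed]; exact hP2)
                (by have := not_lt.1 hP3; rw [← hmed] at this ⊢; exact this)
              refine ⟨FB, hFB, fun _ i hi1 hi2 hi3 hi4 => subset_toMeasurable _ _ ?_⟩
              rw [hG₀]
              refine ⟨hP1, I', I, hI', hI, ?_⟩
              have e1 : l * med = l * (2 * q) * τ := by rw [hmed]; ring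
              have e2 : 2 * N' * (2 * q) = (2 * N' - l) * (2 * q) + l * (2 * q) := by
                rw [← Nat.add_mul, Nat.sub_add_cancel (by omega)]
              have e3 : 2 * q ≤ (2 * N' - l) * (2 * q) :=
                Nat.le_mul_of_pos_left _ (by omega)
              have hB := hTC ((2 * N' - l) * (2 * q) - i) (by omega) hi4
              rw [e2] at hB
              rw [← hmed] at hTF
              rw [e1] at hTF hal ⊢
              exact Step_good h3 τ ((2 * N' - l) * (2 * q)) (l * (2 * q)) i (R * τ) _ hR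
                (Real.one_le_exp (by positivity)) a I' I (by omega) (hTF i hi2.le)
                (hal i hi2 hi3) hB
            · exact ⟨∅, by simp only [Finset.card_empty, Nat.cast_zero]; positivity,
                fun h => absurd h hP⟩)
        have e : η * ((2 * N' * (2 * q) : ℕ) : ℝ) / 2 + N' * (η * q / 2) =
            5 / 2 * η * (N' * q) := by push_cast; ring
        rw [e] at hcount
        convert hcount
      · have hz : ∀ l, S^[l * med] a ∉
            (M₀ \ {y | Fast (d + 1) (R' * med) (Bk med y)}) \ ZV :=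
          fun l hcon => haM (hit _ _ hcon.1.1)
        simp only [hz, if_false, Finset.sum_const_zero]
        refine add_nonneg (Finset.sum_nonneg fun l _ => Finset.sum_nonneg fun i _ => ?_)
          (by positivity)
        split_ifs <;> norm_num)
  have u1 := measureReal_union_le (μ := ν) (M₀ \ {y | Fast d (R * big) (Bk big y)}) ZU
  have u2 := measureReal_union_le (μ := ν)
    ((M₀ \ {y | Fast (d + 1) (R' * med) (Bk med y)}) \ ZV) ZV
  have u3 : ν.real (M₀ \ {y | Fast (d + 1) (R' * med) (Bk med y)}) ≤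
      ν.real (((M₀ \ {y | Fast (d + 1) (R' * med) (Bk med y)}) \ ZV) ∪ ZV) := by
    refine measureReal_mono (fun y hy => ?_)
    by_cases hv : y ∈ ZV
    · exact Or.inr hv
    · exact Or.inl ⟨hy, hv⟩
  linarith

end Pool.Agent.Lib.MP_1df8f0_an.K
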