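import Pool.Agent.Lib.MP_1df8f0_an.K.Sm

/-!
Subadditive processes attached to a derivative cocycle.
-/

open MeasureTheory Finset

noncomputable section

namespace Pool.Agent.Lib.MP_1df8f0_an.K

theorem Sub_up (h1 : StN) {n k : ℕ} (hk : k ≤ n) {B : Op n} {L : ℝ} (hL : 1 ≤ L)
    (hB : ‖B‖ ≤ L) : Nk k B ≤ L ^ n :=
  (h1.pow k B).trans ((pow_le_pow_left₀ (norm_nonneg _) hB k).trans (pow_le_pow_right₀ hL hk))

theorem Sub_lo (h1 : StN) {n k : ℕ} (hk : k ≤ n) {B : Op n} {L : ℝ} (hL : 1 ≤ L)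
    (hB : ‖B‖ ≤ L) : Lo k B ≤ L ^ n := by
  cases k with
  | zero => exact (by positivity : (0 : ℝ) ≤ L ^ n)
  | succ k => exact Sub_up h1 (by omega) hL hB

theorem Sub_low (h1 : StN) {n k : ℕ} (hk : k ≤ n) {A B : Op n} {L : ℝ} (hL : 1 ≤ L)
    (hA : ‖A‖ ≤ L) (h : A ∘L B = ContinuousLinearMap.id ℝ (E n)) : (L ^ n)⁻¹ ≤ Nk k B := by
  have h2 := h1.inv k A B hk h
  have h3 := Sub_up h1 hk hL hA
  have h4 := h1.nonneg k B
  rw [inv_le_iff_one_le_mul₀' (by positivity)]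
  exact h2.trans (mul_le_mul_of_nonneg_right h3 h4)

theorem Sub_abs {P m c x : ℝ} (hP : 1 ≤ P) (hx : 0 ≤ x) (m1 : P⁻¹ ≤ m) (m2 : m ≤ P * Real.exp x)
    (c1 : P⁻¹ ≤ c) (c2 : c ≤ P) : |Real.log m + Real.log c| ≤ 2 * Real.log P + x := by
  have p0 : 0 < P := by linarith
  have p1 : 0 < P⁻¹ := inv_pos.2 p0
  have a1 := Real.log_le_log p1 m1
  have a2 := Real.log_le_log (p1.trans_le m1) m2
  have a3 := Real.log_le_log p1 c1
  have a4 := Real.log_le_log (p1.trans_le c1) c2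
  rw [Real.log_inv] at a1 a3
  rw [Real.log_mul p0.ne' (Real.exp_pos x).ne', Real.log_exp] at a2
  rw [abs_le]
  constructor <;> linarith

theorem Sub_log {m m1 m2 c c1 c2 : ℝ} (hm : 0 < m) (hc : 0 < c) (a1 : 0 < m1) (a2 : 0 < m2)
    (b1 : 0 < c1) (b2 : 0 < c2) (h : m ≤ m1 * m2) (h' : c ≤ c1 * c2) :
    Real.log m + Real.log c ≤ (Real.log m1 + Real.log c1) + (Real.log m2 + Real.log c2) := by
  have e1 := Real.log_le_log hm h
  have e2 := Real.log_le_log hc h'
  rw [Real.log_mul a1.ne' a2.ne'] at e1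
  rw [Real.log_mul b1.ne' b2.ne'] at e2
  linarith

theorem Sub_max {a b a1 a2 b1 b2 : ℝ} (ha : a ≤ a1 * a2) (hb : b ≤ b1 * b2) (h1 : 0 ≤ a2)
    (h2 : 0 ≤ b2) (h3 : 0 ≤ a1) : max a b ≤ max a1 b1 * max a2 b2 := by
  have h4 : 0 ≤ max a1 b1 := h3.trans (le_max_left _ _)
  exact max_le (ha.trans (mul_le_mul (le_max_left _ _) (le_max_left _ _) h1 h4))
    (hb.trans (mul_le_mul (le_max_right _ _) (le_max_right _ _) h2 h4))

theorem Sub_fU (h1 : StN) {n : ℕ} (k : ℕ) (x y : ℝ) (A B : Op n) (hA : 0 < Nk k A)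
    (hB : 0 < Nk k B) (hAB : 0 < Nk k (A ∘L B)) :
    fU k (x + y) (A ∘L B) ≤ fU k x A + fU k y B := by
  have l1 := h1.lonn k A
  have l2 := h1.lonn k B
  refine Sub_log (hAB.trans_le (le_max_right _ _)) hAB (hA.trans_le (le_max_right _ _))
    (hB.trans_le (le_max_right _ _)) hA hB
    (Sub_max ?_ (h1.mul k A B) (by positivity) hB.le (by positivity)) (h1.mul k A B)
  rw [Real.exp_add, mul_mul_mul_comm]
  exact mul_le_mul_of_nonneg_right (h1.lomul k A B) (by positivity)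

theorem Sub_fW (h1 : StN) {n : ℕ} (k : ℕ) (x y : ℝ) (A B : Op n) (hA : 0 < Nk k A)
    (hB : 0 < Nk k B) (hAB : 0 < Nk k (A ∘L B)) :
    fW k (x + y) (A ∘L B) ≤ fW k x A + fW k y B := by
  refine Sub_log (lt_of_lt_of_le (by positivity) (le_max_left _ _)) hAB
    (lt_of_lt_of_le (by positivity) (le_max_left _ _))
    (lt_of_lt_of_le (by positivity) (le_max_left _ _)) hA hB
    (Sub_max ?_ (h1.lomul k A B) (by positivity) (h1.lonn k B) (by positivity)) (h1.mul k A B)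
  rw [Real.exp_add, mul_mul_mul_comm]
  exact mul_le_mul_of_nonneg_right (h1.mul k A B) (by positivity)

theorem Sub_mU (h1 : StN) {n : ℕ} (k : ℕ) (x : ℝ) : Measurable (fU k x : Op n → ℝ) :=
  (((h1.locont k).mul continuous_const).max (h1.cont k)).measurable.log.add
    (h1.cont k).measurable.log

theorem Sub_mW (h1 : StN) {n : ℕ} (k : ℕ) (x : ℝ) : Measurable (fW k x : Op n → ℝ) :=
  (((h1.cont k).mul continuous_const).max (h1.locont k)).measurable.log.add
    (h1.cont k).measurable.log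

theorem Sub_cst (n t : ℕ) (K R : ℝ) :
    2 * Real.log ((K ^ t) ^ n) + R * t = (2 * n * Real.log K + R) * t := by
  rw [Real.log_pow, Real.log_pow]
  ring

theorem Sub_gen {Y : Type} [MeasurableSpace Y] (ν : Measure Y) [IsProbabilityMeasure ν]
    (S : Y → Y) (C : ℝ) (f : ℕ → Y → ℝ) (mp : MeasurePreserving S ν ν) (h : SubAdd S C f)
    (t q : ℕ) (ht : 1 ≤ t) (hq : 1 ≤ q) :
    |av ν f t| ≤ C ∧ av ν f (q * t) ≤ av ν f t ∧ ∀ l : ℝ, 0 < l →
      ν.real {y | l < ∑ i ∈ range q, f t (S^[i * t] y) - f (q * t) y} ≤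
        q * t * (av ν f t - av ν f (q * t)) / l := by
  have t0 : (0 : ℝ) < t := Nat.cast_pos.2 ht
  have q0 : (0 : ℝ) < q := Nat.cast_pos.2 hq
  have hi : ∀ s, Integrable (f s) ν := fun s =>
    Integrable.of_bound (h.meas s).aestronglyMeasurable (C * s) (ae_of_all _ (h.bd s))
  have hi2 : ∀ i, Integrable (fun y => f t (S^[i] y)) ν := fun i =>
    (mp.iterate i).integrable_comp_of_integrable (hi t)
  have he : ∀ i, ∫ y, f t (S^[i] y) ∂ν = ∫ y, f t y ∂ν := fun i => by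
    rw [← integral_map (mp.iterate i).measurable.aemeasurable (h.meas t).aestronglyMeasurable,
      (mp.iterate i).map_eq]
  have hs : ∀ (p : ℕ) y, f (p * t) y ≤ ∑ i ∈ range p, f t (S^[i * t] y) := by
    intro p y
    induction p with
    | zero => simpa using (le_abs_self _).trans (h.bd 0 y)
    | succ p ih =>
      rw [sum_range_succ, Nat.succ_mul]
      linarith [h.sub (p * t) t y]
  have hg : Integrable (fun y => ∑ i ∈ range q, f t (S^[i * t] y) - f (q * t) y) ν :=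
    (integrable_finsetSum _ fun i _ => hi2 _).sub (hi _)
  have hI : ∫ y, (∑ i ∈ range q, f t (S^[i * t] y) - f (q * t) y) ∂ν =
      q * t * (av ν f t - av ν f (q * t)) := by
    rw [integral_sub (integrable_finsetSum _ fun i _ => hi2 _) (hi _),
      integral_finsetSum _ fun i _ => hi2 _]
    simp only [he, sum_const, card_range, nsmul_eq_mul, av, Nat.cast_mul]
    field_simp
  have h0 : ∀ y, 0 ≤ ∑ i ∈ range q, f t (S^[i * t] y) - f (q * t) y := fun y =>
    sub_nonneg.2 (hs q y)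
  refine ⟨?_, ?_, fun l hl => ?_⟩
  · rw [av, abs_div, abs_of_pos t0, div_le_iff₀ t0]
    simpa using norm_integral_le_of_norm_le_const (μ := ν) (f := f t) (ae_of_all _ (h.bd t))
  · have : 0 ≤ ∫ y, (∑ i ∈ range q, f t (S^[i * t] y) - f (q * t) y) ∂ν := integral_nonneg h0
    rw [hI] at this
    exact sub_nonneg.1 (nonneg_of_mul_nonneg_right this (by positivity))
  · rw [le_div_iff₀ hl, ← hI, mul_comm]
    refine le_trans ?_ (mul_meas_ge_le_integral_of_nonneg (ae_of_all _ h0) hg l)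
    exact mul_le_mul_of_nonneg_left (measureReal_mono fun y hy => (le_of_lt hy : l ≤ _)) hl.le

theorem Sub_thm (h1 : StN) : StSub := by
  refine ⟨fun {n Y} _ ν S K Af Bk c d R hd hR => ?_, fun {n Y} _ ν S K Af Bk c k R hk hR => ?_,
    fun ν _ S C f mp h t q ht hq => Sub_gen ν S C f mp h t q ht hq⟩
  · have hL : ∀ t : ℕ, 1 ≤ K ^ t := fun t => one_le_pow₀ c.one
    have lo : ∀ t y, ((K ^ t) ^ n)⁻¹ ≤ Nk d (Bk t y) := fun t y =>
      Sub_low h1 hd (hL t) (c.bA t y) (c.ab t y)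
    have pos : ∀ t y, 0 < Nk d (Bk t y) := fun t y =>
      lt_of_lt_of_le (inv_pos.2 (pow_pos (zero_lt_one.trans_le (hL t)) n)) (lo t y)
    refine ⟨fun t => (Sub_mU h1 d _).comp (c.mB t), fun t y => ?_, fun s t y => ?_⟩
    · have x0 : 0 ≤ R * t := by positivity
      have e1 := Real.one_le_exp x0
      have u1 := Sub_up h1 hd (hL t) (c.bB t y)
      have p1 : 1 ≤ (K ^ t) ^ n := one_le_pow₀ (hL t)
      rw [← Sub_cst]
      refine Sub_abs p1 x0 ((lo t y).trans (le_max_right _ _)) (max_le ?_ ?_) (lo t y) u1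
      · exact mul_le_mul_of_nonneg_right (Sub_lo h1 hd (hL t) (c.bB t y)) (by positivity)
      · exact u1.trans (le_mul_of_one_le_right (by positivity) e1)
    · have := Sub_fU h1 d (R * s) (R * t) _ _ (pos s y) (pos t (S^[s] y))
        (by rw [← c.cB]; exact pos _ y)
      rwa [← c.cB, ← mul_add, ← Nat.cast_add] at this
  · have hL : ∀ t : ℕ, 1 ≤ K ^ t := fun t => one_le_pow₀ c.one
    have lo : ∀ t y, ((K ^ t) ^ n)⁻¹ ≤ Nk k (Af t y) := fun t y =>
      Sub_low h1 hk (hL t) (c.bB t y) (c.ba t y)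
    have pos : ∀ t y, 0 < Nk k (Af t y) := fun t y =>
      lt_of_lt_of_le (inv_pos.2 (pow_pos (zero_lt_one.trans_le (hL t)) n)) (lo t y)
    refine ⟨fun t => (Sub_mW h1 k _).comp (c.mA t), fun t y => ?_, fun s t y => ?_⟩
    · have x0 : 0 ≤ R * t := by positivity
      have e1 := Real.one_le_exp x0
      have u1 := Sub_up h1 hk (hL t) (c.bA t y)
      have p1 : 1 ≤ (K ^ t) ^ n := one_le_pow₀ (hL t)
      rw [← Sub_cst]
      refine Sub_abs p1 x0 (((lo t y).trans (le_mul_of_one_le_right (pos t y).le e1)).trans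
        (le_max_left _ _)) (max_le ?_ ?_) (lo t y) u1
      · exact mul_le_mul_of_nonneg_right u1 (by positivity)
      · exact (Sub_lo h1 hk (hL t) (c.bA t y)).trans (le_mul_of_one_le_right (by positivity) e1)
    · have := Sub_fW h1 k (R * t) (R * s) _ _ (pos t (S^[s] y)) (pos s y)
        (by rw [← c.cA]; exact pos _ y)
      rwa [← c.cA, ← mul_add, ← Nat.cast_add, add_comm t s, add_comm (fW k (R * t) _)] at this

end Pool.Agent.Lib.MP_1df8f0_an.K
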