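import Pool.Agent.Lib.MP_1df8f0_an.K.Sy

/-!
From `B` to the invariant set of points visiting `B` infinitely often.
-/

open MeasureTheory Finset Filter Topology ProbabilityTheory
open scoped ENNReal

noncomputable section

namespace Pool.Agent.Lib.MP_1df8f0_an.K

lemma Sym2_pre {Y : Type} [MeasurableSpace Y] {ν : Measure Y} [IsFiniteMeasure ν] {S : Y → Y}
    (hS : MeasurePreserving S ν ν) (U : Set Y) : ν.real (S ⁻¹' U) ≤ ν.real U := by
  refine ENNReal.toReal_mono (measure_ne_top _ _) ?_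
  have h := Measure.le_map_apply (μ := ν) hS.measurable.aemeasurable U
  rwa [hS.map_eq] at h

lemma Sym2_meas {Y : Type} [MeasurableSpace Y] {S : Y → Y} (hS : Measurable S) {B : Set Y}
    (hB : MeasurableSet B) : MeasurableSet {z | ∃ᶠ t in atTop, S^[t] z ∈ B} := by
  have : {z | ∃ᶠ t in atTop, S^[t] z ∈ B} = {z | ∀ N : ℕ, ∃ t, N ≤ t ∧ S^[t] z ∈ B} := by
    ext z
    simp only [Set.mem_ofPred_eq, frequently_atTop]
  rw [this]
  exact (Measurable.forall fun N => Measurable.exists fun t =>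
    measurable_const.and (hB.mem.comp (hS.iterate t))).setOf

lemma Sym2_inv {Y : Type} (S : Y → Y) (B : Set Y) :
    S ⁻¹' {z | ∃ᶠ t in atTop, S^[t] z ∈ B} = {z | ∃ᶠ t in atTop, S^[t] z ∈ B} := by
  ext z
  simp only [Set.mem_preimage, Set.mem_ofPred_eq, frequently_atTop]
  constructor
  · intro h N
    obtain ⟨t, h1, h2⟩ := h N
    exact ⟨t + 1, by omega, h2⟩
  · intro h N
    obtain ⟨t, h1, h2⟩ := h (N + 1)
    obtain ⟨s, rfl⟩ : ∃ s, t = s + 1 := ⟨t - 1, by omega⟩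
    exact ⟨s, by omega, h2⟩

lemma Sym2_K {Y : Type} [MeasurableSpace Y] {ν : Measure Y} [IsFiniteMeasure ν] {S : Y → Y}
    (hS : Measurable S) {B : Set Y} (hB : MeasurableSet B) {η : ℝ} (hη : 0 < η) :
    ∃ K : ℕ, 1 ≤ K ∧
      ν.real ({z | ∃ᶠ t in atTop, S^[t] z ∈ B} \ ⋃ k ∈ range K, S^[k] ⁻¹' B) ≤ η := by
  set U : ℕ → Set Y := fun K => {z | ∃ᶠ t in atTop, S^[t] z ∈ B} \ ⋃ k ∈ range K, S^[k] ⁻¹' B
    with hU
  have hm : ∀ K, MeasurableSet (U K) := fun K =>
    (Sym2_meas hS hB).diff (Finset.measurableSet_biUnion _ fun k _ => (hS.iterate k) hB)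
  have ha : Antitone U := by
    intro K K' hK z hz
    refine ⟨hz.1, fun h => hz.2 ?_⟩
    simp only [Set.mem_iUnion, mem_range] at h ⊢
    obtain ⟨k, h1, h2⟩ := h
    exact ⟨k, by omega, h2⟩
  have he : ⋂ K, U K = ∅ := by
    refine Set.eq_empty_iff_forall_notMem.2 fun z hz => ?_
    rw [Set.mem_iInter] at hz
    obtain ⟨t, ht⟩ := (hz 0).1.exists
    refine (hz (t + 1)).2 ?_
    simp only [Set.mem_iUnion, mem_range]
    exact ⟨t, by omega, ht⟩
  have ht := tendsto_measure_iInter_atTop (μ := ν) (fun K => (hm K).nullMeasurableSet) ha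
    ⟨0, measure_ne_top _ _⟩
  rw [he, measure_empty] at ht
  have h1 := ht.eventually (ge_mem_nhds (ENNReal.ofReal_pos.2 hη))
  obtain ⟨K, h2, h3⟩ := (h1.and (eventually_ge_atTop 1)).exists
  exact ⟨K, h3, ENNReal.toReal_le_of_le_ofReal hη.le h2⟩

lemma Sym2_grid (h J i : ℕ) (hh : 1 ≤ h) (hJ : 1 ≤ J) : 2 * J ≤ grid h J i := by
  unfold grid
  have h1 : 1 ≤ J ^ (2 * i + 2) := Nat.one_le_pow _ _ hJ
  calc 2 * J = 2 * J * 1 * 1 := by ring
    _ ≤ _ := by gcongr

lemma Sym2_num {C K Z : ℝ} (hC : 1 ≤ C) (hK : 0 ≤ K) (hZ : 8 * (C + 1) * (K + 1) ≤ Z) :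
    K * Real.exp (-(Z / C)) ≤ Real.exp (-(Z / (8 * (C + 1) * (K + 1)))) := by
  have hC0 : 0 < C := by linarith
  have hD : 0 < 8 * (C + 1) * (K + 1) := by positivity
  have hZ0 : 0 < Z := by linarith
  have h1 : Z / (8 * (C + 1) * (K + 1)) ≤ Z / C / 2 := by
    rw [div_div]
    refine div_le_div_of_nonneg_left hZ0.le (by positivity) ?_
    nlinarith
  have h2 : K ≤ Z / C / 2 := by
    rw [div_div, le_div_iff₀ (by positivity)]
    nlinarith [mul_nonneg hK hC0.le]
  have h3 : K ≤ Real.exp (Z / C / 2) := by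
    linarith [Real.add_one_le_exp (Z / C / 2)]
  calc K * Real.exp (-(Z / C)) ≤ Real.exp (Z / C / 2) * Real.exp (-(Z / C)) := by gcongr
    _ = Real.exp (-(Z / C / 2)) := by
        rw [← Real.exp_add]
        congr 1
        ring
    _ ≤ _ := Real.exp_le_exp.2 (by linarith)

theorem Sym2_thm : StSym2 := by
  intro X Y α _ _ _ μ T a ν _ S B hS hB hB0 H
  refine ⟨{z | ∃ᶠ t in atTop, S^[t] z ∈ B}, Sym2_meas hS.measurable hB, Sym2_inv S B, ?_, ?_⟩
  · refine ENNReal.toReal_pos (lt_of_lt_of_le hB0 (measure_mono_ae ?_)).ne' (measure_ne_top _ _)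
    filter_upwards [hS.conservative.ae_mem_imp_frequently_image_mem hB.nullMeasurableSet]
      with z hz hzB
    exact hz hzB
  intro η κ hη hκ
  obtain ⟨K, hK1, hK⟩ := Sym2_K (ν := ν) hS.measurable hB (half_pos hη)
  have hKr : (0 : ℝ) < K := by exact_mod_cast hK1
  obtain ⟨r, C, β₀, hr, hC, hβ₀, H1⟩ := H (η / (2 * K)) κ (by positivity) hκ
  have hCC : C ≤ 8 * (C + 1) * (K + 1) := by nlinarith
  have hKC : 8 * (K + 1) ≤ 8 * (C + 1) * (K + 1) := by nlinarith
  refine ⟨r, 8 * (C + 1) * (K + 1), β₀, hr, hC.trans hCC, hβ₀, ?_⟩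
  intro h J θ β o cls RG hBand hβ hJ hh hlog
  have hJ1 : 1 ≤ J := hC.trans (hCC.trans hJ)
  have hh1 : 1 ≤ h := hC.trans (hCC.trans hh)
  have hlog1 : 1 ≤ Real.log (grid h J J + 1) := by
    rw [Real.le_log_iff_exp_le (by positivity)]
    have h1 : (2 : ℝ) ≤ grid h J J := by
      have := Sym2_grid h J J hh1 hJ1
      exact_mod_cast (by omega : 2 ≤ grid h J J)
    linarith [Real.exp_one_lt_d9]
  have hCr : (C : ℝ) ≤ ((8 * (C + 1) * (K + 1) : ℕ) : ℝ) := by exact_mod_cast hCC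
  obtain ⟨er, her0, her1, H2⟩ := H1 h J θ β o cls RG hBand hβ (hCC.trans hJ) (hCC.trans hh)
    (le_trans (mul_le_mul_of_nonneg_right hCr (by linarith)) hlog)
  refine ⟨er, her0, her1, ?_⟩
  intro e' e 𝒥 he hne hj hsum
  obtain ⟨𝓔, hm, hE, hsh⟩ := H2 e' e 𝒥 he hne hj hsum
  have hP : ∀ k, MeasurePreserving (Prod.map S^[k] S^[k]) (ν.prod ν) (ν.prod ν) := fun k =>
    (hS.iterate k).prod (hS.iterate k)
  refine ⟨⋃ k ∈ range K, Prod.map S^[k] S^[k] ⁻¹' 𝓔,
    Finset.measurableSet_biUnion _ fun k _ => (hP k).measurable hm, ?_, ?_⟩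
  · have hJr : (1 : ℝ) ≤ J := by exact_mod_cast hJ1
    have hcard : (1 : ℝ) ≤ 𝒥.card := by exact_mod_cast hne.card_pos
    have hth : 8 * ((C : ℝ) + 1) * (K + 1) ≤ θ * h := by
      have h1 : ((8 * (C + 1) * (K + 1) : ℕ) : ℝ) * 1 ≤ θ * h :=
        le_trans (mul_le_mul_of_nonneg_left hlog1 (Nat.cast_nonneg _)) hlog
      push_cast at h1
      linarith
    have hth0 : 0 ≤ θ * h := le_trans (by positivity) hth
    have hZ : 8 * ((C : ℝ) + 1) * (K + 1) ≤ θ * grid h J e' * 𝒥.card / J := by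
      refine hth.trans ?_
      rw [le_div_iff₀ (by linarith)]
      have h1 : (1 : ℝ) ≤ (J : ℝ) ^ (2 * e' + 2) := one_le_pow₀ hJr
      have h2 : θ * grid h J e' * 𝒥.card = θ * h * J * (2 * (J : ℝ) ^ (2 * e' + 2) * 𝒥.card) := by
        unfold grid
        push_cast
        ring
      rw [h2]
      refine le_mul_of_one_le_right (by positivity) ?_
      nlinarith
    have h3 := Sym2_num (by exact_mod_cast hC) hKr.le hZ
    calc _ ≤ ∑ k ∈ range K, (ν.prod ν).real (Prod.map S^[k] S^[k] ⁻¹' 𝓔) :=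
          measureReal_biUnion_finset_le _ _
      _ ≤ ∑ _k ∈ range K, Real.exp (-(θ * grid h J e' * 𝒥.card / (C * J))) :=
          sum_le_sum fun k _ => (Sym2_pre (hP k) _).trans hE
      _ = K * Real.exp (-(θ * grid h J e' * 𝒥.card / J / C)) := by
          rw [sum_const, card_range, nsmul_eq_mul, div_div, mul_comm (J : ℝ) C]
      _ ≤ _ := by
          refine h3.trans (le_of_eq ?_)
          rw [div_div, mul_comm (J : ℝ)]
          push_cast
          rfl
  · have hg1 := Sym2_grid h J e' hh1 hJ1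
    have hg2 := Sym2_grid h J e hh1 hJ1
    have hsub : {z | ∃ᶠ t in atTop, S^[t] z ∈ B} \
        {y | Shad S r (grid h J e' / 2) (grid h J e') (grid h J e / 2)
          (⋃ k ∈ range K, Prod.map S^[k] S^[k] ⁻¹' 𝓔) y} ⊆
        ({z | ∃ᶠ t in atTop, S^[t] z ∈ B} \ ⋃ k ∈ range K, S^[k] ⁻¹' B) ∪
          ⋃ k ∈ range K, S^[k] ⁻¹' (B \ {y | Shad S r (grid h J e' / 4) (grid h J e')
            (grid h J e / 4) 𝓔 y}) := by
      rintro y ⟨hy1, hy2⟩
      by_cases h1 : y ∈ ⋃ k ∈ range K, S^[k] ⁻¹' B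
      · right
        simp only [Set.mem_iUnion, mem_range] at h1 ⊢
        obtain ⟨k, hk, hkB⟩ := h1
        refine ⟨k, hk, hkB, fun hs => hy2 ?_⟩
        intro w w₂ hw hw₂
        simp only [Set.mem_iUnion, mem_range]
        refine ⟨k, hk, hs (S^[k] w) (S^[k] w₂) (fun t ht => ?_) fun t ht1 ht2 => ?_⟩
        · rw [← Function.iterate_add_apply, ← Function.iterate_add_apply]
          exact hw _ (by omega)
        · rw [← Function.iterate_add_apply, ← Function.iterate_add_apply]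
          exact hw₂ _ (by omega) (by omega)
      · exact Or.inl ⟨hy1, h1⟩
    refine (measureReal_mono hsub).trans ((measureReal_union_le _ _).trans ?_)
    have h2 : ν.real (⋃ k ∈ range K, S^[k] ⁻¹' (B \ {y | Shad S r (grid h J e' / 4) (grid h J e')
        (grid h J e / 4) 𝓔 y})) ≤ η / 2 := by
      calc _ ≤ _ := measureReal_biUnion_finset_le _ _
        _ ≤ ∑ _k ∈ range K, η / (2 * K) :=
            sum_le_sum fun k _ => (Sym2_pre (hS.iterate k) _).trans hsh
        _ = η / 2 := by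
            rw [sum_const, card_range, nsmul_eq_mul]
            field_simp
    linarith

end Pool.Agent.Lib.MP_1df8f0_an.K
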