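import Pool.Agent.Lib.MP_1df8f0_an.K.Sy

/-!
From reading twice to a rare set of pairs.
-/

open MeasureTheory Finset Filter Topology ProbabilityTheory
open scoped ENNReal

noncomputable section

namespace Pool.Agent.Lib.MP_1df8f0_an.K

/-- The list of intervals coded by a function. -/
def Sym4_lst {n Tm : ℕ} (f : Fin n → Fin (Tm + 1) × Fin (Tm + 1)) : List (ℕ × ℕ) :=
  List.ofFn fun k => (((f k).1 : ℕ), ((f k).2 : ℕ))

lemma Sym4_code {n Tm : ℕ} (i : List (ℕ × ℕ)) (h1 : i.length = n)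
    (h2 : ∀ c ∈ i, c.1 ≤ Tm ∧ c.2 ≤ Tm) :
    ∃ f : Fin n → Fin (Tm + 1) × Fin (Tm + 1), Sym4_lst f = i := by
  subst h1
  exact ⟨fun k => (⟨(i.get k).1, Nat.lt_succ_of_le (h2 _ (List.get_mem i k)).1⟩,
    ⟨(i.get k).2, Nat.lt_succ_of_le (h2 _ (List.get_mem i k)).2⟩), List.ofFn_get i⟩

lemma Sym4_card (n Tm : ℕ) : (Fintype.card (Fin n → Fin (Tm + 1) × Fin (Tm + 1)) : ℝ) =
    Real.exp (2 * n * Real.log (Tm + 1)) := by
  have h : (0 : ℝ) < Tm + 1 := by positivity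
  rw [Fintype.card_fun, Fintype.card_prod, Fintype.card_fin, Fintype.card_fin,
    show 2 * (n : ℝ) * Real.log (Tm + 1) = (n : ℕ) * (Real.log (Tm + 1) + Real.log (Tm + 1)) by ring,
    Real.exp_nat_mul, Real.exp_add, Real.exp_log h]
  push_cast
  rfl

lemma Sym4_len (J C e' : ℕ) (𝒥 : Finset ℕ) :
    (slots J C e' 𝒥).length = J ^ (2 * e' + 2) / C * 𝒥.card := by
  rw [slots, Finset.length_toList, card_product, card_range]

lemma Sym4_half {N C : ℕ} (h1 : 1 ≤ C) (h2 : C ≤ N) : N ≤ 2 * C * (N / C) := by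
  have a1 := Nat.div_add_mod N C
  have a2 := Nat.mod_lt N h1
  have a3 : 1 ≤ N / C := (Nat.one_le_div_iff h1).2 h2
  nlinarith

lemma Sym4_mem {J C e' e : ℕ} {𝒥 : Finset ℕ} (hJ : 1 ≤ J) (he : e ≤ J)
    (h𝒥 : ∀ j ∈ 𝒥, e' ≤ j ∧ j < e) :
    ∀ q ∈ slots J C e' 𝒥, q.1 < J ^ (2 * J + 2) ∧ q.2 < J := by
  intro q hq
  rw [slots, Finset.mem_toList, mem_product, mem_range] at hq
  obtain ⟨a1, a2⟩ := h𝒥 _ hq.2
  refine ⟨hq.1.trans_le ((Nat.div_le_self _ _).trans (Nat.pow_le_pow_right hJ (by omega))), by omega⟩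

/-- transfer of a bound along the factor map -/
lemma Sym4_tr {X Y : Type} [MeasurableSpace X] [MeasurableSpace Y] (μ : Measure X)
    [IsProbabilityMeasure μ] (ν : Measure Y) {A U : Set X} {V : Set Y} (hA : 0 < μ A)
    (h : ν V ≤ (μ A)⁻¹ * μ U) : ν.real V ≤ (μ.real A)⁻¹ * μ.real U := by
  have := ENNReal.toReal_mono
    (ENNReal.mul_ne_top (ENNReal.inv_ne_top.2 hA.ne') (measure_ne_top μ U)) h
  rwa [ENNReal.toReal_mul, ENNReal.toReal_inv] at this

theorem Sym4_thm (h1 : StRare) : StSym4 := by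
  intro X Y α _ _ _ _ μ _ T ν _ S A B φ a hF hC hT η κ hη hκ
  obtain ⟨r, 𝒲, C₁, β₀, hr, h𝒲, hC₁, hβ₀, H⟩ := hT (η / 2) κ (by positivity) hκ
  obtain ⟨C₂, hC₂⟩ := exists_nat_ge (32 * (2 / η) + 32 * (μ.real A)⁻¹)
  have hal : 0 ≤ (μ.real A)⁻¹ := inv_nonneg.2 measureReal_nonneg
  have hη2 : 0 ≤ 2 / η := by positivity
  refine ⟨r, 64 * C₁ + C₂, β₀, hr, by omega, hβ₀, ?_⟩
  intro h J θ β o cls RG hB hβ hJ hh hlog
  obtain ⟨er, he1, he2, H2⟩ := H h J θ β o cls RG hB hβ (by omega) (by omega)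
  refine ⟨er, he1, he2, ?_⟩
  intro e' e 𝒥 he hne h𝒥 hsum
  have H3 := H2 e' e 𝒥 he hne h𝒥 hsum
  have hJ1 : 1 ≤ J := by omega
  have hh1 : 1 ≤ h := by omega
  have hlen := Sym4_len J C₁ e' 𝒥
  have hN : C₁ ≤ J ^ (2 * e' + 2) :=
    (show C₁ ≤ J by omega).trans (Nat.le_self_pow (by omega) J)
  have hhalf := Sym4_half hC₁ hN
  have hmem := Sym4_mem (C := C₁) hJ1 he h𝒥
  have hnd : (slots J C₁ e' 𝒥).Nodup := Finset.nodup_toList _
  have hcard : 1 ≤ 𝒥.card := hne.card_pos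
  have hg : grid h J e' = 2 * J * h * J ^ (2 * e' + 2) := rfl
  have hTm : 1 ≤ grid h J J := by
    unfold grid
    exact Nat.mul_pos (Nat.mul_pos (by omega) hh1) (Nat.pow_pos hJ1)
  generalize slots J C₁ e' 𝒥 = L at H3 hlen hmem hnd
  generalize grid h J J = Tm at H3 hlog hTm
  generalize J ^ (2 * e' + 2) = N at hlen hN hhalf hg
  have hn1 : 1 ≤ L.length := by
    rw [hlen]
    exact Nat.mul_pos ((Nat.one_le_div_iff hC₁).2 hN) hcard
  have hnN : N * 𝒥.card ≤ 2 * C₁ * L.length := by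
    rw [hlen, ← mul_assoc]
    exact Nat.mul_le_mul_right _ hhalf
  have hn1' : (1 : ℝ) ≤ L.length := by exact_mod_cast hn1
  have hnN' : (N : ℝ) * 𝒥.card ≤ 2 * C₁ * L.length := by exact_mod_cast hnN
  have hC₁' : (1 : ℝ) ≤ C₁ := by exact_mod_cast hC₁
  have hC₂' : (0 : ℝ) ≤ C₂ := Nat.cast_nonneg _
  have hl : 1 / 2 ≤ Real.log (Tm + 1) := by
    have a1 : (1 : ℝ) ≤ Tm := by exact_mod_cast hTm
    have a2 := Real.log_le_log (by norm_num : (0 : ℝ) < 2) (show (2 : ℝ) ≤ Tm + 1 by linarith)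
    linarith [Real.log_two_gt_d9]
  push_cast at hlog
  obtain ⟨x, hx⟩ : ∃ x, x = θ * h := ⟨_, rfl⟩
  rw [← hx] at hlog
  have hx1 : 64 * Real.log (Tm + 1) ≤ x := by nlinarith
  have hx2 : (C₂ : ℝ) / 2 ≤ x := by nlinarith
  have hx0 : 0 ≤ x := by linarith
  have hx3 : x ≤ L.length * x := by nlinarith
  have hE : (C₂ : ℝ) / 32 ≤ Real.exp (L.length * x / 16) := by
    linarith [Real.add_one_le_exp (L.length * x / 16)]
  have hmO := hC.mn o h J L hB.mo
  have hmφ : Measurable φ := hF.mp.measurable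
  obtain ⟨𝓔, m𝓔, b1, b2⟩ := h1 ν
    (fun f : Fin L.length → Fin (Tm + 1) × Fin (Tm + 1) => rd 𝒲 S (Sym4_lst f))
    (fun f : Fin L.length → Fin (Tm + 1) × Fin (Tm + 1) => rd 𝒲 S (Sym4_lst f))
    (fun y => orig a T h J o L (φ y)) (B ∩ φ ⁻¹' RG) (L.length * h / 16)
    (Real.exp (-(L.length * x / 8))) (fun f => hC.mrd _ _ h𝒲) (fun f => hC.mrd _ _ h𝒲)
    (hmO.comp hmφ) (hF.mB.inter (hmφ hB.mR)) (Real.exp_pos _) (by
      intro s
      have mU : MeasurableSet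
          {z | z ∈ RG ∧ (ed (orig a T h J o L z) s : ℝ) ≤ 3 * (L.length * h / 16)} :=
        hB.mR.inter (hmO (show MeasurableSet
          {u : List α | (ed u s : ℝ) ≤ 3 * (L.length * h / 16)} from trivial))
      have a1 := Sym4_tr μ ν hF.pA (hC.tr _ mU)
      have a2 := hB.rare L hnd hmem s (3 * (L.length * h / 16))
      have a3 : (μ.real A)⁻¹ ≤ Real.exp (L.length * x / 16) := by linarith
      refine le_trans (le_of_eq ?_) (a1.trans ?_)
      · congr 1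
        ext y
        simp only [Set.mem_ofPred_eq, Set.mem_inter_iff, Set.mem_preimage, and_assoc]
      · refine (mul_le_mul a3 a2 measureReal_nonneg (Real.exp_pos _).le).trans (le_of_eq ?_)
        rw [← Real.exp_add, ← Real.exp_nat_mul, hx]
        congr 1
        push_cast
        ring)
  rw [Sym4_card] at b1 b2
  have c1 : 64 * (L.length * Real.log (Tm + 1)) ≤ L.length * x := by nlinarith
  have c2 : 0 ≤ L.length * Real.log (Tm + 1) := by nlinarith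
  refine ⟨𝓔, m𝓔, b1.trans ?_, ?_⟩
  · rw [← Real.exp_add, ← Real.exp_add]
    refine Real.exp_le_exp.2 ?_
    have hJ' : (0 : ℝ) < J := by exact_mod_cast hJ1
    have d1 : θ * (grid h J e' : ℕ) * 𝒥.card / (((64 * C₁ + C₂ : ℕ) : ℝ) * J) ≤
        L.length * x / 16 := by
      rw [div_le_iff₀ (by push_cast; positivity), hg]
      push_cast
      have d2 : θ * (2 * J * h * N) * 𝒥.card = 2 * (J * x) * (N * 𝒥.card) := by rw [hx]; ring
      have d3 : 0 ≤ J * x := by positivity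
      have d4 : 0 ≤ L.length * (J * x) * C₂ := by positivity
      rw [d2]
      nlinarith [mul_le_mul_of_nonneg_left hnN' d3]
    linarith
  · have b3 : Real.exp (2 * L.length * Real.log (Tm + 1)) * Real.exp (-(L.length * x / 8)) ≤
        η / 2 := by
      rw [← Real.exp_add]
      have d1 : 2 * L.length * Real.log (Tm + 1) + -(L.length * x / 8) ≤
          -(L.length * x / 16) := by linarith
      refine (Real.exp_le_exp.2 d1).trans ?_
      rw [Real.exp_neg, ← inv_div 2 η]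
      exact inv_anti₀ (by positivity) (by linarith)
    refine le_trans ((measureReal_mono ?_ (measure_ne_top _ _)).trans (measureReal_union_le _ _))
      ((add_le_add H3 (b2.trans b3)).trans (le_of_eq (add_halves η)))
    rintro y ⟨hy, hs⟩
    by_contra hcon
    rw [Set.mem_union, not_or] at hcon
    obtain ⟨g1, g2⟩ := hcon
    have g3 := not_not.1 fun g => g1 ⟨hy, g⟩
    obtain ⟨g4, ⟨i, i1, i2, i3⟩, ⟨i', j1, j2, j3⟩⟩ := g3
    obtain ⟨f, rfl⟩ := Sym4_code i i1 i2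
    obtain ⟨f', rfl⟩ := Sym4_code i' j1 j2
    refine hs fun w w₂ k1 k2 => ?_
    by_contra k3
    exact g2 ⟨⟨hy, g4⟩, f, f', w, w₂, i3 w fun t _ ht => k1 t ht, j3 w₂ k2, k3⟩

end Pool.Agent.Lib.MP_1df8f0_an.K
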