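import Pool.Agent.Lib.MP_1df8f0_an.K.Sm

/-!
A volume preserving diffeomorphism of the torus gives a smooth system.
-/

open MeasureTheory

namespace Pool.Agent.Lib.MP_1df8f0_an.K

theorem Sys_const (h1 : StProj) {n : ℕ} (u : E n → E n) (hu : Continuous u)
    (h : ∀ x, pr (u x) = pr (u 0)) (x : E n) : u x = u 0 := by
  ext i
  have hg : Continuous fun y => u y i - u 0 i := by fun_prop
  have hz : ∀ y, ∃ z : ℤ, u y i - u 0 i = z := fun y => (h1.lat _ _).1 (h y) i
  obtain ⟨z, e⟩ := hz x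
  rcases lt_trichotomy z 0 with h0 | h0 | h0
  · exfalso
    have h2 : (z : ℝ) ≤ -1 := by exact_mod_cast (by omega : z ≤ -1)
    obtain ⟨y, hy⟩ := intermediate_value_univ x 0 hg
      (show (-1 / 2 : ℝ) ∈ Set.Icc (u x i - u 0 i) (u 0 i - u 0 i) from
        ⟨by linarith, by linarith⟩)
    obtain ⟨w, hw⟩ := hz y
    have h3 : (2 * w : ℤ) = -1 := by
      have : (2 * w : ℝ) = -1 := by
        dsimp only at hy
        linarith
      exact_mod_cast this
    omega
  · rw [h0] at e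
    simpa [sub_eq_zero] using e
  · exfalso
    have h2 : (1 : ℝ) ≤ z := by exact_mod_cast (by omega : 1 ≤ z)
    obtain ⟨y, hy⟩ := intermediate_value_univ 0 x hg
      (show (1 / 2 : ℝ) ∈ Set.Icc (u 0 i - u 0 i) (u x i - u 0 i) from
        ⟨by linarith, by linarith⟩)
    obtain ⟨w, hw⟩ := hz y
    have h3 : (2 * w : ℤ) = 1 := by
      have : (2 * w : ℝ) = 1 := by
        dsimp only at hy
        linarith
      exact_mod_cast this
    omega

theorem Sys_per (h1 : StProj) {n : ℕ} {S : Torus n → Torus n} {F : E n → E n} (hF : Continuous F)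
    (hl : ∀ x, S (pr x) = pr (F x)) (x x' δ : E n) (h : pr x = pr x') :
    F (x + δ) - F x = F (x' + δ) - F x' := by
  have h2 : ∀ d, pr (F (x + d) - F (x' + d)) = 0 := by
    intro d
    rw [h1.sub, ← hl, ← hl, h1.add, h1.add, h, sub_self]
  have h3 := Sys_const h1 (fun d => F (x + d) - F (x' + d)) (by fun_prop)
    (fun d => by rw [h2, h2]) δ
  simp only [add_zero] at h3
  rw [sub_eq_sub_iff_sub_eq_sub]
  exact h3

theorem Sys_bound (h1 : StProj) {n : ℕ} {X : Type} [NormedAddCommGroup X] {φ : E n → X}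
    (hφ : Continuous φ) (h : ∀ x x', pr x = pr x' → φ x = φ x') : ∃ K, ∀ x, ‖φ x‖ ≤ K := by
  obtain ⟨K, hK⟩ := (isCompact_closedBall (0 : E n) n).exists_bound_of_continuousOn
    hφ.continuousOn
  refine ⟨K, fun x => ?_⟩
  rw [h x (sec (pr x)) (h1.prsec _).symm]
  exact hK _ (by simpa using h1.nsec _)

theorem Sys_deriv (h1 : StProj) {n : ℕ} {S : Torus n → Torus n} {F : E n → E n}
    (hF : ContDiff ℝ 2 F) (hl : ∀ x, S (pr x) = pr (F x)) :
    ∃ K, ∀ K', K ≤ K' → (∀ x, ‖fderiv ℝ F x‖ ≤ K') ∧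
      ∀ x y, ‖fderiv ℝ F x - fderiv ℝ F y‖ ≤ K' * ‖x - y‖ := by
  have hD : ContDiff ℝ 1 (fderiv ℝ F) := hF.fderiv_right (by norm_num)
  have key : ∀ x x', pr x = pr x' → ∀ y, fderiv ℝ F (y + (x' - x)) = fderiv ℝ F y := by
    intro x x' h y
    have e : (fun y => F (y + (x' - x))) = fun y => F y + (F x' - F x) := by
      funext y
      have h2 := Sys_per h1 hF.continuous hl x x' (y - x) h
      rw [add_sub_cancel, show x' + (y - x) = y + (x' - x) by abel] at h2
      rw [← sub_add_cancel (F (y + (x' - x))) (F x'), ← h2]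
      abel
    rw [← fderiv_comp_add_right, e, fderiv_add_const]
  obtain ⟨K₁, hK₁⟩ := Sys_bound h1 hD.continuous fun x x' h => by
    have := key x x' h x
    rw [add_sub_cancel] at this
    exact this.symm
  obtain ⟨K₂, hK₂⟩ := Sys_bound h1 (hD.continuous_fderiv (by norm_num)) fun x x' h => by
    have e : (fun y => fderiv ℝ F (y + (x' - x))) = fderiv ℝ F := funext (key x x' h)
    have := fderiv_comp_add_right (𝕜 := ℝ) (f := fderiv ℝ F) (x := x) (x' - x)
    rw [e, add_sub_cancel] at this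
    exact this
  refine ⟨max K₁ K₂, fun K' hK' => ⟨fun x => (hK₁ x).trans ((le_max_left _ _).trans hK'),
    fun x y => ?_⟩⟩
  exact Convex.norm_image_sub_le_of_norm_fderiv_le (𝕜 := ℝ) (s := Set.univ)
    (fun z _ => hD.differentiable (by norm_num) z)
    (fun z _ => (hK₂ z).trans ((le_max_right _ _).trans hK')) convex_univ (Set.mem_univ y)
    (Set.mem_univ x)

theorem Sys_move {n : ℕ} {S : Torus n → Torus n} {F : (Fin n → ℝ) → (Fin n → ℝ)}
    (hF : ContDiff ℝ 2 F) (hl : IsLift S F) :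
    ∃ F' : E n → E n, ContDiff ℝ 2 F' ∧ ∀ x, S (pr x) = pr (F' x) :=
  ⟨fun x => (EuclideanSpace.equiv (Fin n) ℝ).symm (F (EuclideanSpace.equiv (Fin n) ℝ x)),
    (EuclideanSpace.equiv (Fin n) ℝ).symm.contDiff.comp
      (hF.comp (EuclideanSpace.equiv (Fin n) ℝ).contDiff), fun _ => hl _⟩

theorem Sys_thm (h1 : StProj) (h2 : StDet) : StSys := by
  intro n S ⟨hmp, S', F₀, G₀, hli, hri, hF₀, hlF₀, hG₀, hlG₀⟩
  obtain ⟨F, hF, hlF⟩ := Sys_move hF₀ hlF₀
  obtain ⟨G₁, hG₁, hlG₁⟩ := Sys_move hG₀ hlG₀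
  have cF := hF.continuous
  have cG₁ := hG₁.continuous
  have z0 : ∀ x, pr (G₁ (F x) - x) = 0 := by
    intro x
    rw [h1.sub, ← hlG₁, ← hlF, hli, sub_self]
  have z1 := Sys_const h1 (fun x => G₁ (F x) - x) (by fun_prop) fun x => by rw [z0, z0]
  let G : E n → E n := fun y => G₁ y - (G₁ (F 0) - 0)
  have hG : ContDiff ℝ 2 G := hG₁.sub contDiff_const
  have cG := hG.continuous
  have hlG : ∀ x, S' (pr x) = pr (G x) := by
    intro x
    rw [h1.sub, z0, sub_zero, hlG₁]
  have hGF : ∀ x, G (F x) = x := by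
    intro x
    have := z1 x
    simp only [G]
    rw [← this]
    abel
  have w0 : ∀ x, pr (F (G x) - x) = 0 := by
    intro x
    rw [h1.sub, ← hlF, ← hlG, hri, sub_self]
  have w1 := Sys_const h1 (fun x => F (G x) - x) (by fun_prop) fun x => by rw [w0, w0]
  have hFG : ∀ x, F (G x) = x := by
    intro x
    have a := (w1 x).trans (w1 (F 0)).symm
    simp only [hGF, sub_self] at a
    exact sub_eq_zero.1 a
  have mS' : Measurable S' := by
    have e : S' = fun y => pr (G (sec y)) := by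
      funext y
      rw [← hlG, h1.prsec]
    rw [e]
    exact (h1.cont.comp cG).measurable.comp h1.msec
  have hmp' : MeasurePreserving S' volume volume := by
    refine ⟨mS', ?_⟩
    have e : S' ∘ S = id := funext hli
    conv_lhs => rw [← hmp.map_eq]
    rw [Measure.map_map mS' hmp.measurable, e, Measure.map_id]
  obtain ⟨K₁, hK₁⟩ := Sys_deriv h1 hF hlF
  obtain ⟨K₂, hK₂⟩ := Sys_deriv h1 hG hlG
  have a1 := hK₁ (max 2 (max K₁ K₂)) ((le_max_left _ _).trans (le_max_right _ _))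
  have a2 := hK₂ (max 2 (max K₁ K₂)) ((le_max_right _ _).trans (le_max_right _ _))
  exact ⟨S', F, G, max 2 (max K₁ K₂), le_max_left _ _,
    ⟨hmp, hlF, hGF, hF.differentiable (by norm_num), a1.1, a1.2,
      h2 S S' F G hmp mS' hli hri hlF (hF.of_le (by norm_num)) hGF, Sys_per h1 cF hlF⟩,
    ⟨hmp', hlG, hFG, hG.differentiable (by norm_num), a2.1, a2.2,
      h2 S' S G F hmp' hmp.measurable hri hli hlG (hG.of_le (by norm_num)) hFG,
      Sys_per h1 cG hlG⟩⟩

end Pool.Agent.Lib.MP_1df8f0_an.K
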