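import Pool.Agent.Lib.MP_1df8f0_an.K.Sy

/-!
Names of slots in a tower system.
-/

open MeasureTheory

namespace Pool.Agent.Lib.MP_1df8f0_an.K

/-- Arithmetic of positions inside a level `b+1` word. -/
lemma Tow_arith {s m h ρ i q : ℕ} (hρ : ρ < s) (hi : i < m) (hq : q < h) :
    ρ * (m * h) + i * h + q < s * (m * h) ∧ (ρ * (m * h) + i * h + q) / h % m = i ∧
      (ρ * (m * h) + i * h + q) / (m * h) = ρ ∧ (ρ * (m * h) + i * h + q) % h = q := by
  have h0 : 0 < h := by omega
  have h1 : i * h + q < m * h := by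
    calc i * h + q < i * h + h := by omega
      _ = (i + 1) * h := by ring
      _ ≤ m * h := Nat.mul_le_mul_right _ hi
  have h2 : ρ * (m * h) + i * h + q = q + h * (i + m * ρ) := by ring
  refine ⟨?_, ?_, ?_, ?_⟩
  · calc ρ * (m * h) + i * h + q < ρ * (m * h) + m * h := by omega
      _ = (ρ + 1) * (m * h) := by ring
      _ ≤ s * (m * h) := Nat.mul_le_mul_right _ hρ
  · rw [h2, Nat.add_mul_div_left _ _ h0, Nat.div_eq_of_lt hq, zero_add, Nat.add_mul_mod_self_left,
      Nat.mod_eq_of_lt hi]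
  · rw [show ρ * (m * h) + i * h + q = (i * h + q) + (m * h) * ρ by ring,
      Nat.add_mul_div_left _ _ (by omega), Nat.div_eq_of_lt h1, zero_add]
  · rw [h2, Nat.add_mul_mod_self_left, Nat.mod_eq_of_lt hq]

theorem Tow_thm : StTow := by
  intro X α _ μ T c P e H _ _
  have hG : ∀ᵐ z ∂μ, ∀ k, ((c k z).1 < P.s k ∧ (c k z).2 < P.h k) ∧ c k z = P.pr k (c (k + 1) z) ∧
      ((c k z).2 + 1 < P.h k → (c k (T z)).1 = (c k z).1) ∧
      (c k (T z)).2 = ((c k z).2 + 1) % P.h k :=
    ae_all_iff.2 fun k => (H.mem k).and ((H.comp k).and ((H.succ k).and (H.pos k)))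
  have hG' := ae_all_iff.2 fun i : ℕ => (H.mp.iterate i).quasiMeasurePreserving.ae hG
  filter_upwards [hG'] with x hx
  have hlt : ∀ i k, (c 0 (T^[i] x)).1 = P.lt k (c k (T^[i] x)) := by
    intro i k
    induction k with
    | zero => rfl
    | succ k ih => rw [ih, (hx i k).2.1]; rfl
  have hrun : ∀ k n, (c k x).2 + n < P.h k → c k (T^[n] x) = ((c k x).1, (c k x).2 + n) := by
    intro k n
    induction n with
    | zero => intro _; rfl
    | succ n ih =>
      intro hn
      have h1 := ih (by omega)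
      have h2 : (c k (T^[n] x)).2 + 1 < P.h k := by rw [h1]; exact hn
      rw [Function.iterate_succ_apply']
      refine Prod.ext ?_ ?_
      · rw [(hx n k).2.2.1 h2, h1]
      · rw [(hx n k).2.2.2, Nat.mod_eq_of_lt h2, h1]; rfl
  intro b
  refine ⟨(hx 0 b).1, hrun b, fun n ρ i hρ hi hn => ?_⟩
  unfold Params.word name
  refine List.map_congr_left fun q hq => ?_
  have hq' := List.mem_range.1 hq
  obtain ⟨a1, a2, a3, a4⟩ := Tow_arith hρ hi hq'
  have h3 : (c (b + 1) x).2 + (q + n) = ρ * (P.m b * P.h b) + i * P.h b + q := by omega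
  have h4 := hrun (b + 1) (q + n) (by rw [h3]; exact a1)
  rw [← Function.iterate_add_apply]
  beta_reduce
  rw [hlt (q + n) b, (hx (q + n) b).2.1, h4, h3]
  unfold Params.pr down
  simp only [a2, a3, a4]

end Pool.Agent.Lib.MP_1df8f0_an.K
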