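import Pool.Agent.Lib.MP_1df8f0_an.K.Sm
import Pool.Agent.Lib.MP_1df8f0_an.K.Once

/-! Small facts on frames, and transversality. -/

open Finset

noncomputable section

namespace Pool.Agent.Lib.MP_1df8f0_an.K

theorem Trv_pos (h1 : StVol) {n k : ℕ} {B : Op n} (hB : Function.Injective B) {e : Fin k → E n}
    (he : 0 < vol e) : 0 < vol (B ∘ e) :=
  (h1.pos _).2 (((h1.pos _).1 he).map' (B : E n →ₗ[ℝ] E n) (LinearMap.ker_eq_bot.2 hB))

theorem Trv_mem {n k : ℕ} {B : Op n} {e : Fin k → E n} {g : E n} (hg : g ∈ sp (B ∘ e)) :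
    ∃ g' ∈ sp e, B g' = g := by
  rw [sp, Set.range_comp, show (B : E n → E n) = (B : E n →ₗ[ℝ] E n) from rfl,
    Submodule.span_image] at hg
  exact hg

theorem Trv_low (h1 : StVol) (h2 : StN) {n k d : ℕ} (D B : Op n) (Q : ℝ) (f : Fin k → E n)
    (e : Fin d → E n) (hQ : 1 ≤ Q) (hD : Bd D Q) (hDB : D ∘L B = ContinuousLinearMap.id ℝ (E n))
    (hf : 0 < vol f) (he : 0 < vol e)
    (h : Lo d B * vol e / vol (B ∘ e) * (Lo k D * vol f / vol (D ∘ f)) ≤ 1 / 4) :
    ∀ x ∈ sp f, 1 / (2 * Q ^ 2) * ‖x‖ ≤ dsp x (B ∘ e) := by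
  intro x hx
  have hDB' : ∀ v, D (B v) = v := fun v => congrArg (fun T : Op n => T v) hDB
  have iB : Function.Injective B := Function.LeftInverse.injective hDB'
  have iD : Function.Injective D := (injective_iff_map_eq_zero D).2 fun v hv => by
    simpa [hv] using hD.2 v
  have pB := Trv_pos h1 iB he
  have pD := Trv_pos h1 iD hf
  obtain ⟨g, hg, h3, h4⟩ := h1.split x (B ∘ e)
  obtain ⟨g', hg', rfl⟩ := Trv_mem hg
  have a0 : 0 ≤ Lo d B * vol e / vol (B ∘ e) := div_nonneg (mul_nonneg (h2.lonn _ _) he.le) pB.le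
  have b0 : 0 ≤ Lo k D * vol f / vol (D ∘ f) := div_nonneg (mul_nonneg (h2.lonn _ _) hf.le) pD.le
  have h5 : ‖g'‖ ≤ Lo d B * vol e / vol (B ∘ e) * ‖B g'‖ := by
    rw [div_mul_eq_mul_div, le_div_iff₀ pB, mul_comm]
    exact h2.smin B e g' hg'
  have h6 : ‖x‖ ≤ Lo k D * vol f / vol (D ∘ f) * ‖D x‖ := by
    rw [div_mul_eq_mul_div, le_div_iff₀ pD, mul_comm]
    exact h2.smin D f x hx
  have h7 := hD.2 x
  generalize Lo d B * vol e / vol (B ∘ e) = a at *
  generalize Lo k D * vol f / vol (D ∘ f) = b at *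
  have h8 : ‖D x‖ ≤ a * ‖x‖ + Q * dsp x (B ∘ e) := by
    rw [show D x = g' + D (x - B g') by rw [map_sub, hDB']; abel, ← h3]
    exact (norm_add_le _ _).trans (add_le_add (h5.trans (mul_le_mul_of_nonneg_left h4 a0))
      ((D.le_opNorm _).trans (mul_le_mul_of_nonneg_right hD.1 (norm_nonneg _))))
  have d0 : 0 ≤ dsp x (B ∘ e) := h3 ▸ norm_nonneg _
  have x0 := norm_nonneg x
  have h9 : ‖x‖ ≤ ‖x‖ / 4 + Q ^ 2 * dsp x (B ∘ e) := by
    rcases le_total b Q with hb | hb
    · have := mul_le_mul_of_nonneg_left h8 b0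
      have := mul_le_mul_of_nonneg_right h x0
      have := mul_le_mul_of_nonneg_right hb (mul_nonneg (by linarith : 0 ≤ Q) d0)
      nlinarith
    · have := mul_le_mul_of_nonneg_left h8 (by linarith : 0 ≤ Q)
      have := mul_le_mul_of_nonneg_right h x0
      have := mul_le_mul_of_nonneg_right hb (mul_nonneg a0 x0)
      nlinarith
  rw [one_div_mul_eq_div, div_le_iff₀ (by positivity)]
  nlinarith

theorem Trv_thm (h1 : StVol) (h2 : StN) : StTrv where
  frm_prd D e i := by
    induction i with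
    | zero => rfl
    | succ i ih => rw [frm, ih]; rfl
  frm_pos D e hD he i := by
    induction i with
    | zero => exact he
    | succ i ih => exact Trv_pos h1 (hD i) ih
  congr D D' e N h := by
    have a : ∀ i ≤ N, frm D e i = frm D' e i := fun i => by
      induction i with
      | zero => exact fun _ => rfl
      | succ i ih => intro hi; rw [frm, frm, ih (by omega), h i (by omega)]
    have b : ∀ i < N, alp D e i = alp D' e i := fun i hi => by
      rw [alp, alp, a i hi.le, a (i + 1) hi, h i hi]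
    have c : ∀ i < N, sgm D e i = sgm D' e i := fun i hi => by
      rw [sgm, sgm, a i hi.le, a (i + 1) hi, h i hi]
    refine ⟨a, b, fun ϑ Λ hT i hi => ?_⟩
    rw [← prod_congr rfl fun j hj => b j (mem_Ico.1 hj).2,
      ← prod_congr rfl fun j hj => congrArg (· ^ 2) (c j (mem_Ico.1 hj).2)]
    exact hT i hi
  mono D e N ϑ Λ Λ' h0 h hT i hi :=
    ⟨(hT i hi).1.trans (mul_le_mul_of_nonneg_right h (pow_nonneg h0 _)), (hT i hi).2.trans h⟩
  alp_nonneg D e i := div_nonneg (mul_nonneg (h2.lonn _ _) (h1.nonneg _)) (h1.nonneg _)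
  trv D B Q f e hQ hD hDB hf he h := by
    have key := Trv_low h1 h2 D B Q f e hQ hD hDB hf he h
    refine ⟨h1.trans f (B ∘ e) _ (by positivity) key, fun δ h3 h4 => ?_⟩
    obtain ⟨g, hg, h5, -⟩ := h1.split δ f
    have h6 := key g hg
    have h7 : dsp g (B ∘ e) ≤ dsp δ (B ∘ e) + dist g δ := Metric.infDist_le_infDist_add_dist
    rw [dist_comm, dist_eq_norm, h5] at h7
    have h8 : ‖δ‖ ≤ ‖g‖ + dsp δ f := by
      rw [← h5]; exact norm_le_norm_add_norm_sub' δ g
    have q : 0 < Q ^ 2 := by positivity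
    have h9 : ‖g‖ ≤ ‖δ‖ / 8 := by
      have : 1 / (2 * Q ^ 2) * ‖g‖ ≤ 1 / (2 * Q ^ 2) * (‖δ‖ / 8) := by
        refine h6.trans (h7.trans ((add_le_add h4 h3).trans (le_of_eq ?_)))
        field_simp
        ring
      exact le_of_mul_le_mul_left this (by positivity)
    have h10 : ‖δ‖ / (32 * Q ^ 2) ≤ ‖δ‖ / 32 :=
      div_le_div_of_nonneg_left (norm_nonneg _) (by norm_num) (by nlinarith)
    exact norm_le_zero_iff.1 (by linarith)
  orb H Q x i hH := by
    induction i with
    | zero => exact hasFDerivAt_id x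
    | succ i ih =>
      rw [Function.iterate_succ']
      exact (hH.diff _).hasFDerivAt.comp x ih
  taylor H Q x p hH :=
    (convex_closedBall x ‖p - x‖).norm_image_sub_le_of_norm_hasFDerivWithin_le'
      (f' := fderiv ℝ H) (fun y _ => (hH.diff y).hasFDerivAt.hasFDerivWithinAt)
      (fun y hy => (hH.lip y x).trans (mul_le_mul_of_nonneg_left (mem_closedBall_iff_norm.1 hy)
        (zero_le_one.trans hH.one))) (Metric.mem_closedBall_self (norm_nonneg _))
      (mem_closedBall_iff_norm.2 le_rfl)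

end Pool.Agent.Lib.MP_1df8f0_an.K
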