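import Pool.Agent.Lib.MP_1df8f0_an.K.Sm

open MeasureTheory Finset Filter Topology
open scoped ENNReal

noncomputable section

namespace Pool.Agent.Lib.MP_1df8f0_an.K

theorem Tube_mem {n k : ℕ} (e : Fin k → E n) (u : Fin k → ℝ) : cmb e u ∈ sp e :=
  Submodule.sum_mem _ fun i _ => Submodule.smul_mem _ _ (Submodule.subset_span ⟨i, rfl⟩)

theorem Tube_coord {n k : ℕ} {e : Fin k → E n} (he : Orthonormal ℝ e) (u : Fin k → ℝ) :
    ‖u‖ ≤ ‖cmb e u‖ := by
  refine (pi_norm_le_iff_of_nonneg (norm_nonneg _)).2 fun j => ?_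
  have h := norm_inner_le_norm (𝕜 := ℝ) (e j) (cmb e u)
  rw [he.1 j, one_mul] at h
  rwa [cmb, he.inner_right_fintype] at h

theorem Tube_map {n m k : ℕ} (P : E n →L[ℝ] E m) (v : Fin k → E n) (c : Fin k → ℝ) :
    cmb (P ∘ v) c = P (cmb v c) := by
  simp [cmb]

theorem Tube_P {n k : ℕ} {y : Fin k → E n} (hy : Orthonormal ℝ y) :
    ∃ P : E n →L[ℝ] E k, (∀ z, ‖P z‖ ≤ ‖z‖) ∧ ∀ g ∈ sp y, ‖g‖ ≤ ‖P g‖ := by
  let P : E n →L[ℝ] E k := (EuclideanSpace.equiv (Fin k) ℝ).symm.toContinuousLinearMap ∘L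
    ContinuousLinearMap.pi fun j => innerSL ℝ (y j)
  have hP : ∀ z, ‖P z‖ ^ 2 = ∑ j, ‖inner ℝ (y j) z‖ ^ 2 := fun z => by
    rw [EuclideanSpace.norm_sq_eq]
    rfl
  refine ⟨P, fun z => ?_, fun g hg => ?_⟩
  · refine (sq_le_sq₀ (norm_nonneg _) (norm_nonneg _)).1 ?_
    rw [hP]
    exact hy.sum_inner_products_le z
  · obtain ⟨c, rfl⟩ := (Submodule.mem_span_range_iff_exists_fun ℝ).1 hg
    refine (sq_le_sq₀ (norm_nonneg _) (norm_nonneg _)).1 (le_of_eq ?_)
    rw [hP, ← real_inner_self_eq_norm_sq, sum_inner]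
    refine sum_congr rfl fun j _ => ?_
    rw [real_inner_smul_left, hy.inner_right_fintype, Real.norm_eq_abs, sq_abs, sq]

/-- a local minimum of the distance to `q` of a map with injective derivative -/
theorem Tube_min {k : ℕ} (Θ : (Fin k → ℝ) → E k) (A : (Fin k → ℝ) →L[ℝ] E k) (u : Fin k → ℝ)
    (q : E k) (hd : HasFDerivAt Θ A u) (hi : Function.Injective A)
    (hm : IsLocalMin (fun v => ‖Θ v - q‖ ^ 2) u) : Θ u = q := by
  have h0 := hm.hasFDerivAt_eq_zero (hd.sub_const q).norm_sq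
  have hs : Function.Surjective A :=
    (LinearMap.injective_iff_surjective_of_finrank_eq_finrank (f := A.toLinearMap)
      (by simp)).1 hi
  obtain ⟨c, hc⟩ := hs (Θ u - q)
  have h1 := congrArg (fun T => T c) h0
  simp only [smul_apply, ContinuousLinearMap.comp_apply, hc, innerSL_apply_apply,
    zero_apply, smul_eq_zero, two_ne_zero, false_or, inner_self_eq_zero] at h1
  exact sub_eq_zero.1 h1

theorem Tube_thm (h1 : StVol) (h2 : StPert) (h3 : StTrv) (h4 : StCV) : StTube := by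
  intro n k H Q ϑ Λ ρ x e N hH he t0 t1 hρ hTC hs
  have ve : 0 < vol e := by
    rw [h1.on e he]
    exact one_pos
  obtain ⟨P1, P2⟩ := h2 (orbD H x) e N Q ϑ Λ ρ hH.one (fun i => hH.bd _) ve t0 t1 hρ.le hTC hs
  have Q1 := hH.one
  have L1 : 1 ≤ Λ := by simpa using (hTC N le_rfl).1
  have A := fun p (hp : p ∈ Tube H x N ρ ϑ) (hx : p - x ∈ sp e) =>
    P1 (fun i => H^[i] p - H^[i] x) hx fun i hi => by
      simp only [Function.iterate_succ_apply', orbD]
      refine (h3.taylor H Q _ _ hH).trans ?_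
      gcongr
      exact hp i hi.le
  refine ⟨fun p hp hx => (A p hp hx N le_rfl).1, ?_⟩
  have B0 : ∀ p ∈ Tube H x N ρ ϑ, ∀ i < N,
      ‖orbD H p i - orbD H x i‖ ≤ Q * (ρ * ϑ ^ (N - i)) := fun p hp i hi =>
    (hH.lip _ _).trans (by
      gcongr
      exact hp i hi.le)
  have B := fun p (hp : p ∈ Tube H x N ρ ϑ) z (hz : z ∈ sp e) =>
    P1 (fun i => prd (orbD H p) i z) hz fun i hi => by
      have : prd (orbD H p) (i + 1) z - orbD H x i (prd (orbD H p) i z) =
          (orbD H p i - orbD H x i) (prd (orbD H p) i z) := rfl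
      rw [this]
      refine (ContinuousLinearMap.le_opNorm _ _).trans ?_
      gcongr
      exact B0 p hp i hi
  have V0 : 0 < vol (frm (orbD H x) e N) := by
    refine h3.frm_pos _ e (fun i => ?_) ve N
    refine (injective_iff_map_eq_zero _).2 fun v hv => norm_le_zero_iff.1 ?_
    have := (hH.bd (H^[i] x)).2 v
    rwa [show fderiv ℝ H (H^[i] x) v = 0 from hv, norm_zero, mul_zero] at this
  obtain ⟨y, hy, hsp⟩ := h1.onb _ V0
  obtain ⟨P, Pl, Pg⟩ := Tube_P hy
  have cone : ∀ z, dsp z (frm (orbD H x) e N) ≤ ‖z‖ / (32 * Q ^ 2) → ‖z‖ ≤ 2 * ‖P z‖ := by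
    intro z hz
    obtain ⟨g, hg, e1, -⟩ := h1.split z (frm (orbD H x) e N)
    have a1 := Pg g (hsp ▸ hg)
    have a2 : ‖P g‖ ≤ ‖P z‖ + ‖z - g‖ := by
      have : P g = P z - P (z - g) := by simp
      rw [this]
      exact (norm_sub_le _ _).trans (by gcongr; exact Pl _)
    have a3 : ‖z‖ ≤ ‖g‖ + ‖z - g‖ := by
      simpa using norm_add_le g (z - g)
    have a4 : ‖z‖ / (32 * Q ^ 2) ≤ ‖z‖ / 32 := by
      gcongr
      nlinarith
    linarith [norm_nonneg z]
  let C : (Fin k → ℝ) →L[ℝ] E n := ∑ i, (ContinuousLinearMap.proj i).smulRight (e i)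
  have hC : ∀ u, C u = cmb e u := fun u => by simp [C, cmb]
  have cc : Continuous fun u : Fin k → ℝ => x + cmb e u := by
    simp only [← hC]
    fun_prop
  have ci : ∀ i, Continuous fun u : Fin k → ℝ => ‖H^[i] (x + cmb e u) - H^[i] x‖ := fun i =>
    (((hH.diff.continuous.iterate i).comp cc).sub continuous_const).norm
  set U := {u : Fin k → ℝ | x + cmb e u ∈ Tube H x N ρ ϑ} with hU
  have Uc : IsClosed U := by
    have : U = ⋂ i, ⋂ (_ : i ≤ N),
        {u | ‖H^[i] (x + cmb e u) - H^[i] x‖ ≤ ρ * ϑ ^ (N - i)} := by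
      ext u
      simp [hU, Tube]
    rw [this]
    exact isClosed_iInter fun i => isClosed_iInter fun _ => isClosed_le (ci i) continuous_const
  have Uk : IsCompact U := by
    refine (isCompact_closedBall 0 (ρ * ϑ ^ N)).of_isClosed_subset Uc fun u hu => ?_
    have := hu 0 (Nat.zero_le N)
    simp only [Function.iterate_zero, id, add_sub_cancel_left, Nat.sub_zero] at this
    exact mem_closedBall_zero_iff.2 ((Tube_coord he u).trans this)
  have c0 : cmb e 0 = 0 := by simp [cmb]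
  have U0 : (0 : Fin k → ℝ) ∈ U := fun i _ => by
    rw [c0, add_zero, sub_self, norm_zero]
    positivity
  let Θ : (Fin k → ℝ) → E k := fun u => P (H^[N] (x + cmb e u) - H^[N] x)
  let Θ' : (Fin k → ℝ) → (Fin k → ℝ) →L[ℝ] E k := fun u =>
    P ∘L (prd (orbD H (x + cmb e u)) N ∘L C)
  have hd : ∀ u, HasFDerivAt Θ (Θ' u) u := fun u => by
    have a : HasFDerivAt (fun u : Fin k → ℝ => x + cmb e u) C u := by
      simp only [← hC]
      exact C.hasFDerivAt.const_add x
    exact P.hasFDerivAt.comp u (((h3.orb H Q _ N hH).comp u a).sub_const _)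
  have cΘ : Continuous Θ := continuous_iff_continuousAt.2 fun u => (hd u).continuousAt
  have sub : Metric.closedBall (0 : E k) (ρ / (16 * 2 ^ N * Λ)) ⊆ Θ '' U := by
    intro q hq
    rw [mem_closedBall_zero_iff] at hq
    obtain ⟨u, hu, hm⟩ := Uk.exists_isMinOn ⟨0, U0⟩
      (f := fun v => ‖Θ v - q‖ ^ 2) (by fun_prop)
    refine ⟨u, hu, Tube_min Θ (Θ' u) u q (hd u) ?_ (hm.isLocalMin ?_)⟩
    · refine (injective_iff_map_eq_zero _).2 fun c hc => norm_le_zero_iff.1 ?_
      have b1 := cone _ (B _ hu _ (Tube_mem e c) N le_rfl).1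
      have b2 := (B _ hu _ (Tube_mem e c) 0 (Nat.zero_le N)).2.2
      have b3 : P (prd (orbD H (x + cmb e u)) N (cmb e c)) = 0 := by
        rw [← hC c]
        exact hc
      rw [b3, norm_zero, mul_zero] at b1
      rw [le_antisymm b1 (norm_nonneg _), mul_zero] at b2
      exact (Tube_coord he c).trans b2
    · have m0 : ‖Θ u - q‖ ≤ ‖q‖ := by
        have := (sq_le_sq₀ (norm_nonneg _) (norm_nonneg _)).1 (hm U0)
        simpa [Θ, c0] using this
      have m1 : ‖Θ u‖ ≤ 2 * ‖q‖ := by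
        have := norm_add_le (Θ u - q) q
        rw [sub_add_cancel] at this
        linarith
      have a := A _ hu (by simpa using Tube_mem e u)
      have m2 := cone _ (a N le_rfl).1
      have m3 : ‖H^[N] (x + cmb e u) - H^[N] x‖ ≤ 4 * (ρ / (16 * 2 ^ N * Λ)) := by
        change ‖H^[N] (x + cmb e u) - H^[N] x‖ ≤ 2 * ‖Θ u‖ at m2
        linarith
      have : ∀ᶠ v in 𝓝 u, ∀ i ∈ range (N + 1),
          ‖H^[i] (x + cmb e v) - H^[i] x‖ < ρ * ϑ ^ (N - i) := by
        refine (eventually_all_finset _).2 fun i hi => ?_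
        refine (ci i).continuousAt.eventually_lt continuousAt_const ?_
        have w : (2 : ℝ) ^ (N - i) ≤ 2 ^ N := pow_le_pow_right₀ one_le_two (Nat.sub_le _ _)
        calc _ ≤ 2 ^ (N - i) * Λ * ϑ ^ (N - i) * ‖H^[N] (x + cmb e u) - H^[N] x‖ :=
              (a i (Nat.lt_succ_iff.1 (mem_range.1 hi))).2.1
          _ ≤ 2 ^ N * Λ * ϑ ^ (N - i) * (4 * (ρ / (16 * 2 ^ N * Λ))) := by gcongr
          _ = ρ * ϑ ^ (N - i) / 4 := by
            field_simp
            ring
          _ < ρ * ϑ ^ (N - i) := by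
            have : 0 < ρ * ϑ ^ (N - i) := by positivity
            linarith
      exact this.mono fun v hv i hi => (hv i (mem_range.2 (Nat.lt_succ_of_le hi))).le
  have col : ∀ u ∈ U, vol (fun i => Θ' u (Pi.single i 1)) ≤
      2 ^ (k * N) * vol (frm (orbD H x) e N) := by
    intro u hu
    have e1 : (fun i => Θ' u (Pi.single i 1)) = P ∘ frm (orbD H (x + cmb e u)) e N := by
      funext i
      rw [h3.frm_prd]
      simp [Θ', hC, cmb, Pi.single_apply]
    rw [e1]
    refine le_trans ?_ (P2 _ (B0 _ hu))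
    have := h1.mono (P ∘ frm (orbD H (x + cmb e u)) e N) (frm (orbD H (x + cmb e u)) e N) 1
      zero_le_one fun c => by
        rw [Tube_map, one_mul]
        exact Pl _
    rwa [one_pow, one_mul] at this
  have fin : ENNReal.ofReal ((2 * (ρ / (16 * 2 ^ N * Λ)) / (k + 1)) ^ k) ≤
      ENNReal.ofReal (2 ^ (k * N) * vol (frm (orbD H x) e N)) * volume U := by
    refine (h4.ball k _ (by positivity)).trans ((measure_mono sub).trans ?_)
    refine (h4.cv (Fintype.card_fin k) Θ Θ' U Uc.measurableSet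
      fun p _ => (hd p).hasFDerivWithinAt).1.trans ?_
    rw [← setLIntegral_const]
    exact setLIntegral_mono' Uc.measurableSet fun u hu => ENNReal.ofReal_le_ofReal (col u hu)
  have e2 : (ρ / (8 * (k + 1) * 4 ^ N * Λ)) ^ k / vol (frm (orbD H x) e N) =
      (2 * (ρ / (16 * 2 ^ N * Λ)) / (k + 1)) ^ k / (2 ^ (k * N) * vol (frm (orbD H x) e N)) := by
    rw [← div_div _ ((2 : ℝ) ^ (k * N)), mul_comm k N, pow_mul, ← div_pow]
    congr 2
    rw [show (4 : ℝ) = 2 * 2 by norm_num, mul_pow]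
    field_simp
    ring
  rw [e2, ENNReal.ofReal_div_of_pos (by positivity)]
  exact ENNReal.div_le_of_le_mul' fin

end Pool.Agent.Lib.MP_1df8f0_an.K
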