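import Pool.Agent.Lib.MP_1df8f0_an.K.Sy

/-!
Reading the original slots twice.
-/

open MeasureTheory Finset Filter Topology ProbabilityTheory
open scoped ENNReal

noncomputable section

namespace Pool.Agent.Lib.MP_1df8f0_an.K

lemma Twice_div {x : ℝ≥0∞} {M L δ : ℝ} (hM : 0 < M) (h : ENNReal.ofReal M * x ≤ ENNReal.ofReal L)
    (hL : L ≤ M * δ) : x ≤ ENNReal.ofReal δ := by
  have h1 := h.trans (ENNReal.ofReal_le_ofReal hL)
  rw [ENNReal.ofReal_mul hM.le] at h1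
  exact (ENNReal.mul_le_mul_iff_right (ENNReal.ofReal_pos.2 hM).ne' ENNReal.ofReal_ne_top).1 h1

lemma Twice_divN {x : ℝ≥0∞} {M L : ℕ} {δ : ℝ} (hM : 0 < M) (h : (M : ℝ≥0∞) * x ≤ L)
    (hL : (L : ℝ) ≤ M * δ) : x ≤ ENNReal.ofReal δ :=
  Twice_div (M := M) (L := L) (by exact_mod_cast hM)
    (by simpa only [ENNReal.ofReal_natCast] using h) hL

lemma Twice_part {X : Type} [MeasurableSpace X] (ρ : Measure X) {f : X → ℕ} (hf : Measurable f)
    (s : Finset ℕ) : ∑ j ∈ s, ρ (f ⁻¹' {j}) ≤ ρ Set.univ := by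
  rw [sum_measure_preimage_singleton s fun j _ => hf (measurableSet_singleton j)]
  exact measure_mono (Set.subset_univ _)

lemma Twice_mono {Y α : Type} (w : Y → List α) (S : Y → Y) (y : Y) :
    Monotone fun t => pi w S t y := by
  refine monotone_nat_of_le_succ fun t => ?_
  simp only [pi, emit_succ, List.length_append]
  exact Nat.le_add_right _ _

lemma Twice_markov {Y : Type} [MeasurableSpace Y] (ν : Measure Y) {B : Set Y}
    {ι : Type} (s : Finset ι) {Z : ι → Y → ℝ≥0∞}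
    (hZ : ∀ q, Measurable (Z q)) {c δ L : ℝ} (hc : 0 < c) (hL : L ≤ c * δ)
    (h : ∑ q ∈ s, ∫⁻ y in B, Z q y ∂ν ≤ ENNReal.ofReal L) :
    ν ({y | ENNReal.ofReal c ≤ ∑ q ∈ s, Z q y} ∩ B) ≤ ENNReal.ofReal δ := by
  have hm : Measurable fun y => ∑ q ∈ s, Z q y := Finset.measurable_sum s fun q _ => hZ q
  have h1 := mul_meas_ge_le_lintegral (μ := ν.restrict B) hm (ENNReal.ofReal c)
  rw [Measure.restrict_apply (measurableSet_le measurable_const hm),
    lintegral_finsetSum s fun q _ => hZ q] at h1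
  exact Twice_div hc (h1.trans h) hL

lemma Twice_read (h2 : StSlot) {X Y α : Type} [PseudoMetricSpace Y] (a : X → α) (T : X → X)
    (A : Set X) (S : Y → Y) (B : Set Y) (φ : Y → X) (𝒲 : Y → List α) (err : Y → ℝ≥0∞) (r : ℝ)
    (cls : X → ℕ) (y : Y) (h K₁ W M₀ M Tm : ℕ) (s : Finset (ℕ × ℕ)) (pos a₀ : ℕ × ℕ → ℕ)
    (hgo : GO T A S B φ y)
    (herr : ∀ z z', dist z z' ≤ r → ((ed (wd a T A B φ z) (𝒲 z') : ℕ) : ℝ≥0∞) ≤ err z)
    (hq : ∀ q ∈ s, a₀ q ≤ pos q ∧ pos q + h ≤ a₀ q + W ∧ pos q + h ≤ pi (wd a T A B φ) S M y ∧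
      (∀ t, pos q ≤ pi (wd a T A B φ) S t y → M₀ ≤ t) ∧
      ∀ p, p < h → cls (T^[pos q + p] (φ y)) = q.2)
    (hM : M ≤ Tm) (hK : 64 * K₁ ≤ h)
    (hZ : ∑ q ∈ s, Zf T S φ (wd a T A B φ) (xpt S B φ) (gap T A K₁) cls err M W (a₀ q) q.2 y ≤
      ENNReal.ofReal (s.card * h / 32)) :
    Reads S 𝒲 r M₀ M Tm s.toList.length (s.toList.length * h / 16)
      (s.toList.map fun q => name a T (T^[pos q] (φ y)) h).flatten y := by
  obtain ⟨i, hi1, hi2, hi3⟩ := h2 a T A S B φ 𝒲 err r cls y h K₁ W M₀ M s.toList pos a₀ hgo herr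
    fun q hq' => hq q (Finset.mem_toList.1 hq')
  refine ⟨i, hi1, fun c hc => ⟨(hi2 c hc).1.trans hM, (hi2 c hc).2.trans hM⟩, fun w' hw' => ?_⟩
  have h3 := hi3 w' hw'
  rw [Finset.sum_map_toList] at h3
  have h4 := h3.trans (add_le_add_right hZ _)
  rw [Finset.length_toList] at h4 ⊢
  have h0 : (0 : ℝ) ≤ s.card * h / 32 := by positivity
  rw [← ENNReal.ofReal_natCast, ← ENNReal.ofReal_natCast, ← ENNReal.ofReal_add (by positivity) h0,
    ENNReal.ofReal_le_ofReal_iff (by positivity)] at h4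
  refine h4.trans ?_
  have h5 : (64 : ℝ) * K₁ ≤ h := by exact_mod_cast hK
  have h6 : (s.card : ℝ) * (64 * K₁) ≤ s.card * h := by gcongr
  push_cast
  linarith

lemma Twice_four {x : ℕ} (hx : 4 ≤ x) : (x : ℝ) ≤ 8 * (x / 4 : ℕ) := by
  exact_mod_cast (by omega : x ≤ 8 * (x / 4))

theorem Twice_thm (h1 : StZ) (h2 : StSlot) : StTwice := by
  intro X Y α _ _ _ _ _ _ _ μ _ T ν _ S A B φ a hF hC hE η κ hη hκ
  have hA0 : μ A ≠ 0 := hF.pA.ne'
  have hAt : μ A ≠ ⊤ := measure_ne_top _ _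
  obtain ⟨al, hal0, hal⟩ : ∃ al : ℝ, 0 < al ∧ (μ A)⁻¹ = ENNReal.ofReal al :=
    ⟨(μ A)⁻¹.toReal, ENNReal.toReal_pos (ENNReal.inv_ne_zero.2 hAt) (ENNReal.inv_ne_top.2 hA0),
      (ENNReal.ofReal_toReal (ENNReal.inv_ne_top.2 hA0)).symm⟩
  obtain ⟨ε, hε⟩ : ∃ ε : ℝ, ε = η / (2048 * κ) := ⟨_, rfl⟩
  have hε0 : 0 < ε := by rw [hε]; positivity
  have hε2 : 0 < ENNReal.ofReal (ε / 2) := ENNReal.ofReal_pos.2 (half_pos hε0)
  obtain ⟨𝒲, h𝒲, hap⟩ := approx_family Y ν α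
  obtain ⟨d, ℓ, r, hr, -, err, herr, hint, hed⟩ := hap (wd a T A B φ) hC.mw
    (hC.iw.trans_lt (ENNReal.inv_lt_top.2 hF.pA)).ne _ hε2
  obtain ⟨K₁, hK₁⟩ := hC.gp hE (μ A * ENNReal.ofReal (ε / 2)) (ENNReal.mul_pos hA0 hε2.ne')
  obtain ⟨C, hCge⟩ : ∃ C : ℕ, 256 / η + 8 * al / η + 64 * K₁ + 1 ≤ C := exists_nat_ge _
  have hp1 : 0 < 256 / η := by positivity
  have hp2 : 0 < 8 * al / η := by positivity
  have hp3 : (0 : ℝ) ≤ 64 * K₁ := by positivity
  have hC1 : 1 ≤ C := by exact_mod_cast (by linarith : (1 : ℝ) ≤ C)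
  have hCK : 64 * K₁ ≤ C := by exact_mod_cast (by linarith : (64 : ℝ) * K₁ ≤ C)
  have hC256 : 256 ≤ C * η := (div_le_iff₀ hη).1 (by linarith)
  have hC8 : 8 * al ≤ C * η := (div_le_iff₀ hη).1 (by linarith)
  refine ⟨r, 𝒲 d, C, η / (8 * al), hr, h𝒲 d, hC1, by positivity, ?_⟩
  intro h J θ β o cls RG hB hβ hCJ hCh
  have hJ1 : 1 ≤ J := hC1.trans hCJ
  have hh1 : 1 ≤ h := hC1.trans hCh
  have hJ0 : (0 : ℝ) < J := by exact_mod_cast hJ1
  have hh0 : (0 : ℝ) < h := by exact_mod_cast hh1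
  have hCJ' : (C : ℝ) * η ≤ J * η := by gcongr
  obtain ⟨m, hm⟩ : ∃ m : ℕ → ℝ≥0∞, ∀ j, m j = (μ A)⁻¹ * μ (gap T A K₁ ∩ cls ⁻¹' {j}) +
      ∫⁻ z in {z | cls (xpt S B φ z) = j}, err z ∂ν := ⟨_, fun _ => rfl⟩
  have hms : ∀ s : Finset ℕ, ∑ j ∈ s, m j ≤ ENNReal.ofReal ε := by
    intro s
    simp only [hm]
    rw [Finset.sum_add_distrib, ← Finset.mul_sum, ← add_halves ε,
      ENNReal.ofReal_add (half_pos hε0).le (half_pos hε0).le]
    refine add_le_add ?_ ?_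
    · have h3 := Twice_part (μ.restrict (gap T A K₁)) hB.mc s
      simp only [Measure.restrict_apply' (hC.mg K₁), Set.inter_comm _ (gap T A K₁),
        Set.inter_univ] at h3
      refine (mul_le_mul_right (h3.trans hK₁) _).trans (le_of_eq ?_)
      rw [← mul_assoc, ENNReal.inv_mul_cancel hA0 hAt, one_mul]
    · have h3 := Twice_part (ν.withDensity err) (hB.mc.comp hC.mx) s
      rw [withDensity_apply _ MeasurableSet.univ, Measure.restrict_univ] at h3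
      refine le_trans (le_of_eq (Finset.sum_congr rfl fun j _ => ?_)) (h3.trans hint)
      rw [withDensity_apply _ ((hB.mc.comp hC.mx) (measurableSet_singleton j))]
      rfl
  have hmt : ∀ j, m j ≠ ⊤ := fun j =>
    ne_top_of_le_ne_top ENNReal.ofReal_ne_top (by simpa using hms {j})
  have hsum : ∀ s : Finset ℕ, ∑ j ∈ s, J * (m j).toReal / ε = J * (∑ j ∈ s, m j).toReal / ε := by
    intro s
    rw [ENNReal.toReal_sum fun j _ => hmt j, Finset.mul_sum, Finset.sum_div]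
  refine ⟨fun j => J * (m j).toReal / ε, fun j => by positivity, ?_, ?_⟩
  · rw [hsum, div_le_iff₀ hε0]
    exact mul_le_mul_of_nonneg_left (ENNReal.toReal_le_of_le_ofReal hε0.le (hms _)) hJ0.le
  intro e' e 𝒥 he hne hj hs
  rw [hsum, div_le_iff₀ hε0] at hs
  obtain ⟨j₀, hj₀⟩ := hne
  have hee : e' < e := (hj j₀ hj₀).1.trans_lt (hj j₀ hj₀).2
  obtain ⟨np, hnp⟩ : ∃ np, np = J ^ (2 * e' + 2) / C := ⟨_, rfl⟩
  have hnpC : np * C ≤ J ^ (2 * e' + 2) := hnp ▸ Nat.div_mul_le_self _ _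
  have hnp1 : 1 ≤ np := by
    rw [hnp, Nat.le_div_iff_mul_le hC1, one_mul]
    exact hCJ.trans (Nat.le_self_pow (by omega) J)
  have hnp2 : np ≤ J ^ (2 * e' + 2) := hnp ▸ Nat.div_le_self _ _
  obtain ⟨Pl, hPl⟩ : ∃ Pl, Pl = 2 * J * h := ⟨_, rfl⟩
  have hPl0 : 0 < Pl := by rw [hPl]; positivity
  have hPl0' : (0 : ℝ) < Pl := by exact_mod_cast hPl0
  have hgrid : ∀ i, grid h J i = Pl * J ^ (2 * i + 2) := fun i => by rw [hPl]; rfl
  have hgm : ∀ i, i ≤ J → grid h J i / 4 ≤ grid h J J := fun i hi => by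
    rw [hgrid, hgrid]
    exact (Nat.div_le_self _ _).trans
      (Nat.mul_le_mul_left _ (Nat.pow_le_pow_right hJ1 (by omega)))
  obtain ⟨s, hs'⟩ : ∃ s : Finset (ℕ × ℕ), s = range np ×ˢ 𝒥 := ⟨_, rfl⟩
  have hsl : slots J C e' 𝒥 = s.toList := by rw [hs', hnp]; rfl
  have hcard : s.card = np * 𝒥.card := by rw [hs', card_product, card_range]
  have hc0 : (0 : ℝ) < s.card * h / 32 := by
    have : 0 < s.card := hcard ▸ Nat.mul_pos hnp1 (card_pos.2 ⟨j₀, hj₀⟩)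
    positivity
  -- the case of a large tolerance is trivial
  rcases le_or_gt 1 η with hη1 | hη1
  · exact measureReal_le_one.trans hη1
  have hC4 : 4 ≤ C := by
    have : (C : ℝ) * η ≤ C := mul_le_of_le_one_right (Nat.cast_nonneg _) hη1.le
    exact_mod_cast (by linarith : (4 : ℝ) ≤ C)
  have hg4 : ∀ i, 4 ≤ grid h J i := fun i => by
    rw [hgrid]
    exact ((hC4.trans hCJ).trans (Nat.le_self_pow (by omega) J)).trans
      (Nat.le_mul_of_pos_left _ hPl0)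
  have hg0 : ∀ i, 0 < grid h J i / 4 := fun i => by have := hg4 i; omega
  have hg8 : ∀ i, (Pl : ℝ) * J ^ (2 * i + 2) ≤ 8 * (grid h J i / 4 : ℕ) := fun i => by
    have := Twice_four (hg4 i)
    rwa [hgrid i, Nat.cast_mul, Nat.cast_pow, ← hgrid i] at this
  have b1 : ν (B ∩ φ ⁻¹' RGᶜ) ≤ ENNReal.ofReal (η / 8) := by
    refine (hC.tr _ hB.mR.compl).trans ?_
    rw [hal, ← ofReal_measureReal, ← ENNReal.ofReal_mul hal0.le]
    refine ENNReal.ofReal_le_ofReal ?_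
    refine (mul_le_mul_of_nonneg_left (hB.small.trans hβ) hal0.le).trans (le_of_eq ?_)
    field_simp
  have b2 : ν {y | y ∈ B ∧ pi (wd a T A B φ) S (grid h J e' / 4) y < (np + 1) * Pl} ≤
      ENNReal.ofReal (η / 8) := by
    refine Twice_divN (hg0 e') (hC.lo _ _) ?_
    have h3 := hg8 e'
    have h4 : (np : ℝ) * C ≤ J ^ (2 * e' + 2) := by exact_mod_cast hnpC
    have h5 : (1 : ℝ) ≤ np := by exact_mod_cast hnp1
    have h6 : (Pl : ℝ) * (np * C) * η ≤ 8 * (grid h J e' / 4 : ℕ) * η :=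
      mul_le_mul_of_nonneg_right ((mul_le_mul_of_nonneg_left h4 hPl0'.le).trans h3) hη.le
    have h7 : (Pl : ℝ) * np * 256 ≤ Pl * np * (C * η) := by gcongr
    have h8 : (Pl : ℝ) * 1 ≤ Pl * np := by gcongr
    push_cast
    linarith
  have b3 : ν {y | y ∈ B ∧ pi (wd a T A B φ) S (grid h J e / 4) y < 3 * J ^ (2 * e + 1) * Pl} ≤
      ENNReal.ofReal (η / 8) := by
    refine Twice_divN (hg0 e) (hC.lo _ _) ?_
    have h3 := hg8 e
    have h6 : (Pl : ℝ) * J ^ (2 * e + 2) * η ≤ 8 * (grid h J e / 4 : ℕ) * η := by gcongr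
    have h7 : (Pl : ℝ) * J ^ (2 * e + 1) * 256 ≤ Pl * J ^ (2 * e + 1) * (J * η) := by
      gcongr
      linarith
    have h8 : (0 : ℝ) ≤ Pl * J ^ (2 * e + 1) := by positivity
    rw [show 2 * e + 2 = 2 * e + 1 + 1 from rfl, pow_succ] at h6
    push_cast
    linarith
  have b4 : ν {y | J * grid h J e' ≤ pi (wd a T A B φ) S (grid h J e') y} ≤
      ENNReal.ofReal (η / 8) := by
    have h3 := hC.hi (grid h J e') (J * grid h J e')
    have h4 : (0 : ℝ) < grid h J e' := by exact_mod_cast (by have := hg4 e'; omega : 0 < _)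
    rw [hal, ← ENNReal.ofReal_natCast, ← ENNReal.ofReal_natCast (grid h J e'),
      ← ENNReal.ofReal_mul h4.le] at h3
    refine Twice_div (by push_cast; positivity) h3 ?_
    have h5 : (grid h J e' : ℝ) * (8 * al) ≤ grid h J e' * (J * η) :=
      mul_le_mul_of_nonneg_left (by linarith) h4.le
    push_cast
    linarith
  have b5 : ∀ (M : ℕ) (a₀ : ℕ × ℕ → ℕ), ν ({y | ENNReal.ofReal (s.card * h / 32) ≤ ∑ q ∈ s,
      Zf T S φ (wd a T A B φ) (xpt S B φ) (gap T A K₁) cls err M (2 * Pl) (a₀ q) q.2 y} ∩ B) ≤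
      ENNReal.ofReal (η / 8) := by
    intro M a₀
    have hz := fun q : ℕ × ℕ => h1 μ T ν S A B φ a hF hC (gap T A K₁) cls err M (2 * Pl) (a₀ q) q.2
      (hC.mg K₁) hB.mc herr
    refine Twice_markov ν s (fun q => (hz q).1)
      (L := (np * (2 * Pl) : ℕ) * (∑ j ∈ 𝒥, m j).toReal) hc0 ?_ ?_
    · have h3 : (2048 : ℝ) * κ * ε = η := by rw [hε]; field_simp
      have h4 : (np : ℝ) * (4 * h) * (J * (∑ j ∈ 𝒥, m j).toReal) ≤
          np * (4 * h) * (κ * 𝒥.card * ε) := by gcongr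
      have h5 : (0 : ℝ) ≤ np * 𝒥.card * h * (κ * ε) := by positivity
      rw [hcard, hPl, ← h3]
      push_cast
      linarith
    · refine (Finset.sum_le_sum fun q _ => (hz q).2).trans (le_of_eq ?_)
      rw [ENNReal.ofReal_mul (Nat.cast_nonneg _), ENNReal.ofReal_natCast,
        ENNReal.ofReal_toReal (ENNReal.sum_ne_top.2 fun j _ => hmt j), hs', Finset.sum_product]
      simp only [← hm, ← Finset.mul_sum, Finset.sum_const, card_range, nsmul_eq_mul]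
      push_cast
      ring
  refine ENNReal.toReal_le_of_le_ofReal hη.le ?_
  have b6 := b5 (grid h J e' / 4) fun q => q.1 * Pl
  have b7 := b5 (grid h J e / 4) fun q => (q.1 + J ^ (2 * q.2 + 3)) * Pl
  have hu : ∀ (U V : Set Y) (x y : ℝ), 0 ≤ x → 0 ≤ y → ν U ≤ ENNReal.ofReal x →
      ν V ≤ ENNReal.ofReal y → ν (U ∪ V) ≤ ENNReal.ofReal (x + y) := fun U V x y hx hy h3 h4 => by
    rw [ENNReal.ofReal_add hx hy]
    exact (measure_union_le _ _).trans (add_le_add h3 h4)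
  have h8 : 0 ≤ η / 8 := by positivity
  have ball := hu _ _ _ _ (by positivity) (by positivity)
    (hu _ _ _ _ (by positivity) h8 (hu _ _ _ _ h8 h8 b1 b2) b3)
    (hu _ _ _ _ (by positivity) h8 (hu _ _ _ _ h8 h8 b4 b6) b7)
  refine le_trans (measure_mono_ae ?_) (ball.trans (ENNReal.ofReal_le_ofReal (by linarith)))
  filter_upwards [hC.go, hC.ae _ hB.copy] with y hy1 hy2
  rintro ⟨hyB, hy⟩
  by_contra hcon
  apply hy
  have hcon' : ¬ (((y ∈ B ∧ φ y ∉ RG) ∨ _) ∨ _) ∧ ¬ ((_ ∨ _) ∨ _) := not_or.1 hcon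
  simp only [not_or, Set.mem_ofPred_eq, Set.mem_inter_iff, hyB, true_and, and_true, not_not,
    not_lt, not_le] at hcon'
  obtain ⟨⟨⟨c1, c2⟩, c3⟩, ⟨c4, c5⟩, c6⟩ := hcon'
  have hmem : ∀ q ∈ s, q.1 < np ∧ e' ≤ q.2 ∧ q.2 < e := fun q hq => by
    rw [hs', mem_product, mem_range] at hq
    exact ⟨hq.1, hj _ hq.2⟩
  have hcp := fun q (hq : q ∈ s) => hy2 hyB c1 q.1 q.2
    ((hmem q hq).1.trans_le (hnp2.trans (Nat.pow_le_pow_right hJ1 (by omega))))
    ((hmem q hq).2.2.trans_le he)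
  have ho : o (φ y) ≤ Pl := hPl ▸ hB.ole _
  have hjh : ∀ q ∈ s, (2 * q.2 + 1) * h + h ≤ Pl := fun q hq => by
    have h3 := (hmem q hq).2.2.trans_le he
    rw [hPl, ← Nat.succ_mul]
    exact Nat.mul_le_mul_right _ (by omega)
  refine ⟨c1, ?_, ?_⟩
  · rw [hsl]
    refine Twice_read h2 a T A S B φ (𝒲 d) err r cls y h K₁ (2 * Pl) 0 _ _ s
      (fun q => o (φ y) + q.1 * (2 * J * h) + 2 * q.2 * h) (fun q => q.1 * Pl) (hy1 hyB) hed
      (fun q hq => ?_) (hgm _ (by omega)) (hCK.trans hCh) c5.le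
    have h3 := hjh q hq
    have h4 : (q.1 + 1 + 1) * Pl ≤ (np + 1) * Pl :=
      Nat.mul_le_mul_right _ (by have := (hmem q hq).1; omega)
    rw [Nat.add_mul _ 1, Nat.add_mul _ 1] at h4
    rw [Nat.add_mul _ 1] at h3
    refine ⟨?_, ?_, ?_, fun t _ => Nat.zero_le _, fun p hp => ((hcp q hq).2 p hp).1⟩
    · rw [← hPl]; omega
    · rw [← hPl]; omega
    · rw [← hPl]; omega
  · rw [hsl]
    have e1 : orig a T h J o s.toList (φ y) = (s.toList.map fun q => name a T (T^[o (φ y) +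
        (q.1 + J ^ (2 * q.2 + 3)) * (2 * J * h) + (2 * q.2 + 1) * h] (φ y)) h).flatten := by
      unfold orig
      congr 1
      exact List.map_congr_left fun q hq => (hcp q (Finset.mem_toList.1 hq)).1.symm
    rw [e1]
    refine Twice_read h2 a T A S B φ (𝒲 d) err r cls y h K₁ (2 * Pl) _ _ _ s
      (fun q => o (φ y) + (q.1 + J ^ (2 * q.2 + 3)) * (2 * J * h) + (2 * q.2 + 1) * h)
      (fun q => (q.1 + J ^ (2 * q.2 + 3)) * Pl) (hy1 hyB) hed
      (fun q hq => ?_) (hgm _ he) (hCK.trans hCh) c6.le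
    have h3 := hjh q hq
    obtain ⟨h4, h5, h6⟩ := hmem q hq
    have h7 : J ^ (2 * e' + 2) ≤ J ^ (2 * e + 1) := Nat.pow_le_pow_right hJ1 (by omega)
    have h9 : J ^ (2 * q.2 + 3) ≤ J ^ (2 * e + 1) := Nat.pow_le_pow_right hJ1 (by omega)
    have h10 : 1 ≤ J ^ (2 * e + 1) := Nat.one_le_pow _ _ hJ1
    have h11 : (q.1 + J ^ (2 * q.2 + 3) + 2) * Pl ≤ 3 * J ^ (2 * e + 1) * Pl :=
      Nat.mul_le_mul_right _ (by omega)
    have h12 : J * grid h J e' ≤ (q.1 + J ^ (2 * q.2 + 3)) * Pl := by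
      rw [hgrid, mul_left_comm, ← pow_succ', mul_comm]
      exact Nat.mul_le_mul_right _
        ((Nat.pow_le_pow_right hJ1 (by omega)).trans (Nat.le_add_left _ _))
    rw [Nat.add_mul _ 2] at h11
    refine ⟨?_, ?_, ?_, fun t ht => ?_, fun p hp => ((hcp q hq).2 p hp).2⟩
    · rw [← hPl]; omega
    · rw [← hPl]; omega
    · rw [← hPl]; omega
    · by_contra hlt
      have h13 : pi (wd a T A B φ) S t y ≤ pi (wd a T A B φ) S (grid h J e') y :=
        Twice_mono _ S y (not_le.1 hlt).le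
      rw [← hPl] at ht
      omega

end Pool.Agent.Lib.MP_1df8f0_an.K
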