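import Pool.Agent.Lib.MP_1df8f0_an.K.Sm

/-!
Basic facts on the volume of parallelepipeds.
-/

open Finset Matrix

noncomputable section

namespace Pool.Agent.Lib.MP_1df8f0_an.K

variable {n : ℕ} {ι κ : Type}

theorem Vol_mem [Fintype ι] {v : ι → E n} {x : E n} : x ∈ sp v ↔ ∃ c, cmb v c = x :=
  Submodule.mem_span_range_iff_exists_fun ℝ

theorem Vol_self (v : ι → E n) (i : ι) : v i ∈ sp v := Submodule.subset_span ⟨i, rfl⟩

theorem Vol_dsp_le {v : ι → E n} (x : E n) {g : E n} (hg : g ∈ sp v) : dsp x v ≤ ‖x - g‖ := by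
  rw [← dist_eq_norm]
  exact Metric.infDist_le_dist_of_mem hg

theorem Vol_proj (x : E n) (v : ι → E n) : ‖x - (sp v).starProjection x‖ = dsp x v := by
  rw [Submodule.starProjection_minimal, dsp, Metric.infDist_eq_iInf]
  simp only [dist_eq_norm]
  rfl

theorem Vol_split (x : E n) (v : ι → E n) : ∃ g ∈ sp v, ‖x - g‖ = dsp x v ∧ ‖g‖ ≤ ‖x‖ :=
  ⟨_, Submodule.starProjection_apply_mem _ x, Vol_proj x v,
    Submodule.norm_starProjection_apply_le _ x⟩

variable [Fintype ι] [DecidableEq ι] [Fintype κ] [DecidableEq κ]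

theorem Vol_nonneg (v : ι → E n) : 0 ≤ vol v := Real.sqrt_nonneg _

theorem Vol_det (v : ι → E n) : 0 ≤ (gram ℝ v).det := (posSemidef_gram ℝ v).det_nonneg

theorem Vol_pos (v : ι → E n) : 0 < vol v ↔ LinearIndependent ℝ v := by
  rw [vol, Real.sqrt_pos, ← det_gram_ne_zero_iff_linearIndependent]
  exact ⟨fun h => h.ne', fun h => lt_of_le_of_ne (Vol_det v) h.symm⟩

theorem Vol_on (v : ι → E n) (h : Orthonormal ℝ v) : vol v = 1 := by
  rw [vol, gram_eq_one_iff_orthonormal.2 h, det_one, Real.sqrt_one]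

theorem Vol_orth (v : ι → E n) (h : ∀ i j, i ≠ j → inner ℝ (v i) (v j) = 0) :
    vol v = ∏ i, ‖v i‖ := by
  have : gram ℝ v = diagonal fun i => ‖v i‖ ^ 2 := by
    ext i j
    by_cases hij : i = j
    · subst hij
      simp
    · rw [gram_apply, h i j hij, diagonal_apply_ne _ hij]
  rw [vol, this, det_diagonal, prod_pow,
    Real.sqrt_sq (prod_nonneg fun i _ => norm_nonneg _)]

theorem Vol_reindex (σ : κ ≃ ι) (v : ι → E n) : vol (v ∘ σ) = vol v := by
  have : gram ℝ (v ∘ σ) = (gram ℝ v).submatrix σ σ := rfl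
  rw [vol, vol, this, det_submatrix_equiv_self]

theorem Vol_change (v : ι → E n) (M : Matrix ι ι ℝ) :
    vol (fun i => cmb v (M i)) = |M.det| * vol v := by
  have : gram ℝ (fun i => cmb v (M i)) = M * gram ℝ v * Mᵀ := by
    ext i j
    simp only [gram_apply, cmb, sum_inner, inner_sum, real_inner_smul_left, real_inner_smul_right,
      Matrix.mul_apply, transpose_apply, sum_mul]
    exact sum_congr rfl fun a _ => sum_congr rfl fun b _ => by ring
  rw [vol, vol, this, det_mul, det_mul, det_transpose,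
    show M.det * (gram ℝ v).det * M.det = M.det ^ 2 * (gram ℝ v).det by ring,
    Real.sqrt_mul (sq_nonneg _), Real.sqrt_sq_eq_abs]

theorem Vol_block (f : κ → E n) (e : ι → E n) :
    vol (Sum.elim f e) = vol (fun i => f i - (sp e).starProjection (f i)) * vol e := by
  choose C hC using fun i => Vol_mem.1 (Submodule.starProjection_apply_mem (sp e) (f i))
  have horth : ∀ i j, inner ℝ (f i - (sp e).starProjection (f i)) (e j) = 0 := fun i j =>
    Submodule.starProjection_inner_eq_zero (f i) _ (Vol_self e j)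
  generalize hh : (fun i => f i - (sp e).starProjection (f i)) = h
  have hf : ∀ i, f i = h i + cmb e (C i) := fun i => by rw [← hh, hC]; simp
  have horth' : ∀ i j, inner ℝ (h i) (e j) = 0 := fun i j => by rw [← hh]; exact horth i j
  have h1 : Sum.elim f e =
      fun i => cmb (Sum.elim h e) (fromBlocks (1 : Matrix κ κ ℝ) (of C) 0 (1 : Matrix ι ι ℝ) i) := by
    funext i
    rcases i with i | i
    · simp [cmb, Fintype.sum_sum_type, one_apply, hf i]
    · simp [cmb, Fintype.sum_sum_type, one_apply]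
  have h2 : gram ℝ (Sum.elim h e) = fromBlocks (gram ℝ h) 0 0 (gram ℝ e) := by
    ext i j
    rcases i with i | i <;> rcases j with j | j
    · rfl
    · exact horth' i j
    · exact (real_inner_comm _ _).trans (horth' j i)
    · rfl
  rw [h1, Vol_change, det_fromBlocks_zero₂₁, det_one, det_one, mul_one, abs_one, one_mul, vol, h2,
    det_fromBlocks_zero₂₁, Real.sqrt_mul (Vol_det h)]
  rfl

theorem Vol_cons {k : ℕ} (x : E n) (v : Fin k → E n) :
    vol (Fin.cons x v : Fin (k + 1) → E n) = dsp x v * vol v := by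
  let σ : Unit ⊕ Fin k ≃ Fin (k + 1) :=
    { toFun := Sum.elim (fun _ => 0) Fin.succ
      invFun := Fin.cons (Sum.inl ()) Sum.inr
      left_inv := by rintro (i | i) <;> simp
      right_inv := fun i => by refine Fin.cases ?_ (fun i => ?_) i <;> simp }
  have : (Fin.cons x v : Fin (k + 1) → E n) ∘ σ = Sum.elim (fun _ => x) v := by
    funext i
    rcases i with i | i <;> simp [σ]
  rw [← Vol_reindex σ, this, Vol_block, Vol_orth _ fun i j h => absurd (Subsingleton.elim i j) h]
  simp [Vol_proj]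

theorem Vol_succ {k : ℕ} (v : Fin (k + 1) → E n) :
    vol v = dsp (v 0) (Fin.tail v) * vol (Fin.tail v) := by
  rw [← Vol_cons, Fin.cons_self_tail]

theorem Vol_zero (v : Fin 0 → E n) : vol v = 1 := by simp [vol]

theorem Vol_hada (v : ι → E n) : vol v ≤ ∏ i, ‖v i‖ := by
  have key : ∀ (k : ℕ) (v : Fin k → E n), vol v ≤ ∏ i, ‖v i‖ := fun k => by
    induction k with
    | zero => intro v; simp [Vol_zero]
    | succ k ih =>
      intro v
      rw [Vol_succ, Fin.prod_univ_succ]
      refine mul_le_mul ?_ (ih _) (Vol_nonneg _) (norm_nonneg _)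
      simpa using Vol_dsp_le (v 0) (Submodule.zero_mem (sp (Fin.tail v)))
  have := key _ (v ∘ (Fintype.equivFin ι).symm)
  rw [Vol_reindex] at this
  exact this.trans_eq ((Fintype.equivFin ι).symm.prod_comp fun i => ‖v i‖)

theorem Vol_cmb_cons {k : ℕ} (v : Fin (k + 1) → E n) (a : ℝ) (c : Fin k → ℝ) :
    cmb v (Fin.cons a c) = a • v 0 + cmb (Fin.tail v) c := by
  simp [cmb, Fin.sum_univ_succ, Fin.tail]

theorem Vol_mono {m : ℕ} (u : ι → E n) (v : ι → E m) (C : ℝ) (hC : 0 ≤ C)
    (h : ∀ c, ‖cmb u c‖ ≤ C * ‖cmb v c‖) : vol u ≤ C ^ Fintype.card ι * vol v := by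
  have key : ∀ (k : ℕ) (u : Fin k → E n) (v : Fin k → E m),
      (∀ c, ‖cmb u c‖ ≤ C * ‖cmb v c‖) → vol u ≤ C ^ k * vol v := fun k => by
    induction k with
    | zero => intro u v _; simp [Vol_zero]
    | succ k ih =>
      intro u v h
      have h1 := ih (Fin.tail u) (Fin.tail v) fun c => by
        simpa [Vol_cmb_cons] using h (Fin.cons 0 c)
      obtain ⟨g, hg, e1, -⟩ := Vol_split (v 0) (Fin.tail v)
      obtain ⟨c, rfl⟩ := Vol_mem.1 hg
      have h2 : dsp (u 0) (Fin.tail u) ≤ C * dsp (v 0) (Fin.tail v) := by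
        refine (Vol_dsp_le (u 0) (Vol_mem.2 ⟨c, rfl⟩)).trans ?_
        have := h (Fin.cons (-1) c)
        rw [Vol_cmb_cons, Vol_cmb_cons, neg_one_smul, neg_one_smul, neg_add_eq_sub, neg_add_eq_sub,
          norm_sub_rev, norm_sub_rev (cmb (Fin.tail v) c), e1] at this
        exact this
      rw [Vol_succ u, Vol_succ v]
      calc _ ≤ C * dsp (v 0) (Fin.tail v) * (C ^ k * vol (Fin.tail v)) :=
            mul_le_mul h2 h1 (Vol_nonneg _) (mul_nonneg hC Metric.infDist_nonneg)
        _ = _ := by ring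
  have := key _ (u ∘ (Fintype.equivFin ι).symm) (v ∘ (Fintype.equivFin ι).symm) fun c => by
    have e : ∀ {l : ℕ} (w : ι → E l), cmb (w ∘ (Fintype.equivFin ι).symm) c =
        cmb w (c ∘ Fintype.equivFin ι) := fun w => by
      simp only [cmb]
      rw [← (Fintype.equivFin ι).sum_comp]
      simp
    rw [e, e]
    exact h _
  rwa [Vol_reindex, Vol_reindex] at this

theorem Vol_ratio (B : Op n) (v g : ι → E n) (h : ∀ i, g i ∈ sp v) :
    vol (B ∘ g) * vol v = vol (B ∘ v) * vol g := by
  choose M hM using fun i => Vol_mem.1 (h i)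
  have h1 : g = fun i => cmb v (of M i) := funext fun i => (hM i).symm
  have h2 : B ∘ g = fun i => cmb (B ∘ v) (of M i) := funext fun i => by
    simp [← hM i, cmb]
  rw [h2, Vol_change]
  conv_rhs => rw [h1, Vol_change]
  ring

theorem Vol_trans {k d : ℕ} (f : Fin k → E n) (e : Fin d → E n) (c : ℝ) (hc : 0 ≤ c)
    (h : ∀ x ∈ sp f, c * ‖x‖ ≤ dsp x e) : c ^ k * vol f * vol e ≤ vol (Sum.elim f e) := by
  rw [Vol_block]
  refine mul_le_mul_of_nonneg_right ?_ (Vol_nonneg e)
  have h1 := Vol_change f (diagonal fun _ => c)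
  rw [det_diagonal, prod_const, card_univ, Fintype.card_fin, abs_of_nonneg (pow_nonneg hc k)] at h1
  have h2 : (fun i => cmb f (diagonal (fun _ => c) i)) = fun i => c • f i := by
    funext i
    simp [cmb, diagonal_apply]
  rw [← h1, h2]
  have := Vol_mono (fun i => c • f i) (fun i => f i - (sp e).starProjection (f i)) 1 zero_le_one
    fun a => by
      have e1 : cmb (fun i => c • f i) a = c • cmb f a := by
        simp only [cmb, smul_sum]
        exact sum_congr rfl fun i _ => smul_comm _ _ _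
      have e2 : cmb (fun i => f i - (sp e).starProjection (f i)) a =
          cmb f a - (sp e).starProjection (cmb f a) := by
        simp [cmb, smul_sub, sum_sub_distrib]
      rw [e1, e2, Vol_proj, one_mul, norm_smul, Real.norm_of_nonneg hc]
      exact h _ (Vol_mem.2 ⟨a, rfl⟩)
  simpa using this

theorem Vol_top (B : Op n) (v : ι → E n) (h : Fintype.card ι = n) :
    vol (B ∘ v) = |B.det| * vol v := by
  let σ : ι ≃ Fin n := Fintype.equivFinOfCardEq h
  let b := EuclideanSpace.basisFun (Fin n) ℝ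
  have hb : ∀ x : E n, cmb b (fun j => b.toBasis.repr x j) = x := fun x => b.toBasis.sum_repr x
  have h1 := Vol_ratio B b (v ∘ σ.symm) fun i => Vol_mem.2 ⟨_, hb _⟩
  have h2 : vol (B ∘ b) = |B.det| := by
    have e : B ∘ b = fun i => cmb b ((LinearMap.toMatrix b.toBasis b.toBasis
        (B : E n →ₗ[ℝ] E n))ᵀ i) := funext fun i => by
      rw [Function.comp_apply, ← hb (B (b i))]
      congr 1
      funext j
      rw [transpose_apply, LinearMap.toMatrix_apply]
      rfl
    rw [e, Vol_change, det_transpose, LinearMap.det_toMatrix, Vol_on _ b.orthonormal, mul_one]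
  rw [Vol_on _ b.orthonormal, mul_one, h2, Vol_reindex, ← Function.comp_assoc, Vol_reindex] at h1
  exact h1

theorem Vol_cont : Continuous (vol : (ι → E n) → ℝ) :=
  Real.continuous_sqrt.comp (Continuous.matrix_det (continuous_matrix fun i j =>
    show Continuous fun a : ι → E n => inner ℝ (a i) (a j) from
      (continuous_apply i).inner (continuous_apply j)))

theorem Vol_onb {k : ℕ} (v : Fin k → E n) (h : 0 < vol v) :
    ∃ y : Fin k → E n, Orthonormal ℝ y ∧ sp y = sp v := by
  have hr : Module.finrank ℝ (sp v) = k := by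
    rw [sp, finrank_span_eq_card ((Vol_pos v).1 h), Fintype.card_fin]
  let b := (stdOrthonormalBasis ℝ (sp v)).reindex (finCongr hr)
  refine ⟨(sp v).subtypeₗᵢ ∘ b, b.orthonormal.comp_linearIsometry _, ?_⟩
  have : Submodule.map (sp v).subtype (Submodule.span ℝ (Set.range b.toBasis)) = sp v := by
    rw [b.toBasis.span_eq, Submodule.map_subtype_top]
  rw [Submodule.map_span, ← Set.range_comp] at this
  exact this

theorem Vol_thm : StVol where
  nonneg := Vol_nonneg
  pos := Vol_pos
  on := Vol_on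
  orth := Vol_orth
  reindex := Vol_reindex
  change := Vol_change
  cons := Vol_cons
  hada := Vol_hada
  mono := Vol_mono
  ratio := Vol_ratio
  trans := Vol_trans
  top := Vol_top
  cont := Vol_cont
  onb := Vol_onb
  split := Vol_split
  evon := fun I hI => EuclideanSpace.orthonormal_single.comp I hI

end Pool.Agent.Lib.MP_1df8f0_an.K
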