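import Pool.Agent.Lib.MP_1df8f0_an.K.Sy

/-!
Mass transport bound for the error charged to a class in a window of positions.
-/

open MeasureTheory Finset Filter Topology ProbabilityTheory
open scoped ENNReal

noncomputable section

namespace Pool.Agent.Lib.MP_1df8f0_an.K

lemma Z_pi_add {Y α : Type} (w : Y → List α) (S : Y → Y) (s t : ℕ) (y : Y) :
    pi w S (s + t) y = pi w S s y + pi w S t (S^[s] y) := by
  induction t with
  | zero => simp [pi, emit]
  | succ t ih =>
    unfold pi at ih ⊢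
    rw [← add_assoc, emit_succ, emit_succ, List.length_append, List.length_append, ih,
      ← Function.iterate_add_apply, add_comm t s, add_assoc]

lemma Z_pi_pos {Y α : Type} (w : Y → List α) (S : Y → Y) (s : ℕ) (y : Y) (hs : 1 ≤ s)
    (hy : 1 ≤ (w y).length) : 1 ≤ pi w S s y := by
  obtain ⟨s, rfl⟩ := Nat.exists_eq_add_of_le hs
  rw [Z_pi_add]
  have : pi w S 1 y = (w y).length := by simp [pi, emit]
  omega

open Classical in
/-- At most `W` backward times emit inside a window of length `W`. -/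
lemma Z_count {Y α : Type} (w : Y → List α) (S : Y → Y) (B : Set Y) (M W a₀ : ℕ) (u : Y)
    (hu : ∀ i, S^[i] u ∈ B → 1 ≤ (w (S^[i] u)).length) :
    ((range M).filter fun t => S^[M - t] u ∈ B ∧ a₀ ≤ pi w S t (S^[M - t] u) ∧
      pi w S t (S^[M - t] u) < a₀ + W).card ≤ W := by
  have key : ∀ t t', t < t' → t' < M → S^[M - t'] u ∈ B →
      pi w S t (S^[M - t] u) < pi w S t' (S^[M - t'] u) := by
    intro t t' h1 h2 h3
    obtain ⟨d, rfl⟩ := Nat.exists_eq_add_of_lt h1
    have e1 : t + d + 1 = (d + 1) + t := by omega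
    have e2 : S^[d + 1] (S^[M - (t + d + 1)] u) = S^[M - t] u := by
      rw [← Function.iterate_add_apply]
      congr 1
      omega
    have e3 := Z_pi_add w S (d + 1) t (S^[M - (t + d + 1)] u)
    rw [e2, ← e1] at e3
    have e4 := Z_pi_pos w S (d + 1) _ (by omega) (hu _ h3)
    omega
  calc _ ≤ (Ico a₀ (a₀ + W)).card := by
        refine card_le_card_of_injOn (fun t => pi w S t (S^[M - t] u)) ?_ ?_
        · intro t ht
          simp only [coe_filter, mem_range, Set.mem_ofPred_eq] at ht
          simp only [coe_Ico, Set.mem_Ico]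
          exact ⟨ht.2.2.1, ht.2.2.2⟩
        · intro t ht t' ht' he
          simp only [coe_filter, mem_range, Set.mem_ofPred_eq] at ht ht'
          rcases lt_trichotomy t t' with h | h | h
          · exact absurd he (key t t' h ht'.1 ht'.2.1).ne
          · exact h
          · exact absurd he (key t' t h ht.1 ht.2.1).ne'
    _ = W := by simp

open Classical in
/-- The mass transport inequality. -/
lemma Z_transport {Y α : Type} [MeasurableSpace Y] (ν : Measure Y) (w : Y → List α) (S : Y → Y)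
    (B : Set Y) (hS : MeasurePreserving S ν ν) (hB : MeasurableSet B)
    (hpi : ∀ t, Measurable (pi w S t)) (hw : ∀ᵐ y ∂ν, y ∈ B → 1 ≤ (w y).length)
    (F : Y → ℝ≥0∞) (hF : Measurable F) (M W a₀ : ℕ) :
    ∫⁻ y in B, ∑ t ∈ range M,
      (if a₀ ≤ pi w S t y ∧ pi w S t y < a₀ + W then F (S^[t] y) else 0) ∂ν ≤
      W * ∫⁻ z, F z ∂ν := by
  set G : ℕ → Y → ℝ≥0∞ := fun t y =>
    if y ∈ B ∧ a₀ ≤ pi w S t y ∧ pi w S t y < a₀ + W then F (S^[t] y) else 0 with hG
  have hGm : ∀ t, Measurable (G t) := by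
    intro t
    refine Measurable.ite ?_ (hF.comp (hS.measurable.iterate t)) measurable_const
    exact hB.inter ((measurableSet_le measurable_const (hpi t)).inter
      (measurableSet_lt (hpi t) measurable_const))
  have h1 : ∫⁻ y in B, ∑ t ∈ range M,
      (if a₀ ≤ pi w S t y ∧ pi w S t y < a₀ + W then F (S^[t] y) else 0) ∂ν =
      ∫⁻ y, ∑ t ∈ range M, G t y ∂ν := by
    rw [← lintegral_indicator hB]
    refine lintegral_congr fun y => ?_
    by_cases hy : y ∈ B
    · simp [hG, hy]
    · simp [hG, hy]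
  have h2 : ∫⁻ y, ∑ t ∈ range M, G t y ∂ν = ∫⁻ u, ∑ t ∈ range M, G t (S^[M - t] u) ∂ν := by
    rw [lintegral_finsetSum _ fun t _ => hGm t,
      lintegral_finsetSum (f := fun t u => G t (S^[M - t] u)) _
        fun t _ => (hGm t).comp (hS.measurable.iterate (M - t))]
    refine sum_congr rfl fun t _ => ?_
    exact ((hS.iterate (M - t)).lintegral_comp (hGm t)).symm
  have h3 : ∀ᵐ u ∂ν, ∀ i, S^[i] u ∈ B → 1 ≤ (w (S^[i] u)).length := by
    rw [ae_all_iff]
    intro i
    exact (hS.iterate i).quasiMeasurePreserving.ae hw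
  rw [h1, h2]
  calc _ ≤ ∫⁻ u, W * F (S^[M] u) ∂ν := by
        refine lintegral_mono_ae ?_
        filter_upwards [h3] with u hu
        have hc := Z_count w S B M W a₀ u hu
        have e1 : ∑ t ∈ range M, G t (S^[M - t] u) =
            ∑ t ∈ (range M).filter fun t => S^[M - t] u ∈ B ∧ a₀ ≤ pi w S t (S^[M - t] u) ∧
              pi w S t (S^[M - t] u) < a₀ + W, F (S^[M] u) := by
          rw [sum_filter]
          refine sum_congr rfl fun t ht => ?_
          have : S^[t] (S^[M - t] u) = S^[M] u := by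
            rw [← Function.iterate_add_apply]
            congr 1
            have := mem_range.1 ht
            omega
          simp only [hG, this]
        rw [e1, sum_const, nsmul_eq_mul]
        gcongr
    _ = W * ∫⁻ z, F z ∂ν := by
        rw [lintegral_const_mul (f := fun u => F (S^[M] u)) _ (hF.comp (hS.measurable.iterate M)),
          (hS.iterate M).lintegral_comp hF]

theorem Z_thm : StZ := by
  intro X Y α _ _ μ _ T ν _ S A B φ a hf hc Gp cls err M W a₀ j hGp hcls herr
  have hφ : Measurable φ := hf.mp.measurable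
  have hU : MeasurableSet (Gp ∩ cls ⁻¹' {j}) := hGp.inter (hcls (measurableSet_singleton j))
  have hC : MeasurableSet {z | cls (xpt S B φ z) = j} :=
    (hcls.comp hc.mx) (measurableSet_singleton j)
  have m1 : ∀ p : ℕ, Measurable fun y : Y =>
      (Gp ∩ cls ⁻¹' {j}).indicator (1 : X → ℝ≥0∞) (T^[p] (φ y)) := fun p =>
    (measurable_one.indicator hU).comp ((hf.mT.measurable.iterate p).comp hφ)
  set F : Y → ℝ≥0∞ := {z | cls (xpt S B φ z) = j}.indicator err with hF
  have hFm : Measurable F := herr.indicator hC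
  have e2 : ∀ (t : ℕ) (y : Y), (if a₀ ≤ pi (wd a T A B φ) S t y ∧
      pi (wd a T A B φ) S t y < a₀ + W ∧ cls (xpt S B φ (S^[t] y)) = j then err (S^[t] y) else 0) =
      if a₀ ≤ pi (wd a T A B φ) S t y ∧ pi (wd a T A B φ) S t y < a₀ + W then F (S^[t] y)
        else 0 := by
    intro t y
    by_cases h1 : cls (xpt S B φ (S^[t] y)) = j
    · simp [hF, h1]
    · simp [hF, h1]
  have m2 : ∀ t : ℕ, Measurable fun y : Y =>
      if a₀ ≤ pi (wd a T A B φ) S t y ∧ pi (wd a T A B φ) S t y < a₀ + W then F (S^[t] y)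
        else 0 := fun t =>
    Measurable.ite ((measurableSet_le measurable_const (hc.mpi t)).inter
      (measurableSet_lt (hc.mpi t) measurable_const))
      (hFm.comp (hf.mS.measurable.iterate t)) measurable_const
  have e1 : Zf T S φ (wd a T A B φ) (xpt S B φ) Gp cls err M W a₀ j = fun y =>
      (∑ p ∈ Ico a₀ (a₀ + W), (Gp ∩ cls ⁻¹' {j}).indicator (1 : X → ℝ≥0∞) (T^[p] (φ y))) +
        ∑ t ∈ range M, if a₀ ≤ pi (wd a T A B φ) S t y ∧ pi (wd a T A B φ) S t y < a₀ + W
          then F (S^[t] y) else 0 := by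
    funext y
    simp only [Zf, e2]
  have m3 : Measurable fun y : Y => ∑ p ∈ Ico a₀ (a₀ + W),
      (Gp ∩ cls ⁻¹' {j}).indicator (1 : X → ℝ≥0∞) (T^[p] (φ y)) :=
    Finset.measurable_sum _ fun p _ => m1 p
  rw [e1]
  refine ⟨m3.add (Finset.measurable_sum _ fun t _ => m2 t), ?_⟩
  rw [lintegral_add_left m3, mul_add]
  refine add_le_add ?_ ?_
  · rw [lintegral_finsetSum _ fun p _ => m1 p]
    have : ∀ p ∈ Ico a₀ (a₀ + W), ∫⁻ y in B,
        (Gp ∩ cls ⁻¹' {j}).indicator (1 : X → ℝ≥0∞) (T^[p] (φ y)) ∂ν ≤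
        (μ A)⁻¹ * μ (Gp ∩ cls ⁻¹' {j}) := by
      intro p _
      have hV : MeasurableSet (T^[p] ⁻¹' (Gp ∩ cls ⁻¹' {j})) := hf.mT.measurable.iterate p hU
      have e3 : (fun y : Y => (Gp ∩ cls ⁻¹' {j}).indicator (1 : X → ℝ≥0∞) (T^[p] (φ y))) =
          (φ ⁻¹' (T^[p] ⁻¹' (Gp ∩ cls ⁻¹' {j}))).indicator 1 := by
        funext y
        by_cases hy : T^[p] (φ y) ∈ Gp ∩ cls ⁻¹' {j}
        · rw [Set.indicator_of_mem hy, Set.indicator_of_mem (by exact hy)]
          rfl
        · rw [Set.indicator_of_notMem hy, Set.indicator_of_notMem (by exact hy)]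
      rw [e3, lintegral_indicator_one (hφ hV), Measure.restrict_apply (hφ hV), Set.inter_comm,
        ← (hf.mT.iterate p).measure_preimage hU.nullMeasurableSet]
      exact hc.tr _ hV
    refine (sum_le_card_nsmul _ _ _ this).trans ?_
    simp
  · have hw : ∀ᵐ y ∂ν, y ∈ B → 1 ≤ (wd a T A B φ y).length := by
      filter_upwards [hc.go] with y hy hyB
      have h1 := ((hy hyB).2 0).1 hyB
      simp only [wd, if_pos hyB, name, List.length_map, List.length_range]
      exact h1.2
    refine (Z_transport ν _ S B hf.mS hf.mB hc.mpi hw F hFm M W a₀).trans ?_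
    rw [hF, lintegral_indicator hC]

end Pool.Agent.Lib.MP_1df8f0_an.K
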