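import Pool.Agent.Lib.MP_1df8f0_an.K.Fin3
import Pool.Agent.Lib.MP_1df8f0_an.K.Vol
import Pool.Agent.Lib.MP_1df8f0_an.K.N
import Pool.Agent.Lib.MP_1df8f0_an.K.SV
import Pool.Agent.Lib.MP_1df8f0_an.K.Pert
import Pool.Agent.Lib.MP_1df8f0_an.K.Trv
import Pool.Agent.Lib.MP_1df8f0_an.K.CV
import Pool.Agent.Lib.MP_1df8f0_an.K.Tube
import Pool.Agent.Lib.MP_1df8f0_an.K.GeoM
import Pool.Agent.Lib.MP_1df8f0_an.K.GeoA
import Pool.Agent.Lib.MP_1df8f0_an.K.GeoB
import Pool.Agent.Lib.MP_1df8f0_an.K.Proj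
import Pool.Agent.Lib.MP_1df8f0_an.K.Det
import Pool.Agent.Lib.MP_1df8f0_an.K.Sys
import Pool.Agent.Lib.MP_1df8f0_an.K.Iter
import Pool.Agent.Lib.MP_1df8f0_an.K.GL
import Pool.Agent.Lib.MP_1df8f0_an.K.Sub
import Pool.Agent.Lib.MP_1df8f0_an.K.BF
import Pool.Agent.Lib.MP_1df8f0_an.K.Step
import Pool.Agent.Lib.MP_1df8f0_an.K.M2
import Pool.Agent.Lib.MP_1df8f0_an.K.Des
import Pool.Agent.Lib.MP_1df8f0_an.K.Inv
import Pool.Agent.Lib.MP_1df8f0_an.K.Tow
import Pool.Agent.Lib.MP_1df8f0_an.K.BandA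
import Pool.Agent.Lib.MP_1df8f0_an.K.Band
import Pool.Agent.Lib.MP_1df8f0_an.K.Fac
import Pool.Agent.Lib.MP_1df8f0_an.K.Z
import Pool.Agent.Lib.MP_1df8f0_an.K.Slot
import Pool.Agent.Lib.MP_1df8f0_an.K.Rare
import Pool.Agent.Lib.MP_1df8f0_an.K.Twice
import Pool.Agent.Lib.MP_1df8f0_an.K.Sym4
import Pool.Agent.Lib.MP_1df8f0_an.K.Sym2

/-!
All steps put together.
-/

open MeasureTheory
open scoped unitInterval

namespace Pool.Agent.Lib.MP_1df8f0_an.K

theorem All_thm :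
    ∃ T : I → I, (∃ T' : I → I, MeasurePreserving T' volume volume ∧
        T' ∘ T =ᵐ[volume] id ∧ T ∘ T' =ᵐ[volume] id) ∧
      Ergodic T volume ∧ ksEntropy volume T = 0 ∧
      ∀ (n : ℕ) (S : Torus n → Torus n), IsC2Diffeo S → ¬ InducedFactor volume T volume S := by
  have hV : StVol := Vol_thm
  have hN : StN := N_thm hV
  have hSV : StSV := SV_thm hV hN
  have hTrv : StTrv := Trv_thm hV hN
  have hCV : StCV := CV_thm hV
  have hPert : StPert := @Pert_thm hV hN hSV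
  have hTube : StTube := @Tube_thm hV hPert hTrv hCV
  obtain ⟨hM, hT⟩ := GeoM_thm hV hN hTrv
  have hIter : StIter := @Iter_thm Proj_thm
  have hSub : StSub := Sub_thm hN
  obtain ⟨hB, hF⟩ := BF_thm hV hN hTrv
  have hA : StGeoA := @GeoA_thm hV hTrv hTube hT
  have hGB : StGeoB := @GeoB_thm hV hTrv hCV hTube hM hT
  have hGL : StGL := @GL_thm hV hTrv Proj_thm hIter hM hA hGB
  have hDet : StDet := @Det_thm Proj_thm
  have hSys : StSys := @Sys_thm Proj_thm hDet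
  have hStep : StStep := @Step_thm hN hSV hTrv hSub hB hF
  have hM2 : StM2 := @M2_thm
  have hInv : StInv := @Inv_thm hM2 Des_thm
  have hTow : StTow := @Tow_thm
  have hBA : StBandA := @BandA_thm Des_thm hTow
  have hBand : StBand := @Band_thm hM2 Des_thm hInv hBA
  have hFac : StFac := @Fac_thm
  have hZ : StZ := @Z_thm
  have hSlot : StSlot := @Slot_thm
  have hRare : StRare := @Rare_thm
  have hTw : StTwice := @Twice_thm hZ hSlot
  have h4 : StSym4 := @Sym4_thm hRare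
  have h2 : StSym2 := @Sym2_thm
  exact Fin_thm hN hSys hIter hGL hSub hStep Des_thm hBand hFac hTw h4 h2

end Pool.Agent.Lib.MP_1df8f0_an.K
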