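import Pool.Agent.Lib.MP_1df8f0_an.K.Sy

/-!
The structural part of a band: slots, copies, classes and the measure of the end of a round.
-/

open MeasureTheory Finset
open scoped ENNReal

noncomputable section

namespace Pool.Agent.Lib.MP_1df8f0_an.K

lemma BandA_dec (p Pl Kp : ℕ) :
    p = p / (Kp * Pl) * (Kp * Pl) + p / Pl % Kp * Pl + p % Pl := by
  have h1 := Nat.div_add_mod p Pl
  have h2 := Nat.div_add_mod (p / Pl) Kp
  have h3 : p / (Kp * Pl) = p / Pl / Kp := by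
    rw [Nat.div_div_eq_div_mul, Nat.mul_comm]
  rw [h3]
  generalize p / Pl / Kp = a at *
  generalize p / Pl % Kp = k at *
  generalize p % Pl = r at *
  generalize p / Pl = d at *
  subst h2
  rw [← h1]
  ring

lemma BandA_pos (h J Kp p u r : ℕ) (hh : 0 < h) (hJ : 0 < J) :
    p + (2 * J * h - p % (2 * J * h) + u * (2 * J * h) + r * h) =
      p / (2 * J * Kp * h) * (2 * J * Kp * h) +
        ((p / (2 * J * h) % Kp + 1 + u) * (2 * J) + r) * h := by
  have h0 : 0 < 2 * J * h := by positivity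
  have h1 := BandA_dec p (2 * J * h) Kp
  have h2 : p % (2 * J * h) < 2 * J * h := Nat.mod_lt _ h0
  have h3 : Kp * (2 * J * h) = 2 * J * Kp * h := by ring
  rw [h3] at h1
  generalize p / (2 * J * Kp * h) = a at *
  generalize p / (2 * J * h) % Kp = k at *
  generalize p % (2 * J * h) = t at *
  obtain ⟨d, hd⟩ := Nat.exists_eq_add_of_le h2.le
  have h4 : 2 * J * h - t = d := by omega
  rw [h4, h1]
  have h5 : ((k + 1 + u) * (2 * J) + r) * h =
      k * (2 * J * h) + 2 * J * h + u * (2 * J * h) + r * h := by ring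
  rw [h5]
  omega

lemma BandA_ilt (J Kp κ r : ℕ) (hκ : κ < Kp) (hr : r < 2 * J) :
    κ * (2 * J) + r < 2 * J * Kp := by
  have : (κ + 1) * (2 * J) ≤ Kp * (2 * J) := Nat.mul_le_mul_right _ hκ
  nlinarith

lemma BandA_lt (s m h ρ i q : ℕ) (hρ : ρ < s) (hi : i < m) (hq : q < h) :
    ρ * (m * h) + i * h + q < s * (m * h) := by
  have h1 : (i + 1) * h ≤ m * h := Nat.mul_le_mul_right _ hi
  have h2 : (ρ + 1) * (m * h) ≤ s * (m * h) := Nat.mul_le_mul_right _ hρ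
  nlinarith

lemma BandA_cls (h J Kp ρ κ r q : ℕ) (hr : r < 2 * J) (hq : q < h) :
    (ρ * (2 * J * Kp * h) + (κ * (2 * J) + r) * h + q) / h % (2 * J) = r := by
  have h0 : 0 < h := by omega
  have h1 : ρ * (2 * J * Kp * h) + (κ * (2 * J) + r) * h + q =
      q + h * (r + 2 * J * (ρ * Kp + κ)) := by ring
  rw [h1, Nat.add_mul_div_left _ _ h0, Nat.div_eq_of_lt hq, Nat.zero_add,
    Nat.add_mul_mod_self_left, Nat.mod_eq_of_lt hr]

lemma BandA_pow (J u j : ℕ) (hJ : 2 ≤ J) (hu : u < J ^ (2 * J + 2)) (hj : j < J) :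
    u + J ^ (2 * j + 3) < J ^ (2 * J + 3) := by
  have h1 : J ^ (2 * j + 3) ≤ J ^ (2 * J + 2) := Nat.pow_le_pow_right (by omega) (by omega)
  have h2 : J ^ (2 * J + 3) = J ^ (2 * J + 2) * J := pow_succ _ _
  have h3 : J ^ (2 * J + 2) * 2 ≤ J ^ (2 * J + 2) * J := Nat.mul_le_mul_left _ hJ
  omega

/-- One slot after the next period. -/
lemma BandA_slot {X α : Type} (T : X → X) (c : ℕ → X → ℕ × ℕ) (P : Params) (J Kp b : ℕ)
    (e : ℕ → α) (x : X) (hh : 0 < P.h b) (hJ : 0 < J) (hm : P.m b = 2 * J * Kp)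
    (h1 : (c (b + 1) x).2 < P.h (b + 1))
    (h2 : ∀ n, (c (b + 1) x).2 + n < P.h (b + 1) →
      c (b + 1) (T^[n] x) = ((c (b + 1) x).1, (c (b + 1) x).2 + n))
    (h3 : ∀ n ρ i, ρ < P.s b → i < P.m b →
      (c (b + 1) x).2 + n = ρ * (P.m b * P.h b) + i * P.h b →
      name (fun z => e (c 0 z).1) T (T^[n] x) (P.h b) =
        P.word e b ((P.σ b (c (b + 1) x).1 i + ρ) % P.s b))
    (u r : ℕ) (hu : (c (b + 1) x).2 / (2 * J * P.h b) % Kp + 1 + u < Kp) (hr : r < 2 * J) :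
    name (fun z => e (c 0 z).1) T
        (T^[oF (P.h b) J (c (b + 1) x) + u * (2 * J * P.h b) + r * P.h b] x) (P.h b) =
      P.word e b ((P.σ b (c (b + 1) x).1
        (((c (b + 1) x).2 / (2 * J * P.h b) % Kp + 1 + u) * (2 * J) + r) +
          (c (b + 1) x).2 / (P.m b * P.h b)) % P.s b) ∧
    ∀ q, q < P.h b → clsF (P.h b) J (c (b + 1)
      (T^[oF (P.h b) J (c (b + 1) x) + u * (2 * J * P.h b) + r * P.h b + q] x)) = r / 2 := by
  have hH : P.h (b + 1) = P.s b * (P.m b * P.h b) := rfl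
  have hρ : (c (b + 1) x).2 / (P.m b * P.h b) < P.s b := by
    rw [hH, Nat.mul_comm] at h1
    exact Nat.div_lt_of_lt_mul h1
  have hi := BandA_ilt J Kp _ r hu hr
  have hp := BandA_pos (P.h b) J Kp (c (b + 1) x).2 u r hh hJ
  rw [← hm] at hi hp
  refine ⟨h3 _ _ _ hρ hi hp, fun q hq => ?_⟩
  have hp' : (c (b + 1) x).2 +
      (oF (P.h b) J (c (b + 1) x) + u * (2 * J * P.h b) + r * P.h b + q) =
      (c (b + 1) x).2 / (P.m b * P.h b) * (P.m b * P.h b) +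
        (((c (b + 1) x).2 / (2 * J * P.h b) % Kp + 1 + u) * (2 * J) + r) * P.h b + q := by
    rw [← hp]
    simp only [oF, Nat.add_assoc]
  rw [h2 _ (by rw [hp', hH]; exact BandA_lt _ _ _ _ _ _ hρ hi hq)]
  simp only [clsF]
  rw [hp', hm, BandA_cls _ _ _ _ _ _ _ hr hq]

lemma BandA_card (s Kp Pl W : ℕ) (hP : 0 < Pl) (hK : 0 < Kp) (hW : W ≤ Kp) :
    ((range (s * (Kp * Pl))).filter fun p => Kp < p / Pl % Kp + 1 + W).card ≤ s * (W * Pl) := by
  have hsub : ((range (s * (Kp * Pl))).filter fun p => Kp < p / Pl % Kp + 1 + W) ⊆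
      (range s ×ˢ (Ico (Kp - W) Kp ×ˢ range Pl)).image
        fun t : ℕ × ℕ × ℕ => t.1 * (Kp * Pl) + t.2.1 * Pl + t.2.2 := by
    intro p hp
    rw [mem_filter, mem_range] at hp
    refine mem_image.2 ⟨(p / (Kp * Pl), p / Pl % Kp, p % Pl), ?_, (BandA_dec p Pl Kp).symm⟩
    simp only [mem_product, mem_range, mem_Ico]
    refine ⟨?_, ⟨by omega, Nat.mod_lt _ hK⟩, Nat.mod_lt _ hP⟩
    exact Nat.div_lt_of_lt_mul (by rw [Nat.mul_comm]; exact hp.1)
  refine (card_le_card hsub).trans (card_image_le.trans ?_)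
  rw [card_product, card_product, card_range, card_range, Nat.card_Ico]
  have : Kp - (Kp - W) = W := by omega
  rw [this]

lemma BandA_meas {X : Type} [MeasurableSpace X] (μ : Measure X) (f : X → ℕ × ℕ) (s H : ℕ)
    (hs : 0 < s) (hH : 0 < H) (D : Finset ℕ) (hD : D ⊆ range H) (E : Set X)
    (hu : ∀ I p, I < s → p < H → μ (f ⁻¹' {(I, p)}) = (((s * H : ℕ) : ℝ≥0∞))⁻¹)
    (hE : ∀ᵐ x ∂μ, x ∈ E → (f x).1 < s ∧ (f x).2 ∈ D) :
    μ.real E ≤ (D.card : ℝ) / H := by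
  have h1 : μ E ≤ μ (⋃ t ∈ range s ×ˢ D, f ⁻¹' {t}) := by
    refine measure_mono_ae ?_
    filter_upwards [hE] with x hx hxE
    have := hx hxE
    exact Set.mem_biUnion (x := f x) (mem_coe.2 (mem_product.2 ⟨mem_range.2 this.1, this.2⟩)) rfl
  have h2 : μ (⋃ t ∈ range s ×ˢ D, f ⁻¹' {t}) ≤ ∑ t ∈ range s ×ˢ D, μ (f ⁻¹' {t}) :=
    measure_biUnion_finset_le _ _
  have h3 : ∑ t ∈ range s ×ˢ D, μ (f ⁻¹' {t}) =
      ((s * D.card : ℕ) : ℝ≥0∞) * (((s * H : ℕ) : ℝ≥0∞))⁻¹ := by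
    rw [sum_congr rfl (g := fun _ => (((s * H : ℕ) : ℝ≥0∞))⁻¹) fun t ht =>
      hu t.1 t.2 (mem_range.1 (mem_product.1 ht).1) (mem_range.1 (hD (mem_product.1 ht).2)),
      sum_const, card_product, card_range, nsmul_eq_mul]
  have h4 : ((s * H : ℕ) : ℝ≥0∞) ≠ 0 := by
    exact_mod_cast (Nat.mul_pos hs hH).ne'
  have h5 := ENNReal.toReal_mono
    (ENNReal.mul_ne_top (ENNReal.natCast_ne_top _) (ENNReal.inv_ne_top.2 h4))
    (h1.trans (h2.trans h3.le))
  rw [ENNReal.toReal_mul, ENNReal.toReal_inv, ENNReal.toReal_natCast, ENNReal.toReal_natCast]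
    at h5
  refine h5.trans (le_of_eq ?_)
  have hs' : (s : ℝ) ≠ 0 := by exact_mod_cast hs.ne'
  have hH' : (H : ℝ) ≠ 0 := by exact_mod_cast hH.ne'
  push_cast
  field_simp

lemma BandA_ratio (s Kp Pl W t N : ℕ) (hs : 0 < s) (hP : 0 < Pl) (hK : 0 < Kp) (ht : 0 < t)
    (hW : t * W ≤ Kp) (hN : N ≤ s * (W * Pl)) :
    (N : ℝ) / (s * (Kp * Pl) : ℕ) ≤ 1 / t := by
  have h0 : (0 : ℝ) < (s * (Kp * Pl) : ℕ) := by
    exact_mod_cast Nat.mul_pos hs (Nat.mul_pos hK hP)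
  have ht' : (0 : ℝ) < t := by exact_mod_cast ht
  rw [div_le_div_iff₀ h0 ht', one_mul]
  have h1 : N * t ≤ s * (Kp * Pl) := by
    calc N * t ≤ s * (W * Pl) * t := Nat.mul_le_mul_right _ hN
      _ = s * (t * W * Pl) := by ring
      _ ≤ s * (Kp * Pl) := Nat.mul_le_mul_left _ (Nat.mul_le_mul_right _ hW)
  exact_mod_cast h1

theorem BandA_thm (h1 : StDes) (h2 : StTow) : StBandA := by
  intro X α _ μ _ T c P Θ J Kp e hD hT b
  have hN := h1.num P Θ J Kp hD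
  have hs : ∀ k, 1 ≤ P.s k := fun k => le_trans one_le_two (hN.s2 k)
  have hh : ∀ k, 0 < P.h k := P.h_pos hs hN.m1
  have hJ2 := hN.j2 b
  have hJ : 0 < J b := by omega
  have hm := hD.hm b
  have hae := h2 μ T c P e hT hs hN.m1
  have hk1 := hN.k1 b
  have hW1 : 0 < J b ^ (2 * J b + 3) := Nat.pow_pos hJ
  have ht : 0 < 2 ^ b := Nat.pow_pos two_pos
  have hWK : J b ^ (2 * J b + 3) ≤ Kp b := le_trans (Nat.le_mul_of_pos_left _ ht) hk1
  have hev : OrigF μ T c P J Kp e b := by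
    filter_upwards [hae] with x hx hR u j hu hj
    have hp := BandA_pow (J b) u j hJ2 hu hj
    have hR' : (c (b + 1) x).2 / (2 * J b * P.h b) % Kp b + 1 + J b ^ (2 * J b + 3) ≤ Kp b := hR
    have := (BandA_slot T c P (J b) (Kp b) b e x (hh b) hJ hm (hx (b + 1)).1.2 (hx (b + 1)).2.1
      (hx b).2.2 u (2 * j) (by omega) (by omega)).1
    rw [hD.hσ, h1.var_ev _ _ _ _ hj] at this
    exact this
  refine ⟨hev, ?_, ?_⟩
  · have hH : P.h (b + 1) = P.s b * (Kp b * (2 * J b * P.h b)) := by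
      have : P.h (b + 1) = P.s b * (P.m b * P.h b) := rfl
      rw [this, hm]
      ring
    have hP : 0 < 2 * J b * P.h b := Nat.mul_pos (by omega) (hh b)
    have hc := BandA_card (P.s b) (Kp b) (2 * J b * P.h b) (J b ^ (2 * J b + 3)) hP
      (by omega) hWK
    have hr := BandA_ratio (P.s b) (Kp b) (2 * J b * P.h b) (J b ^ (2 * J b + 3)) (2 ^ b) _
      (hs b) hP (by omega) ht hk1 hc
    rw [← hH] at hr
    have hm' := BandA_meas μ (c (b + 1)) (P.s (b + 1)) (P.h (b + 1)) (hs _) (hh _)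
      ((range (P.h (b + 1))).filter fun p =>
        Kp b < p / (2 * J b * P.h b) % Kp b + 1 + J b ^ (2 * J b + 3)) (filter_subset _ _)
      (c (b + 1) ⁻¹' RGF (P.h b) (J b) (Kp b))ᶜ (hT.unif (b + 1)) (by
        filter_upwards [hT.mem (b + 1)] with x hx hxE
        exact ⟨hx.1, mem_filter.2 ⟨mem_range.2 hx.2, not_le.1 hxE⟩⟩)
    refine hm'.trans (hr.trans (le_of_eq ?_))
    rw [Nat.cast_pow, Nat.cast_ofNat]
  · filter_upwards [hae] with x hx hR u j hu hj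
    have hp := BandA_pow (J b) u j hJ2 hu hj
    have hR' : (c (b + 1) x).2 / (2 * J b * P.h b) % Kp b + 1 + J b ^ (2 * J b + 3) ≤ Kp b := hR
    have s1 := BandA_slot T c P (J b) (Kp b) b e x (hh b) hJ hm (hx (b + 1)).1.2 (hx (b + 1)).2.1
      (hx b).2.2 u (2 * j) (by omega) (by omega)
    have s2 := BandA_slot T c P (J b) (Kp b) b e x (hh b) hJ hm (hx (b + 1)).1.2 (hx (b + 1)).2.1
      (hx b).2.2 (u + J b ^ (2 * j + 3)) (2 * j + 1) (by omega) (by omega)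
    refine ⟨?_, fun p hp' => ⟨?_, ?_⟩⟩
    · rw [s1.1, s2.1, hD.hσ, hD.hσ, h1.var_ev _ _ _ _ hj,
        ← Nat.add_assoc _ u (J b ^ (2 * j + 3)), h1.var_od _ _ _ _ hj (by omega)]
    · rw [s1.2 p hp']
      omega
    · rw [s2.2 p hp']
      omega

end Pool.Agent.Lib.MP_1df8f0_an.K
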