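import Pool.Agent.Lib.MP_1df8f0_an.K.Sy

/-!
Final assembly, part 1: selection of a sub-run, monotonicity, the measure of good points.
-/

open MeasureTheory Finset Filter Topology
open scoped ENNReal

noncomputable section

namespace Pool.Agent.Lib.MP_1df8f0_an.K

lemma Fin_pick (U : ℕ) (hU : 1 ≤ U) (a b : ℕ → ℝ) (A B : ℝ) (hA : 0 < A) (hB : 0 < B)
    (ha : ∀ u, 0 ≤ a u) (hb : ∀ u, 0 ≤ b u) (sa : ∑ u ∈ range U, a u ≤ A)
    (sb : ∑ u ∈ range U, b u ≤ B) : ∃ u < U, a u ≤ 2 * A / U ∧ b u ≤ 2 * B / U := by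
  by_contra hcon
  push Not at hcon
  have hUr : (0 : ℝ) < U := by exact_mod_cast hU
  have h1 : ∀ u ∈ range U, (2 : ℝ) / U < a u / A + b u / B := by
    intro u hu
    have h2 : 0 ≤ a u / A := div_nonneg (ha u) hA.le
    have h3 : 0 ≤ b u / B := div_nonneg (hb u) hB.le
    by_cases h : a u ≤ 2 * A / U
    · have h4 := hcon u (mem_range.1 hu) h
      have : (2 : ℝ) / U < b u / B := by
        rw [lt_div_iff₀ hB]
        calc (2 : ℝ) / U * B = 2 * B / U := by ring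
          _ < _ := h4
      linarith
    · have : (2 : ℝ) / U < a u / A := by
        rw [lt_div_iff₀ hA]
        calc (2 : ℝ) / U * A = 2 * A / U := by ring
          _ < _ := not_le.1 h
      linarith
  have h2 := sum_lt_sum_of_nonempty (nonempty_range_iff.2 (by omega)) h1
  rw [sum_const, card_range, nsmul_eq_mul, sum_add_distrib, ← sum_div, ← sum_div] at h2
  have h3 : (∑ u ∈ range U, a u) / A ≤ 1 := (div_le_one hA).2 sa
  have h4 : (∑ u ∈ range U, b u) / B ≤ 1 := (div_le_one hB).2 sb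
  have h5 : (U : ℝ) * (2 / U) = 2 := by field_simp
  linarith

lemma Fin_blocks (er : ℕ → ℝ) (α g U : ℕ) :
    ∑ u ∈ range U, ∑ j ∈ Ico (α + u * g) (α + (u + 1) * g), er j =
      ∑ j ∈ Ico α (α + U * g), er j := by
  induction U with
  | zero => simp
  | succ U ih =>
    rw [sum_range_succ, ih, sum_Ico_consecutive _ (by omega) (by nlinarith)]

lemma Fin_grid_add (h J i j : ℕ) : grid h J (i + j) = J ^ (2 * j) * grid h J i := by
  unfold grid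
  ring

lemma Fin_grid_pos {h J : ℕ} (hh : 1 ≤ h) (hJ : 1 ≤ J) (i : ℕ) : 1 ≤ grid h J i := by
  unfold grid
  exact Nat.mul_pos (Nat.mul_pos (by omega) hh) (Nat.pow_pos hJ)

lemma Fin_grid_ge {h J : ℕ} (hh : 1 ≤ h) (hJ : 1 ≤ J) (i : ℕ) :
    h ≤ grid h J i ∧ J ^ 2 ≤ grid h J i := by
  unfold grid
  have h1 : J ^ 2 ≤ J ^ (2 * i + 2) := Nat.pow_le_pow_right hJ (by omega)
  have h2 : 1 ≤ J ^ (2 * i + 2) := Nat.pow_pos hJ
  have h3 : 1 ≤ 2 * J * h := Nat.mul_pos (by omega) hh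
  have h4 : h ≤ 2 * J * h := Nat.le_mul_of_pos_left _ (by omega)
  exact ⟨h4.trans (Nat.le_mul_of_pos_right _ h2), h1.trans (Nat.le_mul_of_pos_left _ h3)⟩

lemma Fin_av {Y : Type} [MeasurableSpace Y] (hSub : StSub) (ν : Measure Y)
    [IsProbabilityMeasure ν] {S : Y → Y} (hS : MeasurePreserving S ν ν) {C : ℝ} {f : ℕ → Y → ℝ}
    (hf : SubAdd S C f) {h J : ℕ} (hh : 1 ≤ h) (hJ : 1 ≤ J) :
    (∀ i, |av ν f (grid h J i)| ≤ C) ∧ Antitone fun i => av ν f (grid h J i) := by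
  refine ⟨fun i => (hSub.gen ν S C f hS hf _ 1 (Fin_grid_pos hh hJ i) le_rfl).1, fun i j hij => ?_⟩
  obtain ⟨m, rfl⟩ := Nat.exists_eq_add_of_le hij
  simp only [Fin_grid_add]
  exact (hSub.gen ν S C f hS hf _ _ (Fin_grid_pos hh hJ i) (Nat.pow_pos hJ)).2.1

lemma Fin_shad {Y : Type} [PseudoMetricSpace Y] {S : Y → Y} {r r' : ℝ} {m₁ m₂ m₃ m₁' m₂' m₃' : ℕ}
    {𝓔 : Set (Y × Y)} {a : Y} (hr : r' ≤ r) (h1 : m₁ ≤ m₁') (h2 : m₂' ≤ m₂) (h3 : m₃ ≤ m₃')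
    (h : Shad S r m₁ m₂ m₃ 𝓔 a) : Shad S r' m₁' m₂' m₃' 𝓔 a := fun w w₂ hw hw₂ =>
  h w w₂ (fun t ht => (hw t (by omega)).trans hr)
    fun t ht ht' => (hw₂ t (by omega) (by omega)).trans hr

lemma Fin_num (n N τ : ℕ) (K r η X : ℝ) (hK : 1 ≤ K) (hr : 0 < r) (hη : 0 < η) (hX : 0 ≤ X)
    (h1 : Real.log (4096 * (n + 1) ^ 2 / r) ≤ X) (h2 : 3 * (N : ℝ) ≤ X)
    (h3 : 18 * τ * Real.log K ≤ X) (h4 : Real.log (2 / η) ≤ X) :
    ((n : ℝ) + 1) ^ n * ((4096 * (n + 1) * 8 ^ N * K ^ (18 * τ) * Real.exp (2 * X) ^ 2 / r) ^ n *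
      Real.exp (-(8 * (n + 1) * X))) ≤ η / 2 := by
  have a1 : 4096 * ((n : ℝ) + 1) ^ 2 / r ≤ Real.exp X :=
    (Real.log_le_iff_le_exp (by positivity)).1 h1
  have a2 : (8 : ℝ) ^ N ≤ Real.exp X := by
    have : (8 : ℝ) ≤ Real.exp 3 := by
      have h := Real.add_one_le_exp (1 : ℝ)
      have h' : Real.exp 3 = Real.exp 1 ^ 3 := by rw [← Real.exp_nat_mul]; norm_num
      rw [h']
      calc (8 : ℝ) = 2 ^ 3 := by norm_num
        _ ≤ _ := pow_le_pow_left₀ (by norm_num) (by linarith) 3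
    calc (8 : ℝ) ^ N ≤ Real.exp 3 ^ N := pow_le_pow_left₀ (by norm_num) this N
      _ = Real.exp (3 * N) := by rw [← Real.exp_nat_mul]; ring_nf
      _ ≤ _ := Real.exp_le_exp.2 h2
  have a3 : K ^ (18 * τ) ≤ Real.exp X := by
    rw [← Real.log_le_iff_le_exp (by positivity), Real.log_pow]
    push_cast
    exact h3
  have a4 : 2 / η ≤ Real.exp X := (Real.log_le_iff_le_exp (by positivity)).1 h4
  have a5 : ((n : ℝ) + 1) * (4096 * (n + 1) * 8 ^ N * K ^ (18 * τ) * Real.exp (2 * X) ^ 2 / r) ≤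
      Real.exp (7 * X) := by
    calc _ = 4096 * ((n : ℝ) + 1) ^ 2 / r * 8 ^ N * K ^ (18 * τ) * Real.exp (2 * X) ^ 2 := by ring
      _ ≤ Real.exp X * Real.exp X * Real.exp X * Real.exp (2 * X) ^ 2 := by gcongr
      _ = _ := by
        rw [sq, ← Real.exp_add, ← Real.exp_add, ← Real.exp_add, ← Real.exp_add]
        ring_nf
  rw [← mul_assoc, ← mul_pow]
  calc _ ≤ Real.exp (7 * X) ^ n * Real.exp (-(8 * (n + 1) * X)) := by gcongr
    _ = Real.exp (n * (7 * X) + -(8 * (n + 1) * X)) := by rw [← Real.exp_nat_mul, ← Real.exp_add]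
    _ ≤ Real.exp (-X) := by
      refine Real.exp_le_exp.2 ?_
      have : 0 ≤ (n : ℝ) * X := by positivity
      nlinarith
    _ ≤ η / 2 := by
      rw [Real.exp_neg, ← inv_div]
      exact inv_anti₀ (by positivity) a4

lemma Fin_good (hGL : StGL) {n k d : ℕ} {S S' : Torus n → Torus n} {F G : E n → E n} {K : ℝ}
    (hS : Sys S S' F G K) (hkd : k + d = n) (M₀ : Set (Torus n)) (τ N₁ N₂ : ℕ) (ϑ Λ r : ℝ)
    (𝓔 : Set (Torus n × Torus n)) (hτ : 1 ≤ τ) (hN : 1 ≤ N₂) (h0 : 0 < ϑ) (h1 : ϑ ≤ 1)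
    (hΛ : 1 ≤ Λ) (hr : 0 < r) (hr' : r ≤ 1 / 4) (h𝓔 : MeasurableSet 𝓔) :
    (volume : Measure (Torus n)).real {a | a ∈ M₀ ∧ ∃ (I' : Fin k → Fin n) (I : Fin d → Fin n),
      Function.Injective I' ∧ Function.Injective I ∧
        Good S (Afw F) (Bkw S G) τ N₁ N₂ ϑ Λ I' I a} ≤
      (volume : Measure (Torus n)).real
        (M₀ \ {a | Shad S r (N₁ * τ + 1) (N₁ * τ) ((N₁ + N₂) * τ + 1) 𝓔 a}) +
      ((n : ℝ) + 1) ^ n * ((4096 * (n + 1) * 8 ^ (N₁ + N₂) * K ^ (18 * τ) * Λ ^ 2 / r) ^ n *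
        ((volume : Measure (Torus n)).prod volume).real 𝓔) := by
  classical
  have := torus_prob n
  have hK : 0 ≤ K := by linarith [hS.two]
  let s : Finset ((Fin k → Fin n) × (Fin d → Fin n)) :=
    univ.filter fun p => Function.Injective p.1 ∧ Function.Injective p.2
  let W : (Fin k → Fin n) × (Fin d → Fin n) → Set (Torus n) := fun p =>
    {a | Good S (Afw F) (Bkw S G) τ N₁ N₂ ϑ Λ p.1 p.2 a ∧
      Shad S r (N₁ * τ + 1) (N₁ * τ) ((N₁ + N₂) * τ + 1) 𝓔 a}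
  have hsub : {a | a ∈ M₀ ∧ ∃ (I' : Fin k → Fin n) (I : Fin d → Fin n),
      Function.Injective I' ∧ Function.Injective I ∧
        Good S (Afw F) (Bkw S G) τ N₁ N₂ ϑ Λ I' I a} ⊆
      (M₀ \ {a | Shad S r (N₁ * τ + 1) (N₁ * τ) ((N₁ + N₂) * τ + 1) 𝓔 a}) ∪ ⋃ p ∈ s, W p := by
    rintro a ⟨ha, I', I, h2, h3, h4⟩
    by_cases h5 : Shad S r (N₁ * τ + 1) (N₁ * τ) ((N₁ + N₂) * τ + 1) 𝓔 a
    · exact Or.inr (Set.mem_biUnion (x := (I', I)) (mem_coe.2 (mem_filter.2 ⟨mem_univ _, h2, h3⟩))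
        ⟨h4, h5⟩)
    · exact Or.inl ⟨ha, h5⟩
  refine (measureReal_mono hsub).trans ((measureReal_union_le _ _).trans (add_le_add le_rfl ?_))
  refine (measureReal_biUnion_finset_le _ _).trans ?_
  refine (sum_le_card_nsmul s _ _ fun p hp => hGL S S' F G K hS hkd τ N₁ N₂ ϑ Λ r p.1 p.2 𝓔 hτ hN
    h0 h1 hΛ hr hr' (mem_filter.1 hp).2.1 (mem_filter.1 hp).2.2 h𝓔).trans ?_
  rw [nsmul_eq_mul]
  refine mul_le_mul_of_nonneg_right ?_ (by positivity)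
  have h6 : s.card ≤ n ^ n := by
    refine (card_le_univ s).trans (le_of_eq ?_)
    simp [← pow_add, hkd]
  calc (s.card : ℝ) ≤ (n : ℝ) ^ n := by exact_mod_cast h6
    _ ≤ _ := pow_le_pow_left₀ (by positivity) (by linarith) n

end Pool.Agent.Lib.MP_1df8f0_an.K
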