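import Pool.Agent.Lib.MP_1df8f0_an.K.Fin1

/-!
Final assembly, part 2: the induction on the number of contracted directions at a fixed level.
-/

open MeasureTheory Finset Filter Topology
open scoped ENNReal

noncomputable section

namespace Pool.Agent.Lib.MP_1df8f0_an.K

/-- The invariant of the induction. -/
def FinI {n : ℕ} (S : Torus n → Torus n) (G : E n → E n) (M₀ : Set (Torus n)) (η : ℝ) (h J : ℕ)
    (er : ℕ → ℝ) (d α g : ℕ) (R : ℝ) : Prop :=
  α + g ≤ J ∧ ∑ j ∈ Ico α (α + g), er j ≤ 4 ^ d * g ∧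
    (volume : Measure (Torus n)).real (M₀ \ {y | Fast d (R * grid h J (α + g))
      (Bkw S G (grid h J (α + g)) y)}) ≤ 6 * d * η ∧
    (d ≤ n → av volume (fun t y => fU d (R * t) (Bkw S G t y)) (grid h J α) -
      av volume (fun t y => fU d (R * t) (Bkw S G t y)) (grid h J (α + g)) ≤ η ^ 2 * R / 8)

lemma Fin_step (hSub : StSub) (hGL : StGL) (hStep : StStep) {n : ℕ} {S S' : Torus n → Torus n}
    {F G : E n → E n} {K : ℝ} (hS : Sys S S' F G K) (hc : Coc volume S K (Afw F) (Bkw S G))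
    {M₀ : Set (Torus n)} (hM : MeasurableSet M₀) (hMi : S ⁻¹' M₀ = M₀) {η r c L : ℝ} (hη : 0 < η)
    (hη1 : η ≤ 1) (hr : 0 < r) (hr' : r ≤ 1 / 4) {h J J₀ : ℕ} (hJ : J = 2 * J₀) (hJ0 : 1 ≤ J₀)
    (hh : J ^ (2 * J) ≤ h) {er : ℕ → ℝ} (her : ∀ j, 0 ≤ er j)
    (hO : ∀ (e' e : ℕ) (𝒥 : Finset ℕ), e ≤ J → 𝒥.Nonempty → (∀ j ∈ 𝒥, e' ≤ j ∧ j < e) →
      ∑ j ∈ 𝒥, er j ≤ 2 * 4 ^ n * 𝒥.card → ∃ 𝓔 : Set (Torus n × Torus n), MeasurableSet 𝓔 ∧
        ((volume : Measure (Torus n)).prod volume).real 𝓔 ≤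
          Real.exp (-(c * grid h J e' * 𝒥.card)) ∧
        (volume : Measure (Torus n)).real
          (M₀ \ {y | Shad S r (grid h J e' / 2) (grid h J e') (grid h J e / 2) 𝓔 y}) ≤ η / 2)
    (hL1 : Real.log (4096 * (n + 1) ^ 2 / r) ≤ L) (hL2 : 8 ≤ L) (hL3 : 18 * Real.log K ≤ L)
    (hL4 : Real.log (2 / η) ≤ L) (hL5 : 4 * n * Real.log (n + 1) ≤ L)
    {d α g g' U : ℕ} {R R' : ℝ} (hd : d ≤ n) (hg : g = 2 * U * g') (hU : 1 ≤ U) (hg' : 1 ≤ g')
    (hR0 : 0 < R') (hR4 : R' ≤ 4) (hRc : 8 * (n + 1) * R' ≤ c * (U * g' : ℕ))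
    (hRR : 16 * R' ≤ η * R) (hRU : 64 * (2 * n * Real.log K + 4) ≤ η ^ 2 * R' * U)
    (hRL : L ≤ R' * (J : ℝ) ^ 2) (hI : FinI S G M₀ η h J er d α g R) :
    ∃ α', FinI S G M₀ η h J er (d + 1) α' g' R' := by
  have := torus_prob n
  obtain ⟨i1, i2, i3, i4⟩ := hI
  have hJ1 : 1 ≤ J := by omega
  have hh1 : 1 ≤ h := le_trans (Nat.pow_pos hJ1) hh
  have hK : 0 ≤ Real.log K := Real.log_nonneg hc.one
  have hRpos : 0 < R := by
    by_contra hcon
    have : η * R ≤ 0 := mul_nonpos_of_nonneg_of_nonpos hη.le (not_lt.1 hcon)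
    linarith
  have hRle : R' ≤ R := by linarith [mul_le_of_le_one_left hRpos.le hη1]
  obtain ⟨k, hk⟩ : ∃ k, k + d = n := ⟨n - d, by omega⟩
  set Cs : ℝ := 2 * n * Real.log K + 4 with hCs
  have hCs0 : 0 < Cs := by positivity
  obtain ⟨w1, w2⟩ := Fin_av hSub volume hc.mp (hSub.subW volume S K _ _ hc k R' (by omega) hR0.le)
    hh1 hJ1
  obtain ⟨-, u2⟩ := Fin_av hSub volume hc.mp (hSub.subU volume S K _ _ hc d R hd hRpos.le) hh1 hJ1
  set φ₁ : ℕ → ℝ := fun i => av volume (fun t y => fW k (R' * t) (Afw F t y)) (grid h J i) with hφ₁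
  obtain ⟨φ₂, v1, v2, v3⟩ : ∃ φ₂ : ℕ → ℝ, (∀ i, |φ₂ i| ≤ Cs) ∧ Antitone φ₂ ∧ (d + 1 ≤ n → ∀ i,
      φ₂ i = av volume (fun t y => fU (d + 1) (R' * t) (Bkw S G t y)) (grid h J i)) := by
    by_cases hdn : d + 1 ≤ n
    · obtain ⟨z1, z2⟩ := Fin_av hSub volume hc.mp
        (hSub.subU volume S K _ _ hc (d + 1) R' hdn hR0.le) hh1 hJ1
      exact ⟨_, fun i => (z1 i).trans (by linarith), z2, fun _ _ => rfl⟩
    · exact ⟨fun _ => 0, fun _ => by simpa using hCs0.le, antitone_const, fun h => absurd h hdn⟩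
  have w1' : ∀ i, |φ₁ i| ≤ Cs := fun i => (w1 i).trans (by linarith)
  have hgr : (0 : ℝ) < g' := by exact_mod_cast hg'
  have hUr : (0 : ℝ) < U := by exact_mod_cast hU
  have hgc : (g : ℝ) = 2 * U * g' := by rw [hg]; push_cast; ring
  have hmono : ∀ u : ℕ, α + u * g' ≤ α + (u + 1) * g' := fun u =>
    Nat.add_le_add_left (Nat.mul_le_mul_right _ (Nat.le_succ u)) _
  obtain ⟨u, hu, p1, p2⟩ := Fin_pick U hU
    (fun u => ∑ j ∈ Ico (α + u * g') (α + (u + 1) * g'), er j)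
    (fun u => (φ₁ (α + u * g') + φ₂ (α + u * g')) -
      (φ₁ (α + (u + 1) * g') + φ₂ (α + (u + 1) * g'))) (4 ^ d * g) (4 * Cs)
    (by rw [hgc]; positivity) (by positivity) (fun u => sum_nonneg fun j _ => her j)
    (fun u => by
      have a1 := w2 (hmono u)
      have a2 := v2 (hmono u)
      linarith)
    (by
      rw [Fin_blocks]
      refine le_trans (sum_le_sum_of_subset_of_nonneg (Ico_subset_Ico le_rfl ?_)
        fun j _ _ => her j) i2
      rw [hg, mul_assoc]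
      omega)
    (by
      rw [sum_range_sub' (fun u => φ₁ (α + u * g') + φ₂ (α + u * g'))]
      have a1 := abs_le.1 (w1' (α + 0 * g'))
      have a2 := abs_le.1 (v1 (α + 0 * g'))
      have a3 := abs_le.1 (w1' (α + U * g'))
      have a4 := abs_le.1 (v1 (α + U * g'))
      linarith)
  have hslack : 2 * (4 * Cs) / U ≤ η ^ 2 * R' / 8 := by
    rw [div_le_iff₀ hUr]
    linarith
  set α' := α + u * g' with hα'
  have he' : α + (u + 1) * g' = α' + g' := by rw [hα']; ring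
  rw [he'] at p1 p2
  have hle : α' + g' ≤ α + U * g' := by
    rw [← he']
    exact Nat.add_le_add_left (Nat.mul_le_mul_right _ hu) _
  have hgU : g = U * g' + U * g' := by rw [hg]; ring
  have hUg : 1 ≤ U * g' := Nat.mul_pos hU hg'
  have b1 : φ₁ α' - φ₁ (α' + g') ≤ η ^ 2 * R' / 8 := by
    have := v2 (Nat.le_add_right α' g')
    linarith
  have b2 : φ₂ α' - φ₂ (α' + g') ≤ η ^ 2 * R' / 8 := by
    have := w2 (Nat.le_add_right α' g')
    linarith
  refine ⟨α', by omega, ?_, ?_, fun hdn => ?_⟩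
  · refine p1.trans (le_of_eq ?_)
    rw [hgc]
    field_simp
    ring
  swap
  · rw [← v3 hdn, ← v3 hdn]
    exact b2
  obtain ⟨e0, he0⟩ : ∃ e0, α' + g' = e0 + 1 := ⟨α' + g' - 1, by omega⟩
  obtain ⟨m, hm⟩ : ∃ m, α + g = e0 + 1 + (m + 1) := ⟨α + g - (e0 + 2), by omega⟩
  set τ := grid h J e0 with hτ
  have hτ1 : 1 ≤ τ := Fin_grid_pos hh1 hJ1 _
  obtain ⟨hτh, hτJ⟩ := Fin_grid_ge hh1 hJ1 e0
  have hmed : grid h J (α' + g') = 2 * (2 * J₀ ^ 2) * τ := by
    rw [he0, Fin_grid_add, ← hτ, hJ]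
    ring
  have hN'J : 2 * (J₀ * J ^ (2 * m + 1)) = J ^ (2 * (m + 1)) := by
    rw [← mul_assoc, ← hJ]
    ring
  have hbig : grid h J (α + g) = 2 * (J₀ * J ^ (2 * m + 1)) * grid h J (α' + g') := by
    rw [hm, Fin_grid_add, ← he0, hN'J]
  set q := 2 * J₀ ^ 2 with hq
  set N' := J₀ * J ^ (2 * m + 1) with hN'
  have hq1 : 1 ≤ q := Nat.mul_pos (by norm_num) (Nat.pow_pos hJ0)
  have hN1 : 1 ≤ N' := Nat.mul_pos hJ0 (Nat.pow_pos hJ1)
  have hqJ : 2 * q = J ^ 2 := by rw [hq, hJ]; ring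
  set med := grid h J (α' + g') with hmeddef
  set big := grid h J (α + g) with hbigdef
  have hτr : (1 : ℝ) ≤ τ := by exact_mod_cast hτ1
  have hmedr : (med : ℝ) = (J : ℝ) ^ 2 * τ := by rw [hmed, hqJ]; push_cast; ring
  have hX : L * τ ≤ R' * med := by
    rw [hmedr, ← mul_assoc]
    exact mul_le_mul_of_nonneg_right hRL (by linarith)
  have hL0 : 0 ≤ L := by linarith
  have hXL : L ≤ R' * med := le_trans (le_mul_of_one_le_right hL0 hτr) hX
  have hmb : (med : ℝ) ≤ big := by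
    have : med ≤ big := by
      rw [hbig]
      exact Nat.le_mul_of_pos_left _ (by omega)
    exact_mod_cast this
  have hRτ : 8 ≤ R * τ := by
    have a1 : (J : ℝ) ^ 2 ≤ τ := by exact_mod_cast hτJ
    have a2 : R' * (J : ℝ) ^ 2 ≤ R * τ := mul_le_mul hRle a1 (by positivity) hRpos.le
    linarith
  obtain ⟨𝓔, m𝓔, s𝓔, t𝓔⟩ := hO (α' + g') (α + g) (Ico (α + U * g') (α + g)) i1
    (nonempty_Ico.2 (by omega)) (fun j hj => by have := mem_Ico.1 hj; omega) (by
      rw [Nat.card_Ico, show α + g - (α + U * g') = U * g' by omega]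
      refine le_trans (sum_le_sum_of_subset_of_nonneg (Ico_subset_Ico (by omega) le_rfl)
        fun j _ _ => her j) (i2.trans ?_)
      rw [hgc]
      push_cast
      have : (4 : ℝ) ^ d ≤ 4 ^ n := pow_le_pow_right₀ (by norm_num) hd
      have a2 : (0 : ℝ) ≤ U * g' := by positivity
      linarith [mul_le_mul_of_nonneg_right this a2])
  rw [Nat.card_Ico, show α + g - (α + U * g') = U * g' by omega, ← hmeddef] at s𝓔
  rw [← hmeddef, ← hbigdef] at t𝓔
  have s𝓔' : ((volume : Measure (Torus n)).prod volume).real 𝓔 ≤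
      Real.exp (-(8 * (n + 1) * (R' * med))) := by
    refine s𝓔.trans (Real.exp_le_exp.2 (neg_le_neg ?_))
    have := mul_le_mul_of_nonneg_right hRc (Nat.cast_nonneg (α := ℝ) med)
    linarith
  have key := hStep volume S K _ _ hc M₀ hM hMi k d τ q N' med big R R' η (6 * d * η) η hk hτ1 hq1
    hN1 hmed hbig hη hη1 hR0 hRR hRτ (by
      have a1 : 16 * R' * med ≤ η * R * big :=
        mul_le_mul hRR hmb (by positivity) (by positivity)
      have a2 : 0 ≤ (n : ℝ) * Real.log (n + 1) :=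
        mul_nonneg (by positivity) (Real.log_nonneg (by simp))
      linarith) (hL5.trans hXL) i3 (by
      have a1 := u2 (show α ≤ e0 by omega)
      simp only at a1
      have a2 := i4 hd
      linarith) (by
      have a1 : φ₁ e0 ≤ φ₁ α' := w2 (show α' ≤ e0 by omega)
      have a2 : η ^ 2 * R' / 8 ≤ η * R' / 4 := by
        have := mul_le_of_le_one_left (mul_pos hη hR0).le hη1
        have := mul_pos hη hR0
        linarith
      change φ₁ e0 - φ₁ (α' + g') ≤ _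
      linarith) (fun i l hi hi' hl => by
      have a1 : 2 * q ≤ (2 * N' - l) * (2 * q) := Nat.le_mul_of_pos_left _ (by omega)
      have a2 : i + ((2 * N' - l) * (2 * q) - i) = (2 * N' - l) * (2 * q) := by omega
      have a3 : (2 * N' - l) * (2 * q) ≤ τ := by
        calc (2 * N' - l) * (2 * q) ≤ 2 * N' * (2 * q) := Nat.mul_le_mul_right _ (by omega)
          _ = J ^ (2 * (m + 1) + 2) := by rw [hN'J, hqJ, ← pow_add]
          _ ≤ J ^ (2 * J) := Nat.pow_le_pow_right hJ1 (by omega)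
          _ ≤ τ := hh.trans hτh
      have a4 : 0 ≤ R' * med := by positivity
      refine (Fin_good hGL hS hk M₀ τ i _ _ _ r 𝓔 hτ1 (by omega) (Real.exp_pos _)
        (Real.exp_le_one_iff.2 (by linarith)) (Real.one_le_exp (by linarith)) hr hr' m𝓔).trans ?_
      have a5 : (volume : Measure (Torus n)).real (M₀ \ {a | Shad S r (i * τ + 1) (i * τ)
          ((i + ((2 * N' - l) * (2 * q) - i)) * τ + 1) 𝓔 a}) ≤ η / 2 := by
        refine le_trans (measureReal_mono (Set.sdiff_subset_sdiff_right fun a ha => ?_)) t𝓔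
        refine Fin_shad le_rfl ?_ ?_ ?_ ha
        · have : q * τ ≤ i * τ := Nat.mul_le_mul_right _ hi
          rw [hmed, mul_assoc 2 q τ]
          omega
        · rw [hmed]
          exact Nat.mul_le_mul_right _ hi'.le
        · have : N' * med ≤ (2 * N' - l) * med := Nat.mul_le_mul_right _ (by omega)
          rw [a2, mul_assoc (2 * N' - l), ← hmed, hbig, mul_assoc 2 N' med]
          omega
      have a6 := Fin_num n ((2 * N' - l) * (2 * q)) τ K r η (R' * med) hc.one hr hη a4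
        (hL1.trans hXL) (by
          have : (((2 * N' - l) * (2 * q) : ℕ) : ℝ) ≤ τ := by exact_mod_cast a3
          linarith [mul_le_mul_of_nonneg_right hL2 (Nat.cast_nonneg (α := ℝ) τ)])
        (by linarith [mul_le_mul_of_nonneg_right hL3 (Nat.cast_nonneg (α := ℝ) τ)]) (hL4.trans hXL)
      have hK0 : 0 ≤ K := by linarith [hc.one]
      rw [a2, mul_assoc 2 R' med]
      rw [a2] at a5
      refine le_trans (add_le_add a5 (le_trans ?_ a6)) (by linarith)
      gcongr)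
  push_cast
  linarith

end Pool.Agent.Lib.MP_1df8f0_an.K
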