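import Pool.Agent.Lib.MP_1df8f0_an.K.Fin2

/-!
Final assembly, part 3: the choice of the numbers and the conclusion from the steps.
-/

open MeasureTheory Finset Filter Topology
open scoped ENNReal unitInterval

noncomputable section

namespace Pool.Agent.Lib.MP_1df8f0_an.K

lemma Fin_seq (n b Θ C J : ℕ) (η Cs L : ℝ) (hΘ : 1 ≤ Θ) (hC : 1 ≤ C) (hη : 0 < η) (hb : n < b)
    (hJ : J = (2 ^ (b + 1) * Θ) ^ 2 ^ b) (h1 : 16 ≤ η * 2 ^ (b + 1))
    (h2 : 32 * Cs * ((n + 1) * C) ≤ η ^ 2 * 2 ^ (b + 1)) (h3 : L * ((n + 1) * C) ≤ 4 * 2 ^ (b + 1)) :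
    ∃ (g U : ℕ → ℕ) (R : ℕ → ℝ), g 0 = J ∧ 0 ≤ R 0 ∧ ∀ d ≤ n, g d = 2 * U d * g (d + 1) ∧
      1 ≤ U d ∧ 1 ≤ g (d + 1) ∧ 0 < R (d + 1) ∧ R (d + 1) ≤ 4 ∧
      8 * (n + 1) * R (d + 1) ≤ 64 / Θ / (C * J) * (U d * g (d + 1) : ℕ) ∧
      16 * R (d + 1) ≤ η * R d ∧ 64 * Cs ≤ η ^ 2 * R (d + 1) * U d ∧ L ≤ R (d + 1) * (J : ℝ) ^ 2 := by
  obtain ⟨ω, hω⟩ : ∃ ω, ω = 2 ^ (b + 1) * Θ := ⟨_, rfl⟩
  rw [← hω] at hJ
  have hω1 : 1 ≤ ω := hω ▸ Nat.mul_pos (Nat.pow_pos (by norm_num)) hΘ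
  have hp : ∀ d : ℕ, 1 ≤ 2 ^ d := fun d => Nat.pow_pos (by norm_num)
  have hU : ∀ d : ℕ, 2 * (2 ^ b * Θ * ω ^ (2 ^ d - 1)) = ω ^ 2 ^ d := fun d => by
    have : ω ^ 2 ^ d = ω * ω ^ (2 ^ d - 1) := by
      rw [← pow_succ', Nat.sub_add_cancel (hp d)]
    rw [this]
    nth_rewrite 2 [hω]
    ring
  have hg : ∀ d ≤ n, ω ^ (2 ^ b + 1 - 2 ^ d) = ω ^ 2 ^ d * ω ^ (2 ^ b + 1 - 2 ^ (d + 1)) ∧
      ω ^ (2 ^ b + 1 - 2 ^ d) * ω ^ 2 ^ d = J * ω ∧ ω ^ (2 ^ b + 1 - 2 ^ d) ≤ J := by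
    intro d hd
    have a1 : 2 ^ (d + 1) ≤ 2 ^ b := Nat.pow_le_pow_right (by norm_num) (by omega)
    have a2 : 2 ^ (d + 1) = 2 * 2 ^ d := by ring
    have a3 := hp d
    refine ⟨?_, ?_, ?_⟩
    · rw [← pow_add]
      congr 1
      omega
    · rw [hJ, ← pow_add, ← pow_succ]
      congr 1
      omega
    · rw [hJ]
      exact Nat.pow_le_pow_right hω1 (by omega)
  have hJω : ω ≤ J := by
    rw [hJ]
    exact Nat.le_self_pow (by have := hp b; omega) _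
  have hΘr : (1 : ℝ) ≤ Θ := by exact_mod_cast hΘ
  have hCr : (1 : ℝ) ≤ C := by exact_mod_cast hC
  have hJr : (1 : ℝ) ≤ J := by exact_mod_cast hω1.trans hJω
  have hωr : (ω : ℝ) = 2 ^ (b + 1) * Θ := by rw [hω]; push_cast; ring
  have hD : (1 : ℝ) ≤ (n + 1) * C := one_le_mul_of_one_le_of_one_le (by simp) hCr
  have hΩ : (0 : ℝ) < 2 ^ (b + 1) := by positivity
  have hω16 : 16 ≤ η * ω := by
    rw [hωr, ← mul_assoc]
    exact h1.trans (le_mul_of_one_le_right (by positivity) hΘr)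
  obtain ⟨c, hc⟩ : ∃ c : ℝ, c = 4 / ((n + 1) * C * Θ * J) := ⟨_, rfl⟩
  have hc0 : 0 < c := by rw [hc]; positivity
  obtain ⟨R, hR0, hRS⟩ : ∃ R : ℕ → ℝ, R 0 = c * (ω * J) ∧
      ∀ d, R (d + 1) = c * (ω ^ (2 ^ b + 1 - 2 ^ d) : ℕ) :=
    ⟨fun d => Nat.casesOn d (c * (ω * J)) fun d => c * (ω ^ (2 ^ b + 1 - 2 ^ d) : ℕ), rfl,
      fun _ => rfl⟩
  refine ⟨fun d => ω ^ (2 ^ b + 1 - 2 ^ d), fun d => 2 ^ b * Θ * ω ^ (2 ^ d - 1), R,
    by simp [hJ], by rw [hR0]; positivity, fun d hd => ?_⟩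
  obtain ⟨g1, g2, g3⟩ := hg d hd
  have hUd := hU d
  have hU1 : 1 ≤ 2 ^ b * Θ * ω ^ (2 ^ d - 1) :=
    Nat.mul_pos (Nat.mul_pos (hp b) hΘ) (Nat.pow_pos hω1)
  have hg1 : 1 ≤ ω ^ (2 ^ b + 1 - 2 ^ d) := Nat.pow_pos hω1
  have hprev : c * (ω * (ω ^ (2 ^ b + 1 - 2 ^ d) : ℕ)) ≤ R d := by
    cases d with
    | zero =>
      have : ((ω ^ (2 ^ b + 1 - 2 ^ 0) : ℕ) : ℝ) ≤ J := by exact_mod_cast g3
      rw [hR0]
      gcongr
    | succ d =>
      rw [hRS]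
      refine mul_le_mul_of_nonneg_left ?_ hc0.le
      rw [(hg d (by omega)).1]
      exact_mod_cast Nat.mul_le_mul_right _ (Nat.le_self_pow (by have := hp d; omega) ω)
  simp only [hRS]
  rw [← hUd] at g1 g2
  generalize 2 ^ b * Θ * ω ^ (2 ^ d - 1) = U at g1 g2 hU1 ⊢
  have hg2 : 1 ≤ ω ^ (2 ^ b + 1 - 2 ^ (d + 1)) := Nat.pow_pos hω1
  generalize ω ^ (2 ^ b + 1 - 2 ^ (d + 1)) = g' at g1 hg2 ⊢
  generalize ω ^ (2 ^ b + 1 - 2 ^ d) = g at g1 g2 g3 hg1 hprev ⊢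
  have hgr : (1 : ℝ) ≤ g := by exact_mod_cast hg1
  have g1r : (g : ℝ) = 2 * U * g' := by exact_mod_cast g1
  have g2r : (g : ℝ) * (2 * U) = J * ω := by exact_mod_cast g2
  have g3r : (g : ℝ) ≤ J := by exact_mod_cast g3
  have hJωr : (ω : ℝ) ≤ J := by exact_mod_cast hJω
  refine ⟨g1, hU1, hg2, by positivity, ?_, le_of_eq ?_, ?_, ?_, ?_⟩
  · rw [hc, div_mul_eq_mul_div, div_le_iff₀ (by positivity)]
    have : (1 : ℝ) * J ≤ (n + 1) * C * Θ * J :=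
      mul_le_mul_of_nonneg_right (one_le_mul_of_one_le_of_one_le hD hΘr) (by positivity)
    linarith
  · rw [hc, g1r]
    push_cast
    field_simp
    norm_num
  · calc 16 * (c * g) ≤ η * ω * (c * g) := mul_le_mul_of_nonneg_right hω16 (by positivity)
      _ = η * (c * (ω * g)) := by ring
      _ ≤ _ := mul_le_mul_of_nonneg_left hprev hη.le
  · have : η ^ 2 * (c * g) * U = η ^ 2 * 2 ^ (b + 1) * 2 / ((n + 1) * C) := by
      have a1 : η ^ 2 * (c * g) * U = η ^ 2 * c * (g * (2 * U)) / 2 := by ring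
      rw [a1, g2r, hc, hωr]
      field_simp
      norm_num
    rw [this, le_div_iff₀ (by positivity)]
    linarith
  · have a1 : c * (ω * J) = 4 * 2 ^ (b + 1) / ((n + 1) * C) := by
      rw [hc, hωr]
      field_simp
    calc L ≤ c * (ω * J) := by rw [a1, le_div_iff₀ (by positivity)]; exact h3
      _ ≤ c * (g * (J * J)) := by
        refine mul_le_mul_of_nonneg_left ?_ hc0.le
        calc (ω : ℝ) * J ≤ J * J := by gcongr
          _ ≤ _ := le_mul_of_one_le_left (by positivity) hgr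
      _ = _ := by ring

lemma Fin_log (h J C Θ : ℕ) (hJ : 4 ≤ J) (hh : J ^ (3 * J) ≤ h) (hC : C ≤ J) (hΘ : Θ ≤ J)
    (hΘ1 : 1 ≤ Θ) : (C : ℝ) * Real.log (grid h J J + 1) ≤ 64 / Θ * h := by
  have a1 : J ^ 4 ≤ h := le_trans (Nat.pow_le_pow_right (by omega) (by omega)) hh
  have a2 : 2 ≤ h := le_trans (le_trans (by omega) (Nat.le_self_pow (by norm_num) J)) a1
  have a3 : grid h J J + 1 ≤ h ^ 3 := by
    have b1 : 2 * J * J ^ (2 * J + 2) ≤ h := by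
      calc 2 * J * J ^ (2 * J + 2) ≤ J * J * J ^ (2 * J + 2) :=
            Nat.mul_le_mul_right _ (Nat.mul_le_mul_right _ (by omega))
        _ = J ^ (2 * J + 4) := by ring
        _ ≤ J ^ (3 * J) := Nat.pow_le_pow_right (by omega) (by omega)
        _ ≤ h := hh
    have b2 : grid h J J ≤ h * h := by
      calc grid h J J = 2 * J * J ^ (2 * J + 2) * h := by unfold grid; ring
        _ ≤ _ := Nat.mul_le_mul_right _ b1
    have b3 : 2 * (h * h) ≤ h * (h * h) := Nat.mul_le_mul_right _ a2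
    have b4 : 1 ≤ h * h := Nat.mul_pos (by omega) (by omega)
    calc grid h J J + 1 ≤ h * (h * h) := by omega
      _ = _ := by ring
  have hhr : (0 : ℝ) < h := by exact_mod_cast (by omega : 0 < h)
  have hΘr : (0 : ℝ) < Θ := by exact_mod_cast hΘ1
  have hs : 0 < √(h : ℝ) := Real.sqrt_pos.2 hhr
  have a4 : Real.log (grid h J J + 1) ≤ 6 * √(h : ℝ) := by
    have b1 : Real.log (grid h J J + 1) ≤ Real.log ((h : ℝ) ^ 3) :=
      Real.log_le_log (by positivity) (by exact_mod_cast a3)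
    have b2 := Real.log_le_sub_one_of_pos hs
    rw [Real.log_sqrt hhr.le] at b2
    rw [Real.log_pow] at b1
    push_cast at b1
    linarith
  have a5 : (C : ℝ) * Θ ≤ √(h : ℝ) := by
    refine Real.le_sqrt_of_sq_le ?_
    have : (C * Θ) ^ 2 ≤ h := by
      calc (C * Θ) ^ 2 ≤ (J * J) ^ 2 := Nat.pow_le_pow_left (Nat.mul_le_mul hC hΘ) 2
        _ = J ^ 4 := by ring
        _ ≤ h := a1
    exact_mod_cast this
  rw [div_mul_eq_mul_div, le_div_iff₀ hΘr]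
  calc (C : ℝ) * Real.log (grid h J J + 1) * Θ ≤ C * (6 * √(h : ℝ)) * Θ := by gcongr
    _ = 6 * (C * Θ * √(h : ℝ)) := by ring
    _ ≤ 6 * (√(h : ℝ) * √(h : ℝ)) := by gcongr
    _ ≤ _ := by rw [Real.mul_self_sqrt hhr.le]; linarith

theorem Fin_thm (hN : StN) (hSys : StSys) (hIter : StIter) (hGL : StGL) (hSub : StSub)
    (hStep : StStep) (hDes : StDes) (hBand : StBand) (hFac : StFac) (hTw : StTwice)
    (h4 : StSym4) (h2 : StSym2) :
    ∃ T : I → I, (∃ T' : I → I, MeasurePreserving T' volume volume ∧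
        T' ∘ T =ᵐ[volume] id ∧ T ∘ T' =ᵐ[volume] id) ∧
      Ergodic T volume ∧ ksEntropy volume T = 0 ∧
      ∀ (n : ℕ) (S : Torus n → Torus n), IsC2Diffeo S → ¬ InducedFactor volume T volume S := by
  obtain ⟨P, Θ, J, Kp, hD⟩ := hDes.ex
  have hn := hDes.num P Θ J Kp hD
  have hs1 : ∀ k, 1 ≤ P.s k := fun k => le_trans one_le_two (hn.s2 k)
  obtain ⟨T, T', c, H, t1, t2, t3⟩ := exists_tower P hn.s2 hn.m1
  have hE := H.ergodic hs1 hn.m1
  refine ⟨T, ⟨T', t1, t2, t3⟩, hE, H.ksEntropy_eq_zero hs1 hn.m1 hn.ent, fun n S hS hF => ?_⟩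
  have := torus_prob n
  obtain ⟨S', F, G, K, hsys⟩ := hSys S hS
  have hc := (hIter S S' F G K hsys).1
  obtain ⟨A, B, φ, f1, f2, f3, f4, f5, f6⟩ := hF
  have hfac : Fac volume T volume S A B φ := ⟨H.mp, hc.mp, f1, f2, f3, f4, f5, f6⟩
  let e : ℕ → Fin (P.s 0 + 1) := Fin.ofNat (P.s 0 + 1)
  have he : Set.InjOn e (Set.Iio (P.s 0)) := by
    intro x hx y hy hxy
    have h1 := congrArg Fin.val hxy
    simp only [e, Fin.ofNat] at h1
    rwa [Nat.mod_eq_of_lt (Nat.lt_succ_of_lt hx), Nat.mod_eq_of_lt (Nat.lt_succ_of_lt hy)] at h1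
  have hfc := hFac volume T volume S A B φ (fun z => (c 0 z).1) e hfac (H.meas 0).fst
  obtain ⟨M₀, m1, m2, m3, m4⟩ := h2 volume T _ volume S B hc.mp f2 f4
    (h4 volume T volume S A B φ _ hfac hfc (hTw volume T volume S A B φ _ hfac hfc hE))
  have hm1 : (volume : Measure (Torus n)).real M₀ ≤ 1 := measureReal_le_one
  obtain ⟨η, hη⟩ : ∃ η : ℝ, η = (volume : Measure (Torus n)).real M₀ / (7 * (n + 1)) := ⟨_, rfl⟩
  have hη0 : 0 < η := by rw [hη]; positivity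
  have hη7 : 7 * (n + 1) * η = (volume : Measure (Torus n)).real M₀ := by rw [hη]; field_simp
  have hnη : 0 ≤ (n : ℝ) * η := by positivity
  have hη1 : η ≤ 1 := by linarith
  obtain ⟨r, C, β₀, r0, C1, β0, hsym⟩ := m4 (η / 2) (2 * 4 ^ n) (by positivity) (by positivity)
  obtain ⟨r', r1, r2, r3⟩ : ∃ r' : ℝ, 0 < r' ∧ r' ≤ r ∧ r' ≤ 1 / 4 :=
    ⟨min r (1 / 4), lt_min r0 (by norm_num), min_le_left _ _, min_le_right _ _⟩
  obtain ⟨L, hL⟩ : ∃ L : ℝ, max (max (Real.log (4096 * (n + 1) ^ 2 / r')) 8)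
      (max (max (18 * Real.log K) (Real.log (2 / η))) (4 * n * Real.log (n + 1))) ≤ L := ⟨_, le_rfl⟩
  simp only [max_le_iff] at hL
  obtain ⟨⟨l1, l2⟩, ⟨l3, l4⟩, l5⟩ := hL
  have ht : Tendsto (fun b : ℕ => (2 : ℝ) ^ b) atTop atTop :=
    tendsto_pow_atTop_atTop_of_one_lt (by norm_num)
  obtain ⟨b, ⟨⟨⟨⟨⟨b1, b2⟩, b3⟩, b4⟩, b5⟩, b6⟩⟩ := ((((((eventually_gt_atTop n).and
    (ht.eventually_ge_atTop (16 / η))).and (ht.eventually_ge_atTop
      (32 * (2 * n * Real.log K + 4) * ((n + 1) * C) / η ^ 2))).and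
    (ht.eventually_ge_atTop (L * ((n + 1) * C)))).and (ht.eventually_ge_atTop (1 / β₀))).and
    (ht.eventually_ge_atTop C)).exists
  have p0 : (0 : ℝ) < 2 ^ b := by positivity
  have p1 : (2 : ℝ) ^ (b + 1) = 2 * 2 ^ b := by ring
  rw [div_le_iff₀ (by positivity)] at b2 b3 b5
  obtain ⟨g, U, R, g0, R0, hseq⟩ := Fin_seq n b (Θ b) C (J b) η (2 * n * Real.log K + 4) L
    (hn.t1 b) C1 hη0 b1 (hD.hJ b) (by rw [p1]; linarith [mul_pos p0 hη0])
    (by rw [p1]; linarith [mul_pos p0 (pow_pos hη0 2)]) (by rw [p1]; linarith)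
  have q1 : 2 ^ (b + 1) ≤ J b := le_trans (Nat.le_mul_of_pos_right _ (hn.t1 b)) (hn.jt b)
  have q2 : Θ b ≤ J b := le_trans (Nat.le_mul_of_pos_left _ (Nat.pow_pos (by norm_num))) (hn.jt b)
  have q3 : 4 ≤ J b := le_trans (Nat.pow_le_pow_right (n := 2) (by norm_num)
    (show 2 ≤ b + 1 by omega)) q1
  have q4 : C ≤ J b := by
    have a1 : C ≤ 2 ^ b := by exact_mod_cast b6
    exact a1.trans (le_trans (Nat.pow_le_pow_right (by norm_num) (Nat.le_succ b)) q1)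
  have q5 := hn.hb b (by omega)
  have q6 : J b ^ (2 * J b) ≤ P.h b := le_trans (Nat.pow_le_pow_right (by omega) (by omega)) q5
  have q7 : C ≤ P.h b := q4.trans (le_trans (Nat.le_self_pow (by omega) _) q5)
  obtain ⟨J₀, hJ₀⟩ : 2 ∣ J b := by
    rw [hD.hJ b]
    exact dvd_pow (dvd_mul_of_dvd_left (dvd_pow_self 2 (Nat.succ_ne_zero b)) _)
      (Nat.pow_pos (by norm_num)).ne'
  obtain ⟨er, e1, e2, e3⟩ := hsym _ _ _ _ _ _ _ (hBand volume T c P Θ J Kp e hD H he b)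
    (by rw [div_le_iff₀ p0]; linarith) q4 q7 (Fin_log _ _ _ _ q3 q5 q4 q2 (hn.t1 b))
  have hind : ∀ d ≤ n + 1, ∃ α, FinI S G M₀ η (P.h b) (J b) er d α (g d) (R d) := by
    intro d
    induction d with
    | zero =>
      intro _
      refine ⟨0, by omega, ?_, ?_, fun _ => ?_⟩
      · rw [zero_add, g0, ← range_eq_Ico]
        simpa using e2
      · have : M₀ \ {y | Fast 0 (R 0 * grid (P.h b) (J b) (0 + g 0))
            (Bkw S G (grid (P.h b) (J b) (0 + g 0)) y)} = ∅ :=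
          Set.sdiff_eq_empty.2 fun y _ => by simp [Fast, Lo, hN.zero]
        rw [this]
        simp
      · simp only [av, fU, Lo, hN.zero, zero_mul, Real.log_one, add_zero, zero_le_one,
          max_eq_right, integral_zero, zero_div, sub_zero]
        positivity
    | succ d ih =>
      intro hd
      obtain ⟨α, hα⟩ := ih (by omega)
      obtain ⟨s1, s2, s3, s4, s5, s6, s7, s8, s9⟩ := hseq d (by omega)
      refine Fin_step hSub hGL hStep hsys hc m1 m2 hη0 hη1 r1 r3 hJ₀ (by omega) q6 e1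
        (c := 64 / Θ b / (C * J b)) (fun e' e 𝒥 a1 a2 a3 a4 => ?_) l1 l2 l3 l4 l5 (by omega) s1 s2
        s3 s4 s5 s6 s7 s8 s9 hα
      obtain ⟨𝓔, z1, z2, z3⟩ := e3 e' e 𝒥 a1 a2 a3 a4
      refine ⟨𝓔, z1, z2.trans (le_of_eq ?_), le_trans (measureReal_mono
        (Set.sdiff_subset_sdiff_right fun y hy => Fin_shad r2 le_rfl le_rfl le_rfl hy)) z3⟩
      congr 2
      ring
  obtain ⟨α, -, -, hfin, -⟩ := hind (n + 1) le_rfl
  have hemp : {y | Fast (n + 1) (R (n + 1) * grid (P.h b) (J b) (α + g (n + 1)))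
      (Bkw S G (grid (P.h b) (J b) (α + g (n + 1))) y)} = ∅ := by
    refine Set.eq_empty_of_forall_notMem fun y hy => ?_
    have a1 := hN.inv n _ _ le_rfl (hc.ab (grid (P.h b) (J b) (α + g (n + 1))) y)
    have a2 := hN.nonneg n (Bkw S G (grid (P.h b) (J b) (α + g (n + 1))) y)
    simp only [Set.mem_ofPred_eq, Fast, Lo, hN.big (n + 1) _ (Nat.lt_succ_self n)] at hy
    have a3 := le_antisymm (nonpos_of_mul_nonpos_left hy (Real.exp_pos _)) a2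
    rw [a3, mul_zero] at a1
    norm_num at a1
  rw [hemp, Set.sdiff_empty] at hfin
  push_cast at hfin
  linarith

end Pool.Agent.Lib.MP_1df8f0_an.K
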