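import Pool.Agent.Lib.MP_1df8f0_an.K.Sm

/-!
Facts on the projection of Euclidean space to the torus.
-/

open MeasureTheory Finset
open scoped ENNReal

noncomputable section

namespace Pool.Agent.Lib.MP_1df8f0_an.K

/-- The half open unit cube centred at `x`. -/
def Proj_cube {n : ℕ} (x : E n) : Set (E n) :=
  (WithLp.ofLp : E n → Fin n → ℝ) ⁻¹'
    (Set.univ.pi fun i => Set.Ioc (x i - 1 / 2) (x i - 1 / 2 + 1))

lemma Proj_apply {n : ℕ} (x : E n) (i : Fin n) : pr x i = ((x i : ℝ) : UnitAddCircle) := rfl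

lemma Proj_cont {n : ℕ} : Continuous (pr : E n → Torus n) := by
  refine continuous_pi fun i => ?_
  have h : Continuous fun x : E n => x i := by fun_prop
  exact (AddCircle.continuous_mk' (1 : ℝ)).comp h

lemma Proj_cube_meas {n : ℕ} (x : E n) : MeasurableSet (Proj_cube x) :=
  (PiLp.volume_preserving_ofLp (Fin n)).measurable
    (MeasurableSet.univ_pi fun _ => measurableSet_Ioc)

lemma Proj_mp {n : ℕ} (x : E n) :
    MeasurePreserving (pr : E n → Torus n) (volume.restrict (Proj_cube x)) volume := by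
  have h1 := measurePreserving_pi
    (fun i : Fin n => (volume : Measure ℝ).restrict (Set.Ioc (x i - 1 / 2) (x i - 1 / 2 + 1)))
    (fun _ : Fin n => (volume : Measure UnitAddCircle))
    (fun i => AddCircle.measurePreserving_mk (1 : ℝ) (x i - 1 / 2))
  rw [← Measure.restrict_pi_pi] at h1
  have h2 := (PiLp.volume_preserving_ofLp (Fin n)).restrict_preimage
    (MeasurableSet.univ_pi fun i : Fin n =>
      (measurableSet_Ioc : MeasurableSet (Set.Ioc (x i - 1 / 2) (x i - 1 / 2 + 1))))
  exact h1.comp h2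

lemma Proj_sub {n : ℕ} (x : E n) : Metric.closedBall x (1 / 4) ⊆ Proj_cube x := by
  intro z hz i _
  have h1 : ‖(z - x) i‖ ≤ ‖z - x‖ := PiLp.norm_apply_le (z - x) i
  have h2 : ‖z - x‖ ≤ 1 / 4 := by simpa [dist_eq_norm] using hz
  have h3 : |z i - x i| ≤ 1 / 4 := by
    have : (z - x) i = z i - x i := rfl
    rw [this, Real.norm_eq_abs] at h1
    exact h1.trans h2
  rw [abs_le] at h3
  constructor <;> linarith [h3.1, h3.2]

lemma Proj_inj {n : ℕ} (x : E n) : Set.InjOn (pr : E n → Torus n) (Proj_cube x) := by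
  intro z hz z' hz' h
  ext i
  have h1 := hz i (Set.mem_univ i)
  have h2 := hz' i (Set.mem_univ i)
  have h3 : ((z i : ℝ) : UnitAddCircle) = ((z' i : ℝ) : UnitAddCircle) := congrFun h i
  exact (AddCircle.coe_eq_coe_iff_of_mem_Ioc h1 h2).1 h3

lemma Proj_lat {n : ℕ} (x y : E n) : pr x = pr y ↔ ∀ i, ∃ z : ℤ, x i - y i = z := by
  rw [funext_iff]
  refine forall_congr' fun i => ?_
  rw [Proj_apply, Proj_apply, ← sub_eq_zero, ← AddCircle.coe_sub, AddCircle.coe_eq_zero_iff]
  constructor
  · rintro ⟨z, hz⟩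
    exact ⟨z, by simpa using hz.symm⟩
  · rintro ⟨z, hz⟩
    exact ⟨z, by simpa using hz.symm⟩

theorem Proj_thm : StProj where
  add x y := by
    funext i
    rfl
  sub x y := by
    funext i
    rfl
  prsec y := by
    funext i
    exact (AddCircle.equivIco (1 : ℝ) 0).symm_apply_apply (y i)
  msec := by
    intro n
    refine (PiLp.volume_preserving_toLp (Fin n)).measurable.comp ?_
    refine measurable_pi_lambda _ fun i => ?_
    exact measurable_subtype_coe.comp
      ((AddCircle.measurableEquivIco (1 : ℝ) 0).measurable.comp (measurable_pi_apply i))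
  nsec := by
    intro n y
    have h1 : ∀ i, ‖sec y i‖ ≤ 1 := by
      intro i
      have h := (AddCircle.equivIco (1 : ℝ) 0 (y i)).2
      have h' : sec y i = ((AddCircle.equivIco (1 : ℝ) 0 (y i) : Set.Ico (0 : ℝ) (0 + 1)) : ℝ) := rfl
      rw [h', Real.norm_eq_abs, abs_le]
      constructor <;> linarith [h.1, h.2]
    rw [EuclideanSpace.norm_eq, Real.sqrt_le_iff]
    refine ⟨Nat.cast_nonneg n, ?_⟩
    have h2 : ∑ i, ‖sec y i‖ ^ 2 ≤ ∑ _i : Fin n, (1 : ℝ) :=
      Finset.sum_le_sum fun i _ => by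
        have := h1 i
        have h0 := norm_nonneg (sec y i)
        nlinarith
    have h3 : ∑ _i : Fin n, (1 : ℝ) = n := by simp
    have h4 : (n : ℝ) ≤ (n : ℝ) ^ 2 := by
      have : n ≤ n ^ 2 := Nat.le_self_pow two_ne_zero n
      exact_mod_cast this
    linarith
  cont := Proj_cont
  dist_le x y := by
    refine (dist_pi_le_iff (norm_nonneg _)).2 fun i => ?_
    rw [Proj_apply, Proj_apply, dist_eq_norm, ← AddCircle.coe_sub]
    have h1 : ‖(x - y) i‖ ≤ ‖x - y‖ := PiLp.norm_apply_le (x - y) i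
    exact (QuotientAddGroup.norm_mk_le_norm).trans h1
  lat := Proj_lat
  img x U hU hsub := by
    have hU' : U ⊆ Proj_cube x := hsub.trans (Proj_sub x)
    have hm : MeasurableSet (pr '' U) :=
      hU.image_of_continuousOn_injOn Proj_cont.continuousOn ((Proj_inj x).mono hU')
    refine ⟨hm, ?_⟩
    rw [← (Proj_mp x).measure_preimage hm.nullMeasurableSet,
      Measure.restrict_apply (Proj_cont.measurable hm)]
    congr 1
    ext z
    constructor
    · rintro ⟨⟨u, hu, h⟩, hz⟩
      rw [← Proj_inj x (hU' hu) hz h]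
      exact hu
    · intro hz
      exact ⟨⟨z, hz, rfl⟩, hU' hz⟩
  pre x Z hZ := by
    rw [← (Proj_mp x).measure_preimage hZ.nullMeasurableSet,
      Measure.restrict_apply (Proj_cont.measurable hZ)]
    refine measure_mono fun z hz => ⟨hz.2, Proj_sub x hz.1⟩

end Pool.Agent.Lib.MP_1df8f0_an.K
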