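import Pool.Agent.Lib.MP_1df8f0_an.Defs

/-!
Smooth side: definitions and the statements of the steps.
-/

open MeasureTheory Finset
open scoped ENNReal

noncomputable section

namespace Pool.Agent.Lib.MP_1df8f0_an.K

/-- Euclidean space. -/
abbrev E (n : ℕ) : Type := EuclideanSpace ℝ (Fin n)

/-- Operators on Euclidean space. -/
abbrev Op (n : ℕ) : Type := E n →L[ℝ] E n

/-- Volume of the parallelepiped spanned by a finite family. -/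
def vol {n : ℕ} {ι : Type} [Fintype ι] [DecidableEq ι] (v : ι → E n) : ℝ :=
  √(Matrix.gram ℝ v).det

/-- Linear combination. -/
def cmb {n : ℕ} {ι : Type} [Fintype ι] (v : ι → E n) (c : ι → ℝ) : E n := ∑ i, c i • v i

/-- Span of a family. -/
def sp {n : ℕ} {ι : Type} (v : ι → E n) : Submodule ℝ (E n) := Submodule.span ℝ (Set.range v)

/-- Distance to the span of a family. -/
def dsp {n : ℕ} {ι : Type} (x : E n) (v : ι → E n) : ℝ := Metric.infDist x (sp v : Set (E n))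

/-- Maximal growth of `k`-dimensional volume (norm of the `k`-th exterior power). -/
def Nk {n : ℕ} (k : ℕ) (B : Op n) : ℝ :=
  sSup ((fun v : Fin k → E n => vol (B ∘ v)) '' {v | ∀ i, ‖v i‖ ≤ 1})

/-- Maximal growth of `(k-1)`-dimensional volume, zero for `k = 0`. -/
def Lo {n : ℕ} : ℕ → Op n → ℝ
  | 0, _ => 0
  | k + 1, B => Nk k B

/-- Coordinate frame. -/
def ev {n k : ℕ} (I : Fin k → Fin n) : Fin k → E n := fun i => EuclideanSpace.single (I i) 1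

/-- Basic facts on `vol`. -/
structure StVol : Prop where
  nonneg : ∀ {n : ℕ} {ι : Type} [Fintype ι] [DecidableEq ι] (v : ι → E n), 0 ≤ vol v
  pos : ∀ {n : ℕ} {ι : Type} [Fintype ι] [DecidableEq ι] (v : ι → E n),
    0 < vol v ↔ LinearIndependent ℝ v
  on : ∀ {n : ℕ} {ι : Type} [Fintype ι] [DecidableEq ι] (v : ι → E n),
    Orthonormal ℝ v → vol v = 1
  orth : ∀ {n : ℕ} {ι : Type} [Fintype ι] [DecidableEq ι] (v : ι → E n),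
    (∀ i j, i ≠ j → inner ℝ (v i) (v j) = 0) → vol v = ∏ i, ‖v i‖
  reindex : ∀ {n : ℕ} {ι κ : Type} [Fintype ι] [DecidableEq ι] [Fintype κ] [DecidableEq κ]
    (σ : κ ≃ ι) (v : ι → E n), vol (v ∘ σ) = vol v
  change : ∀ {n : ℕ} {ι : Type} [Fintype ι] [DecidableEq ι] (v : ι → E n) (M : Matrix ι ι ℝ),
    vol (fun i => cmb v (M i)) = |M.det| * vol v
  cons : ∀ {n k : ℕ} (x : E n) (v : Fin k → E n),
    vol (Fin.cons x v : Fin (k + 1) → E n) = dsp x v * vol v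
  hada : ∀ {n : ℕ} {ι : Type} [Fintype ι] [DecidableEq ι] (v : ι → E n), vol v ≤ ∏ i, ‖v i‖
  mono : ∀ {n m : ℕ} {ι : Type} [Fintype ι] [DecidableEq ι] (u : ι → E n) (v : ι → E m) (C : ℝ),
    0 ≤ C → (∀ c, ‖cmb u c‖ ≤ C * ‖cmb v c‖) → vol u ≤ C ^ Fintype.card ι * vol v
  ratio : ∀ {n : ℕ} {ι : Type} [Fintype ι] [DecidableEq ι] (B : Op n) (v g : ι → E n),
    (∀ i, g i ∈ sp v) → vol (B ∘ g) * vol v = vol (B ∘ v) * vol g
  trans : ∀ {n k d : ℕ} (f : Fin k → E n) (e : Fin d → E n) (c : ℝ), 0 ≤ c →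
    (∀ x ∈ sp f, c * ‖x‖ ≤ dsp x e) → c ^ k * vol f * vol e ≤ vol (Sum.elim f e)
  top : ∀ {n : ℕ} {ι : Type} [Fintype ι] [DecidableEq ι] (B : Op n) (v : ι → E n),
    Fintype.card ι = n → vol (B ∘ v) = |B.det| * vol v
  cont : ∀ {n : ℕ} {ι : Type} [Fintype ι] [DecidableEq ι], Continuous (vol : (ι → E n) → ℝ)
  onb : ∀ {n k : ℕ} (v : Fin k → E n), 0 < vol v →
    ∃ y : Fin k → E n, Orthonormal ℝ y ∧ sp y = sp v
  split : ∀ {n : ℕ} {ι : Type} (x : E n) (v : ι → E n),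
    ∃ g ∈ sp v, ‖x - g‖ = dsp x v ∧ ‖g‖ ≤ ‖x‖
  evon : ∀ {n k : ℕ} (I : Fin k → Fin n), Function.Injective I → Orthonormal ℝ (ev I)

/-- Basic facts on `Nk` and `Lo`. -/
structure StN : Prop where
  nonneg : ∀ {n : ℕ} (k : ℕ) (B : Op n), 0 ≤ Nk k B
  lonn : ∀ {n : ℕ} (k : ℕ) (B : Op n), 0 ≤ Lo k B
  le : ∀ {n k : ℕ} (B : Op n) (v : Fin k → E n), vol (B ∘ v) ≤ Nk k B * vol v
  mul : ∀ {n : ℕ} (k : ℕ) (A B : Op n), Nk k (A ∘L B) ≤ Nk k A * Nk k B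
  lomul : ∀ {n : ℕ} (k : ℕ) (A B : Op n), Lo k (A ∘L B) ≤ Lo k A * Lo k B
  smin : ∀ {n k : ℕ} (B : Op n) (e : Fin k → E n) (x : E n), x ∈ sp e →
    vol (B ∘ e) * ‖x‖ ≤ Lo k B * vol e * ‖B x‖
  quot : ∀ {n k : ℕ} (B : Op n) (e : Fin k → E n) (x : E n),
    dsp (B x) (B ∘ e) * vol (B ∘ e) ≤ Nk (k + 1) B * vol e * dsp x e
  pow : ∀ {n : ℕ} (k : ℕ) (B : Op n), Nk k B ≤ ‖B‖ ^ k
  zero : ∀ {n : ℕ} (B : Op n), Nk 0 B = 1
  big : ∀ {n : ℕ} (k : ℕ) (B : Op n), n < k → Nk k B = 0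
  inv : ∀ {n : ℕ} (k : ℕ) (A B : Op n), k ≤ n → A ∘L B = ContinuousLinearMap.id ℝ (E n) →
    1 ≤ Nk k A * Nk k B
  cont : ∀ {n : ℕ} (k : ℕ), Continuous (Nk k : Op n → ℝ)
  locont : ∀ {n : ℕ} (k : ℕ), Continuous (Lo k : Op n → ℝ)
  frame : ∀ {n : ℕ} (k : ℕ) (B : Op n), k ≤ n → Function.Injective B →
    0 < Nk k B ∧ ∃ I : Fin k → Fin n, Function.Injective I ∧ Nk k B ≤ (n : ℝ) ^ k * vol (B ∘ ev I)

/-- Log-concavity and duality (singular values). -/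
structure StSV : Prop where
  logc : ∀ {n : ℕ} (k : ℕ) (B : Op n), Nk (k + 1) B * Lo k B ≤ Nk k B ^ 2
  dual : ∀ {n : ℕ} (k d : ℕ) (A B : Op n), k + d = n → A ∘L B = ContinuousLinearMap.id ℝ (E n) →
    |A.det| = 1 → Nk k A = Nk d B ∧ Lo k A = Nk (d + 1) B

/-- The frame `e` moved by the first `i` operators. -/
def frm {n k : ℕ} (D : ℕ → Op n) (e : Fin k → E n) : ℕ → Fin k → E n
  | 0 => e
  | i + 1 => D i ∘ frm D e i

/-- The product of the first `i` operators. -/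
def prd {n : ℕ} (D : ℕ → Op n) : ℕ → Op n
  | 0 => ContinuousLinearMap.id ℝ (E n)
  | i + 1 => D i ∘L prd D i

/-- Bound for the inverse of `D i` on the moved frame. -/
def alp {n k : ℕ} (D : ℕ → Op n) (e : Fin k → E n) (i : ℕ) : ℝ :=
  Lo k (D i) * vol (frm D e i) / vol (frm D e (i + 1))

/-- Slack between the maximal and the actual growth of the moved frame. -/
def sgm {n k : ℕ} (D : ℕ → Op n) (e : Fin k → E n) (i : ℕ) : ℝ :=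
  Nk k (D i) * vol (frm D e i) / vol (frm D e (i + 1))

/-- Tube condition. -/
def TC {n k : ℕ} (D : ℕ → Op n) (e : Fin k → E n) (N : ℕ) (ϑ Λ : ℝ) : Prop :=
  ∀ i ≤ N, ∏ j ∈ Ico i N, alp D e j ≤ Λ * ϑ ^ (N - i) ∧
    ϑ ^ (N - i) * ∏ j ∈ Ico i N, sgm D e j ^ 2 ≤ Λ

/-- `D` and its inverse have norm at most `Q`. -/
def Bd {n : ℕ} (D : Op n) (Q : ℝ) : Prop := ‖D‖ ≤ Q ∧ ∀ v, ‖v‖ ≤ Q * ‖D v‖

/-- Cone lemma and volume distortion. -/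
def StPert : Prop :=
  ∀ {n k : ℕ} (D : ℕ → Op n) (e : Fin k → E n) (N : ℕ) (Q ϑ Λ ρ : ℝ), 1 ≤ Q → (∀ i, Bd (D i) Q) →
    0 < vol e → 0 < ϑ → ϑ ≤ 1 → 0 ≤ ρ → TC D e N ϑ Λ → 2 ^ N * 128 * Q ^ 4 * ρ * Λ ≤ 1 →
    (∀ δ : ℕ → E n, δ 0 ∈ sp e →
      (∀ i < N, ‖δ (i + 1) - D i (δ i)‖ ≤ Q * (ρ * ϑ ^ (N - i)) * ‖δ i‖) →
      ∀ i ≤ N, dsp (δ i) (frm D e i) ≤ ‖δ i‖ / (32 * Q ^ 2) ∧
        ‖δ i‖ ≤ 2 ^ (N - i) * Λ * ϑ ^ (N - i) * ‖δ N‖ ∧ ‖δ i‖ ≤ (2 * Q) ^ (N - i) * ‖δ N‖) ∧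
    (∀ D' : ℕ → Op n, (∀ i < N, ‖D' i - D i‖ ≤ Q * (ρ * ϑ ^ (N - i))) →
      vol (frm D' e N) ≤ 2 ^ (k * N) * vol (frm D e N))

/-- A differentiable map with bounded, boundedly invertible, Lipschitz derivative. -/
structure Nice {n : ℕ} (H : E n → E n) (Q : ℝ) : Prop where
  one : 1 ≤ Q
  diff : Differentiable ℝ H
  bd : ∀ x, Bd (fderiv ℝ H x) Q
  lip : ∀ x y, ‖fderiv ℝ H x - fderiv ℝ H y‖ ≤ Q * ‖x - y‖

/-- Derivatives along an orbit. -/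
def orbD {n : ℕ} (H : E n → E n) (x : E n) : ℕ → Op n := fun i => fderiv ℝ H (H^[i] x)

/-- The tube around the orbit of `x`. -/
def Tube {n : ℕ} (H : E n → E n) (x : E n) (N : ℕ) (ρ ϑ : ℝ) : Set (E n) :=
  {p | ∀ i ≤ N, ‖H^[i] p - H^[i] x‖ ≤ ρ * ϑ ^ (N - i)}

/-- Small facts on frames, and transversality. -/
structure StTrv : Prop where
  frm_prd : ∀ {n k : ℕ} (D : ℕ → Op n) (e : Fin k → E n) (i : ℕ), frm D e i = prd D i ∘ e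
  frm_pos : ∀ {n k : ℕ} (D : ℕ → Op n) (e : Fin k → E n), (∀ i, Function.Injective (D i)) →
    0 < vol e → ∀ i, 0 < vol (frm D e i)
  congr : ∀ {n k : ℕ} (D D' : ℕ → Op n) (e : Fin k → E n) (N : ℕ), (∀ i < N, D i = D' i) →
    (∀ i ≤ N, frm D e i = frm D' e i) ∧ (∀ i < N, alp D e i = alp D' e i) ∧
      ∀ ϑ Λ : ℝ, TC D e N ϑ Λ → TC D' e N ϑ Λ
  mono : ∀ {n k : ℕ} (D : ℕ → Op n) (e : Fin k → E n) (N : ℕ) (ϑ Λ Λ' : ℝ), 0 ≤ ϑ → Λ ≤ Λ' →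
    TC D e N ϑ Λ → TC D e N ϑ Λ'
  alp_nonneg : ∀ {n k : ℕ} (D : ℕ → Op n) (e : Fin k → E n) (i : ℕ), 0 ≤ alp D e i
  trv : ∀ {n k d : ℕ} (D B : Op n) (Q : ℝ) (f : Fin k → E n) (e : Fin d → E n), 1 ≤ Q → Bd D Q →
    D ∘L B = ContinuousLinearMap.id ℝ (E n) → 0 < vol f → 0 < vol e →
    Lo d B * vol e / vol (B ∘ e) * (Lo k D * vol f / vol (D ∘ f)) ≤ 1 / 4 →
    (1 / (2 * Q ^ 2)) ^ k * vol f * vol (B ∘ e) ≤ vol (Sum.elim f (B ∘ e)) ∧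
      ∀ δ : E n, dsp δ f ≤ ‖δ‖ / (32 * Q ^ 2) → dsp δ (B ∘ e) ≤ ‖δ‖ / (32 * Q ^ 2) → δ = 0
  orb : ∀ {n : ℕ} (H : E n → E n) (Q : ℝ) (x : E n) (i : ℕ), Nice H Q →
    HasFDerivAt H^[i] (prd (orbD H x) i) x
  taylor : ∀ {n : ℕ} (H : E n → E n) (Q : ℝ) (x p : E n), Nice H Q →
    ‖H p - H x - fderiv ℝ H x (p - x)‖ ≤ Q * ‖p - x‖ * ‖p - x‖

/-- Change of variables in the form used here, and the volume of a ball. -/
structure StCV : Prop where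
  cv : ∀ {n : ℕ} {ι : Type} [Fintype ι] [DecidableEq ι], Fintype.card ι = n →
    ∀ (Ψ : (ι → ℝ) → E n) (Ψ' : (ι → ℝ) → (ι → ℝ) →L[ℝ] E n) (D : Set (ι → ℝ)),
      MeasurableSet D → (∀ p ∈ D, HasFDerivWithinAt Ψ (Ψ' p) D p) →
      volume (Ψ '' D) ≤ ∫⁻ p in D, ENNReal.ofReal (vol fun i => Ψ' p (Pi.single i 1)) ∧
      (Set.InjOn Ψ D →
        ∫⁻ p in D, ENNReal.ofReal (vol fun i => Ψ' p (Pi.single i 1)) ≤ volume (Ψ '' D))
  ball : ∀ (k : ℕ) (ρ : ℝ), 0 ≤ ρ →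
    ENNReal.ofReal ((2 * ρ / (k + 1)) ^ k) ≤ volume (Metric.closedBall (0 : E k) ρ)

/-- Cone property and volume of a linear slice of a tube. -/
def StTube : Prop :=
  ∀ {n k : ℕ} (H : E n → E n) (Q ϑ Λ ρ : ℝ) (x : E n) (e : Fin k → E n) (N : ℕ), Nice H Q →
    Orthonormal ℝ e → 0 < ϑ → ϑ ≤ 1 → 0 < ρ → TC (orbD H x) e N ϑ Λ →
    2 ^ N * 128 * Q ^ 4 * ρ * Λ ≤ 1 →
    (∀ p ∈ Tube H x N ρ ϑ, p - x ∈ sp e →
      dsp (H^[N] p - H^[N] x) (frm (orbD H x) e N) ≤ ‖H^[N] p - H^[N] x‖ / (32 * Q ^ 2)) ∧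
    ENNReal.ofReal ((ρ / (8 * (k + 1) * 4 ^ N * Λ)) ^ k / vol (frm (orbD H x) e N)) ≤
      volume {u : Fin k → ℝ | x + cmb e u ∈ Tube H x N ρ ϑ}

/-- The good configuration of a forward and a backward frame. -/
def GoodD {n k d : ℕ} (Df Db : ℕ → Op n) (f : Fin k → E n) (e : Fin d → E n) (N₁ N₂ : ℕ)
    (ϑ Λ : ℝ) : Prop :=
  TC Df f N₁ 1 Λ ∧ TC Db e N₂ ϑ Λ ∧ alp Db e (N₂ - 1) * alp Df f N₁ ≤ 1 / 4

/-- Two maps inverse to each other, with unimodular derivatives. -/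
structure Pair {n : ℕ} (H H' : E n → E n) (Q : ℝ) : Prop where
  nf : Nice H Q
  ng : Nice H' Q
  gf : ∀ x, H' (H x) = x
  fg : ∀ x, H (H' x) = x
  df : ∀ x, |(fderiv ℝ H x).det| = 1
  dg : ∀ x, |(fderiv ℝ H' x).det| = 1

/-- The Jacobian of the local product map. -/
def Jac {n k d : ℕ} (H H' : E n → E n) (f : Fin k → E n) (e : Fin d → E n) (N₁ N₂ : ℕ)
    (a : E n) : ℝ :=
  vol (Sum.elim (frm (orbD H a) f N₁) (frm (orbD H' (H^[N₁ + N₂] a)) e N₂))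

/-- Admissible parameters at the point `a`. -/
def Adm {n k d : ℕ} (H H' : E n → E n) (f : Fin k → E n) (e : Fin d → E n) (N₁ N₂ : ℕ)
    (ϑ Λ ρ : ℝ) (a : E n) (p : Fin k ⊕ Fin d → ℝ) : Prop :=
  GoodD (orbD H a) (orbD H' (H^[N₁ + N₂] a)) f e N₁ N₂ ϑ Λ ∧
    a + cmb f (p ∘ Sum.inl) ∈ Tube H a N₁ ρ 1 ∧
    H^[N₁ + N₂] a + cmb e (p ∘ Sum.inr) ∈ Tube H' (H^[N₁ + N₂] a) N₂ ρ ϑ

/-- The local product map. -/
def Psi {n k d : ℕ} (H H' : E n → E n) (f : Fin k → E n) (e : Fin d → E n) (N₁ N₂ : ℕ)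
    (w : E n) (p : Fin k ⊕ Fin d → ℝ) : E n :=
  H'^[N₂] (H^[N₁ + N₂] (w - cmb f (p ∘ Sum.inl)) + cmb e (p ∘ Sum.inr))

/-- Measurability of the admissible set and of the Jacobian. -/
def StGeoM : Prop :=
  ∀ {n k d : ℕ} (H H' : E n → E n) (Q : ℝ) (f : Fin k → E n) (e : Fin d → E n) (N₁ N₂ : ℕ)
    (ϑ Λ ρ : ℝ), Pair H H' Q → Orthonormal ℝ f → Orthonormal ℝ e →
    MeasurableSet {q : E n × (Fin k ⊕ Fin d → ℝ) | Adm H H' f e N₁ N₂ ϑ Λ ρ q.1 q.2} ∧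
      Continuous (Jac H H' f e N₁ N₂)

/-- Transversality at a good point, and unimodularity of iterates. -/
def StGeoT : Prop :=
  ∀ {n k d : ℕ} (H H' : E n → E n) (Q : ℝ) (f : Fin k → E n) (e : Fin d → E n) (N₁ N₂ : ℕ)
    (ϑ Λ : ℝ), Pair H H' Q → Orthonormal ℝ f → Orthonormal ℝ e → 1 ≤ N₂ →
    (∀ x i, |(prd (orbD H' x) i).det| = 1) ∧
    (∀ a, prd (orbD H' (H^[N₁ + N₂] a)) N₂ ∘L prd (orbD H a) (N₁ + N₂) = prd (orbD H a) N₁ ∧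
      H'^[N₂] (H^[N₁ + N₂] a) = H^[N₁] a) ∧
    ∀ a, GoodD (orbD H a) (orbD H' (H^[N₁ + N₂] a)) f e N₁ N₂ ϑ Λ →
      (1 / (2 * Q ^ 2)) ^ k * vol (frm (orbD H a) f N₁) *
          vol (frm (orbD H' (H^[N₁ + N₂] a)) e N₂) ≤ Jac H H' f e N₁ N₂ a ∧
        ∀ δ : E n, dsp δ (frm (orbD H a) f N₁) ≤ ‖δ‖ / (32 * Q ^ 2) →
          dsp δ (frm (orbD H' (H^[N₁ + N₂] a)) e N₂) ≤ ‖δ‖ / (32 * Q ^ 2) → δ = 0

/-- Lower bound for the weighted volume of the admissible parameters. -/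
def StGeoA : Prop :=
  ∀ {n k d : ℕ} (H H' : E n → E n) (Q : ℝ) (f : Fin k → E n) (e : Fin d → E n) (N₁ N₂ : ℕ)
    (ϑ Λ ρ : ℝ), Pair H H' Q → k + d = n → Orthonormal ℝ f → Orthonormal ℝ e → 1 ≤ N₂ →
    0 < ϑ → ϑ ≤ 1 → 0 < ρ → 2 ^ (N₁ + N₂) * 256 * Q ^ 4 * ρ * Λ ≤ 1 → ∀ a : E n,
    GoodD (orbD H a) (orbD H' (H^[N₁ + N₂] a)) f e N₁ N₂ ϑ Λ →
    ENNReal.ofReal ((ρ / (16 * Q ^ 2 * (n + 1) * 4 ^ (N₁ + N₂) * Λ)) ^ n) ≤
      ∫⁻ _p in {p | Adm H H' f e N₁ N₂ ϑ Λ ρ a p}, ENNReal.ofReal (Jac H H' f e N₁ N₂ a)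

/-- Upper bound: the local product map is injective with the expected Jacobian. -/
def StGeoB : Prop :=
  ∀ {n k d : ℕ} (H H' : E n → E n) (Q : ℝ) (f : Fin k → E n) (e : Fin d → E n) (N₁ N₂ : ℕ)
    (ϑ Λ ρ : ℝ), Pair H H' Q → k + d = n → Orthonormal ℝ f → Orthonormal ℝ e → 1 ≤ N₂ →
    0 < ϑ → ϑ ≤ 1 → 0 < ρ → 2 ^ (N₁ + N₂) * 256 * Q ^ 4 * ρ * Λ ≤ 1 →
    ∀ (w : E n) (Z : Set (E n)), MeasurableSet Z →
    ∫⁻ p in {p | Adm H H' f e N₁ N₂ ϑ Λ ρ (w - cmb f (p ∘ Sum.inl)) p ∧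
        Psi H H' f e N₁ N₂ w p ∈ Z},
      ENNReal.ofReal (Jac H H' f e N₁ N₂ (w - cmb f (p ∘ Sum.inl))) ≤
      volume (Metric.closedBall (H^[N₁] w) (2 * ρ) ∩ Z)

/-- Projection of Euclidean space to the torus. -/
def pr {n : ℕ} (x : E n) : Torus n := proj x.ofLp

/-- A measurable section of `pr`. -/
def sec {n : ℕ} (y : Torus n) : E n :=
  WithLp.toLp 2 fun i => ((AddCircle.equivIco (1 : ℝ) 0 (y i) : Set.Ico (0 : ℝ) (0 + 1)) : ℝ)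

/-- Facts on the projection. -/
structure StProj : Prop where
  add : ∀ {n : ℕ} (x y : E n), pr (x + y) = pr x + pr y
  sub : ∀ {n : ℕ} (x y : E n), pr (x - y) = pr x - pr y
  prsec : ∀ {n : ℕ} (y : Torus n), pr (sec y) = y
  msec : ∀ {n : ℕ}, Measurable (sec : Torus n → E n)
  nsec : ∀ {n : ℕ} (y : Torus n), ‖sec y‖ ≤ n
  cont : ∀ {n : ℕ}, Continuous (pr : E n → Torus n)
  dist_le : ∀ {n : ℕ} (x y : E n), dist (pr x) (pr y) ≤ ‖x - y‖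
  lat : ∀ {n : ℕ} (x y : E n), pr x = pr y ↔ ∀ i, ∃ z : ℤ, x i - y i = z
  img : ∀ {n : ℕ} (x : E n) (U : Set (E n)), MeasurableSet U → U ⊆ Metric.closedBall x (1 / 4) →
    MeasurableSet (pr '' U) ∧ volume (pr '' U) = volume U
  pre : ∀ {n : ℕ} (x : E n) (Z : Set (Torus n)), MeasurableSet Z →
    volume (Metric.closedBall x (1 / 4) ∩ pr ⁻¹' Z) ≤ volume Z

/-- One half of a smooth system: `F` lifts `S`, `G` is a left inverse of `F`. -/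
structure Half {n : ℕ} (S : Torus n → Torus n) (F G : E n → E n) (K : ℝ) : Prop where
  mp : MeasurePreserving S volume volume
  lift : ∀ x, S (pr x) = pr (F x)
  inv : ∀ x, G (F x) = x
  diff : Differentiable ℝ F
  bd : ∀ x, ‖fderiv ℝ F x‖ ≤ K
  lip : ∀ x y, ‖fderiv ℝ F x - fderiv ℝ F y‖ ≤ K * ‖x - y‖
  det : ∀ x, |(fderiv ℝ F x).det| = 1
  per : ∀ x x' δ, pr x = pr x' → F (x + δ) - F x = F (x' + δ) - F x'

/-- A smooth system with its inverse. -/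
structure Sys {n : ℕ} (S S' : Torus n → Torus n) (F G : E n → E n) (K : ℝ) : Prop where
  two : 2 ≤ K
  f : Half S F G K
  g : Half S' G F K

/-- A volume preserving `C²` diffeomorphism of the torus. -/
def IsC2Diffeo {n : ℕ} (S : Torus n → Torus n) : Prop :=
  MeasurePreserving S volume volume ∧ ∃ (S' : Torus n → Torus n)
    (F G : (Fin n → ℝ) → (Fin n → ℝ)), Function.LeftInverse S' S ∧ Function.RightInverse S' S ∧
      ContDiff ℝ 2 F ∧ IsLift S F ∧ ContDiff ℝ 2 G ∧ IsLift S' G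

/-- A differentiable injective lift of a volume preserving bijection is unimodular. -/
def StDet : Prop :=
  ∀ {n : ℕ} (S S' : Torus n → Torus n) (F G : E n → E n), MeasurePreserving S volume volume →
    Measurable S' → Function.LeftInverse S' S → Function.RightInverse S' S →
    (∀ x, S (pr x) = pr (F x)) → ContDiff ℝ 1 F → (∀ x, G (F x) = x) →
    ∀ x, |(fderiv ℝ F x).det| = 1

/-- A `C²` diffeomorphism gives a smooth system. -/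
def StSys : Prop :=
  ∀ {n : ℕ} (S : Torus n → Torus n), IsC2Diffeo S →
    ∃ (S' : Torus n → Torus n) (F G : E n → E n) (K : ℝ), Sys S S' F G K

/-- A pair of derivative cocycles. -/
structure Coc {n : ℕ} {Y : Type} [MeasurableSpace Y] (ν : Measure Y) (S : Y → Y) (K : ℝ)
    (Af Bk : ℕ → Y → Op n) : Prop where
  one : 1 ≤ K
  mp : MeasurePreserving S ν ν
  mA : ∀ t, Measurable (Af t)
  mB : ∀ t, Measurable (Bk t)
  cA : ∀ s t y, Af (s + t) y = Af t (S^[s] y) ∘L Af s y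
  cB : ∀ s t y, Bk (s + t) y = Bk s y ∘L Bk t (S^[s] y)
  zA : ∀ y, Af 0 y = ContinuousLinearMap.id ℝ (E n)
  zB : ∀ y, Bk 0 y = ContinuousLinearMap.id ℝ (E n)
  ab : ∀ t y, Af t y ∘L Bk t y = ContinuousLinearMap.id ℝ (E n)
  ba : ∀ t y, Bk t y ∘L Af t y = ContinuousLinearMap.id ℝ (E n)
  bA : ∀ t y, ‖Af t y‖ ≤ K ^ t
  bB : ∀ t y, ‖Bk t y‖ ≤ K ^ t
  det : ∀ t y, |(Af t y).det| = 1

/-- The forward derivative cocycle. -/
def Afw {n : ℕ} (F : E n → E n) (t : ℕ) (y : Torus n) : Op n := fderiv ℝ F^[t] (sec y)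

/-- The backward derivative cocycle. -/
def Bkw {n : ℕ} (S : Torus n → Torus n) (G : E n → E n) (t : ℕ) (y : Torus n) : Op n :=
  fderiv ℝ G^[t] (sec (S^[t] y))

/-- Iterates of a smooth system. -/
def StIter : Prop :=
  ∀ {n : ℕ} (S S' : Torus n → Torus n) (F G : E n → E n) (K : ℝ), Sys S S' F G K →
    Coc volume S K (Afw F) (Bkw S G) ∧ ∀ t,
      Half S^[t] F^[t] G^[t] (K ^ (3 * t)) ∧ Half S'^[t] G^[t] F^[t] (K ^ (3 * t)) ∧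
      Pair F^[t] G^[t] (K ^ (3 * t)) ∧
      (∀ x x', pr x = pr x' → fderiv ℝ F^[t] x = fderiv ℝ F^[t] x' ∧
        fderiv ℝ G^[t] x = fderiv ℝ G^[t] x') ∧
      ∀ x x', ‖F^[t] x - F^[t] x'‖ ≤ K ^ t * ‖x - x'‖ ∧ ‖G^[t] x - G^[t] x'‖ ≤ K ^ t * ‖x - x'‖

/-- Forward operators at scale `τ`. -/
def DF {n : ℕ} {Y : Type} (S : Y → Y) (Af : ℕ → Y → Op n) (τ : ℕ) (a : Y) : ℕ → Op n :=
  fun i => Af τ (S^[i * τ] a)

/-- Backward operators at scale `τ`, starting from time `M * τ`. -/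
def DB {n : ℕ} {Y : Type} (S : Y → Y) (Bk : ℕ → Y → Op n) (τ M : ℕ) (a : Y) : ℕ → Op n :=
  fun i => Bk τ (S^[(M - i - 1) * τ] a)

/-- Good points. -/
def Good {n k d : ℕ} {Y : Type} (S : Y → Y) (Af Bk : ℕ → Y → Op n) (τ N₁ N₂ : ℕ) (ϑ Λ : ℝ)
    (I' : Fin k → Fin n) (I : Fin d → Fin n) (a : Y) : Prop :=
  GoodD (DF S Af τ a) (DB S Bk τ (N₁ + N₂) a) (ev I') (ev I) N₁ N₂ ϑ Λ

/-- Every pair shadowing the orbit of `a` on `[0, m₁)`, resp. `[m₂, m₃)`, lies in `𝓔`. -/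
def Shad {Y : Type} [PseudoMetricSpace Y] (S : Y → Y) (r : ℝ) (m₁ m₂ m₃ : ℕ) (𝓔 : Set (Y × Y))
    (a : Y) : Prop :=
  ∀ w w₂, (∀ t, t < m₁ → dist (S^[t] w) (S^[t] a) ≤ r) →
    (∀ t, m₂ ≤ t → t < m₃ → dist (S^[t] w₂) (S^[t] a) ≤ r) → (w, w₂) ∈ 𝓔

/-- The finite time Hopf argument. -/
def StGL : Prop :=
  ∀ {n k d : ℕ} (S S' : Torus n → Torus n) (F G : E n → E n) (K : ℝ), Sys S S' F G K →
    k + d = n → ∀ (τ N₁ N₂ : ℕ) (ϑ Λ r : ℝ) (I' : Fin k → Fin n) (I : Fin d → Fin n)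
    (𝓔 : Set (Torus n × Torus n)), 1 ≤ τ → 1 ≤ N₂ → 0 < ϑ → ϑ ≤ 1 → 1 ≤ Λ → 0 < r → r ≤ 1 / 4 →
    Function.Injective I' → Function.Injective I → MeasurableSet 𝓔 →
    (volume : Measure (Torus n)).real {a | Good S (Afw F) (Bkw S G) τ N₁ N₂ ϑ Λ I' I a ∧
        Shad S r (N₁ * τ + 1) (N₁ * τ) ((N₁ + N₂) * τ + 1) 𝓔 a} ≤
      (4096 * (n + 1) * 8 ^ (N₁ + N₂) * K ^ (18 * τ) * Λ ^ 2 / r) ^ n *
        ((volume : Measure (Torus n)).prod volume).real 𝓔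

/-- The functional controlling the backward frames. -/
def fU {n : ℕ} (k : ℕ) (x : ℝ) (B : Op n) : ℝ :=
  Real.log (max (Lo k B * Real.exp x) (Nk k B)) + Real.log (Nk k B)

/-- The functional controlling the forward frames. -/
def fW {n : ℕ} (k : ℕ) (x : ℝ) (A : Op n) : ℝ :=
  Real.log (max (Nk k A * Real.exp x) (Lo k A)) + Real.log (Nk k A)

/-- The `k`-th singular value is at least `exp x`. -/
def Fast {n : ℕ} (k : ℕ) (x : ℝ) (B : Op n) : Prop := Lo k B * Real.exp x ≤ Nk k B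

/-- Bounded subadditive process. -/
structure SubAdd {Y : Type} [MeasurableSpace Y] (S : Y → Y) (C : ℝ) (f : ℕ → Y → ℝ) : Prop where
  meas : ∀ t, Measurable (f t)
  bd : ∀ t y, |f t y| ≤ C * t
  sub : ∀ s t y, f (s + t) y ≤ f s y + f t (S^[s] y)

/-- Mean growth rate at scale `t`. -/
def av {Y : Type} [MeasurableSpace Y] (ν : Measure Y) (f : ℕ → Y → ℝ) (t : ℕ) : ℝ :=
  (∫ y, f t y ∂ν) / t

/-- Subadditive processes. -/
structure StSub : Prop where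
  subU : ∀ {n : ℕ} {Y : Type} [MeasurableSpace Y] (ν : Measure Y) (S : Y → Y) (K : ℝ)
    (Af Bk : ℕ → Y → Op n), Coc ν S K Af Bk → ∀ (d : ℕ) (R : ℝ), d ≤ n → 0 ≤ R →
    SubAdd S (2 * n * Real.log K + R) fun t y => fU d (R * t) (Bk t y)
  subW : ∀ {n : ℕ} {Y : Type} [MeasurableSpace Y] (ν : Measure Y) (S : Y → Y) (K : ℝ)
    (Af Bk : ℕ → Y → Op n), Coc ν S K Af Bk → ∀ (k : ℕ) (R : ℝ), k ≤ n → 0 ≤ R →
    SubAdd S (2 * n * Real.log K + R) fun t y => fW k (R * t) (Af t y)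
  gen : ∀ {Y : Type} [MeasurableSpace Y] (ν : Measure Y) [IsProbabilityMeasure ν] (S : Y → Y)
    (C : ℝ) (f : ℕ → Y → ℝ), MeasurePreserving S ν ν → SubAdd S C f → ∀ t q : ℕ, 1 ≤ t → 1 ≤ q →
    |av ν f t| ≤ C ∧ av ν f (q * t) ≤ av ν f t ∧ ∀ l : ℝ, 0 < l →
      ν.real {y | l < ∑ i ∈ range q, f t (S^[i * t] y) - f (q * t) y} ≤
        q * t * (av ν f t - av ν f (q * t)) / l

open Classical in
/-- Most junctions are good for a suitable backward frame. -/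
def StBwd : Prop :=
  ∀ {n : ℕ} (d : ℕ) (D : ℕ → Op n) (M : ℕ) (x y : ℝ), d ≤ n → (∀ i, Function.Injective (D i)) →
    0 < x → Fast d (x * M) (prd D M) →
    ∑ i ∈ range M, fU d x (D i) - fU d (x * M) (prd D M) ≤ y →
    ∃ I : Fin d → Fin n, Function.Injective I ∧
      (((range (M + 1)).filter fun N => ¬ TC D (ev I) N (Real.exp (-(x / 2))) 1).card : ℝ) ≤
        (y + 2 * n * Real.log (n + 1)) / (x / 2)

open Classical in
/-- All junctions are good for a suitable forward frame. -/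
def StFwd : Prop :=
  ∀ {n : ℕ} (k : ℕ) (D : ℕ → Op n) (M : ℕ) (x y : ℝ), k ≤ n → (∀ i, Function.Injective (D i)) →
    0 ≤ x → Lo k (prd D M) ≤ Nk k (prd D M) * Real.exp (x * M) →
    ∑ i ∈ range M, fW k x (D i) - fW k (x * M) (prd D M) ≤ y →
    ∃ I : Fin k → Fin n, Function.Injective I ∧
      (∀ N ≤ M, TC D (ev I) N 1 (Real.exp (y + 2 * n * Real.log (n + 1) + x * M))) ∧
      ∀ z : ℝ, 0 < z → (((range M).filter fun i => Real.exp (x + z) < alp D (ev I) i).card : ℝ) ≤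
        (y + 2 * n * Real.log (n + 1)) / z

/-- The induction step on the number of contracted directions. -/
def StStep : Prop :=
  ∀ {n : ℕ} {Y : Type} [MeasurableSpace Y] (ν : Measure Y) [IsProbabilityMeasure ν] (S : Y → Y)
    (K : ℝ) (Af Bk : ℕ → Y → Op n), Coc ν S K Af Bk → ∀ (M₀ : Set Y), MeasurableSet M₀ →
    S ⁻¹' M₀ = M₀ → ∀ (k d τ q N' med big : ℕ) (R R' η ηd δ : ℝ), k + d = n → 1 ≤ τ → 1 ≤ q →
    1 ≤ N' → med = 2 * q * τ → big = 2 * N' * med → 0 < η → η ≤ 1 → 0 < R' → 16 * R' ≤ η * R →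
    8 ≤ R * τ → 16 * n * Real.log (n + 1) ≤ η * R * big → 4 * n * Real.log (n + 1) ≤ R' * med →
    ν.real (M₀ \ {y | Fast d (R * big) (Bk big y)}) ≤ ηd →
    av ν (fun t y => fU d (R * t) (Bk t y)) τ - av ν (fun t y => fU d (R * t) (Bk t y)) big ≤
      η ^ 2 * R / 8 →
    av ν (fun t y => fW k (R' * t) (Af t y)) τ - av ν (fun t y => fW k (R' * t) (Af t y)) med ≤
      η * R' / 4 →
    (∀ i l : ℕ, q ≤ i → i < 2 * q → l < N' →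
      ν.real {a | a ∈ M₀ ∧ ∃ (I' : Fin k → Fin n) (I : Fin d → Fin n), Function.Injective I' ∧
        Function.Injective I ∧ Good S Af Bk τ i ((2 * N' - l) * (2 * q) - i)
          (Real.exp (-(R * τ / 2))) (Real.exp (2 * R' * med)) I' I a} ≤ δ) →
    ν.real (M₀ \ {y | Fast (d + 1) (R' * med) (Bk med y)}) ≤ ηd + 5 * η + δ

end Pool.Agent.Lib.MP_1df8f0_an.K
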