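import Pool.Agent.Lib.MP_1df8f0_an.Main
import Pool.Agent.Lib.MP_1df8f0_an.K.Sm

/-!
Symbolic side: definitions and the statements of the steps.
-/

open MeasureTheory Finset Filter Topology ProbabilityTheory
open scoped ENNReal

noncomputable section

namespace Pool.Agent.Lib.MP_1df8f0_an.K

/-- Exponential separation of a family of words of length `h`. -/
def XInv {A α : Type} [Fintype A] (x : A → List α) (h : ℕ) (θ γ : ℝ) : Prop :=
  (∀ a, (x a).length = h) ∧ ∀ y : List α, ∑ a, Real.exp (-(θ * ed (x a) y)) ≤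
    Fintype.card A * Real.exp (-(θ * γ * (h + y.length)))

/-- Concatenations of random words, every variable being used at most `D` times. -/
def StM2 : Prop :=
  ∀ {α V A : Type} [Fintype V] [DecidableEq V] [Fintype A] [Nonempty A]
    (L : List (V × (A → List α))) (h D : ℕ) (θ γ t : ℝ), 1 ≤ D → 0 < θ → 0 < t → γ ≤ 1 →
    1 ≤ (θ * t / D) ^ 2 * h → (∀ v, (L.map Prod.fst).count v ≤ D) → (∀ l ∈ L, XInv l.2 h θ γ) →
    XInv (fun ω : V → A => (L.map fun l => l.2 (ω l.1)).flatten) (L.length * h) (θ / D) (γ - t)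

/-- The variable read by slot `i` of a round. -/
def var (J Kp i : ℕ) : ℕ :=
  if i % 2 = 0 then J * (i / (2 * J)) + i % (2 * J) / 2
  else J * ((i / (2 * J) + Kp - J ^ (2 * (i % (2 * J) / 2) + 3)) % Kp) + i % (2 * J) / 2

/-- The design of the tower. -/
structure Des (P : Params) (Θ J Kp : ℕ → ℕ) : Prop where
  s0 : P.s 0 = 8 * 3 ^ 128
  t0 : Θ 0 = 1
  tS : ∀ b, Θ (b + 1) = 2 * P.s b * Θ b
  hJ : ∀ b, J b = (2 ^ (b + 1) * Θ b) ^ 2 ^ b
  hK : ∀ b, Kp b = 2 ^ b * J b ^ (2 * J b + 3) * J (b + 1) ^ (3 * J (b + 1))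
  hm : ∀ b, P.m b = 2 * J b * Kp b
  sS : ∀ b, P.s (b + 1) = P.s b ^ (J b * Kp b)
  hσ : ∀ b I i, P.σ b I i = I / P.s b ^ var (J b) (Kp b) i % P.s b

/-- Numerical facts on a design. -/
structure DesN (P : Params) (Θ J Kp : ℕ → ℕ) : Prop where
  s2 : ∀ b, 2 ≤ P.s b
  m1 : ∀ b, 1 ≤ P.m b
  t1 : ∀ b, 1 ≤ Θ b
  j2 : ∀ b, 2 ≤ J b
  jt : ∀ b, 2 ^ (b + 1) * Θ b ≤ J b
  k1 : ∀ b, 2 ^ b * J b ^ (2 * J b + 3) ≤ Kp b
  k2 : ∀ b, (2 ^ (b + 2) * (2 * P.s b * Θ b)) ^ 2 ≤ Kp b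
  hb : ∀ b, 1 ≤ b → J b ^ (3 * J b) ≤ P.h b
  th : ∀ b, 1 ≤ (2 / (2 ^ b * Θ b : ℝ)) ^ 2 * P.h b
  ent : Tendsto (fun k => Real.log ((P.s k : ℝ) * P.h k) / P.h k) atTop (𝓝 0)

/-- Designs exist and have the numerical properties; the variables of a round. -/
structure StDes : Prop where
  ex : ∃ P Θ J Kp, Des P Θ J Kp
  num : ∀ P Θ J Kp, Des P Θ J Kp → DesN P Θ J Kp
  var_lt : ∀ J Kp i : ℕ, 1 ≤ J → i < 2 * J * Kp → var J Kp i < J * Kp
  var_two : ∀ J Kp v : ℕ, 1 ≤ J → J ^ (2 * J + 3) ≤ Kp →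
    ((List.range (2 * J * Kp)).map (var J Kp)).count v ≤ 2
  var_ev : ∀ J Kp κ j : ℕ, j < J → var J Kp (κ * (2 * J) + 2 * j) = J * κ + j
  var_od : ∀ J Kp κ j : ℕ, j < J → κ + J ^ (2 * j + 3) < Kp →
    var J Kp ((κ + J ^ (2 * j + 3)) * (2 * J) + (2 * j + 1)) = J * κ + j
  digits : ∀ (s V : ℕ) (g : (Fin V → Fin s) → ℝ) (g' : ℕ → ℝ),
    (∀ (I : ℕ) (ω : Fin V → Fin s), I < s ^ V → (∀ v, (ω v : ℕ) = I / s ^ (v : ℕ) % s) →
      g' I = g ω) → ∑ I ∈ range (s ^ V), g' I = ∑ ω, g ω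

/-- The words of all levels are exponentially separated. -/
def StInv : Prop :=
  ∀ {α : Type} (P : Params) (Θ J Kp : ℕ → ℕ) (e : ℕ → α), Des P Θ J Kp →
    Set.InjOn e (Set.Iio (P.s 0)) → ∀ b,
    XInv (fun I : Fin (P.s b) => P.word e b I) (P.h b) (64 / Θ b) (11 / 20 + 1 / (4 * 2 ^ b))

/-- The concatenation of the original slots listed in `L` (period, class). -/
def orig {X α : Type} (a : X → α) (T : X → X) (h J : ℕ) (o : X → ℕ) (L : List (ℕ × ℕ)) (x : X) :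
    List α :=
  (L.map fun q => name a T (T^[o x + q.1 * (2 * J * h) + 2 * q.2 * h] x) h).flatten

/-- What the symbolic argument uses of one level of the tower. -/
structure Band {X α : Type} [MeasurableSpace X] (μ : Measure X) (T : X → X) (a : X → α)
    (h J : ℕ) (θ β : ℝ) (o cls : X → ℕ) (RG : Set X) : Prop where
  mo : Measurable o
  mc : Measurable cls
  mR : MeasurableSet RG
  ole : ∀ x, o x ≤ 2 * J * h
  small : μ.real RGᶜ ≤ β
  copy : ∀ᵐ x ∂μ, x ∈ RG → ∀ u j, u < J ^ (2 * J + 2) → j < J →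
    name a T (T^[o x + (u + J ^ (2 * j + 3)) * (2 * J * h) + (2 * j + 1) * h] x) h =
      name a T (T^[o x + u * (2 * J * h) + 2 * j * h] x) h ∧
    ∀ p, p < h → cls (T^[o x + u * (2 * J * h) + 2 * j * h + p] x) = j ∧
      cls (T^[o x + (u + J ^ (2 * j + 3)) * (2 * J * h) + (2 * j + 1) * h + p] x) = j
  rare : ∀ L : List (ℕ × ℕ), L.Nodup → (∀ q ∈ L, q.1 < J ^ (2 * J + 2) ∧ q.2 < J) →
    ∀ (y : List α) (Ev : ℝ), μ.real {x | x ∈ RG ∧ (ed (orig a T h J o L x) y : ℝ) ≤ Ev} ≤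
      Real.exp (θ * (Ev - L.length * h / 2))

/-- Distance to the next period. -/
def oF (h J : ℕ) (c : ℕ × ℕ) : ℕ := 2 * J * h - c.2 % (2 * J * h)

/-- Class of the slot. -/
def clsF (h J : ℕ) (c : ℕ × ℕ) : ℕ := c.2 / h % (2 * J) / 2

/-- Cells far from the end of the round. -/
def RGF (h J Kp : ℕ) : Set (ℕ × ℕ) := {c | c.2 / (2 * J * h) % Kp + 1 + J ^ (2 * J + 3) ≤ Kp}

/-- Names of slots in a tower system. -/
def StTow : Prop :=
  ∀ {X α : Type} [MeasurableSpace X] (μ : Measure X) (T : X → X) (c : ℕ → X → ℕ × ℕ)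
    (P : Params) (e : ℕ → α), IsTower P μ T c → (∀ k, 1 ≤ P.s k) → (∀ k, 1 ≤ P.m k) →
    ∀ᵐ x ∂μ, ∀ b, ((c b x).1 < P.s b ∧ (c b x).2 < P.h b) ∧
      (∀ n, (c b x).2 + n < P.h b → c b (T^[n] x) = ((c b x).1, (c b x).2 + n)) ∧
      ∀ n ρ i, ρ < P.s b → i < P.m b → (c (b + 1) x).2 + n = ρ * (P.m b * P.h b) + i * P.h b →
        name (fun z => e (c 0 z).1) T (T^[n] x) (P.h b) =
          P.word e b ((P.σ b (c (b + 1) x).1 i + ρ) % P.s b)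

/-- The original slots in terms of digits. -/
def OrigF {X α : Type} [MeasurableSpace X] (μ : Measure X) (T : X → X) (c : ℕ → X → ℕ × ℕ)
    (P : Params) (J Kp : ℕ → ℕ) (e : ℕ → α) (b : ℕ) : Prop :=
  ∀ᵐ x ∂μ, c (b + 1) x ∈ RGF (P.h b) (J b) (Kp b) → ∀ u j, u < J b ^ (2 * J b + 2) → j < J b →
    name (fun z => e (c 0 z).1) T (T^[oF (P.h b) (J b) (c (b + 1) x) + u * (2 * J b * P.h b) +
      2 * j * P.h b] x) (P.h b) =
    P.word e b (((c (b + 1) x).1 / P.s b ^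
      (J b * ((c (b + 1) x).2 / (2 * J b * P.h b) % Kp b + 1 + u) + j) % P.s b +
      (c (b + 1) x).2 / (P.m b * P.h b)) % P.s b)

/-- The structural part of `Band`. -/
def StBandA : Prop :=
  ∀ {X α : Type} [MeasurableSpace X] (μ : Measure X) [IsProbabilityMeasure μ] (T : X → X)
    (c : ℕ → X → ℕ × ℕ) (P : Params) (Θ J Kp : ℕ → ℕ) (e : ℕ → α), Des P Θ J Kp →
    IsTower P μ T c → ∀ b, OrigF μ T c P J Kp e b ∧
      μ.real (c (b + 1) ⁻¹' RGF (P.h b) (J b) (Kp b))ᶜ ≤ 1 / 2 ^ b ∧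
      ∀ᵐ x ∂μ, c (b + 1) x ∈ RGF (P.h b) (J b) (Kp b) → ∀ u j, u < J b ^ (2 * J b + 2) → j < J b →
        name (fun z => e (c 0 z).1) T (T^[oF (P.h b) (J b) (c (b + 1) x) +
            (u + J b ^ (2 * j + 3)) * (2 * J b * P.h b) + (2 * j + 1) * P.h b] x) (P.h b) =
          name (fun z => e (c 0 z).1) T (T^[oF (P.h b) (J b) (c (b + 1) x) +
            u * (2 * J b * P.h b) + 2 * j * P.h b] x) (P.h b) ∧
        ∀ p, p < P.h b →
          clsF (P.h b) (J b) (c (b + 1) (T^[oF (P.h b) (J b) (c (b + 1) x) +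
            u * (2 * J b * P.h b) + 2 * j * P.h b + p] x)) = j ∧
          clsF (P.h b) (J b) (c (b + 1) (T^[oF (P.h b) (J b) (c (b + 1) x) +
            (u + J b ^ (2 * j + 3)) * (2 * J b * P.h b) + (2 * j + 1) * P.h b + p] x)) = j

/-- Every level of the designed tower is a band. -/
def StBand : Prop :=
  ∀ {X α : Type} [MeasurableSpace X] (μ : Measure X) [IsProbabilityMeasure μ] (T : X → X)
    (c : ℕ → X → ℕ × ℕ) (P : Params) (Θ J Kp : ℕ → ℕ) (e : ℕ → α), Des P Θ J Kp →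
    IsTower P μ T c → Set.InjOn e (Set.Iio (P.s 0)) → ∀ b,
    Band μ T (fun z => e (c 0 z).1) (P.h b) (J b) (64 / Θ b) (1 / 2 ^ b)
      (fun x => oF (P.h b) (J b) (c (b + 1) x)) (fun x => clsF (P.h b) (J b) (c (b + 1) x))
      (c (b + 1) ⁻¹' RGF (P.h b) (J b) (Kp b))

/-- The data of a factor map between induced systems. -/
structure Fac {X Y : Type} [MeasurableSpace X] [MeasurableSpace Y] (μ : Measure X) (T : X → X)
    (ν : Measure Y) (S : Y → Y) (A : Set X) (B : Set Y) (φ : Y → X) : Prop where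
  mT : MeasurePreserving T μ μ
  mS : MeasurePreserving S ν ν
  mA : MeasurableSet A
  mB : MeasurableSet B
  pA : 0 < μ A
  pB : 0 < ν B
  mp : MeasurePreserving φ (cond ν B) (cond μ A)
  int : ∀ᵐ y ∂(cond ν B), φ (induced S B y) = induced T A (φ y)

open Classical in
/-- The word emitted at a point: the name of the excursion of the image point. -/
def wd {X Y α : Type} (a : X → α) (T : X → X) (A : Set X) (B : Set Y) (φ : Y → X) (z : Y) :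
    List α :=
  if z ∈ B then name a T (φ z) (retTime T A (φ z)) else []

/-- Number of letters emitted before time `t`. -/
def pi {Y α : Type} (w : Y → List α) (S : Y → Y) (t : ℕ) (y : Y) : ℕ := (emit w S t y).length

/-- Good orbits. -/
def GO {X Y : Type} (T : X → X) (A : Set X) (S : Y → Y) (B : Set Y) (φ : Y → X) (y : Y) : Prop :=
  y ∈ B ∧ ∀ i, (S^[i] y ∈ B → φ (induced S B (S^[i] y)) = induced T A (φ (S^[i] y)) ∧
    1 ≤ retTime T A (φ (S^[i] y))) ∧ ∃ i', i < i' ∧ S^[i'] y ∈ B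

open Classical in
/-- The point of `X` at which the next emission starts. -/
def xpt {X Y : Type} (S : Y → Y) (B : Set Y) (φ : Y → X) (z : Y) : X :=
  φ (if z ∈ B then z else induced S B z)

/-- Points that do not visit `A` at times `1, …, K₁`. -/
def gap {X : Type} (T : X → X) (A : Set X) (K₁ : ℕ) : Set X :=
  {x | ∀ i, 1 ≤ i → i ≤ K₁ → T^[i] x ∉ A}

/-- The error charged to class `j` in the window of positions `[a₀, a₀ + W)`. -/
def Zf {X Y α : Type} (T : X → X) (S : Y → Y) (φ : Y → X) (w : Y → List α) (xp : Y → X)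
    (Gp : Set X) (cls : X → ℕ) (err : Y → ℝ≥0∞) (M W a₀ j : ℕ) (y : Y) : ℝ≥0∞ :=
  ∑ p ∈ Ico a₀ (a₀ + W), (Gp ∩ cls ⁻¹' {j}).indicator 1 (T^[p] (φ y)) +
    ∑ t ∈ range M, if a₀ ≤ pi w S t y ∧ pi w S t y < a₀ + W ∧ cls (xp (S^[t] y)) = j
      then err (S^[t] y) else 0

/-- The string read along the listed time intervals. -/
def rd {Y α : Type} (𝒲 : Y → List α) (S : Y → Y) (i : List (ℕ × ℕ)) (w : Y) : List α :=
  (i.map fun q => emit 𝒲 S (q.2 - q.1) (S^[q.1] w)).flatten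

/-- Consequences of `Fac`. -/
structure FacC {X Y α : Type} [MeasurableSpace X] [MeasurableSpace Y] (μ : Measure X) (T : X → X)
    (ν : Measure Y) (S : Y → Y) (A : Set X) (B : Set Y) (φ : Y → X) (a : X → α) : Prop where
  mw : Measurable (wd a T A B φ)
  iw : ∫⁻ y, ((wd a T A B φ y).length : ℝ≥0∞) ∂ν ≤ (μ A)⁻¹
  go : ∀ᵐ y ∂ν, y ∈ B → GO T A S B φ y
  tr : ∀ U, MeasurableSet U → ν (B ∩ φ ⁻¹' U) ≤ (μ A)⁻¹ * μ U
  ae : ∀ p : X → Prop, (∀ᵐ x ∂μ, p x) → ∀ᵐ y ∂ν, y ∈ B → p (φ y)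
  mx : Measurable (xpt S B φ)
  mpi : ∀ t, Measurable (pi (wd a T A B φ) S t)
  lo : ∀ M L : ℕ, (M : ℝ≥0∞) * ν {y | y ∈ B ∧ pi (wd a T A B φ) S M y < L} ≤ L
  hi : ∀ M L : ℕ, (L : ℝ≥0∞) * ν {y | L ≤ pi (wd a T A B φ) S M y} ≤ M * (μ A)⁻¹
  mg : ∀ K₁, MeasurableSet (gap T A K₁)
  gp : Ergodic T μ → ∀ ε : ℝ≥0∞, 0 < ε → ∃ K₁, μ (gap T A K₁) ≤ ε
  mn : ∀ (o : X → ℕ) (h J : ℕ) (L : List (ℕ × ℕ)), Measurable o → Measurable (orig a T h J o L)
  mrd : ∀ (𝒲 : Y → List α) (i : List (ℕ × ℕ)), Measurable 𝒲 → Measurable (rd 𝒲 S i)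

/-- Basic consequences of a factor map. -/
def StFac : Prop :=
  ∀ {X Y α : Type} [MeasurableSpace X] [MeasurableSpace Y] [Countable α] (μ : Measure X)
    [IsProbabilityMeasure μ] (T : X → X) (ν : Measure Y) [IsProbabilityMeasure ν] (S : Y → Y)
    (A : Set X) (B : Set Y) (φ : Y → X) (a : X → ℕ) (e : ℕ → α), Fac μ T ν S A B φ →
    Measurable a → FacC μ T ν S A B φ fun z => e (a z)

/-- Mass transport bound for the error. -/
def StZ : Prop :=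
  ∀ {X Y α : Type} [MeasurableSpace X] [MeasurableSpace Y] (μ : Measure X)
    [IsProbabilityMeasure μ] (T : X → X) (ν : Measure Y) [IsProbabilityMeasure ν] (S : Y → Y)
    (A : Set X) (B : Set Y) (φ : Y → X) (a : X → α), Fac μ T ν S A B φ → FacC μ T ν S A B φ a →
    ∀ (Gp : Set X) (cls : X → ℕ) (err : Y → ℝ≥0∞) (M W a₀ j : ℕ), MeasurableSet Gp →
    Measurable cls → Measurable err →
    Measurable (Zf T S φ (wd a T A B φ) (xpt S B φ) Gp cls err M W a₀ j) ∧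
    ∫⁻ y in B, Zf T S φ (wd a T A B φ) (xpt S B φ) Gp cls err M W a₀ j y ∂ν ≤
      W * ((μ A)⁻¹ * μ (Gp ∩ cls ⁻¹' {j}) + ∫⁻ z in {z | cls (xpt S B φ z) = j}, err z ∂ν)

/-- Reading slots along a shadowing orbit. -/
def StSlot : Prop :=
  ∀ {X Y α : Type} [PseudoMetricSpace Y] (a : X → α) (T : X → X) (A : Set X) (S : Y → Y)
    (B : Set Y) (φ : Y → X) (𝒲 : Y → List α) (err : Y → ℝ≥0∞) (r : ℝ) (cls : X → ℕ) (y : Y)
    (h K₁ W M₀ M : ℕ) (L : List (ℕ × ℕ)) (pos a₀ : ℕ × ℕ → ℕ), GO T A S B φ y →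
    (∀ z z', dist z z' ≤ r → ((ed (wd a T A B φ z) (𝒲 z') : ℕ) : ℝ≥0∞) ≤ err z) →
    (∀ q ∈ L, a₀ q ≤ pos q ∧ pos q + h ≤ a₀ q + W ∧ pos q + h ≤ pi (wd a T A B φ) S M y ∧
      (∀ t, pos q ≤ pi (wd a T A B φ) S t y → M₀ ≤ t) ∧
      ∀ p, p < h → cls (T^[pos q + p] (φ y)) = q.2) →
    ∃ i : List (ℕ × ℕ), i.length = L.length ∧ (∀ c ∈ i, c.1 ≤ M ∧ c.2 ≤ M) ∧
      ∀ w', (∀ t, M₀ ≤ t → t < M → dist (S^[t] w') (S^[t] y) ≤ r) →
        ((ed (L.map fun q => name a T (T^[pos q] (φ y)) h).flatten (rd 𝒲 S i w') : ℕ) : ℝ≥0∞) ≤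
          (L.length * (2 * K₁) : ℕ) + (L.map fun q =>
            Zf T S φ (wd a T A B φ) (xpt S B φ) (gap T A K₁) cls err M W (a₀ q) q.2 y).sum

/-- Rare strings cannot be read from independent points. -/
def StRare : Prop :=
  ∀ {Y α ι₁ ι₂ : Type} [MeasurableSpace Y] [Countable α] [Fintype ι₁] [Fintype ι₂]
    (ν : Measure Y) [IsProbabilityMeasure ν] (p : ι₁ → Y → List α) (q : ι₂ → Y → List α)
    (O : Y → List α) (Gd : Set Y) (Ev π : ℝ), (∀ i, Measurable (p i)) → (∀ i, Measurable (q i)) →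
    Measurable O → MeasurableSet Gd → 0 < π →
    (∀ s, ν.real {y | y ∈ Gd ∧ (ed (O y) s : ℝ) ≤ 3 * Ev} ≤ π ^ 2) →
    ∃ 𝓔 : Set (Y × Y), MeasurableSet 𝓔 ∧
      (ν.prod ν).real 𝓔 ≤ Fintype.card ι₁ * Fintype.card ι₂ * π ∧
      ν.real {y | y ∈ Gd ∧ ∃ i i' w w₂, (ed (O y) (p i w) : ℝ) ≤ Ev ∧
        (ed (O y) (q i' w₂) : ℝ) ≤ Ev ∧ (w, w₂) ∉ 𝓔} ≤ Fintype.card ι₁ * π

/-- The scales. -/
def grid (h J i : ℕ) : ℕ := 2 * J * h * J ^ (2 * i + 2)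

/-- The string `u` can be read, up to `Ev`, from every orbit shadowing `y` on `[m₂, m₃)`. -/
def Reads {Y α : Type} [PseudoMetricSpace Y] (S : Y → Y) (𝒲 : Y → List α) (r : ℝ)
    (m₂ m₃ Tm len : ℕ) (Ev : ℝ) (u : List α) (y : Y) : Prop :=
  ∃ i : List (ℕ × ℕ), i.length = len ∧ (∀ c ∈ i, c.1 ≤ Tm ∧ c.2 ≤ Tm) ∧
    ∀ w, (∀ t, m₂ ≤ t → t < m₃ → dist (S^[t] w) (S^[t] y) ≤ r) → (ed u (rd 𝒲 S i w) : ℝ) ≤ Ev

/-- The list of slots used for the classes `𝒥` at scale `e'`. -/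
def slots (J C e' : ℕ) (𝒥 : Finset ℕ) : List (ℕ × ℕ) :=
  (range (J ^ (2 * e' + 2) / C) ×ˢ 𝒥).toList

/-- For most points the original slots can be read twice, in two separated windows. -/
def Twice {X Y α : Type} [MeasurableSpace X] [MeasurableSpace Y] [PseudoMetricSpace Y]
    (μ : Measure X) (T : X → X) (ν : Measure Y) (S : Y → Y) (B : Set Y) (φ : Y → X) (a : X → α) :
    Prop :=
  ∀ η κ : ℝ, 0 < η → 0 < κ → ∃ (r : ℝ) (𝒲 : Y → List α) (C : ℕ) (β₀ : ℝ), 0 < r ∧ Measurable 𝒲 ∧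
    1 ≤ C ∧ 0 < β₀ ∧ ∀ (h J : ℕ) (θ β : ℝ) (o cls : X → ℕ) (RG : Set X),
    Band μ T a h J θ β o cls RG → β ≤ β₀ → C ≤ J → C ≤ h →
    ∃ er : ℕ → ℝ, (∀ j, 0 ≤ er j) ∧ ∑ j ∈ range J, er j ≤ J ∧
      ∀ (e' e : ℕ) (𝒥 : Finset ℕ), e ≤ J → 𝒥.Nonempty → (∀ j ∈ 𝒥, e' ≤ j ∧ j < e) →
        ∑ j ∈ 𝒥, er j ≤ κ * 𝒥.card →
        ν.real (B \ {y | φ y ∈ RG ∧
          Reads S 𝒲 r 0 (grid h J e' / 4) (grid h J J) (slots J C e' 𝒥).length
            ((slots J C e' 𝒥).length * h / 16) (orig a T h J o (slots J C e' 𝒥) (φ y)) y ∧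
          Reads S 𝒲 r (grid h J e') (grid h J e / 4) (grid h J J) (slots J C e' 𝒥).length
            ((slots J C e' 𝒥).length * h / 16) (orig a T h J o (slots J C e' 𝒥) (φ y)) y}) ≤ η

/-- The symbolic conclusion, for the points of `M₀` and windows cut by `c`. -/
def Sym {X Y α : Type} [MeasurableSpace X] [MeasurableSpace Y] [PseudoMetricSpace Y]
    (μ : Measure X) (T : X → X) (a : X → α) (ν : Measure Y) (S : Y → Y) (M₀ : Set Y) (c : ℕ) :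
    Prop :=
  ∀ η κ : ℝ, 0 < η → 0 < κ → ∃ (r : ℝ) (C : ℕ) (β₀ : ℝ), 0 < r ∧ 1 ≤ C ∧ 0 < β₀ ∧
    ∀ (h J : ℕ) (θ β : ℝ) (o cls : X → ℕ) (RG : Set X), Band μ T a h J θ β o cls RG → β ≤ β₀ →
    C ≤ J → C ≤ h → C * Real.log (grid h J J + 1) ≤ θ * h →
    ∃ er : ℕ → ℝ, (∀ j, 0 ≤ er j) ∧ ∑ j ∈ range J, er j ≤ J ∧
      ∀ (e' e : ℕ) (𝒥 : Finset ℕ), e ≤ J → 𝒥.Nonempty → (∀ j ∈ 𝒥, e' ≤ j ∧ j < e) →
        ∑ j ∈ 𝒥, er j ≤ κ * 𝒥.card →
        ∃ 𝓔 : Set (Y × Y), MeasurableSet 𝓔 ∧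
          (ν.prod ν).real 𝓔 ≤ Real.exp (-(θ * grid h J e' * 𝒥.card / (C * J))) ∧
          ν.real (M₀ \ {y | Shad S r (grid h J e' / c) (grid h J e') (grid h J e / c) 𝓔 y}) ≤ η

/-- Reading twice. -/
def StTwice : Prop :=
  ∀ {X Y α : Type} [MeasurableSpace X] [MetricSpace Y] [CompactSpace Y] [Nonempty Y]
    [MeasurableSpace Y] [BorelSpace Y] [Fintype α] (μ : Measure X) [IsProbabilityMeasure μ]
    (T : X → X) (ν : Measure Y) [IsProbabilityMeasure ν] (S : Y → Y) (A : Set X) (B : Set Y)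
    (φ : Y → X) (a : X → α), Fac μ T ν S A B φ → FacC μ T ν S A B φ a → Ergodic T μ →
    Twice μ T ν S B φ a

/-- From reading twice to a rare set of pairs. -/
def StSym4 : Prop :=
  ∀ {X Y α : Type} [MeasurableSpace X] [PseudoMetricSpace Y] [MeasurableSpace Y] [Countable α]
    (μ : Measure X) [IsProbabilityMeasure μ] (T : X → X) (ν : Measure Y) [IsProbabilityMeasure ν]
    (S : Y → Y) (A : Set X) (B : Set Y) (φ : Y → X) (a : X → α), Fac μ T ν S A B φ →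
    FacC μ T ν S A B φ a → Twice μ T ν S B φ a → Sym μ T a ν S B 4

/-- From `B` to the invariant set of points visiting `B` infinitely often. -/
def StSym2 : Prop :=
  ∀ {X Y α : Type} [MeasurableSpace X] [PseudoMetricSpace Y] [MeasurableSpace Y] (μ : Measure X)
    (T : X → X) (a : X → α) (ν : Measure Y) [IsProbabilityMeasure ν] (S : Y → Y) (B : Set Y),
    MeasurePreserving S ν ν → MeasurableSet B → 0 < ν B → Sym μ T a ν S B 4 →
    ∃ M₀ : Set Y, MeasurableSet M₀ ∧ S ⁻¹' M₀ = M₀ ∧ 0 < ν.real M₀ ∧ Sym μ T a ν S M₀ 2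

end Pool.Agent.Lib.MP_1df8f0_an.K
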